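import Mathlib.Data.Fin.Basic
import Mathlib.Tactic

/-! The number of variables, as an ambient parameter. -/

namespace Pool.Agent.Lib.MP_0ba2dd_ag.N

/-- The number of variables. -/
class Dim where
  n : ℕ

/-- The number of variables. -/
abbrev nv [Dim] : ℕ := Dim.n

/-- There are at least five variables. -/
class Big [Dim] : Prop where
  h : 5 ≤ nv

theorem five_le [Dim] [Big] : 5 ≤ nv := Big.h

instance [Dim] [Big] : NeZero nv := ⟨by have := five_le; omega⟩

theorem val_zero' [Dim] [Big] : (0 : Fin nv).val = 0 := rfl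

theorem val_one' [Dim] [Big] : (1 : Fin nv).val = 1 :=
  Nat.mod_eq_of_lt (show 1 < nv by have := five_le; omega)

theorem val_two' [Dim] [Big] : (2 : Fin nv).val = 2 :=
  Nat.mod_eq_of_lt (show 2 < nv by have := five_le; omega)

theorem fin01 [Dim] [Big] : (0 : Fin nv) ≠ 1 :=
  Fin.ne_of_val_ne (by rw [val_zero', val_one']; omega)

theorem fin02 [Dim] [Big] : (0 : Fin nv) ≠ 2 :=
  Fin.ne_of_val_ne (by rw [val_zero', val_two']; omega)

theorem fin12 [Dim] [Big] : (1 : Fin nv) ≠ 2 :=
  Fin.ne_of_val_ne (by rw [val_one', val_two']; omega)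

end Pool.Agent.Lib.MP_0ba2dd_ag.N
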