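import Mathlib.RingTheory.MvPolynomial.WeightedHomogeneous
import Mathlib.RingTheory.MvPolynomial.Homogeneous
import Mathlib.RingTheory.MvPolynomial.EulerIdentity
import Mathlib.Algebra.MvPolynomial.PDeriv
import Mathlib.Algebra.MvPolynomial.Division
import Mathlib.Algebra.MvPolynomial.NoZeroDivisors
import Mathlib.Data.Matrix.ColumnRowPartitioned
import Mathlib.LinearAlgebra.Matrix.Kronecker
import Mathlib.LinearAlgebra.Matrix.NonsingularInverse
import Mathlib.LinearAlgebra.Matrix.Trace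
import Mathlib.Algebra.Ring.NegOnePow
import Mathlib.FieldTheory.IsAlgClosed.Basic
import Mathlib.Data.ZMod.Basic
import Mathlib.Tactic

/-! Graded matrix factorisations as homogeneous matrices: basic definitions and lemmas. -/

namespace Pool.Agent.Lib.MP_0ba2dd_ag.N

open MvPolynomial Matrix

section Defs

variable {k : Type*} [Field k] {σ Γ : Type*} [AddCommGroup Γ]

/-- `M` is a homogeneous map of degree `γ` from the free module with generator degrees `ν`
to the free module with generator degrees `μ` (columns = source generators). -/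
def Hg (w : σ → Γ) {ι κ : Type*} (ν : ι → Γ) (μ : κ → Γ) (γ : Γ)
    (M : Matrix κ ι (MvPolynomial σ k)) : Prop :=
  ∀ a b, (M a b).IsWeightedHomogeneous w (ν b + γ - μ a)

/-- `(ν, D)` is a graded matrix factorisation of `W`, with `D` of degree `c`. -/
def IsMF (w : σ → Γ) (c : Γ) (W : MvPolynomial σ k) {ι : Type*} [Fintype ι] [DecidableEq ι]
    (ν : ι → Γ) (D : Matrix ι ι (MvPolynomial σ k)) : Prop :=
  Hg w ν ν c D ∧ D * D = W • (1 : Matrix ι ι (MvPolynomial σ k))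

/-- `φ` commutes (`s = 1`) or anticommutes (`s = -1`) with the differentials. -/
def Closed {R ι κ : Type*} [CommRing R] [Fintype ι] [Fintype κ] (s : ℤˣ) (D : Matrix ι ι R)
    (D' : Matrix κ κ R) (φ : Matrix κ ι R) : Prop :=
  D' * φ = s • (φ * D)

/-- `φ` is null-homotopic through a homogeneous homotopy. -/
def Exact (w : σ → Γ) (c γ : Γ) {ι κ : Type*} [Fintype ι] [Fintype κ] (ν : ι → Γ)
    (D : Matrix ι ι (MvPolynomial σ k)) (μ : κ → Γ) (D' : Matrix κ κ (MvPolynomial σ k))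
    (s : ℤˣ) (φ : Matrix κ ι (MvPolynomial σ k)) : Prop :=
  ∃ h : Matrix κ ι (MvPolynomial σ k), Hg w ν μ (γ - c) h ∧ φ = D' * h + s • (h * D)

/-- The Hom complex from `(ν, D)` to `(μ, D')` is exact in degree `γ` (both signs). -/
def Acyc (w : σ → Γ) (c γ : Γ) {ι κ : Type*} [Fintype ι] [Fintype κ] (ν : ι → Γ)
    (D : Matrix ι ι (MvPolynomial σ k)) (μ : κ → Γ) (D' : Matrix κ κ (MvPolynomial σ k)) : Prop :=
  ∀ (s : ℤˣ) (φ : Matrix κ ι (MvPolynomial σ k)),
    Hg w ν μ γ φ → Closed s D D' φ → Exact w c γ ν D μ D' s φ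

end Defs

section HgLemmas

variable {k : Type*} [Field k] {σ Γ : Type*} [AddCommGroup Γ] {w : σ → Γ}
  {ι κ ρ : Type*} {ν : ι → Γ} {μ : κ → Γ} {l : ρ → Γ} {γ γ' γ'' : Γ}

theorem IsWH.cast {p : MvPolynomial σ k} {m n : Γ} (h : p.IsWeightedHomogeneous w m)
    (e : m = n) : p.IsWeightedHomogeneous w n := e ▸ h

theorem Hg.cast {M : Matrix κ ι (MvPolynomial σ k)} (h : Hg w ν μ γ M) (e : γ = γ') :
    Hg w ν μ γ' M := e ▸ h

/-- Change of generator degrees and map degree at the same time. -/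
theorem Hg.of_eq {M : Matrix κ ι (MvPolynomial σ k)} (h : Hg w ν μ γ M) {ν' : ι → Γ}
    {μ' : κ → Γ} (e : ∀ a b, ν b + γ - μ a = ν' b + γ' - μ' a) : Hg w ν' μ' γ' M :=
  fun a b => IsWH.cast (h a b) (e a b)

theorem Hg.zero : Hg (k := k) w ν μ γ 0 := fun _ _ => isWeightedHomogeneous_zero _ _ _

theorem Hg.add {M M' : Matrix κ ι (MvPolynomial σ k)} (h : Hg w ν μ γ M) (h' : Hg w ν μ γ M') :
    Hg w ν μ γ (M + M') := fun a b => (h a b).add (h' a b)

theorem Hg.neg {M : Matrix κ ι (MvPolynomial σ k)} (h : Hg w ν μ γ M) :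
    Hg w ν μ γ (-M) := fun a b => (h a b).neg

theorem Hg.sub {M M' : Matrix κ ι (MvPolynomial σ k)} (h : Hg w ν μ γ M) (h' : Hg w ν μ γ M') :
    Hg w ν μ γ (M - M') := fun a b => (h a b).sub (h' a b)

theorem Hg.units_smul {M : Matrix κ ι (MvPolynomial σ k)} (h : Hg w ν μ γ M) (s : ℤˣ) :
    Hg w ν μ γ (s • M) := by
  rcases Int.units_eq_one_or s with rfl | rfl
  · simpa using h
  · simpa using h.neg

theorem Hg.k_smul {M : Matrix κ ι (MvPolynomial σ k)} (h : Hg w ν μ γ M) (r : k) :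
    Hg w ν μ γ (r • M) := fun a b => by
  have := (h a b).C_mul r
  simpa [smul_eq_C_mul] using this

theorem Hg.sum {α : Type*} (t : Finset α) {M : α → Matrix κ ι (MvPolynomial σ k)}
    (h : ∀ i ∈ t, Hg w ν μ γ (M i)) : Hg w ν μ γ (∑ i ∈ t, M i) := fun a b => by
  rw [Matrix.sum_apply]
  exact IsWeightedHomogeneous.sum _ _ _ (fun i hi => h i hi a b)

theorem Hg.smul {M : Matrix κ ι (MvPolynomial σ k)} (h : Hg w ν μ γ M) {p : MvPolynomial σ k}
    (hp : p.IsWeightedHomogeneous w γ') (e : γ' + γ = γ'') : Hg w ν μ γ'' (p • M) := fun a b => by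
  have := hp.mul (h a b)
  refine IsWH.cast this ?_
  rw [← e]; abel

theorem Hg.mul [Fintype κ] {M : Matrix κ ι (MvPolynomial σ k)} {M' : Matrix ρ κ (MvPolynomial σ k)}
    (h' : Hg w μ l γ' M') (h : Hg w ν μ γ M) (e : γ' + γ = γ'') : Hg w ν l γ'' (M' * M) :=
  fun a b => by
    rw [Matrix.mul_apply]
    refine IsWeightedHomogeneous.sum _ _ _ (fun j _ => IsWH.cast ((h' a j).mul (h j b)) ?_)
    rw [← e]; abel

theorem Hg.one [DecidableEq ι] : Hg (k := k) w ν ν 0 1 := fun a b => by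
  by_cases h : a = b
  · subst h
    simpa using isWeightedHomogeneous_one k w
  · simpa [Matrix.one_apply, h] using isWeightedHomogeneous_zero k w _

theorem Hg.smul_one [DecidableEq ι] {p : MvPolynomial σ k} (hp : p.IsWeightedHomogeneous w γ) :
    Hg w ν ν γ (p • (1 : Matrix ι ι (MvPolynomial σ k))) := Hg.one.smul hp (add_zero _)

theorem Hg.submatrix {ι' κ' : Type*} {M : Matrix κ ι (MvPolynomial σ k)} (h : Hg w ν μ γ M)
    (r : κ' → κ) (c : ι' → ι) : Hg w (ν ∘ c) (μ ∘ r) γ (M.submatrix r c) :=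
  fun a b => h (r a) (c b)

theorem Hg.fromBlocks {ι' κ' : Type*} {ν' : ι' → Γ} {μ' : κ' → Γ}
    {A : Matrix κ ι (MvPolynomial σ k)} {B : Matrix κ ι' (MvPolynomial σ k)}
    {C : Matrix κ' ι (MvPolynomial σ k)} {D : Matrix κ' ι' (MvPolynomial σ k)}
    (hA : Hg w ν μ γ A) (hB : Hg w ν' μ γ B) (hC : Hg w ν μ' γ C) (hD : Hg w ν' μ' γ D) :
    Hg w (Sum.elim ν ν') (Sum.elim μ μ') γ (Matrix.fromBlocks A B C D) := by
  rintro (a | a) (b | b)
  · exact hA a b
  · exact hB a b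
  · exact hC a b
  · exact hD a b

theorem Hg.fromRows {κ' : Type*} {μ' : κ' → Γ}
    {A : Matrix κ ι (MvPolynomial σ k)} {C : Matrix κ' ι (MvPolynomial σ k)}
    (hA : Hg w ν μ γ A) (hC : Hg w ν μ' γ C) :
    Hg w ν (Sum.elim μ μ') γ (Matrix.fromRows A C) := by
  rintro (a | a) b
  · exact hA a b
  · exact hC a b

theorem Hg.fromCols {ι' : Type*} {ν' : ι' → Γ}
    {A : Matrix κ ι (MvPolynomial σ k)} {B : Matrix κ ι' (MvPolynomial σ k)}
    (hA : Hg w ν μ γ A) (hB : Hg w ν' μ γ B) :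
    Hg w (Sum.elim ν ν') μ γ (Matrix.fromCols A B) := by
  rintro a (b | b)
  · exact hA a b
  · exact hB a b

theorem Hg.toRows₁ {κ' : Type*} {μ' : κ' → Γ} {A : Matrix (κ ⊕ κ') ι (MvPolynomial σ k)}
    (h : Hg w ν (Sum.elim μ μ') γ A) : Hg w ν μ γ A.toRows₁ := fun a b => h (Sum.inl a) b

theorem Hg.toRows₂ {κ' : Type*} {μ' : κ' → Γ} {A : Matrix (κ ⊕ κ') ι (MvPolynomial σ k)}
    (h : Hg w ν (Sum.elim μ μ') γ A) : Hg w ν μ' γ A.toRows₂ := fun a b => h (Sum.inr a) b

theorem Hg.toCols₁ {ι' : Type*} {ν' : ι' → Γ} {A : Matrix κ (ι ⊕ ι') (MvPolynomial σ k)}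
    (h : Hg w (Sum.elim ν ν') μ γ A) : Hg w ν μ γ A.toCols₁ := fun a b => h a (Sum.inl b)

theorem Hg.toCols₂ {ι' : Type*} {ν' : ι' → Γ} {A : Matrix κ (ι ⊕ ι') (MvPolynomial σ k)}
    (h : Hg w (Sum.elim ν ν') μ γ A) : Hg w ν' μ γ A.toCols₂ := fun a b => h a (Sum.inr b)

/-- An algebra map sending each variable to a homogeneous element of the corresponding degree
(through an additive map `e` of grading groups) preserves homogeneity. -/
theorem IsWH.aeval {τ Γ' : Type*} [AddCommGroup Γ'] {w' : τ → Γ'} (e : Γ →+ Γ')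
    (g : σ → MvPolynomial τ k) (hg : ∀ i, (g i).IsWeightedHomogeneous w' (e (w i)))
    {p : MvPolynomial σ k} {m : Γ} (hp : p.IsWeightedHomogeneous w m) :
    (aeval g p).IsWeightedHomogeneous w' (e m) := by
  classical
  rw [p.as_sum, map_sum]
  refine IsWeightedHomogeneous.sum _ _ _ (fun d hd => ?_)
  rw [aeval_monomial, Finsupp.prod]
  have h1 := IsWeightedHomogeneous.prod d.support (fun i => g i ^ d i)
    (fun i => d i • e (w i)) (w := w') (fun i _ => (hg i).pow (d i))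
  have h2 : (∑ i ∈ d.support, d i • e (w i)) = e m := by
    rw [← hp (mem_support_iff.mp hd), Finsupp.weight_apply, Finsupp.sum, map_sum]
    simp
  rw [h2] at h1
  simpa [algebraMap_eq] using h1.C_mul (coeff d p)

theorem Hg.map_aeval {τ Γ' : Type*} [AddCommGroup Γ'] {w' : τ → Γ'} (e : Γ →+ Γ')
    (g : σ → MvPolynomial τ k) (hg : ∀ i, (g i).IsWeightedHomogeneous w' (e (w i)))
    {M : Matrix κ ι (MvPolynomial σ k)} (h : Hg w ν μ γ M) :
    Hg w' (e ∘ ν) (e ∘ μ) (e γ) (M.map (aeval g)) := fun a b => by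
  have := IsWH.aeval e g hg (h a b)
  simpa using this

/-- Same grading group version of `Hg.map_aeval`. -/
theorem Hg.map_aeval' {τ : Type*} {w' : τ → Γ}
    (g : σ → MvPolynomial τ k) (hg : ∀ i, (g i).IsWeightedHomogeneous w' (w i))
    {M : Matrix κ ι (MvPolynomial σ k)} (h : Hg w ν μ γ M) :
    Hg w' ν μ γ (M.map (aeval g)) :=
  Hg.map_aeval (AddMonoidHom.id Γ) g hg h

/-- Coarsening the grading along an additive map. -/
theorem IsWH.coarsen {Γ' : Type*} [AddCommGroup Γ'] (e : Γ →+ Γ') {p : MvPolynomial σ k} {m : Γ}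
    (hp : p.IsWeightedHomogeneous w m) : p.IsWeightedHomogeneous (e ∘ w) (e m) := by
  intro d hd
  rw [← hp hd, Finsupp.weight_apply, Finsupp.weight_apply, Finsupp.sum, Finsupp.sum, map_sum]
  simp

theorem Hg.coarsen {Γ' : Type*} [AddCommGroup Γ'] (e : Γ →+ Γ')
    {M : Matrix κ ι (MvPolynomial σ k)} (h : Hg w ν μ γ M) :
    Hg (e ∘ w) (e ∘ ν) (e ∘ μ) (e γ) M := fun a b => by
  have := IsWH.coarsen e (h a b)
  simpa using this

/-- If all variables have `N`-weight `2`, the weight of a monomial has `N`-part twice its degree. -/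
theorem N_weight (N : Γ →+ ℤ) (hN : ∀ i, N (w i) = 2) (d : σ →₀ ℕ) :
    N (Finsupp.weight w d) = 2 * (d.degree : ℤ) := by
  rw [Finsupp.weight_apply, Finsupp.sum, map_sum, Finsupp.degree_apply]
  simp only [map_nsmul, hN, nsmul_eq_mul]
  push_cast
  rw [Finset.mul_sum]
  exact Finset.sum_congr rfl (fun _ _ => by ring)

theorem IsWH.eq_zero_of_neg (N : Γ →+ ℤ) (hN : ∀ i, N (w i) = 2) {p : MvPolynomial σ k} {m : Γ}
    (hp : p.IsWeightedHomogeneous w m) (hm : N m < 0) : p = 0 := by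
  by_contra h
  obtain ⟨d, hd⟩ := ne_zero_iff.mp h
  have := N_weight N hN d
  rw [hp hd] at this
  omega

theorem IsWH.eq_zero_of_odd (N : Γ →+ ℤ) (hN : ∀ i, N (w i) = 2) {p : MvPolynomial σ k} {m : Γ}
    (hp : p.IsWeightedHomogeneous w m) (hm : Odd (N m)) : p = 0 := by
  by_contra h
  obtain ⟨d, hd⟩ := ne_zero_iff.mp h
  have := N_weight N hN d
  rw [hp hd] at this
  obtain ⟨r, hr⟩ := hm
  omega

/-- A homogeneous polynomial of `N`-degree `≤ 1` is constant. -/
theorem IsWH.eq_C (N : Γ →+ ℤ) (hN : ∀ i, N (w i) = 2) {p : MvPolynomial σ k} {m : Γ}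
    (hp : p.IsWeightedHomogeneous w m) (hm : N m ≤ 1) : p = C (constantCoeff p) := by
  classical
  ext d
  by_cases hd : d = 0
  · subst hd; simp [constantCoeff_eq]
  · rw [coeff_C, if_neg (Ne.symm hd)]
    by_contra h
    have := N_weight N hN d
    rw [hp h] at this
    have h0 : d.degree ≠ 0 := fun h0 => hd ((Finsupp.degree_eq_zero_iff d).mp h0)
    omega

/-- A homogeneous polynomial of nonzero degree has no constant term. -/
theorem IsWH.constantCoeff_eq_zero {p : MvPolynomial σ k} {m : Γ}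
    (hp : p.IsWeightedHomogeneous w m) (hm : m ≠ 0) : constantCoeff p = 0 := by
  by_contra h
  have := hp (d := 0) (by simpa [constantCoeff_eq] using h)
  exact hm (by simpa using this.symm)

/-- Homogeneous maps of sufficiently negative degree vanish. -/
theorem Hg.exists_bound [Finite ι] [Finite κ] (N : Γ →+ ℤ) (hN : ∀ i, N (w i) = 2)
    (ν : ι → Γ) (μ : κ → Γ) :
    ∃ B : ℤ, ∀ (γ : Γ) (M : Matrix κ ι (MvPolynomial σ k)), N γ < B → Hg w ν μ γ M → M = 0 := by
  obtain ⟨B, hB⟩ := (Set.finite_range (fun x : κ × ι => N (μ x.1) - N (ν x.2))).bddBelow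
  refine ⟨B, fun γ M hγ h => ?_⟩
  ext a b : 1
  refine IsWH.eq_zero_of_neg N hN (h a b) ?_
  have := hB (Set.mem_range_self (a, b))
  simp only [map_sub, map_add] at this ⊢
  omega

/-- Homogeneous component of a product with a homogeneous left factor. -/
theorem comp_mul_left {p q : MvPolynomial σ k} {m n : Γ} (hp : p.IsWeightedHomogeneous w m) :
    weightedHomogeneousComponent w (m + n) (p * q) = p * weightedHomogeneousComponent w n q := by
  classical
  let _ := weightedGradedAlgebra k w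
  have := DirectSum.coe_decompose_mul_add_of_left_mem (weightedHomogeneousSubmodule k w)
    (i := m) (j := n) (a := p) (b := q) hp
  rw [← weightedDecomposition.decompose'_apply, ← weightedDecomposition.decompose'_apply]
  exact this

/-- Division by a homogeneous nonzero element preserves homogeneity. -/
theorem IsWH.of_mul {z p : MvPolynomial σ k} {m n : Γ} (hz : z.IsWeightedHomogeneous w m)
    (hz0 : z ≠ 0) (h : (z * p).IsWeightedHomogeneous w (m + n)) : p.IsWeightedHomogeneous w n := by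
  have h1 := comp_mul_left (n := n) (q := p) hz
  rw [h.weightedHomogeneousComponent_same] at h1
  rw [mul_left_cancel₀ hz0 h1]
  exact weightedHomogeneousComponent_isWeightedHomogeneous _ _

theorem Hg.of_smul {z : MvPolynomial σ k} (hz : z.IsWeightedHomogeneous w γ') (hz0 : z ≠ 0)
    {M : Matrix κ ι (MvPolynomial σ k)} (h : Hg w ν μ γ'' (z • M)) (e : γ' + γ = γ'') :
    Hg w ν μ γ M := fun a b => by
  refine IsWH.of_mul hz hz0 (IsWH.cast (h a b) ?_)
  rw [← e]; abel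

/-- Entrywise homogeneous part of degree `γ`. -/
noncomputable def prj (w : σ → Γ) (ν : ι → Γ) (μ : κ → Γ) (γ : Γ)
    (M : Matrix κ ι (MvPolynomial σ k)) : Matrix κ ι (MvPolynomial σ k) :=
  Matrix.of fun a b => weightedHomogeneousComponent w (ν b + γ - μ a) (M a b)

theorem hg_prj (M : Matrix κ ι (MvPolynomial σ k)) : Hg w ν μ γ (prj w ν μ γ M) :=
  fun _ _ => weightedHomogeneousComponent_isWeightedHomogeneous _ _

theorem Hg.prj_eq {M : Matrix κ ι (MvPolynomial σ k)} (h : Hg w ν μ γ M) : prj w ν μ γ M = M := by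
  ext a b : 1
  exact (h a b).weightedHomogeneousComponent_same

theorem prj_add (M M' : Matrix κ ι (MvPolynomial σ k)) :
    prj w ν μ γ (M + M') = prj w ν μ γ M + prj w ν μ γ M' := by
  ext a b : 1; simp [prj]

theorem prj_units_smul (s : ℤˣ) (M : Matrix κ ι (MvPolynomial σ k)) :
    prj w ν μ γ (s • M) = s • prj w ν μ γ M := by
  rcases Int.units_eq_one_or s with rfl | rfl
  · simp
  · ext a b : 1; simp [prj]

theorem prj_mul_left [Fintype κ] {M : Matrix κ ι (MvPolynomial σ k)}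
    {M' : Matrix ρ κ (MvPolynomial σ k)} (h' : Hg w μ l γ' M') (e : γ' + γ = γ'') :
    prj w ν l γ'' (M' * M) = M' * prj w ν μ γ M := by
  ext a b : 1
  simp only [prj, Matrix.of_apply, Matrix.mul_apply, map_sum]
  refine Finset.sum_congr rfl (fun j _ => ?_)
  rw [← comp_mul_left (h' a j)]
  congr 2
  rw [← e]; abel

theorem prj_mul_right [Fintype κ] {M : Matrix κ ι (MvPolynomial σ k)}
    {M' : Matrix ρ κ (MvPolynomial σ k)} (h : Hg w ν μ γ M) (e : γ' + γ = γ'') :
    prj w ν l γ'' (M' * M) = prj w μ l γ' M' * M := by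
  ext a b : 1
  simp only [prj, Matrix.of_apply, Matrix.mul_apply, map_sum]
  refine Finset.sum_congr rfl (fun j _ => ?_)
  rw [mul_comm (M' a j), mul_comm _ (M j b), ← comp_mul_left (h j b)]
  congr 2
  rw [← e]; abel

end HgLemmas

section AcycLemmas

variable {k : Type*} [Field k] {σ Γ : Type*} [AddCommGroup Γ] {w : σ → Γ} {c γ γ' γ'' : Γ}
  {ι κ ρ : Type*} [Fintype ι] [Fintype κ] [Fintype ρ] {ν : ι → Γ} {μ : κ → Γ} {l : ρ → Γ}
  {D : Matrix ι ι (MvPolynomial σ k)} {D' : Matrix κ κ (MvPolynomial σ k)}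
  {D'' : Matrix ρ ρ (MvPolynomial σ k)}

/-- A homotopy that is not homogeneous can be replaced by its homogeneous part. -/
theorem exact_of_eq (hD : Hg w ν ν c D) (hD' : Hg w μ μ c D') {s : ℤˣ}
    {φ h : Matrix κ ι (MvPolynomial σ k)} (hφ : Hg w ν μ γ φ) (e : φ = D' * h + s • (h * D)) :
    Exact w c γ ν D μ D' s φ := by
  refine ⟨prj w ν μ (γ - c) h, hg_prj _, ?_⟩
  rw [← hφ.prj_eq, e, prj_add, prj_units_smul, prj_mul_left hD' (γ := γ - c) (by abel),
    prj_mul_right hD (γ' := γ - c) (by abel)]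

theorem Exact.zero {s : ℤˣ} : Exact w c γ ν D μ D' s 0 := ⟨0, Hg.zero, by simp⟩

theorem Exact.add {s : ℤˣ} {φ ψ : Matrix κ ι (MvPolynomial σ k)} (h : Exact w c γ ν D μ D' s φ)
    (h' : Exact w c γ ν D μ D' s ψ) : Exact w c γ ν D μ D' s (φ + ψ) := by
  obtain ⟨a, ha, rfl⟩ := h
  obtain ⟨b, hb, rfl⟩ := h'
  refine ⟨a + b, ha.add hb, ?_⟩
  rw [Matrix.mul_add, Matrix.add_mul, smul_add]; abel

theorem Exact.neg {s : ℤˣ} {φ : Matrix κ ι (MvPolynomial σ k)} (h : Exact w c γ ν D μ D' s φ) :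
    Exact w c γ ν D μ D' s (-φ) := by
  obtain ⟨a, ha, rfl⟩ := h
  refine ⟨-a, ha.neg, ?_⟩
  rw [Matrix.mul_neg, Matrix.neg_mul, smul_neg]; abel

theorem Exact.sub {s : ℤˣ} {φ ψ : Matrix κ ι (MvPolynomial σ k)} (h : Exact w c γ ν D μ D' s φ)
    (h' : Exact w c γ ν D μ D' s ψ) : Exact w c γ ν D μ D' s (φ - ψ) := by
  rw [sub_eq_add_neg]; exact h.add h'.neg

theorem Exact.k_smul {s : ℤˣ} {φ : Matrix κ ι (MvPolynomial σ k)} (h : Exact w c γ ν D μ D' s φ)
    (r : k) : Exact w c γ ν D μ D' s (r • φ) := by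
  obtain ⟨a, ha, rfl⟩ := h
  refine ⟨r • a, ha.k_smul r, ?_⟩
  rw [Matrix.mul_smul, Matrix.smul_mul, smul_add, smul_comm r s]

theorem Exact.smul {s : ℤˣ} {φ : Matrix κ ι (MvPolynomial σ k)} (h : Exact w c γ ν D μ D' s φ)
    {p : MvPolynomial σ k} (hp : p.IsWeightedHomogeneous w γ') (e : γ' + γ = γ'') :
    Exact w c γ'' ν D μ D' s (p • φ) := by
  obtain ⟨a, ha, rfl⟩ := h
  refine ⟨p • a, ha.smul hp (by rw [← e]; abel), ?_⟩
  rw [Matrix.mul_smul, Matrix.smul_mul, smul_add, smul_comm p s]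

theorem Exact.sum {α : Type*} (t : Finset α) {s : ℤˣ} {φ : α → Matrix κ ι (MvPolynomial σ k)}
    (h : ∀ i ∈ t, Exact w c γ ν D μ D' s (φ i)) : Exact w c γ ν D μ D' s (∑ i ∈ t, φ i) := by
  classical
  induction t using Finset.induction_on with
  | empty => simpa using Exact.zero
  | insert a t ha ih =>
    rw [Finset.sum_insert ha]
    exact (h a (Finset.mem_insert_self _ _)).add
      (ih (fun i hi => h i (Finset.mem_insert_of_mem hi)))

theorem Exact.hg (hD : Hg w ν ν c D) (hD' : Hg w μ μ c D') {s : ℤˣ}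
    {φ : Matrix κ ι (MvPolynomial σ k)} (h : Exact w c γ ν D μ D' s φ) : Hg w ν μ γ φ := by
  obtain ⟨a, ha, rfl⟩ := h
  exact (hD'.mul ha (by abel)).add ((ha.mul hD (by abel)).units_smul s)

theorem Closed.mul {R : Type*} [CommRing R] {D : Matrix ι ι R} {D' : Matrix κ κ R}
    {D'' : Matrix ρ ρ R} {s s' : ℤˣ} {φ : Matrix κ ι R} {ψ : Matrix ρ κ R}
    (hψ : Closed s' D' D'' ψ) (hφ : Closed s D D' φ) : Closed (s' * s) D D'' (ψ * φ) := by
  unfold Closed at *
  rw [← Matrix.mul_assoc, hψ, Matrix.smul_mul, Matrix.mul_assoc, hφ, Matrix.mul_smul, smul_smul,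
    Matrix.mul_assoc]

theorem Closed.add {R : Type*} [CommRing R] {D : Matrix ι ι R} {D' : Matrix κ κ R} {s : ℤˣ}
    {φ ψ : Matrix κ ι R} (h : Closed s D D' φ) (h' : Closed s D D' ψ) : Closed s D D' (φ + ψ) := by
  unfold Closed at *
  rw [Matrix.mul_add, h, h', Matrix.add_mul, smul_add]

theorem Closed.sub {R : Type*} [CommRing R] {D : Matrix ι ι R} {D' : Matrix κ κ R} {s : ℤˣ}
    {φ ψ : Matrix κ ι R} (h : Closed s D D' φ) (h' : Closed s D D' ψ) : Closed s D D' (φ - ψ) := by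
  unfold Closed at *
  rw [Matrix.mul_sub, h, h', Matrix.sub_mul, smul_sub]

theorem Closed.smul {R : Type*} [CommRing R] {D : Matrix ι ι R} {D' : Matrix κ κ R} {s : ℤˣ}
    {φ : Matrix κ ι R} (h : Closed s D D' φ) (p : R) : Closed s D D' (p • φ) := by
  unfold Closed at *
  rw [Matrix.mul_smul, h, Matrix.smul_mul, smul_comm]

theorem Closed.one {R : Type*} [CommRing R] [DecidableEq ι] {D : Matrix ι ι R} :
    Closed 1 D D 1 := by simp [Closed]

/-- A boundary is closed when both differentials square to the same scalar. -/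
theorem closed_bd {R : Type*} [CommRing R] [DecidableEq ι] [DecidableEq κ] {D : Matrix ι ι R}
    {D' : Matrix κ κ R} {W : R} (hD : D * D = W • (1 : Matrix ι ι R))
    (hD' : D' * D' = W • (1 : Matrix κ κ R)) (s : ℤˣ) (h : Matrix κ ι R) :
    Closed s D D' (D' * h + s • (h * D)) := by
  unfold Closed
  rw [Matrix.mul_add, ← Matrix.mul_assoc, hD', Matrix.add_mul, smul_add, Matrix.smul_mul s,
    smul_smul, Int.units_mul_self, one_smul, Matrix.mul_assoc h, hD, Matrix.mul_smul D',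
    Matrix.mul_assoc, add_comm]
  simp

/-- Composition of an exact map with a closed map on the left. -/
theorem Exact.mul_left {s s' : ℤˣ} {φ : Matrix κ ι (MvPolynomial σ k)}
    {ψ : Matrix ρ κ (MvPolynomial σ k)} (h : Exact w c γ ν D μ D' s φ) (hψ : Hg w μ l γ' ψ)
    (cψ : Closed s' D' D'' ψ) (e : γ' + γ = γ'') : Exact w c γ'' ν D l D'' (s' * s) (ψ * φ) := by
  obtain ⟨a, ha, rfl⟩ := h
  refine ⟨s' • (ψ * a), (hψ.mul ha (by rw [← e]; abel)).units_smul _, ?_⟩
  unfold Closed at cψ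
  rw [Matrix.mul_smul, ← Matrix.mul_assoc D'', cψ, Matrix.smul_mul, Matrix.smul_mul, smul_smul,
    smul_smul, Int.units_mul_self, one_smul, mul_right_comm, Int.units_mul_self, one_mul,
    Matrix.mul_add, Matrix.mul_smul, Matrix.mul_assoc, Matrix.mul_assoc]

/-- Composition of an exact map with a closed map on the right. -/
theorem Exact.mul_right {s s' : ℤˣ} {φ : Matrix κ ι (MvPolynomial σ k)}
    {ψ : Matrix ρ κ (MvPolynomial σ k)} (h : Exact w c γ' μ D' l D'' s' ψ) (hφ : Hg w ν μ γ φ)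
    (cφ : Closed s D D' φ) (e : γ' + γ = γ'') : Exact w c γ'' ν D l D'' (s' * s) (ψ * φ) := by
  obtain ⟨a, ha, rfl⟩ := h
  refine ⟨a * φ, ha.mul hφ (by rw [← e]; abel), ?_⟩
  unfold Closed at cφ
  rw [Matrix.add_mul, Matrix.smul_mul, Matrix.mul_assoc a, cφ, Matrix.mul_smul, smul_smul,
    Matrix.mul_assoc, Matrix.mul_assoc]

theorem Acyc.of_eq (h : Acyc w c γ ν D μ D') {ν' : ι → Γ} {μ' : κ → Γ}
    (e : ∀ a b, ν b + γ - μ a = ν' b + γ' - μ' a) : Acyc w c γ' ν' D μ' D' := by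
  intro s φ hφ cφ
  obtain ⟨a, ha, e'⟩ := h s φ (hφ.of_eq (fun a b => (e a b).symm)) cφ
  refine ⟨a, ha.of_eq (fun a b => ?_), e'⟩
  have := e a b
  calc ν b + (γ - c) - μ a = (ν b + γ - μ a) - c := by abel
    _ = ν' b + (γ' - c) - μ' a := by rw [this]; abel

theorem Acyc.neg_right (h : Acyc w c γ ν D μ D') : Acyc w c γ ν D μ (-D') := by
  intro s φ hφ cφ
  obtain ⟨a, ha, e⟩ := h (-s) φ hφ (by
    unfold Closed at *
    rw [Units.neg_smul, ← cφ, Matrix.neg_mul, neg_neg])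
  refine ⟨-a, ha.neg, ?_⟩
  rw [e, Units.neg_smul, Matrix.neg_mul, Matrix.mul_neg, Matrix.neg_mul, neg_neg, smul_neg]

theorem Acyc.neg_left (h : Acyc w c γ ν D μ D') : Acyc w c γ ν (-D) μ D' := by
  intro s φ hφ cφ
  obtain ⟨a, ha, e⟩ := h (-s) φ hφ (by
    unfold Closed at *
    rw [Units.neg_smul, cφ, Matrix.mul_neg, smul_neg])
  refine ⟨a, ha, ?_⟩
  rw [e, Units.neg_smul, Matrix.mul_neg, smul_neg]

/-- Extension in the target. -/
theorem Acyc.ext_right
    {t : Matrix κ ρ (MvPolynomial σ k)} (ht : Hg w l μ c t) (ct : D' * t + t * D'' = 0)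
    (h₁ : Acyc w c γ ν D μ D') (h₂ : Acyc w c γ ν D l D'') :
    Acyc w c γ ν D (Sum.elim μ l) (Matrix.fromBlocks D' t 0 D'') := by
  intro s φ hφ cφ
  rw [← Matrix.fromRows_toRows φ] at cφ ⊢
  set φ₁ := φ.toRows₁
  set φ₂ := φ.toRows₂
  unfold Closed at cφ
  rw [Matrix.fromBlocks_mul_fromRows, Matrix.fromRows_mul] at cφ
  have c1 : D' * φ₁ + t * φ₂ = s • (φ₁ * D) := by
    have := congrArg Matrix.toRows₁ cφ
    rw [Matrix.toRows₁_fromRows] at this
    rw [this]; ext a b; simp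
  have c2 : D'' * φ₂ = s • (φ₂ * D) := by
    have := congrArg Matrix.toRows₂ cφ
    rw [Matrix.toRows₂_fromRows, Matrix.zero_mul, zero_add] at this
    rw [this]; ext a b; simp
  obtain ⟨h2, hh2, e2⟩ := h₂ s φ₂ hφ.toRows₂ c2
  have ct' : D' * t = -(t * D'') := eq_neg_of_add_eq_zero_left ct
  obtain ⟨h1, hh1, e1⟩ := h₁ s (φ₁ - t * h2) (hφ.toRows₁.sub (ht.mul hh2 (by abel))) (by
    unfold Closed
    rw [Matrix.mul_sub, ← Matrix.mul_assoc, ct', Matrix.sub_mul, smul_sub, ← c1, e2,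
      Matrix.mul_add, Matrix.mul_smul, Matrix.neg_mul, Matrix.mul_assoc, Matrix.mul_assoc]
    abel)
  refine ⟨Matrix.fromRows h1 h2, hh1.fromRows hh2, ?_⟩
  rw [Matrix.fromBlocks_mul_fromRows, Matrix.fromRows_mul]
  have e1' : φ₁ = D' * h1 + t * h2 + s • (h1 * D) := by
    rw [add_right_comm, ← e1]; abel
  ext (a | a) b
  · simp [e1']
  · simp [e2]

/-- Extension in the source. -/
theorem Acyc.ext_left
    {t : Matrix ι κ (MvPolynomial σ k)} (ht : Hg w μ ν c t) (ct : D * t + t * D' = 0)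
    (h₁ : Acyc w c γ ν D l D'') (h₂ : Acyc w c γ μ D' l D'') :
    Acyc w c γ (Sum.elim ν μ) (Matrix.fromBlocks D t 0 D') l D'' := by
  intro s φ hφ cφ
  rw [← Matrix.fromCols_toCols φ] at cφ ⊢
  set φ₁ := φ.toCols₁
  set φ₂ := φ.toCols₂
  unfold Closed at cφ
  rw [Matrix.fromCols_mul_fromBlocks, Matrix.mul_fromCols] at cφ
  have c1 : D'' * φ₁ = s • (φ₁ * D) := by
    have := congrArg Matrix.toCols₁ cφ
    rw [Matrix.toCols₁_fromCols] at this
    rw [this]; ext a b; simp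
  have c2 : D'' * φ₂ = s • (φ₁ * t + φ₂ * D') := by
    have := congrArg Matrix.toCols₂ cφ
    rw [Matrix.toCols₂_fromCols] at this
    rw [this]; ext a b; simp
  obtain ⟨h1, hh1, e1⟩ := h₁ s φ₁ hφ.toCols₁ c1
  have ct' : D * t = -(t * D') := eq_neg_of_add_eq_zero_left ct
  obtain ⟨h2, hh2, e2⟩ := h₂ s (φ₂ - s • (h1 * t))
    (hφ.toCols₂.sub ((hh1.mul ht (by abel)).units_smul s)) (by
    unfold Closed
    rw [Matrix.mul_sub, c2, e1, Matrix.add_mul, Matrix.smul_mul, Matrix.mul_assoc h1 D, ct',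
      Matrix.sub_mul, Matrix.smul_mul, Matrix.mul_smul, ← smul_sub, Matrix.mul_neg,
      Matrix.mul_assoc, Matrix.mul_assoc, smul_neg]
    congr 1
    abel)
  refine ⟨Matrix.fromCols h1 h2, hh1.fromCols hh2, ?_⟩
  rw [Matrix.fromCols_mul_fromBlocks, Matrix.mul_fromCols]
  have e2' : φ₂ = D'' * h2 + s • (h1 * t + h2 * D') := by
    rw [smul_add, add_left_comm, ← e2]; abel
  ext a (b | b)
  · simp [e1]
  · simp [e2']

/-- The target is a retract of a finite sum (covers direct sums, retracts, isomorphisms). -/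
theorem Acyc.sum_right [DecidableEq κ] {α : Type*} [Fintype α] {κ' : α → Type*}
    [∀ t, Fintype (κ' t)] {μ' : ∀ t, κ' t → Γ} {E : ∀ t, Matrix (κ' t) (κ' t) (MvPolynomial σ k)}
    (j : ∀ t, Matrix κ (κ' t) (MvPolynomial σ k)) (q : ∀ t, Matrix (κ' t) κ (MvPolynomial σ k))
    (hj : ∀ t, Hg w (μ' t) μ 0 (j t)) (hq : ∀ t, Hg w μ (μ' t) 0 (q t))
    (cj : ∀ t, Closed 1 (E t) D' (j t)) (cq : ∀ t, Closed 1 D' (E t) (q t))
    (e : ∑ t, j t * q t = 1) (h : ∀ t, Acyc w c γ ν D (μ' t) (E t)) : Acyc w c γ ν D μ D' := by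
  intro s φ hφ cφ
  have : φ = ∑ t, j t * (q t * φ) := by
    simp_rw [← Matrix.mul_assoc]
    rw [← Matrix.sum_mul, e, Matrix.one_mul]
  rw [this]
  refine Exact.sum _ (fun t _ => ?_)
  have h1 := h t (1 * s) (q t * φ) ((hq t).mul hφ (zero_add _)) ((cq t).mul cφ)
  simpa using h1.mul_left (hj t) (cj t) (zero_add _)

/-- The source is a retract of a finite sum. -/
theorem Acyc.sum_left [DecidableEq ι] {α : Type*} [Fintype α] {ι' : α → Type*}
    [∀ t, Fintype (ι' t)] {ν' : ∀ t, ι' t → Γ} {E : ∀ t, Matrix (ι' t) (ι' t) (MvPolynomial σ k)}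
    (j : ∀ t, Matrix ι (ι' t) (MvPolynomial σ k)) (q : ∀ t, Matrix (ι' t) ι (MvPolynomial σ k))
    (hj : ∀ t, Hg w (ν' t) ν 0 (j t)) (hq : ∀ t, Hg w ν (ν' t) 0 (q t))
    (cj : ∀ t, Closed 1 (E t) D (j t)) (cq : ∀ t, Closed 1 D (E t) (q t))
    (e : ∑ t, j t * q t = 1) (h : ∀ t, Acyc w c γ (ν' t) (E t) μ D') : Acyc w c γ ν D μ D' := by
  intro s φ hφ cφ
  have : φ = ∑ t, (φ * j t) * q t := by
    simp_rw [Matrix.mul_assoc]
    rw [← Matrix.mul_sum, e, Matrix.mul_one]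
  rw [this]
  refine Exact.sum _ (fun t _ => ?_)
  have h1 := h t (s * 1) (φ * j t) (hφ.mul (hj t) (add_zero _)) (cφ.mul (cj t))
  simpa using h1.mul_right (hq t) (cq t) (add_zero _)

theorem IsMF.neg [DecidableEq ι] {W : MvPolynomial σ k} (h : IsMF w c W ν D) :
    IsMF w c W ν (-D) := ⟨h.1.neg, by rw [neg_mul_neg, h.2]⟩

theorem IsMF.shift [DecidableEq ι] {W : MvPolynomial σ k} (h : IsMF w c W ν D) (δ : Γ) :
    IsMF w c W (fun a => ν a + δ) D := ⟨h.1.of_eq (fun a b => by abel), h.2⟩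

/-- An extension of two matrix factorisations along an anticommuting map of degree `c`. -/
theorem IsMF.ext [DecidableEq ι] [DecidableEq κ] {W : MvPolynomial σ k} (h : IsMF w c W ν D)
    (h' : IsMF w c W μ D') {t : Matrix ι κ (MvPolynomial σ k)} (ht : Hg w μ ν c t)
    (ct : D * t + t * D' = 0) :
    IsMF w c W (Sum.elim ν μ) (Matrix.fromBlocks D t 0 D') := by
  refine ⟨h.1.fromBlocks ht Hg.zero h'.1, ?_⟩
  rw [Matrix.fromBlocks_multiply, h.2, h'.2, ct, ← Matrix.fromBlocks_one, Matrix.fromBlocks_smul]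
  simp

theorem IsMF.map_aeval [DecidableEq ι] {τ Γ' : Type*} [AddCommGroup Γ'] {w' : τ → Γ'}
    (e : Γ →+ Γ') (g : σ → MvPolynomial τ k)
    (hg : ∀ i, (g i).IsWeightedHomogeneous w' (e (w i))) {W : MvPolynomial σ k}
    (h : IsMF w c W ν D) : IsMF w' (e c) (aeval g W) (e ∘ ν) (D.map (aeval g)) := by
  refine ⟨h.1.map_aeval e g hg, ?_⟩
  have := congrArg (fun M => M.map (aeval g : MvPolynomial σ k →ₐ[k] MvPolynomial τ k)) h.2
  rw [← Matrix.map_mul, this]
  ext a b : 1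
  by_cases hab : a = b <;> simp [hab]

/-- Generator degrees of the mapping cone of a degree `0` map from `ν` to `μ`. -/
def coneν (c : Γ) (ν : ι → Γ) (μ : κ → Γ) : κ ⊕ ι → Γ := Sum.elim μ (fun b => ν b - c)

/-- Differential of the mapping cone of `u : (ν, D) → (μ, D')`. -/
def coneD {R : Type*} [CommRing R] (D : Matrix ι ι R) (D' : Matrix κ κ R) (u : Matrix κ ι R) :
    Matrix (κ ⊕ ι) (κ ⊕ ι) R := Matrix.fromBlocks D' u 0 (-D)

theorem IsMF.cone [DecidableEq ι] [DecidableEq κ] {W : MvPolynomial σ k} (h : IsMF w c W ν D)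
    (h' : IsMF w c W μ D') {u : Matrix κ ι (MvPolynomial σ k)} (hu : Hg w ν μ 0 u)
    (cu : Closed 1 D D' u) : IsMF w c W (coneν c ν μ) (coneD D D' u) := by
  refine IsMF.ext h' ⟨h.1.neg.of_eq (fun a b => by abel), by rw [neg_mul_neg, h.2]⟩
    (hu.of_eq (fun a b => by abel)) ?_
  unfold Closed at cu
  rw [cu, one_smul, Matrix.mul_neg, add_neg_cancel]

/-- The parity operator. -/
noncomputable def eps (N : Γ →+ ℤ) (ν : ι → Γ) [DecidableEq ι] : Matrix ι ι (MvPolynomial σ k) :=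
  Matrix.diagonal fun a => (N (ν a)).negOnePow • (1 : MvPolynomial σ k)

omit [Fintype ι] in
theorem hg_eps (N : Γ →+ ℤ) [DecidableEq ι] : Hg (k := k) w ν ν 0 (eps N ν) := by
  intro a b
  by_cases h : a = b
  · subst h
    simp only [eps, Matrix.diagonal_apply_eq, add_zero, sub_self]
    rcases Int.units_eq_one_or (N (ν a)).negOnePow with e | e <;> rw [e]
    · simpa using isWeightedHomogeneous_one k w
    · simpa using (isWeightedHomogeneous_one k w).neg
  · simpa [eps, Matrix.diagonal_apply_ne _ h] using isWeightedHomogeneous_zero k w _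

theorem eps_mul_eps (N : Γ →+ ℤ) [DecidableEq ι] :
    (eps N ν * eps N ν : Matrix ι ι (MvPolynomial σ k)) = 1 := by
  rw [eps, Matrix.diagonal_mul_diagonal, ← Matrix.diagonal_one]
  congr 1
  funext a
  rw [smul_mul_smul_comm, Int.units_mul_self]; simp

theorem Hg.eps_mul (N : Γ →+ ℤ) (hN : ∀ i, N (w i) = 2) [DecidableEq ι] [DecidableEq κ]
    {φ : Matrix κ ι (MvPolynomial σ k)} (h : Hg w ν μ γ φ) :
    eps N μ * φ = (N γ).negOnePow • (φ * eps N ν) := by
  ext a b : 1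
  simp only [eps, Matrix.diagonal_mul, Matrix.smul_apply, Matrix.mul_diagonal, smul_mul_assoc,
    one_mul, mul_smul_comm, mul_one, smul_smul]
  by_cases ho : Odd (N (ν b + γ - μ a))
  · rw [IsWH.eq_zero_of_odd N hN (h a b) ho]; simp
  · rw [← Int.negOnePow_add]
    congr 1
    rw [Int.negOnePow_eq_iff]
    rw [Int.not_odd_iff_even, map_sub, map_add] at ho
    obtain ⟨r, hr⟩ := ho
    exact ⟨-r, by omega⟩

/-- It is enough to test acyclicity on commuting maps (differentials of odd degree). -/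
theorem acyc_of_one (N : Γ →+ ℤ) (hN : ∀ i, N (w i) = 2) (hc : Odd (N c)) [DecidableEq ι]
    (hD : Hg w ν ν c D)
    (h : ∀ φ, Hg w ν μ γ φ → Closed 1 D D' φ → Exact w c γ ν D μ D' 1 φ) :
    Acyc w c γ ν D μ D' := by
  intro s φ hφ cφ
  rcases Int.units_eq_one_or s with rfl | rfl
  · exact h φ hφ cφ
  · have ce : Closed (-1) D D (eps N ν : Matrix ι ι (MvPolynomial σ k)) := by
      unfold Closed
      rw [hD.eps_mul N hN, Int.negOnePow_odd _ hc]; simp
    have h1 := h (φ * eps N ν) (hφ.mul (hg_eps N) (add_zero _)) (by simpa using cφ.mul ce)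
    have h2 := h1.mul_right (hg_eps N) ce (add_zero _)
    rw [Matrix.mul_assoc, eps_mul_eps, Matrix.mul_one] at h2
    simpa using h2

end AcycLemmas

end Pool.Agent.Lib.MP_0ba2dd_ag.N
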