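import Pool.Agent.Lib.MP_0ba2dd_ag.N.H45Set

/-! Graded Nakayama in the `y`-variables, and filtered targets. -/

namespace Pool.Agent.Lib.MP_0ba2dd_ag.N

variable [Dim]

open MvPolynomial Matrix Kronecker

variable {k : Type*} [Field k] {ι κ ρ : Type*} [Fintype ι] [Fintype κ] [Fintype ρ]
  [DecidableEq ι] [DecidableEq κ] [DecidableEq ρ]

/-- Partial restriction: kill the variables `y j` with `j < n`. -/
noncomputable def Tn (n : ℕ) : S k →ₐ[k] S k :=
  aeval (Sum.elim (fun i => X (Sum.inl i))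
    (fun j : Fin nv => if (j : ℕ) < n then 0 else X (Sum.inr j)))

theorem Tn_X_inl (n : ℕ) (i : Fin nv) : Tn n (X (Sum.inl i) : S k) = X (Sum.inl i) := by
  simp [Tn]

theorem Tn_X_inr (n : ℕ) (j : Fin nv) :
    Tn n (X (Sum.inr j) : S k) = if (j : ℕ) < n then 0 else X (Sum.inr j) := by
  simp [Tn]

theorem Tn_zero (p : S k) : Tn 0 p = p := by
  have : (Tn 0 : S k →ₐ[k] S k) = AlgHom.id k _ := by
    refine MvPolynomial.algHom_ext ?_
    rintro (i | j)
    · rw [Tn_X_inl]; rfl
    · rw [Tn_X_inr, if_neg (Nat.not_lt_zero _)]; rfl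
  rw [this]; rfl

theorem Tn_five (p : S k) : Tn nv p = inX (T0 p) := by
  have : (Tn nv : S k →ₐ[k] S k) = (inX : Q k →ₐ[k] S k).comp T0 := by
    refine MvPolynomial.algHom_ext ?_
    rintro (i | j)
    · rw [Tn_X_inl]; simp [inX, T0]
    · rw [Tn_X_inr, if_pos j.2]; simp [inX, T0]
  rw [this]; rfl

theorem Tn_Tn {m n : ℕ} (h : m ≤ n) (p : S k) : Tn n (Tn m p) = Tn n p ∧ Tn m (Tn n p) = Tn n p := by
  have h1 : (Tn n : S k →ₐ[k] S k).comp (Tn m) = Tn n := by
    refine MvPolynomial.algHom_ext ?_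
    rintro (i | j)
    · rw [AlgHom.comp_apply, Tn_X_inl]
    · rw [AlgHom.comp_apply, Tn_X_inr m]
      split_ifs with hj
      · rw [map_zero, Tn_X_inr, if_pos (lt_of_lt_of_le hj h)]
      · rfl
  have h2 : (Tn m : S k →ₐ[k] S k).comp (Tn n) = Tn n := by
    refine MvPolynomial.algHom_ext ?_
    rintro (i | j)
    · rw [AlgHom.comp_apply, Tn_X_inl, Tn_X_inl]
    · rw [AlgHom.comp_apply, Tn_X_inr n]
      split_ifs with hj
      · rw [map_zero]
      · rw [Tn_X_inr, if_neg (fun h' => hj (lt_of_lt_of_le h' h))]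
  exact ⟨congrArg (fun φ : S k →ₐ[k] S k => φ p) h1, congrArg (fun φ : S k →ₐ[k] S k => φ p) h2⟩

theorem T0_Tn (n : ℕ) (p : S k) : T0 (Tn n p) = T0 p := by
  have h1 : (T0 : S k →ₐ[k] Q k).comp (Tn n) = T0 := by
    refine MvPolynomial.algHom_ext ?_
    rintro (i | j)
    · rw [AlgHom.comp_apply, Tn_X_inl]
    · rw [AlgHom.comp_apply, Tn_X_inr]
      split_ifs with hj
      · simp [T0]
      · rfl
  exact congrArg (fun φ : S k →ₐ[k] Q k => φ p) h1

theorem X_dvd_Tn_sub (n : Fin nv) (p : S k) :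
    (X (Sum.inr n) : S k) ∣ Tn n p - Tn (n + 1) p := by
  induction p using MvPolynomial.induction_on with
  | C a => simp [Tn]
  | add p q hp hq =>
    have := dvd_add hp hq
    rw [map_add, map_add]
    convert this using 1
    ring
  | mul_X p i hp =>
    have hi : (X (Sum.inr n) : S k) ∣ Tn n (X i : S k) - Tn (n + 1) (X i : S k) := by
      rcases i with i | j
      · rw [Tn_X_inl, Tn_X_inl, sub_self]; exact dvd_zero _
      · rw [Tn_X_inr, Tn_X_inr]
        by_cases h1 : (j : ℕ) < n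
        · rw [if_pos h1, if_pos (by omega), sub_self]; exact dvd_zero _
        · by_cases h2 : (j : ℕ) < n + 1
          · have : j = n := Fin.ext (by omega)
            rw [if_neg h1, if_pos h2, sub_zero, this]
          · rw [if_neg h1, if_neg h2, sub_self]; exact dvd_zero _
    have := dvd_add (hp.mul_right (Tn n (X i : S k))) (hi.mul_left (Tn (n + 1) p))
    rw [map_mul, map_mul]
    convert this using 1
    ring

/-- The kernel of one more step is generated by the variable. -/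
theorem Tn_succ_eq_zero (n : Fin nv) {p : S k} (h : Tn (n + 1) p = 0) :
    ∃ q : S k, Tn n p = X (Sum.inr n) * q := by
  have := X_dvd_Tn_sub n p
  rw [h, sub_zero] at this
  exact this

omit [Fintype ι] [Fintype κ] [DecidableEq ι] [DecidableEq κ] in
theorem Hg.map_Tn {ν : ι → G} {μ : κ → G} {γ : G} {M : Matrix κ ι (S k)} (h : Hg wS ν μ γ M)
    (n : ℕ) : Hg wS ν μ γ (M.map (Tn n)) :=
  h.map_aeval' _ (by
    rintro (i | j)
    · exact isWeightedHomogeneous_X k wS (Sum.inl i)
    · simp only [Sum.elim_inr]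
      split_ifs
      · exact isWeightedHomogeneous_zero _ _ _
      · exact isWeightedHomogeneous_X k wS (Sum.inr j))

section MapLemmas

variable {R R' : Type*} [CommRing R] [CommRing R'] [Algebra k R] [Algebra k R']

omit [Fintype ι] [Fintype κ] [DecidableEq ι] [DecidableEq κ] in
theorem map_units_smul (g : R →ₐ[k] R') (s : ℤˣ) (M : Matrix κ ι R) :
    (s • M).map g = s • M.map g := by
  ext a b : 1
  rcases Int.units_eq_one_or s with rfl | rfl <;> simp

omit [DecidableEq ι] [DecidableEq κ] in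
theorem map_bd (g : R →ₐ[k] R') (s : ℤˣ) (D : Matrix ι ι R) (D' : Matrix κ κ R)
    (h : Matrix κ ι R) :
    (D' * h + s • (h * D)).map g = D'.map g * h.map g + s • (h.map g * D.map g) := by
  rw [Matrix.map_add _ (map_add g), map_units_smul, Matrix.map_mul, Matrix.map_mul]

omit [DecidableEq ι] [DecidableEq κ] in
theorem Closed.map_alg (g : R →ₐ[k] R') {s : ℤˣ} {D : Matrix ι ι R} {D' : Matrix κ κ R}
    {φ : Matrix κ ι R} (h : Closed s D D' φ) : Closed s (D.map g) (D'.map g) (φ.map g) := by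
  unfold Closed at *
  rw [← Matrix.map_mul, h, map_units_smul, Matrix.map_mul]

omit [DecidableEq ι] [DecidableEq κ] in
theorem Closed.of_smul [IsDomain R] {s : ℤˣ} {D : Matrix ι ι R} {D' : Matrix κ κ R}
    {φ : Matrix κ ι R} {z : R} (hz : z ≠ 0) (h : Closed s D D' (z • φ)) : Closed s D D' φ := by
  unfold Closed at *
  rw [Matrix.mul_smul, Matrix.smul_mul, smul_comm] at h
  ext a b : 1
  exact mul_left_cancel₀ hz (congrFun (congrFun h a) b)

end MapLemmas

omit [Fintype ι] [Fintype κ] [DecidableEq ι] [DecidableEq κ] in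
theorem map_Tn_Tn {m n : ℕ} (h : m ≤ n) (M : Matrix κ ι (S k)) :
    (M.map (Tn m)).map (Tn n) = M.map (Tn n) := by
  ext a b : 1
  exact (Tn_Tn h _).1

omit [Fintype ι] [Fintype κ] [DecidableEq ι] [DecidableEq κ] in
theorem map_Tn_Tn' {m n : ℕ} (h : m ≤ n) (M : Matrix κ ι (S k)) :
    (M.map (Tn n)).map (Tn m) = M.map (Tn n) := by
  ext a b : 1
  exact (Tn_Tn h _).2

/-- Exactness for maps that do not involve the variables `y j`, `j < n`. -/
def VanT (n : ℕ) (r : ZMod 3) (ν : ι → G) (D : Matrix ι ι (S k)) (μ : κ → G)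
    (D' : Matrix κ κ (S k)) : Prop :=
  ∀ γ : G, cls γ = r → ∀ (s : ℤˣ) (φ : Matrix κ ι (S k)), Hg wS ν μ γ φ → φ.map (Tn n) = φ →
    Closed s (D.map (Tn n)) (D'.map (Tn n)) φ →
      Exact wS cG γ ν (D.map (Tn n)) μ (D'.map (Tn n)) s φ

omit [DecidableEq ι] [DecidableEq κ] in
theorem vanT_five {ν : ι → G} {D : Matrix ι ι (S k)} {μ : κ → G} {D' : Matrix κ κ (S k)}
    {r : ZMod 3} (H : Van wX r ν (D.map T0) μ (D'.map T0)) : VanT nv r ν D μ D' := by
  intro γ hγ s φ hφ iφ cφ
  have c0 := cφ.map_alg (T0 : S k →ₐ[k] Q k)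
  have eD : (D.map (Tn nv)).map T0 = D.map T0 := by
    ext a b : 1
    exact T0_Tn nv _
  have eD' : (D'.map (Tn nv)).map T0 = D'.map T0 := by
    ext a b : 1
    exact T0_Tn nv _
  rw [eD, eD'] at c0
  obtain ⟨a, ha, e⟩ := H γ hγ s (φ.map T0) hφ.map_T0 c0
  refine ⟨a.map inX, ha.map_inX, ?_⟩
  have fD : (D.map T0).map inX = D.map (Tn nv) := by
    ext a b : 1
    exact (Tn_five _).symm
  have fD' : (D'.map T0).map inX = D'.map (Tn nv) := by
    ext a b : 1
    exact (Tn_five _).symm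
  have fφ : (φ.map T0).map inX = φ.map (Tn nv) := by
    ext a b : 1
    exact (Tn_five _).symm
  rw [← fD, ← fD', ← map_bd, ← e, fφ, iφ]

theorem vanT_step {U : S k} {ν : ι → G} {D : Matrix ι ι (S k)} {μ : κ → G}
    {D' : Matrix κ κ (S k)} (h : IsMF wS cG U ν D) (h' : IsMF wS cG U μ D') {r : ZMod 3}
    (n : Fin nv) (H : VanT (n + 1) r ν D μ D') : VanT n r ν D μ D' := by
  obtain ⟨B, hB⟩ := Hg.exists_bound (k := k) N1 N1_wS ν μ
  have hn : IsMF wS cG (Tn n U) ν (D.map (Tn n)) := h.map_alg _ (h.1.map_Tn n)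
  have hn' : IsMF wS cG (Tn n U) μ (D'.map (Tn n)) := h'.map_alg _ (h'.1.map_Tn n)
  have hle : (n : ℕ) ≤ n + 1 := Nat.le_succ _
  have key : ∀ m : ℕ, ∀ γ : G, γ.1 < B + m → cls γ = r → ∀ (s : ℤˣ) (φ : Matrix κ ι (S k)),
      Hg wS ν μ γ φ → φ.map (Tn n) = φ → Closed s (D.map (Tn n)) (D'.map (Tn n)) φ →
        Exact wS cG γ ν (D.map (Tn n)) μ (D'.map (Tn n)) s φ := by
    intro m
    induction m with
    | zero =>
      intro γ hm _ s φ hφ _ _
      rw [hB γ φ (by simpa using hm) hφ]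
      exact Exact.zero
    | succ m ih =>
      intro γ hm hγ s φ hφ iφ cφ
      have c1 := cφ.map_alg (Tn (n + 1) : S k →ₐ[k] S k)
      rw [map_Tn_Tn hle, map_Tn_Tn hle] at c1
      obtain ⟨a, ha, e⟩ := H γ hγ s (φ.map (Tn (n + 1))) (hφ.map_Tn _) (map_Tn_Tn le_rfl _) c1
      have ha1 := ha.map_Tn (n + 1)
      have ex : Exact wS cG γ ν (D.map (Tn n)) μ (D'.map (Tn n)) s
          (D'.map (Tn n) * a.map (Tn (n + 1)) + s • (a.map (Tn (n + 1)) * D.map (Tn n))) :=
        ⟨_, ha1, rfl⟩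
      set bd := D'.map (Tn n) * a.map (Tn (n + 1)) + s • (a.map (Tn (n + 1)) * D.map (Tn n))
        with hbd
      have k1 : (φ - bd).map (Tn (n + 1)) = 0 := by
        have e' := congrArg (fun M => M.map (Tn (n + 1) : S k →ₐ[k] S k)) e
        simp only [map_bd, map_Tn_Tn le_rfl] at e'
        rw [Matrix.map_sub _ (map_sub _), hbd, map_bd, map_Tn_Tn hle, map_Tn_Tn hle,
          map_Tn_Tn le_rfl, ← e', sub_self]
      have k2 : (φ - bd).map (Tn n) = φ - bd := by
        rw [Matrix.map_sub _ (map_sub _), iφ, hbd, map_bd, map_Tn_Tn le_rfl, map_Tn_Tn le_rfl,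
          map_Tn_Tn' hle]
      have k3 : ∀ x y, ∃ q : S k, (φ - bd) x y = X (Sum.inr n) * q := by
        intro x y
        obtain ⟨q, hq⟩ := Tn_succ_eq_zero n (p := (φ - bd) x y) (congrFun (congrFun k1 x) y)
        exact ⟨q, (congrFun (congrFun k2 x) y).symm.trans hq⟩
      choose q hq using k3
      have hy : (X (Sum.inr n) : S k) ≠ 0 := X_ne_zero _
      have e2 : φ - bd = (X (Sum.inr n) : S k) • Matrix.of q := by
        ext x y : 1
        exact hq x y
      have wy : (X (Sum.inr n) : S k).IsWeightedHomogeneous wS (2, 2) :=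
        isWeightedHomogeneous_X k wS (Sum.inr n)
      have hψ : Hg wS ν μ γ (φ - bd) := hφ.sub (ex.hg hn.1 hn'.1)
      have cψ : Closed s (D.map (Tn n)) (D'.map (Tn n)) (φ - bd) :=
        cφ.sub (closed_bd hn.2 hn'.2 s _)
      rw [e2] at hψ cψ
      have hq' : Hg wS ν μ (γ - (2, 2)) (Matrix.of q) := hψ.of_smul wy hy (by abel)
      have iq : (Matrix.of q).map (Tn n) = Matrix.of q := by
        ext x y : 1
        have h1 : Tn n ((φ - bd) x y) = (φ - bd) x y := congrFun (congrFun k2 x) y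
        rw [hq x y, map_mul, Tn_X_inr, if_neg (lt_irrefl _)] at h1
        exact mul_left_cancel₀ hy h1
      have hc : cls (γ - (2, 2)) = r := by
        have : cls (2, 2) = 0 := by decide
        rw [cls_sub, hγ, this, sub_zero]
      have ex2 := ih (γ - (2, 2)) (by
        simp only [Prod.fst_sub]
        push_cast at hm
        omega) hc s _ hq' iq (cψ.of_smul hy)
      have ex3 := ex2.smul wy (γ'' := γ) (by abel)
      rw [← e2] at ex3
      have := ex3.add ex
      rwa [sub_add_cancel] at this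
  intro γ hγ
  exact key (γ.1 - B + 1).toNat γ (by omega) hγ

/-- NL: graded Nakayama lemma in the `y`-direction. -/
theorem van_of_T0 {U : S k} {ν : ι → G} {D : Matrix ι ι (S k)} {μ : κ → G}
    {D' : Matrix κ κ (S k)} (h : IsMF wS cG U ν D) (h' : IsMF wS cG U μ D') (r : ZMod 3)
    (H : Van wX r ν (D.map T0) μ (D'.map T0)) : Van wS r ν D μ D' := by
  have h5 : VanT nv r ν D μ D' := vanT_five H
  have h0 : VanT 0 r ν D μ D' :=
    Nat.decreasingInduction (motive := fun j _ => VanT j r ν D μ D')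
      (fun j hj ih => vanT_step h h' ⟨j, hj⟩ ih) h5 (Nat.zero_le nv)
  have eD : D.map (Tn 0) = D := by
    ext a b : 1
    exact Tn_zero _
  have eD' : D'.map (Tn 0) = D' := by
    ext a b : 1
    exact Tn_zero _
  intro γ hγ s φ hφ cφ
  have := h0 γ hγ s φ hφ (by ext a b : 1; exact Tn_zero _) (by rw [eD, eD']; exact cφ)
  rwa [eD, eD'] at this

/-- The rows of one generator of the second tensor factor. -/
def rowsAt {R : Type*} (φ : Matrix (κ × ρ) ι R) (i : ρ) : Matrix κ ι R :=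
  φ.submatrix (fun a => (a, i)) id

omit [Fintype ι] [DecidableEq ι] in
theorem rowsAt_tensD_mul {μ : κ → G} {D' : Matrix κ κ (Q k)} {l : ρ → G} {E : Matrix ρ ρ (Q k)}
    (hE : ∀ i j, E i j ≠ 0 → (l j).1 < (l i).1) {n : ℤ} {φ : Matrix (κ × ρ) ι (Q k)}
    (hφ : ∀ j, (l j).1 < n → rowsAt φ j = 0) {i : ρ} (hi : (l i).1 ≤ n) :
    rowsAt (tensD N1 μ D' E * φ) i = D' * rowsAt φ i := by
  ext a b : 1
  simp only [rowsAt, Matrix.submatrix_apply, id, Matrix.mul_apply, Fintype.sum_prod_type, tensD,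
    Matrix.add_apply, Matrix.kroneckerMap_apply]
  refine Finset.sum_congr rfl (fun a' _ => ?_)
  have h2 : ∀ j, E i j * φ (a', j) b = 0 := by
    intro j
    by_cases hj : E i j = 0
    · rw [hj, zero_mul]
    · have := congrFun (congrFun (hφ j (lt_of_lt_of_le (hE i j hj) hi)) a') b
      change φ (a', j) b = 0 at this
      rw [this, mul_zero]
  simp only [add_mul, mul_assoc, h2, mul_zero, add_zero, Matrix.one_apply, ite_mul, one_mul,
    zero_mul, mul_ite, Finset.sum_ite_eq, Finset.mem_univ, if_true]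

omit [Fintype κ] [Fintype ρ] [DecidableEq ι] [DecidableEq κ] [DecidableEq ρ] in
theorem rowsAt_smul_mul (s : ℤˣ) (φ : Matrix (κ × ρ) ι (Q k)) (D : Matrix ι ι (Q k)) (i : ρ) :
    rowsAt (s • (φ * D)) i = s • (rowsAt φ i * D) := by
  ext a b : 1
  simp [rowsAt, Matrix.mul_apply]

/-- VecFilt: tensoring the target with a complex of vector spaces (a matrix `E` that strictly
raises the generator degree) whose generators have class `0`. -/
theorem van_tens_filt {f : Q k} {ν : ι → G} {D : Matrix ι ι (Q k)} {μ : κ → G}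
    {D' : Matrix κ κ (Q k)} {l : ρ → G} {E : Matrix ρ ρ (Q k)} (h : IsMF wX cG f ν D)
    (hT : IsMF wX cG f (tensν μ l) (tensD N1 μ D' E)) (hl : ∀ j, cls (l j) = 0)
    (hE : ∀ i j, E i j ≠ 0 → (l j).1 < (l i).1) (r : ZMod 3) (H : Van wX r ν D μ D') :
    Van wX r ν D (tensν μ l) (tensD N1 μ D' E) := by
  intro γ hγ s
  obtain ⟨M, hM⟩ := (Set.finite_range (fun j => (l j).1)).bddAbove
  obtain ⟨L, hL⟩ := (Set.finite_range (fun j => (l j).1)).bddBelow
  have key : ∀ m : ℕ, ∀ φ : Matrix (κ × ρ) ι (Q k), Hg wX ν (tensν μ l) γ φ →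
      Closed s D (tensD N1 μ D' E) φ → (∀ j, (l j).1 < M + 1 - m → rowsAt φ j = 0) →
        Exact wX cG γ ν D (tensν μ l) (tensD N1 μ D' E) s φ := by
    intro m
    induction m with
    | zero =>
      intro φ _ _ h0
      have : φ = 0 := by
        ext ⟨a, j⟩ b : 1
        have h1 : (l j).1 ≤ M := hM (Set.mem_range_self j)
        exact congrFun (congrFun (h0 j (by push_cast; omega)) a) b
      rw [this]
      exact Exact.zero
    | succ m ih =>
      intro φ hφ cφ h0
      set n : ℤ := M + 1 - ((m + 1 : ℕ) : ℤ) with hn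
      have ch : ∀ i, ∃ g : Matrix κ ι (Q k), Hg wX ν μ (γ - l i - cG) g ∧
          ((l i).1 < n → g = 0) ∧ ((l i).1 ≤ n → rowsAt φ i = D' * g + s • (g * D)) := by
        intro i
        by_cases h1 : (l i).1 = n
        · have c1 : Closed s D D' (rowsAt φ i) := by
            unfold Closed at cφ ⊢
            rw [← rowsAt_tensD_mul (μ := μ) hE h0 h1.le, cφ, rowsAt_smul_mul]
          have g1 : Hg wX ν μ (γ - l i) (rowsAt φ i) := fun a b =>
            IsWH.cast (hφ (a, i) b) (by simp only [tensν]; abel)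
          obtain ⟨g, hg, e⟩ := H (γ - l i) (by rw [cls_sub, hγ, hl, sub_zero]) s _ g1 c1
          exact ⟨g, hg, fun h2 => absurd h1 h2.ne, fun _ => e⟩
        · refine ⟨0, Hg.zero, fun _ => rfl, fun h2 => ?_⟩
          rw [h0 i (lt_of_le_of_ne h2 h1)]
          simp
      choose g hg g0 ge using ch
      let a : Matrix (κ × ρ) ι (Q k) := Matrix.of fun x b => g x.2 x.1 b
      have ra : ∀ i, rowsAt a i = g i := fun i => rfl
      have ha : Hg wX ν (tensν μ l) (γ - cG) a := fun x b =>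
        IsWH.cast (hg x.2 x.1 b) (by simp only [tensν]; abel)
      have ex : Exact wX cG γ ν D (tensν μ l) (tensD N1 μ D' E) s
          (tensD N1 μ D' E * a + s • (a * D)) := ⟨a, ha, rfl⟩
      have ex2 := ih (φ - (tensD N1 μ D' E * a + s • (a * D))) (hφ.sub (ex.hg h.1 hT.1))
        (cφ.sub (closed_bd h.2 hT.2 s a)) (by
          intro j hj
          have hj' : (l j).1 ≤ n := by rw [hn]; push_cast; omega
          have e1 : rowsAt (φ - (tensD N1 μ D' E * a + s • (a * D))) j =
              rowsAt φ j - (rowsAt (tensD N1 μ D' E * a) j + rowsAt (s • (a * D)) j) := rfl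
          rw [e1, rowsAt_tensD_mul hE (fun i hi => (ra i).trans (g0 i hi)) hj', rowsAt_smul_mul,
            ra, ge j hj', sub_self])
      have := ex2.add ex
      rwa [sub_add_cancel] at this
  intro φ hφ cφ
  refine key (M + 1 - L).toNat φ hφ cφ (fun j hj => ?_)
  have h1 : L ≤ (l j).1 := hL (Set.mem_range_self j)
  omega

end Pool.Agent.Lib.MP_0ba2dd_ag.N
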