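import Pool.Agent.Lib.MP_0ba2dd_ag.N.H45Kos
import Pool.Agent.Lib.MP_0ba2dd_ag.N.H45Nak

/-! DET: from the diagonal to a single object. -/

namespace Pool.Agent.Lib.MP_0ba2dd_ag.N

variable [Dim]

open MvPolynomial Matrix Kronecker

variable {k : Type*} [Field k] {ι κ : Type*} [Fintype ι] [Fintype κ]
  [DecidableEq ι] [DecidableEq κ]

theorem detect {f : Q k} (hf : f.IsHomogeneous 3) {ν : ι → ℤ} {D : Matrix ι ι (Q k)}
    (h : IsMF wQ 3 f ν D) {μ : κ → G} {P : Matrix κ κ (S k)}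
    (hP : IsMF wS cG (inX f - inY f) μ P) {γ γ' : G} (hγ : Even γ.1) (e : γ' + γ = (2, 0))
    {m : Matrix κ Δι (S k)} (hm : Hg wS Δν μ γ m) (cm : Closed 1 (ΔD f) P m)
    {m' : Matrix Δι κ (S k)} (hm' : Hg wS μ Δν γ' m') (cm' : Closed 1 P (ΔD f) m')
    (H : Van wX (cls γ) (emb 0 ν) D μ (P.map T0)) {l : Q k} (hl : l.IsHomogeneous 1)
    (hx : Exact wS cG (2, 0) Δν (ΔD f) Δν (ΔD f) 1
      (inX l • (1 : Matrix Δι Δι (S k)) - m' * m)) :
    Exact wQ 3 2 ν D ν D 1 (l • (1 : Matrix ι ι (Q k))) := by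
  have hl2 : l.IsWeightedHomogeneous wQ 2 := IsWH.cast (isWH_wQ_iff.2 hl) (by norm_num)
  have hodd : Odd (N1 cG) := by decide
  have hγ' : Even (N1 γ') := by
    have h1 := congrArg Prod.fst e
    obtain ⟨r, hr⟩ := hγ
    simp only [Prod.fst_add] at h1
    exact ⟨1 - r, by rw [N1_apply]; omega⟩
  have pot : (inX f - inY f + inY f : S k) = inX f := sub_add_cancel _ _
  have hN : N1 ∘ emb 0 ν = ν := by funext a; simp [emb]
  have hDX : IsMF w0 3 (inX f - inY f + inY f) ν (D.map inX) := by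
    rw [pot]; exact IsMF.map_alg inX h h.1.map_inX'
  have hE : IsMF w0 3 (inY f) ν (D.map inY) := IsMF.map_alg inY h h.1.map_inY'
  have hEY : IsMF wS cG (inY f) (eY ∘ ν) (D.map inY) := IsMF.map_alg inY h h.1.map_inY
  have hDs : IsMF wS cG (inX f) (emb 0 ν) (D.map inX) :=
    IsMF.map_alg inX (h.emb 0) (h.emb 0).1.map_inX
  obtain ⟨φ, hφ, cφ, tφ⟩ := ll_surj hf hDX hE 1 (ψ := 1) Hg.one (by
    ext a b : 1
    simp [TD_inX, TD_inY])
  have hν := tensEquiv_deg (Kν nv) ν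
  have hS := sm_tens (Kν nv) ν (D0 f) (D.map inY)
  obtain ⟨η, hη, sη⟩ := sm_surj (tensEquiv (Kι nv) ν) hν (μ := emb 0 ν) (γ := 0) (ψ := φ)
    (by rw [hN]; exact hφ)
  have hT : IsMF wS cG (inX f - inY f + inY f) (tensν Δν (eY ∘ ν))
      (tensD N1 Δν (ΔD f) (D.map inY)) :=
    IsMF.tens N1 N1_wS hodd (isMF_cov hf (isMF_D0 hf)) hEY
  have cη : Closed 1 (D.map inX) (tensD N1 Δν (ΔD f) (D.map inY)) η :=
    (sm_closed (tensEquiv (Kι nv) ν) hν hT.1 hS hDs.1 hη).2 (by rw [sη]; exact cφ)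
  have hTP : IsMF wS cG (inX f) (tensν μ (eY ∘ ν)) (tensD N1 μ P (D.map inY)) := by
    rw [← pot]; exact IsMF.tens N1 N1_wS hodd hP hEY
  have e1 : (D.map inX).map T0 = D := by
    ext a b : 1
    simp [T0_inX]
  have hV : Van wS (cls γ) (emb 0 ν) (D.map inX) (tensν μ (eY ∘ ν))
      (tensD N1 μ P (D.map inY)) := by
    refine van_of_T0 hDs hTP _ ?_
    have h1 := IsMF.map_alg T0 hTP hTP.1.map_T0
    rw [T0_inX, tensD_map] at h1
    rw [e1, tensD_map]
    refine van_tens_filt (h.emb 0) h1 (fun j => cls_eY _) (fun i j hij => ?_) _ H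
    by_contra hlt
    apply hij
    have h2 : constantCoeff (D i j) = 0 :=
      IsWH.constantCoeff_eq_zero (h.1 i j) (by
        simp only [Function.comp_apply, eY_apply] at hlt
        omega)
    simp [T0_inY, h2]
  have hm1 : Hg wS (tensν Δν (eY ∘ ν)) (tensν μ (eY ∘ ν)) γ (m ⊗ₖ (1 : Matrix ι ι (S k))) :=
    Hg.kronecker hm Hg.one (add_zero _)
  have hm2 : Hg wS (tensν μ (eY ∘ ν)) (tensν Δν (eY ∘ ν)) γ' (m' ⊗ₖ (1 : Matrix ι ι (S k))) :=
    Hg.kronecker hm' Hg.one (add_zero _)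
  have x0 := hV γ rfl (1 * 1) _ (hm1.mul hη (add_zero _))
    ((Closed.tens N1 N1_wS hγ hm cm (D.map inY)).mul cη)
  have x1 := x0.mul_left hm2 (Closed.tens N1 N1_wS hγ' hm' cm' (D.map inY)) e
  have x2 := (Exact.tens N1 N1_wS hodd (by decide) hx (eY ∘ ν) (D.map inY)).mul_right hη cη
    (add_zero _)
  simp only [mul_one] at x1 x2
  have x3 := x2.add x1
  have e2 : (inX l • (1 : Matrix Δι Δι (S k)) - m' * m) ⊗ₖ (1 : Matrix ι ι (S k)) * η
      + m' ⊗ₖ (1 : Matrix ι ι (S k)) * (m ⊗ₖ (1 : Matrix ι ι (S k)) * η) = inX l • η := by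
    rw [← Matrix.mul_assoc, ← Matrix.mul_kronecker_mul, Matrix.one_mul, ← Matrix.add_mul,
      ← Matrix.add_kronecker, sub_add_cancel, Matrix.smul_kronecker, Matrix.one_kronecker_one,
      Matrix.smul_mul, Matrix.one_mul]
  rw [e2] at x3
  have x4 := (sm_exact (tensEquiv (Kι nv) ν) hν hT.1 hS hDs.1
    (hη.smul (isWH_inX hl2) (add_zero _))).1 x3
  rw [Matrix.mul_smul, sη] at x4
  obtain ⟨a, -, ea⟩ := x4
  refine exact_of_eq h.1 h.1 (Hg.smul_one hl2) (h := (topRows a).map TD) ?_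
  have t1 := ll_top f (D.map inY) a
  have e3 : (D.map inX).map TD = D := by
    ext a b : 1
    simp [TD_inX]
  have e4 : (D.map inY).map TD = D := by
    ext a b : 1
    simp [TD_inY]
  rw [Matrix.map_mul, e4] at t1
  have t2 : (topRows (a * D.map inX)).map TD = (topRows a).map TD * D := by
    have : topRows (a * D.map inX) = topRows a * D.map inX := by
      ext i j : 1
      simp [topRows, Matrix.mul_apply]
    rw [this, Matrix.map_mul, e3]
  rw [one_smul, ← t1, ← t2]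
  rw [one_smul] at ea
  ext i j : 1
  have t3 := congrFun (congrFun tφ i) j
  have t4 := congrArg TD (congrFun (congrFun ea (Ktop nv, i)) j)
  simp only [Matrix.map_apply, topRows, Matrix.submatrix_apply, id, Matrix.smul_apply,
    Matrix.add_apply, smul_eq_mul, map_mul, map_add, TD_inX] at t3 t4 ⊢
  rw [← t4, t3]
  by_cases hij : i = j <;> simp [Matrix.one_apply, hij]

end Pool.Agent.Lib.MP_0ba2dd_ag.N
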