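import Pool.Agent.Lib.MP_0ba2dd_ag.N.H45FibA

/-! G: objects killed by all linear forms are not closed under self-extensions. -/

namespace Pool.Agent.Lib.MP_0ba2dd_ag.N

variable [Dim] [Big]

open MvPolynomial Matrix

variable {k : Type*} [Field k] {ι : Type*} [Fintype ι] [DecidableEq ι]

namespace Fib

/-- Entrywise value at the origin. -/
noncomputable def ev : Matrix ι ι (Q k) →+* Matrix ι ι k := RingHom.mapMatrix constantCoeff

/-- Entrywise derivative. -/
noncomputable def pd (i : Fin nv) (M : Matrix ι ι (Q k)) : Matrix ι ι (Q k) := M.map (pderiv i)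

theorem ev_apply (M : Matrix ι ι (Q k)) (a b : ι) : ev M a b = constantCoeff (M a b) := rfl

theorem ev_smul (p : Q k) (M : Matrix ι ι (Q k)) : ev (p • M) = constantCoeff p • ev M := by
  ext a b; simp [ev_apply]

theorem ev_C (M : Matrix ι ι k) : ev (M.map (C : k → Q k)) = M := by
  ext a b; simp [ev_apply]

omit [DecidableEq ι] in
theorem pd_mul (i : Fin nv) (M M' : Matrix ι ι (Q k)) :
    pd i (M * M') = pd i M * M' + M * pd i M' := by
  ext a b : 1
  simp only [pd, Matrix.map_apply, Matrix.mul_apply, Matrix.add_apply, map_sum,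
    Derivation.leibniz, smul_eq_mul, ← Finset.sum_add_distrib]
  exact Finset.sum_congr rfl (fun _ _ => by ring)

omit [Fintype ι] [DecidableEq ι] in
theorem pd_add (i : Fin nv) (M M' : Matrix ι ι (Q k)) : pd i (M + M') = pd i M + pd i M' := by
  ext a b : 1; simp [pd]

omit [Fintype ι] in
theorem pd_smul_one (i : Fin nv) (p : Q k) :
    pd i (p • (1 : Matrix ι ι (Q k))) = pderiv i p • (1 : Matrix ι ι (Q k)) := by
  ext a b : 1
  by_cases h : a = b <;> simp [pd, h]

omit [Fintype ι] [DecidableEq ι] in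
theorem hg_pd {ν : ι → ℤ} {γ : ℤ} {M : Matrix ι ι (Q k)} (h : Hg wQ ν ν γ M) (i : Fin nv) :
    Hg wQ ν ν (γ - 2) (pd i M) := fun a b =>
  (h a b).pderiv (by simp only [wQ]; ring)

theorem dg_ev {ν : ι → ℤ} {γ : ℤ} {M : Matrix ι ι (Q k)} (h : Hg wQ ν ν γ M) :
    Dg ν γ (ev M) := fun a b e => by
  by_contra e1
  exact e (IsWH.constantCoeff_eq_zero (h a b) (by omega))

theorem hg_ev_C {ν : ι → ℤ} {γ : ℤ} {M : Matrix ι ι (Q k)} (h : Hg wQ ν ν γ M) :
    Hg wQ ν ν γ ((ev M).map (C : k → Q k)) := fun a b => by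
  by_cases e : ev M a b = 0
  · simpa [e] using isWeightedHomogeneous_zero k wQ _
  · have := dg_ev h a b e
    exact IsWH.cast (isWeightedHomogeneous_C wQ _) (by omega)

theorem exists_X_mul (p : Q k) :
    ∃ c : Fin nv → Q k, p = C (constantCoeff p) + ∑ j, X j * c j := by
  induction p using MvPolynomial.induction_on with
  | C a => exact ⟨0, by simp⟩
  | add p q hp hq =>
    obtain ⟨c, hc⟩ := hp
    obtain ⟨c', hc'⟩ := hq
    refine ⟨c + c', ?_⟩
    conv_lhs => rw [hc, hc']
    simp only [map_add, Pi.add_apply, mul_add, Finset.sum_add_distrib]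
    ring
  | mul_X p i _ =>
    refine ⟨Pi.single i p, ?_⟩
    rw [Finset.sum_eq_single i (fun j _ hj => by simp [hj]) (by simp)]
    simp [mul_comm]

theorem exists_lin {p : Q k} (hp : p.IsWeightedHomogeneous wQ 4) :
    ∃ g : Fin nv → Q k, (∀ j, (g j).IsWeightedHomogeneous wQ 2) ∧ p = ∑ j, g j * X j := by
  obtain ⟨c, hc⟩ := exists_X_mul p
  rw [IsWH.constantCoeff_eq_zero hp (by norm_num), map_zero, zero_add] at hc
  refine ⟨fun j => weightedHomogeneousComponent wQ 2 (c j),
    fun j => weightedHomogeneousComponent_isWeightedHomogeneous _ _, ?_⟩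
  conv_lhs => rw [← hp.weightedHomogeneousComponent_same, hc, map_sum]
  refine Finset.sum_congr rfl (fun j _ => ?_)
  rw [mul_comm _ (X j), ← comp_mul_left (isWeightedHomogeneous_X k wQ j)]
  rfl

theorem pd_sq {f : Q k} {D : Matrix ι ι (Q k)} (h : D * D = f • (1 : Matrix ι ι (Q k)))
    (i : Fin nv) : D * pd i D + pd i D * D = pderiv i f • (1 : Matrix ι ι (Q k)) := by
  rw [add_comm, ← pd_mul, h, pd_smul_one]

theorem car {f : Q k} (hf : f.IsWeightedHomogeneous wQ 6) {D : Matrix ι ι (Q k)}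
    (h : D * D = f • (1 : Matrix ι ι (Q k))) {t : Fin nv → Matrix ι ι (Q k)}
    (ht : ∀ i, (X i : Q k) • (1 : Matrix ι ι (Q k)) = D * t i + t i * D) :
    CAR (ev D) (fun i => ev (pd i D)) (fun i => ev (t i)) := by
  refine ⟨fun i => ?_, fun i => ?_, fun i j => ⟨ev (pd j (t i)), ?_⟩⟩
  · rw [← map_mul, ← map_mul, ← map_add, pd_sq h, ev_smul,
      IsWH.constantCoeff_eq_zero (m := 4) (hf.pderiv rfl) (by norm_num), zero_smul]
  · rw [← map_mul, ← map_mul, ← map_add, ← ht, ev_smul, constantCoeff_X, zero_smul]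
  · have := congrArg (fun M => ev (pd j M)) (ht i)
    simp only [pd_smul_one, pd_add, pd_mul, map_add, map_mul, ev_smul, map_one] at this
    have e : constantCoeff (pderiv j (X i : Q k)) • (1 : Matrix ι ι k) =
        if i = j then 1 else 0 := by
      split_ifs with e
      · subst e; simp
      · rw [pderiv_X_of_ne e]; simp
    rw [← e, this]
    abel

theorem det_hg {ν : ι → ℤ} {u : Matrix ι ι (Q k)} (h : Hg wQ ν ν 0 u) :
    u.det.IsWeightedHomogeneous wQ 0 := by
  rw [Matrix.det_apply]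
  refine IsWeightedHomogeneous.sum _ _ _ (fun σ _ => ?_)
  have h1 := IsWeightedHomogeneous.prod Finset.univ (fun i => u (σ i) i)
    (fun i => ν i + 0 - ν (σ i)) (w := wQ) (fun i _ => h (σ i) i)
  have h2 : ∑ i, (ν i + 0 - ν (σ i)) = 0 := by
    rw [Finset.sum_sub_distrib, Equiv.sum_comp σ ν]; simp
  rw [h2] at h1
  rcases Int.units_eq_one_or (Equiv.Perm.sign σ) with e | e <;> rw [e]
  · simpa using h1
  · simpa using h1.neg

/-- Nakayama: a factorisation whose fibre at the origin is exact is contractible. -/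
theorem contractible {f : Q k} (hf : constantCoeff f = 0) {ν : ι → ℤ} {D : Matrix ι ι (Q k)}
    (h : IsMF wQ 3 f ν D) (hex : ∀ v, ev D *ᵥ v = 0 → Im (ev D) v) :
    Exact wQ 3 0 ν D ν D 1 (1 : Matrix ι ι (Q k)) := by
  obtain ⟨g, hg⟩ := exists_ginv (ev D)
  set G := prj wQ ν ν (-3) (g.map (C : k → Q k)) with hG
  have gG : Hg wQ ν ν (-3) G := hg_prj _
  have hC := hg_ev_C h.1
  have e1 : (ev D).map (C : k → Q k) * G * (ev D).map (C : k → Q k) = (ev D).map (C : k → Q k) := by
    have e0 : (ev D).map (C : k → Q k) * g.map (C : k → Q k) * (ev D).map (C : k → Q k) =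
        (ev D).map (C : k → Q k) := by
      rw [← Matrix.map_mul, ← Matrix.map_mul, hg]
    rw [hG, ← prj_mul_left hC (γ'' := 0) (by norm_num),
      ← prj_mul_right hC (γ'' := 3) (by norm_num), e0, hC.prj_eq]
  have e2 : ev D * ev G * ev D = ev D := by
    have := congrArg ev e1
    simpa only [map_mul, ev_C] using this
  have dd : ev D * ev D = 0 := by rw [← map_mul, h.2, ev_smul, hf, zero_smul]
  set u := D * G + G * D with hu
  have hu0 : Hg wQ ν ν 0 u := (h.1.mul gG (by norm_num)).add (gG.mul h.1 (by norm_num))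
  have hdet : IsUnit u.det := by
    rw [IsWH.eq_C N0 N0_wQ (det_hg hu0) (by simp)]
    refine IsUnit.map C (Ne.isUnit ?_)
    have e3 : constantCoeff u.det = (ev u).det := RingHom.map_det _ _
    rw [e3, hu, map_add, map_mul, map_mul]
    exact det_ne_zero dd e2 hex
  have cm : D * u = u * D := by
    rw [hu, Matrix.mul_add, Matrix.add_mul, ← Matrix.mul_assoc, h.2, Matrix.mul_assoc G, h.2,
      ← Matrix.mul_assoc, add_comm]
    simp
  have cm' : D * u⁻¹ = u⁻¹ * D := by
    calc D * u⁻¹ = u⁻¹ * (u * D) * u⁻¹ := by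
          rw [← Matrix.mul_assoc, Matrix.nonsing_inv_mul _ hdet, Matrix.one_mul]
      _ = u⁻¹ * D := by
          rw [← cm, Matrix.mul_assoc, Matrix.mul_assoc, Matrix.mul_nonsing_inv _ hdet,
            Matrix.mul_one]
  refine exact_of_eq h.1 h.1 Hg.one (h := G * u⁻¹) ?_
  rw [one_smul, Matrix.mul_assoc G, ← cm', ← Matrix.mul_assoc, ← Matrix.mul_assoc,
    ← Matrix.add_mul, ← hu, Matrix.mul_nonsing_inv _ hdet]

end Fib

open Fib in
theorem fib_main {f : Q k} (hf : f.IsHomogeneous 3) {ν : ι → ℤ} {D : Matrix ι ι (Q k)}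
    (h : IsMF wQ 3 f ν D)
    (hk : ∀ i, Exact wQ 3 2 ν D ν D 1 ((X i : Q k) • (1 : Matrix ι ι (Q k)))) :
    ∃ φ : Matrix ι ι (Q k), Hg wQ ν ν 3 φ ∧ D * φ + φ * D = 0 ∧
      ((∀ i, Exact wQ 3 2 (Sum.elim ν ν) (fromBlocks D φ 0 D) (Sum.elim ν ν)
          (fromBlocks D φ 0 D) 1 ((X i : Q k) • (1 : Matrix (ι ⊕ ι) (ι ⊕ ι) (Q k)))) →
        Exact wQ 3 0 ν D ν D 1 (1 : Matrix ι ι (Q k))) := by
  have hf6 : f.IsWeightedHomogeneous wQ 6 := isWH_wQ_iff.mpr hf
  choose t ht et using hk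
  simp only [one_smul] at et
  choose g hg eg using fun i => exists_lin (p := pderiv i f) (hf6.pderiv rfl)
  set x : Fin nv → Matrix ι ι (Q k) := fun i => pd i D - ∑ j, g i j • t j with hx
  have x1 : ∀ i, Hg wQ ν ν 1 (x i) := fun i =>
    ((hg_pd h.1 i).cast (by norm_num)).sub
      (Hg.sum _ (fun j _ => (ht j).smul (hg i j) (by norm_num)))
  have x2 : ∀ i, Closed (-1) D D (x i) := fun i => by
    have e : D * x i + x i * D = 0 := by
      have e1 : D * (∑ j, g i j • t j) + (∑ j, g i j • t j) * D =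
          pderiv i f • (1 : Matrix ι ι (Q k)) := by
        rw [Matrix.mul_sum, Matrix.sum_mul, ← Finset.sum_add_distrib, eg i, Finset.sum_smul]
        refine Finset.sum_congr rfl (fun j _ => ?_)
        rw [Matrix.mul_smul, Matrix.smul_mul, ← smul_add, ← et j, smul_smul]
      simp only [hx, Matrix.mul_sub, Matrix.sub_mul]
      rw [sub_add_sub_comm, pd_sq h.2, e1, sub_self]
    unfold Closed
    rw [eq_neg_of_add_eq_zero_left e]; simp
  have x3 : ∀ i, ev (x i) = ev (pd i D) := fun i => by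
    simp only [hx, map_sub, map_sum, ev_smul]
    rw [Finset.sum_eq_zero (fun j _ => by
      rw [IsWH.constantCoeff_eq_zero (hg i j) (by norm_num), zero_smul]), sub_zero]
  have hφ : Hg wQ ν ν 3 (x 0 * x 1 * x 2) :=
    ((x1 0).mul (x1 1) (γ'' := 2) (by norm_num)).mul (x1 2) (by norm_num)
  have cφ : D * (x 0 * x 1 * x 2) + x 0 * x 1 * x 2 * D = 0 := by
    have := ((x2 0).mul (x2 1)).mul (x2 2)
    unfold Closed at this
    rw [this]; simp
  refine ⟨x 0 * x 1 * x 2, hφ, cφ, fun hk' => ?_⟩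
  choose t' ht' et' using hk'
  simp only [one_smul] at et'
  have hc := car hf6 (h.ext h hφ cφ).2 et'
  have b1 : ∀ A B : Matrix ι ι (Q k), ev (fromBlocks A B 0 A) = fromBlocks (ev A) (ev B) 0 (ev A) := by
    intro A B
    ext (a | a) (b | b) <;> simp [ev_apply]
  have b2 : ∀ i (A B : Matrix ι ι (Q k)),
      pd i (fromBlocks A B 0 A) = fromBlocks (pd i A) (pd i B) 0 (pd i A) := by
    intro i A B
    ext (a | a) (b | b) : 1 <;> simp [pd]
  simp only [b1, b2] at hc
  refine contractible (IsWH.constantCoeff_eq_zero hf6 (by norm_num)) h (fun v hv => ?_)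
  refine exact_of_step (dg_ev h.1) (fun N H w hw h0 => ?_) hv
  refine step_ext (dg_ev h.1) (dg_ev hφ) ?_ ?_ (fun i => dg_ev ((ht' i).cast (by norm_num))) hc H hw h0
  · rw [← map_mul, ← map_mul, ← map_add, cφ, map_zero]
  · rw [map_mul, map_mul, x3, x3, x3]

end Pool.Agent.Lib.MP_0ba2dd_ag.N
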