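import Pool.Agent.Lib.MP_0ba2dd_ag.N.H45Set

/-! LA: linear algebra of the Jacobian ideal of a smooth cubic threefold. -/

namespace Pool.Agent.Lib.MP_0ba2dd_ag.N

variable [Dim]

open MvPolynomial

variable {k : Type*} [Field k]

theorem pderiv_comm' (i j : Fin nv) (p : Q k) : pderiv i (pderiv j p) = pderiv j (pderiv i p) := by
  induction p using MvPolynomial.induction_on with
  | C a => simp
  | add p q hp hq => simp only [map_add, hp, hq]
  | mul_X p n hp =>
    have h1 : ∀ a b : Fin nv, pderiv a (pderiv b (X n : Q k)) = 0 := by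
      intro a b
      by_cases h : n = b
      · subst h; rw [pderiv_X_self, pderiv_one]
      · rw [pderiv_X_of_ne h, map_zero]
    simp only [Derivation.leibniz, smul_eq_mul, map_add, hp, h1]
    ring

theorem eval_euler {f : Q k} {n : ℕ} (hf : f.IsHomogeneous n) (p : Fin nv → k) :
    ∑ i, p i * eval p (pderiv i f) = n * eval p f := by
  have := congrArg (eval p) hf.sum_X_mul_pderiv
  simpa [map_sum] using this

theorem smooth_of_pderiv (h3 : (3 : k) ≠ 0) {f : Q k} (hf : f.IsHomogeneous 3) (hs : Smooth f)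
    {p : Fin nv → k} (h : ∀ i, eval p (pderiv i f) = 0) : p = 0 := by
  refine hs p ?_ h
  have := eval_euler hf p
  simp only [h, mul_zero, Finset.sum_const_zero, Nat.cast_ofNat] at this
  exact (mul_eq_zero.1 this.symm).resolve_left h3

theorem linearIndependent_pderiv (h2 : (2 : k) ≠ 0) (h3 : (3 : k) ≠ 0) {f : Q k}
    (hf : f.IsHomogeneous 3) (hs : Smooth f) :
    LinearIndependent k (fun i : Fin nv => pderiv i f) := by
  rw [Fintype.linearIndependent_iff]
  intro c hc
  have key : c = 0 := by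
    refine smooth_of_pderiv h3 hf hs fun j => ?_
    have h1 := congrArg (fun q => eval c (pderiv j q)) hc
    simp only [map_sum, Derivation.map_smul, map_zero, smul_eval, pderiv_comm' j] at h1
    have h2' := eval_euler (n := 2) (hf.pderiv (i := j)) c
    rw [h1] at h2'
    exact (mul_eq_zero.1 h2'.symm).resolve_left (by exact_mod_cast h2)
  intro i; rw [key]; rfl

/-- the linear form with coefficient vector `a` -/
noncomputable def linF : (Fin nv → k) →ₗ[k] Q k := Fintype.linearCombination k X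

theorem eval_linF (p a : Fin nv → k) : eval p (linF a) = a ⬝ᵥ p := by
  simp [linF, Fintype.linearCombination_apply, map_sum, smul_eval, dotProduct]

theorem linF_injective : Function.Injective (linF : (Fin nv → k) →ₗ[k] Q k) :=
  (linearIndependent_X (Fin nv) k).fintypeLinearCombination_injective

theorem range_linF : LinearMap.range (linF : (Fin nv → k) →ₗ[k] Q k) =
    homogeneousSubmodule (Fin nv) k 1 := by
  rw [homogeneousSubmodule_one_eq_span_X, linF, Fintype.range_linearCombination]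

theorem exists_sep {U : Submodule k (Fin nv → k)} {a : Fin nv → k} (ha : a ∉ U) :
    ∃ p : Fin nv → k, a ⬝ᵥ p = 1 ∧ ∀ u ∈ U, u ⬝ᵥ p = 0 := by
  obtain ⟨φ, h1, h2⟩ := Submodule.exists_dual_map_eq_bot_of_notMem ha inferInstance
  have key : ∀ u : Fin nv → k, u ⬝ᵥ (fun i => (φ a)⁻¹ * φ (Pi.single i 1)) = (φ a)⁻¹ * φ u := by
    intro u
    conv_rhs => rw [pi_eq_sum_univ' u]
    simp only [dotProduct, map_sum, map_smul, smul_eq_mul, Finset.mul_sum]
    refine Finset.sum_congr rfl fun i _ => by ring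
  refine ⟨fun i => (φ a)⁻¹ * φ (Pi.single i 1), by rw [key, inv_mul_cancel₀ h1], fun u hu => ?_⟩
  have : φ u = 0 := by
    have : φ u ∈ U.map φ := Submodule.mem_map_of_mem hu
    rwa [h2, Submodule.mem_bot] at this
  rw [key, this, mul_zero]

theorem exists_notMem {U : Submodule k (Fin nv → k)} (h : Module.finrank k U < nv) :
    ∃ a, a ∉ U := by
  by_contra hc
  push Not at hc
  have : U = ⊤ := Submodule.eq_top_iff'.2 hc
  rw [this, finrank_top, Module.finrank_fin_fun] at h
  omega

theorem finrank_span_single_le {M : Type*} [AddCommGroup M] [Module k M] (a : M) :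
    Module.finrank k (Submodule.span k {a}) ≤ 1 := by
  simpa using finrank_span_le_card (R := k) ({a} : Set M)

theorem exists_plane {U : Submodule k (Fin nv → k)} (h : Module.finrank k U + 2 ≤ nv) :
    ∃ p q : Fin nv → k, (∀ u ∈ U, u ⬝ᵥ p = 0 ∧ u ⬝ᵥ q = 0) ∧
      ∀ s t : k, s • p + t • q = 0 → s = 0 ∧ t = 0 := by
  obtain ⟨a, ha⟩ := exists_notMem (U := U) (by omega)
  obtain ⟨b, hb⟩ := exists_notMem (U := U ⊔ Submodule.span k {a}) (by
    have := Submodule.finrank_add_le_finrank_add_finrank U (Submodule.span k {a})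
    have := finrank_span_single_le (k := k) a
    omega)
  obtain ⟨p, p1, p2⟩ := exists_sep ha
  obtain ⟨q, q1, q2⟩ := exists_sep hb
  refine ⟨p, q, fun u hu => ⟨p2 u hu, q2 u (Submodule.mem_sup_left hu)⟩, fun s t h => ?_⟩
  have q3 := q2 a (Submodule.mem_sup_right (Submodule.mem_span_singleton_self a))
  have h1 := congrArg (a ⬝ᵥ ·) h
  simp only [dotProduct_add, dotProduct_smul, p1, q3, smul_eq_mul, dotProduct_zero] at h1
  have hs : s = 0 := by simpa using h1
  have h2 := congrArg (b ⬝ᵥ ·) h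
  simp only [hs, zero_smul, zero_add, dotProduct_smul, q1, smul_eq_mul, dotProduct_zero] at h2
  exact ⟨hs, by simpa using h2⟩

theorem eval_quadratic {g : Q k} (hg : g.IsHomogeneous 2) (p q : Fin nv → k) (s t : k) :
    eval (s • p + t • q) g = s ^ 2 * eval p g + s * t * (eval (p + q) g - eval p g - eval q g) +
      t ^ 2 * eval q g := by
  have h : g ∈ homogeneousSubmodule (Fin nv) k 1 * homogeneousSubmodule (Fin nv) k 1 := by
    rw [← sq, homogeneousSubmodule_one_pow]; exact hg
  refine Submodule.mul_induction_on h ?_ ?_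
  · intro a ha b hb
    rw [← range_linF] at ha hb
    obtain ⟨a, rfl⟩ := ha
    obtain ⟨b, rfl⟩ := hb
    simp only [map_mul, eval_linF, dotProduct_add, dotProduct_smul, smul_eq_mul]
    ring
  · intro a b ha hb
    simp only [map_add, ha, hb]; ring

theorem exists_binary_root [IsAlgClosed k] (a b c : k) :
    ∃ s t : k, ¬(s = 0 ∧ t = 0) ∧ s ^ 2 * a + s * t * b + t ^ 2 * c = 0 := by
  by_cases hc : c = 0
  · exact ⟨0, 1, by simp, by simp [hc]⟩
  · obtain ⟨t, ht⟩ := IsAlgClosed.exists_root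
      (Polynomial.C c * Polynomial.X ^ 2 + Polynomial.C b * Polynomial.X + Polynomial.C a)
      (by rw [Polynomial.degree_quadratic hc]; decide)
    refine ⟨1, t, by simp, ?_⟩
    simp only [Polynomial.IsRoot, Polynomial.eval_add, Polynomial.eval_mul, Polynomial.eval_C,
      Polynomial.eval_pow, Polynomial.eval_X] at ht
    linear_combination ht

/-- a four-dimensional part of the span of the partials cannot vanish on a plane -/
theorem no_plane [IsAlgClosed k] (h3 : (3 : k) ≠ 0) {f : Q k} (hf : f.IsHomogeneous 3)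
    (hs : Smooth f) (W : Submodule k (Q k))
    (hW : W ≤ Submodule.span k (Set.range fun i : Fin nv => pderiv i f))
    (h4 : nv ≤ Module.finrank k W + 1) (p q : Fin nv → k)
    (hpq : ∀ s t : k, s • p + t • q = 0 → s = 0 ∧ t = 0)
    (hv : ∀ w ∈ W, ∀ s t : k, eval (s • p + t • q) w = 0) : False := by
  set J := Submodule.span k (Set.range fun i : Fin nv => pderiv i f) with hJ
  haveI : FiniteDimensional k J := FiniteDimensional.span_of_finite k (Set.finite_range _)
  have hJ5 : Module.finrank k J ≤ nv := by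
    have := finrank_range_le_card (R := k) (fun i : Fin nv => pderiv i f)
    rw [Fintype.card_fin] at this
    exact this
  have hJH : J ≤ homogeneousSubmodule (Fin nv) k 2 := by
    rw [hJ, Submodule.span_le]
    rintro _ ⟨i, rfl⟩
    exact hf.pderiv
  obtain ⟨g, hgJ, hg⟩ : ∃ g ∈ J, J ≤ W ⊔ Submodule.span k {g} := by
    by_cases h : J ≤ W
    · exact ⟨0, J.zero_mem, h.trans le_sup_left⟩
    · obtain ⟨g, hgJ, hgW⟩ := Set.not_subset.1 h
      have hle : W ⊔ Submodule.span k {g} ≤ J :=
        sup_le hW ((Submodule.span_singleton_le_iff_mem _ _).2 hgJ)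
      haveI : FiniteDimensional k ↥(W ⊔ Submodule.span k {g}) :=
        Submodule.finiteDimensional_of_le hle
      have hlt : W < W ⊔ Submodule.span k {g} := lt_of_le_of_ne le_sup_left fun h' =>
        hgW (h' ▸ Submodule.mem_sup_right (Submodule.mem_span_singleton_self g))
      have := Submodule.finrank_lt_finrank_of_lt hlt
      exact ⟨g, hgJ, (Submodule.eq_of_le_of_finrank_le hle (hJ5.trans (by omega))).ge⟩
  obtain ⟨s, t, hst, h0⟩ := exists_binary_root (eval p g) (eval (p + q) g - eval p g - eval q g)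
    (eval q g)
  rw [← eval_quadratic (hJH hgJ)] at h0
  refine hst (hpq s t (smooth_of_pderiv h3 hf hs fun i => ?_))
  obtain ⟨w, hw, z, hz, e⟩ := Submodule.mem_sup.1 (hg (Submodule.subset_span ⟨i, rfl⟩))
  obtain ⟨c, rfl⟩ := Submodule.mem_span_singleton.1 hz
  change _ = pderiv i f at e
  rw [← e, map_add, smul_eval, h0, hv w hw, mul_zero, add_zero]

theorem no_split_aux [Big] [IsAlgClosed k] (h3 : (3 : k) ≠ 0) {f : Q k} (hf : f.IsHomogeneous 3)
    (hs : Smooth f) (U₁ U₂ : Submodule k (Fin nv → k)) (hc : IsCompl U₁ U₂) (h1 : U₁ ≠ ⊥)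
    (h2 : U₂ ≠ ⊥) (hmul : ∀ a ∈ U₁, ∀ b ∈ U₂,
      linF a * linF b ∈ Submodule.span k (Set.range fun i : Fin nv => pderiv i f)) : False := by
  obtain ⟨l, hl, hl0⟩ := Submodule.exists_mem_ne_zero_of_ne_bot h1
  obtain ⟨m, hm, hm0⟩ := Submodule.exists_mem_ne_zero_of_ne_bot h2
  have hdim := Submodule.finrank_add_eq_of_isCompl hc
  rw [Module.finrank_fin_fun] at hdim
  have inj : ∀ a : Fin nv → k, a ≠ 0 →
      Function.Injective ((LinearMap.mulLeft k (linF a)).comp (linF : (Fin nv → k) →ₗ[k] Q k)) := by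
    intro a ha x y h
    have : linF a ≠ 0 := fun h0 => ha (linF_injective (by rw [h0, map_zero]))
    exact linF_injective (mul_left_cancel₀ this h)
  set W₁ := U₂.map ((LinearMap.mulLeft k (linF l)).comp linF)
  set W₂ := U₁.map ((LinearMap.mulLeft k (linF m)).comp linF)
  have d1 : Module.finrank k W₁ = Module.finrank k U₂ :=
    (Submodule.equivMapOfInjective _ (inj l hl0) U₂).finrank_eq.symm
  have d2 : Module.finrank k W₂ = Module.finrank k U₁ :=
    (Submodule.equivMapOfInjective _ (inj m hm0) U₁).finrank_eq.symm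
  have hinf : W₁ ⊓ W₂ ≤ Submodule.span k {linF l * linF m} := by
    rintro _ ⟨⟨v, hv, rfl⟩, ⟨u, hu, e⟩⟩
    simp only [LinearMap.comp_apply, LinearMap.mulLeft_apply] at e ⊢
    have hlU : l ∉ U₂ := fun h => hl0 ((Submodule.disjoint_def.1 hc.disjoint) l hl h)
    obtain ⟨p, p1, p2⟩ := exists_sep hlU
    have key : v = (u ⬝ᵥ p) • m := by
      funext i
      have e1 := congrArg (eval (Pi.single i 1 + p)) e
      have e2 := congrArg (eval (Pi.single i 1)) e
      simp only [map_mul, eval_linF, dotProduct_add, dotProduct_single, mul_one, p1, p2 v hv,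
        p2 m hm] at e1 e2
      simp only [Pi.smul_apply, smul_eq_mul]
      linear_combination e2 - e1
    rw [key, map_smul, mul_smul_comm]
    exact Submodule.smul_mem _ _ (Submodule.mem_span_singleton_self _)
  haveI : FiniteDimensional k (Submodule.span k {linF l * linF m}) :=
    FiniteDimensional.span_of_finite k (Set.finite_singleton _)
  have d3 := (Submodule.finrank_mono hinf).trans (finrank_span_single_le _)
  have d4 := Submodule.finrank_sup_add_finrank_inf_eq W₁ W₂
  have hW : W₁ ⊔ W₂ ≤ Submodule.span k (Set.range fun i : Fin nv => pderiv i f) := by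
    refine sup_le ?_ ?_
    · rintro _ ⟨v, hv, rfl⟩; exact hmul l hl v hv
    · rintro _ ⟨u, hu, rfl⟩
      simp only [LinearMap.comp_apply, LinearMap.mulLeft_apply]
      rw [mul_comm]; exact hmul u hu m hm
  have fin : ∀ p q : Fin nv → k, (∀ s t : k, s • p + t • q = 0 → s = 0 ∧ t = 0) →
      ((∀ u ∈ U₁, u ⬝ᵥ p = 0 ∧ u ⬝ᵥ q = 0) ∨ ∀ u ∈ U₂, u ⬝ᵥ p = 0 ∧ u ⬝ᵥ q = 0) → False := by
    intro p q hpq h
    refine no_plane h3 hf hs (W₁ ⊔ W₂) hW (by omega) p q hpq fun w hw s t => ?_
    obtain ⟨_, ⟨v, hv, rfl⟩, _, ⟨u, hu, rfl⟩, rfl⟩ := Submodule.mem_sup.1 hw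
    simp only [LinearMap.comp_apply, LinearMap.mulLeft_apply, map_add, map_mul, eval_linF,
      dotProduct_add, dotProduct_smul, smul_eq_mul]
    rcases h with h | h
    · simp [h l hl, h u hu]
    · simp [h m hm, h v hv]
  have := five_le
  rcases le_or_gt (Module.finrank k U₁ + 2) nv with h | h
  · obtain ⟨p, q, a, b⟩ := exists_plane h
    exact fin p q b (Or.inl a)
  · obtain ⟨p, q, a, b⟩ := exists_plane (U := U₂) (by omega)
    exact fin p q b (Or.inr a)

theorem no_split [Big] [IsAlgClosed k] (h3 : (3 : k) ≠ 0) {f : Q k} (hf : f.IsHomogeneous 3)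
    (hs : Smooth f) (V₁ V₂ : Submodule k (Q k))
    (h₁ : V₁ ≤ homogeneousSubmodule (Fin nv) k 1) (h₂ : V₂ ≤ homogeneousSubmodule (Fin nv) k 1)
    (hsum : homogeneousSubmodule (Fin nv) k 1 ≤ V₁ ⊔ V₂)
    (hmul : ∀ a ∈ V₁, ∀ b ∈ V₂,
      a * b ∈ Submodule.span k (Set.range fun i : Fin nv => pderiv i f)) :
    homogeneousSubmodule (Fin nv) k 1 ≤ V₁ ∨ homogeneousSubmodule (Fin nv) k 1 ≤ V₂ := by
  rw [← range_linF] at *
  have top : ∀ V : Submodule k (Q k), V.comap linF = ⊤ → LinearMap.range linF ≤ V := by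
    rintro V h _ ⟨a, rfl⟩
    exact (Submodule.eq_top_iff'.1 h a : a ∈ V.comap linF)
  have hsup : V₁.comap linF ⊔ V₂.comap linF = ⊤ := by
    rw [Submodule.eq_top_iff']
    intro a
    obtain ⟨x, hx, y, hy, e⟩ := Submodule.mem_sup.1 (hsum ⟨a, rfl⟩)
    obtain ⟨x, rfl⟩ := h₁ hx
    obtain ⟨y, rfl⟩ := h₂ hy
    exact Submodule.mem_sup.2 ⟨x, hx, y, hy, linF_injective (by rw [map_add, e])⟩
  by_contra hcon
  push Not at hcon
  set U₁ := V₁.comap (linF : (Fin nv → k) →ₗ[k] Q k)
  set U₂ := V₂.comap (linF : (Fin nv → k) →ₗ[k] Q k)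
  obtain ⟨U, hU1, hU2⟩ : ∃ U, U ≤ U₂ ∧ IsCompl U₁ U := by
    obtain ⟨C, hC⟩ := (U₁ ⊓ U₂).exists_isCompl
    refine ⟨U₂ ⊓ C, inf_le_left, ?_, ?_⟩
    · rw [disjoint_iff, ← inf_assoc]; exact hC.disjoint.eq_bot
    · rw [codisjoint_iff, eq_top_iff, ← hsup]
      refine sup_le le_sup_left fun y hy => ?_
      obtain ⟨a, ha, c, hc, e⟩ := Submodule.mem_sup.1 (hC.codisjoint.eq_top.ge (Submodule.mem_top (x := y)))
      refine Submodule.mem_sup.2 ⟨a, ha.1, c, ⟨?_, hc⟩, e⟩
      have : c = y - a := by rw [← e]; abel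
      rw [this]; exact U₂.sub_mem hy ha.2
  refine no_split_aux h3 hf hs U₁ U hU2 (fun h => hcon.2 (top _ ?_)) (fun h => hcon.1 (top _ ?_))
    fun a ha b hb => hmul _ ha _ (hU1 hb)
  · rwa [h, bot_sup_eq] at hsup
  · have := hU2.codisjoint.eq_top
    rwa [h, sup_bot_eq] at this

end Pool.Agent.Lib.MP_0ba2dd_ag.N
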