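import Pool.Agent.Lib.MP_0ba2dd_ag.N.H45Set
import Mathlib.LinearAlgebra.Dual.Lemmas
import Mathlib.Data.Finsupp.Interval

/-! SV: Serre duality in vanishing form. -/

namespace Pool.Agent.Lib.MP_0ba2dd_ag.N

variable [Dim]

open MvPolynomial Matrix

variable {k : Type*} [Field k] {ι κ : Type*}

/-- The ideal generated by the cubes of the first `n` variables. -/
def svI (k : Type*) [Field k] (n : ℕ) : Ideal (Q k) where
  carrier := {p | ∀ d : Fin nv →₀ ℕ, (∀ j : Fin nv, j.val < n → d j < 3) → coeff d p = 0}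
  zero_mem' _ _ := rfl
  add_mem' hp hq d hd := by rw [coeff_add, hp d hd, hq d hd, add_zero]
  smul_mem' c p hp d hd := by
    rw [smul_eq_mul, coeff_mul]
    refine Finset.sum_eq_zero fun x hx => mul_eq_zero_of_right _ (hp _ fun j hj => ?_)
    have := DFunLike.congr_fun (Finset.mem_antidiagonal.1 hx) j
    have := hd j hj
    simp only [Finsupp.coe_add, Pi.add_apply] at *
    omega

/-- The cube of a variable. -/
noncomputable def svZ (k : Type*) [Field k] (j : Fin nv) : Q k := monomial (Finsupp.single j 3) 1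

theorem svZ_hom (j : Fin nv) : (svZ k j).IsWeightedHomogeneous wX (6, 0) :=
  isWeightedHomogeneous_monomial _ _ _ (by rw [Finsupp.weight_single]; rfl)

theorem sv_div (j : Fin nv) {p : Q k} (hp : p ∈ svI k (j + 1)) :
    p - svZ k j * p.divMonomial (Finsupp.single j 3) ∈ svI k j := fun d hd => by
  rw [coeff_sub, svZ, coeff_monomial_mul']
  split_ifs with h
  · rw [coeff_divMonomial, add_tsub_cancel_of_le h, one_mul, sub_self]
  · rw [sub_zero]
    refine hp d fun i hi => ?_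
    by_cases e : i = j
    · simpa [e, Finsupp.single_le_iff] using h
    · exact hd i (by have := Fin.val_ne_of_ne e; omega)

theorem sv_div_hom (j : Fin nv) {p : Q k} {m : G} (hp : p.IsWeightedHomogeneous wX m) :
    (p.divMonomial (Finsupp.single j 3)).IsWeightedHomogeneous wX (m - (6, 0)) := fun d hd => by
  rw [coeff_divMonomial] at hd
  rw [← hp hd, map_add, Finsupp.weight_single]
  exact (add_sub_cancel_left _ _).symm

theorem sv_cancel (j : Fin nv) {p : Q k} (hp : svZ k j * p ∈ svI k j) : p ∈ svI k j :=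
  fun d hd => by
    have := hp (Finsupp.single j 3 + d) fun i hi => by
      simpa [Finsupp.single_apply, (Fin.ne_of_val_ne hi.ne).symm] using hd i hi
    rwa [svZ, coeff_monomial_mul, one_mul] at this

theorem sv_mul (j : Fin nv) (p : Q k) : svZ k j * p ∈ svI k (j + 1) := fun d hd => by
  rw [svZ, coeff_monomial_mul', if_neg]
  simpa [Finsupp.single_le_iff] using hd j (by omega)

/-- Matrices with entries in `svI`. -/
def svM (k : Type*) [Field k] (κ ι : Type*) (n : ℕ) : Submodule (Q k) (Matrix κ ι (Q k)) where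
  carrier := {φ | ∀ a b, φ a b ∈ svI k n}
  zero_mem' _ _ := zero_mem _
  add_mem' hp hq a b := add_mem (hp a b) (hq a b)
  smul_mem' c _ hp a b := Ideal.mul_mem_left _ c (hp a b)

theorem svM_succ {n : ℕ} : svM k κ ι n ≤ svM k κ ι (n + 1) :=
  fun _ h a b d hd => h a b d fun j hj => hd j (by omega)

theorem svM_zero {φ : Matrix κ ι (Q k)} (h : φ ∈ svM k κ ι 0) : φ = 0 :=
  Matrix.ext fun a b => MvPolynomial.ext _ _ fun d => h a b d (by simp)

theorem svM_div (j : Fin nv) {ν : ι → G} {μ : κ → G} {γ : G} {φ : Matrix κ ι (Q k)}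
    (h : Hg wX ν μ γ φ) (h' : φ ∈ svM k κ ι (j + 1)) :
    ∃ ψ, Hg wX ν μ (γ - (6, 0)) ψ ∧ φ - svZ k j • ψ ∈ svM k κ ι j :=
  ⟨φ.map fun p => p.divMonomial (Finsupp.single j 3),
    fun a b => IsWH.cast (sv_div_hom j (h a b)) (by abel), fun a b => sv_div j (h' a b)⟩

variable [Fintype ι] [Fintype κ]

/-- The differential of the Hom complex. -/
noncomputable def svB (D : Matrix ι ι (Q k)) (D' : Matrix κ κ (Q k)) (s : ℤˣ) :
    Matrix κ ι (Q k) →ₗ[Q k] Matrix κ ι (Q k) where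
  toFun h := D' * h + s • (h * D)
  map_add' a b := by rw [Matrix.mul_add, Matrix.add_mul, smul_add]; abel
  map_smul' c a := by
    rw [Matrix.mul_smul, Matrix.smul_mul, smul_add, smul_comm s c, RingHom.id_apply]

theorem svB_apply (D : Matrix ι ι (Q k)) (D' : Matrix κ κ (Q k)) (s : ℤˣ) (h : Matrix κ ι (Q k)) :
    svB D D' s h = D' * h + s • (h * D) := rfl

variable {f : Q k} {ν : ι → G} {D : Matrix ι ι (Q k)} {μ : κ → G} {D' : Matrix κ κ (Q k)}

theorem svM_mul_left {ρ : Type*} {n : ℕ} {φ : Matrix κ ι (Q k)} (h : φ ∈ svM k κ ι n)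
    (A : Matrix ρ κ (Q k)) : A * φ ∈ svM k ρ ι n := fun a b => by
  rw [Matrix.mul_apply]
  exact sum_mem fun c _ => Ideal.mul_mem_left _ _ (h c b)

theorem svM_mul_right {ρ : Type*} {n : ℕ} {φ : Matrix κ ι (Q k)} (h : φ ∈ svM k κ ι n)
    (A : Matrix ι ρ (Q k)) : φ * A ∈ svM k κ ρ n := fun a b => by
  rw [Matrix.mul_apply]
  exact sum_mem fun c _ => Ideal.mul_mem_right _ _ (h a c)

theorem svB_mem {n : ℕ} {φ : Matrix κ ι (Q k)} (h : φ ∈ svM k κ ι n) (s : ℤˣ) :
    svB D D' s φ ∈ svM k κ ι n :=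
  add_mem (svM_mul_left h _) (Submodule.smul_of_tower_mem _ _ (svM_mul_right h _))

theorem svB_iff {s : ℤˣ} {φ : Matrix κ ι (Q k)} : svB D D' (-s) φ = 0 ↔ Closed s D D' φ := by
  rw [svB_apply, Units.neg_smul, ← sub_eq_add_neg, sub_eq_zero, Closed]

theorem svB_trace (s : ℤˣ) (h : Matrix κ ι (Q k)) (ψ : Matrix ι κ (Q k)) :
    trace (svB D D' s h * ψ) = s • trace (h * svB D' D s ψ) := by
  rw [svB_apply, svB_apply, Matrix.add_mul, Matrix.mul_add, Matrix.smul_mul, Matrix.mul_smul,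
    trace_add, trace_add, trace_smul, trace_smul, smul_add, smul_smul, Int.units_mul_self,
    one_smul, Matrix.mul_assoc, trace_mul_comm D', Matrix.mul_assoc, Matrix.mul_assoc, add_comm]

/-- Acyclicity modulo `svI n` in all degrees of class `r`. -/
def svA (n : ℕ) (r : ZMod 3) (ν : ι → G) (D : Matrix ι ι (Q k)) (μ : κ → G)
    (D' : Matrix κ κ (Q k)) : Prop :=
  ∀ γ, cls γ = r → ∀ s φ, Hg wX ν μ γ φ → svB D D' (-s) φ ∈ svM k κ ι n →
    ∃ h, Hg wX ν μ (γ - cG) h ∧ φ - svB D D' s h ∈ svM k κ ι n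

theorem svA_zero {r : ZMod 3} : svA 0 r ν D μ D' ↔ Van wX r ν D μ D' :=
  ⟨fun H γ hγ s φ h1 h2 => (H γ hγ s φ h1 (svB_iff.2 h2 ▸ zero_mem _)).imp fun _ h =>
      ⟨h.1, sub_eq_zero.1 (svM_zero h.2)⟩,
    fun H γ hγ s φ h1 h2 => (H γ hγ s φ h1 (svB_iff.1 (svM_zero h2))).imp fun _ h =>
      ⟨h.1, by rw [svB_apply, ← h.2, sub_self]; exact zero_mem _⟩⟩

/-- The socle exponent. -/
noncomputable def svT : Fin nv →₀ ℕ := Finsupp.equivFunOnFinite.symm fun _ => 2

theorem svT_weight : Finsupp.weight wX svT = (4 * (nv : ℤ), 0) := by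
  rw [Finsupp.weight_apply, Finsupp.sum_fintype _ _ (by simp)]
  simp [svT, wX, mul_comm]

theorem le_svT {d : Fin nv →₀ ℕ} : d ≤ svT ↔ ∀ j : Fin nv, j.val < nv → d j < 3 :=
  forall_congr' fun j => by simp [svT, Nat.lt_succ_iff]

theorem sv_tr_zero {φ : Matrix κ κ (Q k)} (h : φ ∈ svM k κ κ nv) : coeff svT (trace φ) = 0 :=
  (sum_mem fun a _ => h a a : trace φ ∈ svI k nv) _ (le_svT.1 le_rfl)

theorem sv_dual_poly (l : Q k →ₗ[k] k) (h : ∀ p ∈ svI k nv, l p = 0) :
    ∃ q, ∀ p, l p = coeff svT (p * q) := by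
  refine ⟨∑ d ∈ Finset.Iic svT, monomial (svT - d) (l (monomial d 1)), fun p => ?_⟩
  induction p using MvPolynomial.induction_on' with
  | add p q hp hq => rw [map_add, add_mul, coeff_add, hp, hq]
  | monomial e c =>
    rw [coeff_monomial_mul']
    split_ifs with he
    · rw [coeff_sum, Finset.sum_eq_single e (fun d hd h' => by
        rw [coeff_monomial, if_neg fun h => h' ((tsub_right_inj (Finset.mem_Iic.1 hd) he).1 h)])
        (fun h => absurd (Finset.mem_Iic.2 he) h), coeff_monomial, if_pos rfl, ← smul_eq_mul,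
        ← map_smul, smul_monomial, smul_eq_mul, mul_one]
    · exact h _ fun d hd => by
        rw [coeff_monomial, if_neg fun e' : e = d => he (e' ▸ le_svT.2 hd)]

variable [DecidableEq ι] [DecidableEq κ]

theorem sv_dual (l : Matrix κ ι (Q k) →ₗ[k] k) (h : ∀ φ ∈ svM k κ ι nv, l φ = 0) (γ : G) :
    ∃ ψ, Hg wX μ ν ((4 * (nv : ℤ), 0) - γ) ψ ∧ ∀ φ, Hg wX ν μ γ φ → l φ = coeff svT (trace (φ * ψ)) := by
  choose q hq using fun a b => sv_dual_poly (l ∘ₗ singleLinearMap k a b) fun p hp =>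
    h _ fun a' b' => by
      simp only [singleLinearMap_apply, single_apply]
      split_ifs
      exacts [hp, zero_mem _]
  refine ⟨prj wX μ ν _ (Matrix.of fun b a => q a b), hg_prj _, fun φ hφ => ?_⟩
  rw [← prj_mul_left hφ (add_sub_cancel _ _)]
  conv_lhs => rw [matrix_eq_sum_single φ]
  simp only [map_sum, trace, diag_apply, coeff_sum, prj, of_apply, add_sub_cancel_left,
    coeff_weightedHomogeneousComponent, svT_weight, if_true, Matrix.mul_apply]
  exact Finset.sum_congr rfl fun a _ => Finset.sum_congr rfl fun b _ => hq a b _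

theorem sv_nondeg {γ : G} {ξ : Matrix ι κ (Q k)} (h : Hg wX μ ν ((4 * (nv : ℤ), 0) - γ) ξ)
    (h' : ∀ φ, Hg wX ν μ γ φ → coeff svT (trace (φ * ξ)) = 0) : ξ ∈ svM k ι κ nv :=
  fun b a d hd => by_contra fun h0 => by
    have h1 := h' (single a b (monomial (svT - d) 1)) fun a' b' => by
      rw [single_apply]
      split_ifs with e
      · refine isWeightedHomogeneous_monomial _ _ _ ?_
        have := congrArg (Finsupp.weight wX) (tsub_add_cancel_of_le (le_svT.2 hd))
        rw [map_add, h b a h0, svT_weight] at this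
        rw [← e.1, ← e.2, eq_sub_of_add_eq this]
        abel
      · exact isWeightedHomogeneous_zero _ _ _
    rw [trace_single_mul, smul_eq_mul, coeff_monomial_mul', if_pos tsub_le_self,
      tsub_tsub_cancel_of_le (le_svT.2 hd), one_mul] at h1
    exact h0 h1

variable (h : IsMF wX cG f ν D) (h' : IsMF wX cG f μ D')
include h h'

theorem svB_svB (s : ℤˣ) (φ : Matrix κ ι (Q k)) : svB D D' (-s) (svB D D' s φ) = 0 :=
  svB_iff.2 (closed_bd h.2 h'.2 s φ)

theorem svB_hg (s : ℤˣ) {γ : G} {φ : Matrix κ ι (Q k)} (hφ : Hg wX ν μ γ φ) :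
    Hg wX ν μ (γ + cG) (svB D D' s φ) :=
  (h'.1.mul hφ (add_comm _ _)).add ((hφ.mul h.1 rfl).units_smul s)

theorem svA_down (j : Fin nv) {r : ZMod 3} (H : svA j r ν D μ D') : svA (j + 1) r ν D μ D' := by
  intro γ hγ s φ h1 h2
  obtain ⟨ψ, h3, h4⟩ := svM_div j (svB_hg h h' (-s) h1) h2
  have h5 := svB_mem (D := D) (D' := D') h4 (- -s)
  rw [map_sub, svB_svB h h', zero_sub, neg_mem_iff, map_smul] at h5
  obtain ⟨χ, h6, h7⟩ := H _ (by rw [cls_sub, cls_add, hγ, cls_cG]; simp [cls]; rfl) (-s) ψ h3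
    fun a b => sv_cancel j (h5 a b)
  obtain ⟨g, h8, h9⟩ := H γ hγ s (φ - svZ k j • χ) (h1.sub (h6.smul (svZ_hom j) (by abel))) (by
    convert add_mem h4 (Submodule.smul_mem _ (svZ k j) h7) using 1
    rw [map_sub, map_smul, smul_sub]
    abel)
  refine ⟨g, h8, ?_⟩
  convert add_mem (svM_succ h9) (show svZ k j • χ ∈ _ from fun a b => sv_mul j _) using 1
  abel

theorem svA_up (j : Fin nv) {r : ZMod 3} (H : svA (j + 1) r ν D μ D') : svA j r ν D μ D' := by
  obtain ⟨B, hB⟩ := Hg.exists_bound (k := k) N1 N1_wX ν μ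
  suffices ∀ m : ℕ, ∀ γ : G, γ.1 < B + m → cls γ = r → ∀ s φ, Hg wX ν μ γ φ →
      svB D D' (-s) φ ∈ svM k κ ι j → ∃ h, Hg wX ν μ (γ - cG) h ∧ φ - svB D D' s h ∈ svM k κ ι j
    from fun γ => this (γ.1 - B + 1).toNat γ (by omega)
  intro m
  induction m with
  | zero => exact fun γ h0 _ s φ h1 _ => ⟨0, Hg.zero, by simp [hB γ φ (by simpa using h0) h1]⟩
  | succ m ih =>
    intro γ h0 hγ s φ h1 h2
    obtain ⟨g, h3, h4⟩ := H γ hγ s φ h1 (svM_succ h2)
    obtain ⟨ψ, h5, h6⟩ := svM_div j (h1.sub ((svB_hg h h' s h3).cast (by abel))) h4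
    have h7 := sub_mem h2 (svB_mem (D := D) (D' := D') h6 (-s))
    rw [map_sub, map_sub, svB_svB h h', sub_zero, sub_sub_cancel, map_smul] at h7
    obtain ⟨g', h8, h9⟩ := ih (γ - (6, 0)) (by simp only [Prod.fst_sub]; omega)
      (by rw [cls_sub, hγ]; simp [cls]; rfl) s ψ h5 fun a b => sv_cancel j (h7 a b)
    refine ⟨g + svZ k j • g', h3.add (h8.smul (svZ_hom j) (by abel)), ?_⟩
    convert add_mem h6 (Submodule.smul_mem _ (svZ k j) h9) using 1
    rw [map_add, map_smul, smul_sub]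
    abel

theorem svA_five {r : ZMod 3} : svA 0 r ν D μ D' ↔ svA nv r ν D μ D' := by
  suffices ∀ j ≤ nv, svA 0 r ν D μ D' ↔ svA j r ν D μ D' from this nv le_rfl
  intro j
  induction j with
  | zero => exact fun _ => Iff.rfl
  | succ j ih =>
    exact fun hj => (ih (by omega)).trans ⟨svA_down h h' ⟨j, hj⟩, svA_up h h' ⟨j, hj⟩⟩

theorem svA_dual (H : svA nv 0 μ D' ν D) : svA nv (nv : ZMod 3) ν D μ D' := by
  intro γ hγ s φ h1 h2
  by_contra h3
  let U : Submodule k (Matrix κ ι (Q k)) :=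
    { carrier := {g | Hg wX ν μ (γ - cG) g}
      zero_mem' := Hg.zero
      add_mem' := Hg.add
      smul_mem' := fun c _ hg => hg.k_smul c }
  obtain ⟨l, l1, l2⟩ := Submodule.exists_dual_map_eq_bot_of_notMem (x := φ)
    (p := U.map ((svB D D' s).restrictScalars k) ⊔ (svM k κ ι nv).restrictScalars k) (fun h4 => by
      obtain ⟨_, ⟨g, g1, rfl⟩, y, y1, rfl⟩ := Submodule.mem_sup.1 h4
      exact h3 ⟨g, g1, by simpa using y1⟩) inferInstance
  have l3 : ∀ x ∈ _, l x = 0 := fun x hx => l2.le (Submodule.mem_map_of_mem hx)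
  obtain ⟨ψ, h4, h5⟩ := sv_dual (μ := μ) (ν := ν) l (fun x hx => l3 x (Submodule.mem_sup_right hx)) γ
  obtain ⟨χ, -, h6⟩ := H _ (by
    rw [cls_sub, hγ]
    simp only [cls, Int.cast_mul, Int.cast_natCast, sub_zero]
    rw [show ((4 : ℤ) : ZMod 3) = 1 from rfl, one_mul, sub_self]) (-s) ψ h4 (by
    rw [neg_neg]
    refine sv_nondeg (γ := γ - cG) ((svB_hg h' h s h4).cast (by abel)) fun g hg => ?_
    have := l3 _ (Submodule.mem_sup_left (Submodule.mem_map_of_mem hg))
    rwa [LinearMap.restrictScalars_apply, h5 _ ((svB_hg h h' s hg).cast (by abel)), svB_trace,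
      coeff_smul, smul_eq_zero_iff_eq] at this)
  have h7 := sv_tr_zero (svM_mul_right h2 χ)
  have h8 := sv_tr_zero (svM_mul_left h6 φ)
  rw [svB_trace, coeff_smul, smul_eq_zero_iff_eq] at h7
  rw [Matrix.mul_sub, trace_sub, coeff_sub, h7, sub_zero, ← h5 φ h1] at h8
  exact l1 h8

omit h h'

theorem van_serre {f : Q k} {ν : ι → G} {D : Matrix ι ι (Q k)} {μ : κ → G}
    {D' : Matrix κ κ (Q k)} (h : IsMF wX cG f ν D) (h' : IsMF wX cG f μ D')
    (H : Van wX 0 μ D' ν D) : Van wX (nv : ZMod 3) ν D μ D' :=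
  svA_zero.1 ((svA_five h h').2 (svA_dual h h' ((svA_five h' h).1 (svA_zero.2 H))))

end Pool.Agent.Lib.MP_0ba2dd_ag.N
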