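import Pool.Agent.Lib.MP_0ba2dd_ag.N.H45Nak

/-! TL: a semiorthogonal triangle at `y = 0` deforms along `y`. -/

namespace Pool.Agent.Lib.MP_0ba2dd_ag.N

variable [Dim]

open MvPolynomial Matrix

variable {k : Type*} [Field k] {ι κ : Type*} [Fintype ι] [Fintype κ]
  [DecidableEq ι] [DecidableEq κ]

/-- The lower left block after conjugation by `fromBlocks 1 0 g 1`. -/
def triE {R : Type*} [CommRing R] (A : Matrix ι ι R) (B : Matrix ι κ R) (E : Matrix κ ι R)
    (D : Matrix κ κ R) (g : Matrix κ ι R) : Matrix κ ι R :=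
  E + g * A - D * g - g * B * g

theorem tri_conj {R : Type*} [CommRing R] (A : Matrix ι ι R) (B : Matrix ι κ R)
    (E : Matrix κ ι R) (D : Matrix κ κ R) (g : Matrix κ ι R) :
    fromBlocks 1 0 g 1 * fromBlocks A B E D =
      fromBlocks (A - B * g) B (triE A B E D g) (D + g * B) * fromBlocks 1 0 g 1 := by
  rw [fromBlocks_multiply, fromBlocks_multiply]
  simp only [triE, Matrix.one_mul, Matrix.mul_one, Matrix.zero_mul, Matrix.mul_zero, add_zero,
    zero_add, Matrix.add_mul]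
  congr 1 <;> abel

theorem tri_inv {R : Type*} [CommRing R] (g : Matrix κ ι R) :
    (fromBlocks 1 0 g 1 * fromBlocks 1 0 (-g) 1 : Matrix (ι ⊕ κ) (ι ⊕ κ) R) = 1 := by
  rw [fromBlocks_multiply, ← fromBlocks_one]
  simp

omit [DecidableEq ι] [DecidableEq κ] in
theorem triE_add {R : Type*} [CommRing R] (A : Matrix ι ι R) (B : Matrix ι κ R)
    (E : Matrix κ ι R) (D : Matrix κ κ R) (g g' : Matrix κ ι R) :
    triE A B E D (g + g') = triE (A - B * g) B (triE A B E D g) (D + g * B) g' := by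
  simp only [triE, Matrix.add_mul, Matrix.mul_add, Matrix.mul_sub, Matrix.mul_assoc]
  abel

theorem tri_isMF {W : S k} {ν : ι → G} {μ : κ → G} {A : Matrix ι ι (S k)}
    {B : Matrix ι κ (S k)} {E : Matrix κ ι (S k)} {D : Matrix κ κ (S k)}
    (h : IsMF wS cG W (Sum.elim ν μ) (fromBlocks A B E D)) {g : Matrix κ ι (S k)}
    (hg : Hg wS ν μ 0 g) :
    IsMF wS cG W (Sum.elim ν μ) (fromBlocks (A - B * g) B (triE A B E D g) (D + g * B)) := by
  have e : fromBlocks (A - B * g) B (triE A B E D g) (D + g * B) =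
      fromBlocks 1 0 g 1 * fromBlocks A B E D * fromBlocks 1 0 (-g) 1 := by
    rw [tri_conj, Matrix.mul_assoc, tri_inv, Matrix.mul_one]
  have e' : (fromBlocks 1 0 (-g) 1 * fromBlocks 1 0 g 1 : Matrix (ι ⊕ κ) (ι ⊕ κ) (S k)) = 1 := by
    simpa using tri_inv (-g)
  rw [e]
  refine ⟨((Hg.one.fromBlocks Hg.zero hg Hg.one).mul h.1 (zero_add _)).mul
    (Hg.one.fromBlocks Hg.zero hg.neg Hg.one) (add_zero _), ?_⟩
  calc _ = fromBlocks 1 0 g 1 * (fromBlocks A B E D * (fromBlocks 1 0 (-g) 1 *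
        fromBlocks 1 0 g 1) * fromBlocks A B E D) * fromBlocks 1 0 (-g) 1 := by
        simp only [Matrix.mul_assoc]
    _ = _ := by
        rw [e', Matrix.mul_one, h.2, Matrix.mul_smul, Matrix.mul_one, Matrix.smul_mul, tri_inv]

theorem tri_blocks {R : Type*} [CommRing R] {W : R} {A : Matrix ι ι R}
    {B : Matrix ι κ R} {E : Matrix κ ι R} {D : Matrix κ κ R}
    (h : fromBlocks A B E D * fromBlocks A B E D = W • (1 : Matrix (ι ⊕ κ) (ι ⊕ κ) R)) :
    A * A + B * E = W • (1 : Matrix ι ι R) ∧ A * B + B * D = 0 ∧ E * A + D * E = 0 ∧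
      E * B + D * D = W • (1 : Matrix κ κ R) := by
  rw [fromBlocks_multiply, ← fromBlocks_one, fromBlocks_smul, fromBlocks_inj] at h
  simpa using h

theorem Tn_y_self (n : Fin nv) : Tn (n : ℕ) (X (Sum.inr n) : S k) = X (Sum.inr n) := by
  simp [Tn]

theorem Tn_y_succ (n : Fin nv) : Tn ((n : ℕ) + 1) (X (Sum.inr n) : S k) = 0 := by
  simp [Tn]

theorem T0_y (n : Fin nv) : T0 (X (Sum.inr n) : S k) = 0 := by
  simp [T0]

omit [Fintype ι] [Fintype κ] [DecidableEq ι] [DecidableEq κ] in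
theorem tri_map_smul {R R' : Type*} [CommRing R] [CommRing R'] [Algebra k R] [Algebra k R']
    (φ : R →ₐ[k] R') (p : R) (M : Matrix κ ι R) : (p • M).map φ = φ p • M.map φ := by
  ext a b : 1
  simp

omit [Fintype ι] [Fintype κ] [DecidableEq ι] [DecidableEq κ] in
theorem tri_map_add {R R' : Type*} [CommRing R] [CommRing R'] [Algebra k R] [Algebra k R']
    (φ : R →ₐ[k] R') (M N : Matrix κ ι R) : (M + N).map φ = M.map φ + N.map φ := by
  ext a b : 1
  simp

omit [Fintype ι] [Fintype κ] [DecidableEq ι] [DecidableEq κ] in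
theorem tri_map_sub {R R' : Type*} [CommRing R] [CommRing R'] [Algebra k R] [Algebra k R']
    (φ : R →ₐ[k] R') (M N : Matrix κ ι R) : (M - N).map φ = M.map φ - N.map φ := by
  ext a b : 1
  simp

omit [Fintype ι] [Fintype κ] [DecidableEq ι] [DecidableEq κ] in
theorem tri_map_neg {R R' : Type*} [CommRing R] [CommRing R'] [Algebra k R] [Algebra k R']
    (φ : R →ₐ[k] R') (M : Matrix κ ι R) : (-M).map φ = -M.map φ := by
  ext a b : 1
  simp

omit [Fintype ι] [Fintype κ] [DecidableEq ι] [DecidableEq κ] in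
theorem tri_map_zero {R R' : Type*} [CommRing R] [CommRing R'] [Algebra k R] [Algebra k R']
    (φ : R →ₐ[k] R') : (0 : Matrix κ ι R).map φ = 0 := by
  ext a b : 1
  simp

omit [Fintype ι] [Fintype κ] [DecidableEq ι] [DecidableEq κ] in
theorem tri_cancel {z : S k} (hz : z ≠ 0) {M N : Matrix κ ι (S k)} (h : z • M = z • N) :
    M = N := by
  ext a b : 1
  exact mul_left_cancel₀ hz (by simpa using congrFun (congrFun h a) b)

omit [Fintype ι] [Fintype κ] [DecidableEq ι] [DecidableEq κ] in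
theorem tri_map_TnTn {m n : ℕ} (h : m ≤ n) (M : Matrix κ ι (S k)) :
    (M.map (Tn m)).map (Tn n) = M.map (Tn n) := by
  ext a b : 1
  exact (Tn_Tn h _).1

omit [Fintype ι] [Fintype κ] [DecidableEq ι] [DecidableEq κ] in
theorem tri_map_T0Tn (n : ℕ) (M : Matrix κ ι (S k)) : (M.map (Tn n)).map T0 = M.map T0 := by
  ext a b : 1
  exact T0_Tn _ _

omit [Fintype ι] [Fintype κ] [DecidableEq ι] [DecidableEq κ] in
theorem tri_div (n : Fin nv) {M : Matrix κ ι (S k)} (h : M.map (Tn ((n : ℕ) + 1)) = 0) :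
    ∃ N : Matrix κ ι (S k), M.map (Tn n) = (X (Sum.inr n) : S k) • N := by
  have : ∀ a b, ∃ q : S k, Tn n (M a b) = X (Sum.inr n) * q := fun a b =>
    Tn_succ_eq_zero n (congrFun (congrFun h a) b)
  choose q hq using this
  exact ⟨Matrix.of q, by ext a b : 1; simpa using hq a b⟩

theorem isWH_ypow (n : Fin nv) (m : ℕ) :
    ((X (Sum.inr n) : S k) ^ m).IsWeightedHomogeneous wS (m • ((2, 2) : G)) :=
  (isWeightedHomogeneous_X k wS (Sum.inr n)).pow m

theorem cls_tri (m : ℕ) : cls (cG - m • ((2, 2) : G)) = 0 := by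
  induction m with
  | zero => simpa using cls_cG
  | succ m ih =>
    rw [succ_nsmul, ← sub_sub, cls_sub, ih]
    decide

/-- One more order in the variable `y n`. -/
theorem tri_step {W : S k} {ν : ι → G} {μ : κ → G} {A : Matrix ι ι (S k)}
    {B : Matrix ι κ (S k)} {E : Matrix κ ι (S k)} {D : Matrix κ κ (S k)}
    (h : IsMF wS cG W (Sum.elim ν μ) (fromBlocks A B E D))
    (H : Van wX 0 ν (A.map T0) μ (D.map T0)) (n : Fin nv) (m : ℕ) {e : Matrix κ ι (S k)}
    (he : E.map (Tn n) = (X (Sum.inr n) : S k) ^ (m + 1) • e) :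
    ∃ g e' : Matrix κ ι (S k), Hg wS ν μ 0 g ∧ g.map T0 = 0 ∧
      (triE A B E D g).map (Tn n) = (X (Sum.inr n) : S k) ^ (m + 2) • e' := by
  set y : S k := X (Sum.inr n) with hy
  have y0 : y ^ (m + 1) ≠ 0 := pow_ne_zero _ (X_ne_zero _)
  have hyn : Tn (n : ℕ) y = y := Tn_y_self n
  have hyn' : Tn ((n : ℕ) + 1) y = 0 := Tn_y_succ n
  have hA : Hg wS ν ν cG A := fun a b => h.1 (Sum.inl a) (Sum.inl b)
  have hD : Hg wS μ μ cG D := fun a b => h.1 (Sum.inr a) (Sum.inr b)
  have hE : Hg wS ν μ cG E := fun a b => h.1 (Sum.inr a) (Sum.inl b)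
  obtain ⟨b1, -, b3, b4⟩ := tri_blocks h.2
  have inv : e.map (Tn n) = e := by
    refine tri_cancel y0 ?_
    rw [← he, ← tri_map_TnTn le_rfl E, he, tri_map_smul, map_pow, hyn]
  have hE1 : E.map (Tn ((n : ℕ) + 1)) = 0 := by
    rw [← tri_map_TnTn (Nat.le_succ _) E, he, tri_map_smul, map_pow, hyn']
    simp
  have he' : Hg wS ν μ (cG - (m + 1) • ((2, 2) : G)) e :=
    Hg.of_smul (isWH_ypow n (m + 1)) y0 (he ▸ hE.map_Tn n) (by abel)
  have mA : IsMF wS cG (Tn ((n : ℕ) + 1) W) ν (A.map (Tn ((n : ℕ) + 1))) := by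
    refine ⟨hA.map_Tn _, ?_⟩
    have := congrArg (fun M => M.map (Tn ((n : ℕ) + 1) : S k →ₐ[k] S k)) b1
    simp only [tri_map_add, Matrix.map_mul, hE1, Matrix.mul_zero, add_zero, tri_map_smul] at this
    rw [this, Matrix.map_one _ (map_zero _) (map_one _)]
  have mD : IsMF wS cG (Tn ((n : ℕ) + 1) W) μ (D.map (Tn ((n : ℕ) + 1))) := by
    refine ⟨hD.map_Tn _, ?_⟩
    have := congrArg (fun M => M.map (Tn ((n : ℕ) + 1) : S k →ₐ[k] S k)) b4
    simp only [tri_map_add, Matrix.map_mul, hE1, Matrix.zero_mul, zero_add, tri_map_smul] at this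
    rw [this, Matrix.map_one _ (map_zero _) (map_one _)]
  have c0 : e * A.map (Tn n) + D.map (Tn n) * e = 0 := by
    refine tri_cancel y0 ?_
    have := congrArg (fun M => M.map (Tn (n : ℕ) : S k →ₐ[k] S k)) b3
    simp only [tri_map_add, Matrix.map_mul, he, tri_map_zero] at this
    rw [smul_add, smul_zero, ← this, Matrix.smul_mul, Matrix.mul_smul]
  have c1 : Closed (-1) (A.map (Tn ((n : ℕ) + 1))) (D.map (Tn ((n : ℕ) + 1)))
      (e.map (Tn ((n : ℕ) + 1))) := by
    have := congrArg (fun M => M.map (Tn ((n : ℕ) + 1) : S k →ₐ[k] S k)) c0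
    simp only [tri_map_add, Matrix.map_mul, tri_map_zero,
      tri_map_TnTn (Nat.le_succ (n : ℕ))] at this
    unfold Closed
    rw [Units.neg_smul, one_smul]
    exact eq_neg_of_add_eq_zero_right this
  have HV := van_of_T0 mA mD 0 (by rwa [tri_map_T0Tn, tri_map_T0Tn])
  obtain ⟨a, ha, ea⟩ := HV _ (cls_tri (m + 1)) (-1) _ (he'.map_Tn _) c1
  have k1 : (e + a * A - D * a).map (Tn ((n : ℕ) + 1)) = 0 := by
    have := congrArg (fun M => M.map (Tn ((n : ℕ) + 1) : S k →ₐ[k] S k)) ea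
    simp only [Units.neg_smul, one_smul, tri_map_add, tri_map_neg, Matrix.map_mul,
      tri_map_TnTn (le_refl ((n : ℕ) + 1))] at this
    rw [tri_map_sub, tri_map_add, Matrix.map_mul, Matrix.map_mul, this]
    abel
  obtain ⟨N, hN⟩ := tri_div n k1
  refine ⟨y ^ (m + 1) • a, N - y ^ m • (a * B * a).map (Tn n),
    ha.smul (isWH_ypow n (m + 1)) (by abel), ?_, ?_⟩
  · rw [tri_map_smul, map_pow, hy, T0_y]
    simp
  · rw [tri_map_sub, tri_map_add, inv, ← hy] at hN
    simp only [triE, Matrix.smul_mul, Matrix.mul_smul, tri_map_sub, tri_map_add, tri_map_smul,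
      map_pow, hyn, he]
    rw [← smul_add, ← smul_sub, hN, smul_sub]
    simp only [smul_smul]
    congr 2
    ring

/-- Killing the lower left block order by order in `y`. -/
theorem triangularise {W : S k} {ν : ι → G} {μ : κ → G} {A : Matrix ι ι (S k)}
    {B : Matrix ι κ (S k)} {E : Matrix κ ι (S k)} {D : Matrix κ κ (S k)}
    (h : IsMF wS cG W (Sum.elim ν μ) (fromBlocks A B E D)) (hE : E.map T0 = 0)
    (H : Van wX 0 ν (A.map T0) μ (D.map T0)) :
    ∃ (A' : Matrix ι ι (S k)) (D' : Matrix κ κ (S k)) (g : Matrix κ ι (S k)),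
      Hg wS ν μ 0 g ∧ g.map T0 = 0 ∧ A' = A - B * g ∧ D' = D + g * B ∧
      fromBlocks 1 0 g 1 * fromBlocks A B E D = fromBlocks A' B 0 D' * fromBlocks 1 0 g 1 := by
  have step : ∀ n : Fin nv,
      (∃ g : Matrix κ ι (S k), Hg wS ν μ 0 g ∧ g.map T0 = 0 ∧
        (triE A B E D g).map (Tn ((n : ℕ) + 1)) = 0) →
      ∃ g : Matrix κ ι (S k), Hg wS ν μ 0 g ∧ g.map T0 = 0 ∧
        (triE A B E D g).map (Tn (n : ℕ)) = 0 := by
    rintro n ⟨g0, hg0, tg0, eg0⟩
    have ord : ∀ m : ℕ, ∃ g e : Matrix κ ι (S k), Hg wS ν μ 0 g ∧ g.map T0 = 0 ∧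
        (triE A B E D g).map (Tn n) = (X (Sum.inr n) : S k) ^ (m + 1) • e := by
      intro m
      induction m with
      | zero =>
        obtain ⟨N, hN⟩ := tri_div n eg0
        exact ⟨g0, N, hg0, tg0, by simpa using hN⟩
      | succ m ih =>
        obtain ⟨g, e, hg, tg, eg⟩ := ih
        obtain ⟨g', e', hg', tg', eg'⟩ := tri_step (tri_isMF h hg) (by
          rwa [tri_map_sub, tri_map_add, Matrix.map_mul, Matrix.map_mul, tg, Matrix.mul_zero,
            Matrix.zero_mul, sub_zero, add_zero]) n m eg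
        exact ⟨g + g', e', hg.add hg', by rw [tri_map_add, tg, tg', add_zero],
          by rw [triE_add]; exact eg'⟩
    obtain ⟨Bd, hBd⟩ := Hg.exists_bound (k := k) N1 N1_wS ν μ
    obtain ⟨g, e, hg, tg, eg⟩ := ord (3 - Bd).toNat
    refine ⟨g, hg, tg, ?_⟩
    have hE' : Hg wS ν μ cG (triE A B E D g) :=
      fun a b => (tri_isMF h hg).1 (Sum.inr a) (Sum.inl b)
    have he' : Hg wS ν μ (cG - ((3 - Bd).toNat + 1) • ((2, 2) : G)) e :=
      Hg.of_smul (isWH_ypow n _) (pow_ne_zero _ (X_ne_zero _)) (eg ▸ hE'.map_Tn n) (by abel)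
    rw [eg, hBd _ e ?_ he', smul_zero]
    simp only [N1_apply, cG, Prod.fst_sub, Prod.smul_fst]
    rw [nsmul_eq_mul]
    push_cast
    omega
  have all : ∀ j : ℕ, j ≤ nv → ∃ g : Matrix κ ι (S k), Hg wS ν μ 0 g ∧ g.map T0 = 0 ∧
      (triE A B E D g).map (Tn (nv - j)) = 0 := by
    intro j
    induction j with
    | zero =>
      intro _
      refine ⟨0, Hg.zero, tri_map_zero _, ?_⟩
      ext a b : 1
      have := congrFun (congrFun hE a) b
      simp only [Matrix.map_apply, Matrix.zero_apply] at this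
      simp [triE, Tn_five, this]
    | succ j ih =>
      intro hj
      have := step ⟨nv - (j + 1), by omega⟩ (by
        have e : nv - (j + 1) + 1 = nv - j := by omega
        simp only [e]
        exact ih (by omega))
      exact this
  obtain ⟨g, hg, tg, eg⟩ := all nv le_rfl
  have e0 : triE A B E D g = 0 := by
    ext a b : 1
    have := congrFun (congrFun eg a) b
    simpa [Tn_zero] using this
  exact ⟨_, _, g, hg, tg, rfl, rfl, by rw [tri_conj, e0]⟩

/-- SODlift. `P = (ν, D)` over `S`, and a map `u : b → P|_{y=0}` whose cone is right orthogonal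
to `b`. -/
theorem sod_lift {f : Q k} (hf : f.IsHomogeneous 3) {ν : ι → G} {D : Matrix ι ι (S k)}
    (h : IsMF wS cG (inX f - inY f) ν D) {β : κ → G} {Db : Matrix κ κ (Q k)}
    (hb : IsMF wX cG f β Db) {u : Matrix ι κ (Q k)} (hu : Hg wX β ν 0 u)
    (cu : Closed 1 Db (D.map T0) u)
    (H : Van wX 0 β Db (coneν cG β ν) (coneD Db (D.map T0) u)) :
    ∃ (DB : Matrix κ κ (S k)) (DA : Matrix (ι ⊕ κ) (ι ⊕ κ) (S k)) (i : Matrix ι κ (S k))
      (p : Matrix (ι ⊕ κ) ι (S k)),
      IsMF wS cG (inX f - inY f) β DB ∧ IsMF wS cG (inX f - inY f) (coneν cG β ν) DA ∧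
      DB.map T0 = Db ∧ DA.map T0 = coneD Db (D.map T0) u ∧
      Hg wS β ν 0 i ∧ Closed 1 DB D i ∧ Hg wS ν (coneν cG β ν) 0 p ∧ Closed 1 D DA p ∧
      ∀ l : S k, l.IsWeightedHomogeneous wS (2, 0) →
        Acyc wS cG (5, 0) (coneν cG β ν) DA β DB →
        ∃ (s : Matrix ι (ι ⊕ κ) (S k)) (r : Matrix κ ι (S k)),
          Hg wS (coneν cG β ν) ν (2, 0) s ∧ Closed 1 DA D s ∧ Hg wS ν β (2, 0) r ∧
          Closed 1 D DB r ∧ l • (1 : Matrix ι ι (S k)) = s * p + i * r := by
  obtain ⟨W, hW⟩ : ∃ W : S k, W = inX f - inY f := ⟨_, rfl⟩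
  rw [← hW] at h ⊢
  obtain ⟨A, hA⟩ : ∃ A : Matrix κ κ (S k), A = Db.map inX := ⟨_, rfl⟩
  obtain ⟨u', hu'⟩ : ∃ u' : Matrix ι κ (S k), u' = u.map inX := ⟨_, rfl⟩
  obtain ⟨B, hB⟩ : ∃ B : Matrix κ (ι ⊕ κ) (S k), B = fromCols 0 (-1) := ⟨_, rfl⟩
  obtain ⟨E, hE⟩ : ∃ E : Matrix (ι ⊕ κ) κ (S k),
    E = fromRows (D * u' - u' * A) (inY f • (1 : Matrix κ κ (S k))) := ⟨_, rfl⟩
  have mA : IsMF wS cG (inX f) β A := hA ▸ hb.map_alg inX hb.1.map_inX
  have gu : Hg wS β ν 0 u' := hu' ▸ hu.map_inX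
  have gf : (inY f).IsWeightedHomogeneous wS (cG + cG) :=
    IsWH.cast (isWH_inY (isWH_wQ_iff.mpr hf)) (by decide)
  have gB : Hg wS (coneν cG β ν) β cG B := hB ▸
    Hg.fromCols Hg.zero ((Hg.one (ν := β)).neg.of_eq (fun a b => by abel))
  have gE : Hg wS β (coneν cG β ν) cG E := hE ▸
    Hg.fromRows ((h.1.mul gu (add_zero _)).sub (gu.mul mA.1 (zero_add _)))
      ((Hg.smul_one (ν := β) gf).of_eq (fun a b => by abel))
  have gC : Hg wS (coneν cG β ν) (coneν cG β ν) cG (coneD A D u') :=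
    Hg.fromBlocks h.1 (gu.of_eq (fun a b => by abel)) Hg.zero
      (mA.1.neg.of_eq (fun a b => by abel))
  have tA : A.map T0 = Db := by
    ext a b : 1; simp [hA, T0_inX]
  have tu : u'.map T0 = u := by
    ext a b : 1; simp [hu', T0_inX]
  have tC : (coneD A D u').map T0 = coneD Db (D.map T0) u := by
    rw [coneD, coneD, fromBlocks_map, tri_map_neg, tA, tu, tri_map_zero]
  have tE : E.map T0 = 0 := by
    have f0 : constantCoeff f = 0 :=
      IsWH.constantCoeff_eq_zero (isWH_wQ_iff.mpr hf) (by decide)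
    unfold Closed at cu
    rw [hE, fromRows_map, tri_map_sub, Matrix.map_mul, Matrix.map_mul, tA, tu, cu, one_smul,
      sub_self, tri_map_smul, T0_inY, f0, map_zero, zero_smul, fromRows_zero]
  have mM : IsMF wS cG W (Sum.elim β (coneν cG β ν)) (fromBlocks A B E (coneD A D u')) := by
    refine ⟨mA.1.fromBlocks gB gE gC, ?_⟩
    rw [fromBlocks_multiply, ← fromBlocks_one, fromBlocks_smul, smul_zero, smul_zero]
    congr 1
    · rw [hB, hE, fromCols_mul_fromRows, mA.2, hW, sub_smul]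
      simp [sub_eq_add_neg]
    · rw [hB, coneD, mul_fromCols, fromCols_mul_fromBlocks]
      ext a (b | b) <;> simp
    · rw [hE, coneD, fromRows_mul, fromBlocks_mul_fromRows]
      have e1 : (D * u' - u' * A) * A +
          (D * (D * u' - u' * A) + u' * (inY f • (1 : Matrix κ κ (S k)))) = 0 := by
        rw [Matrix.sub_mul, Matrix.mul_sub, Matrix.mul_assoc u', mA.2, ← Matrix.mul_assoc D D,
          h.2, Matrix.mul_assoc D u' A, hW, sub_smul]
        simp only [Matrix.mul_smul, Matrix.mul_one, Matrix.sub_mul, Matrix.smul_mul,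
          Matrix.one_mul]
        abel
      ext (a | a) b : 1
      · simpa using congrFun (congrFun e1 a) b
      · simp
    · rw [hB, hE, coneD, fromRows_mul_fromCols, fromBlocks_multiply, fromBlocks_add,
        ← fromBlocks_one, fromBlocks_smul, h.2, neg_mul_neg, mA.2, hW, sub_smul]
      congr 1
      · simp
      · simp only [Matrix.mul_neg, Matrix.mul_one, smul_zero]
        abel
      · simp
      · simp only [Matrix.mul_neg, Matrix.mul_one, Matrix.zero_mul, zero_add, sub_smul]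
        abel
  obtain ⟨DB, DA, g, hg, tg, eB, eA, cj⟩ := triangularise mM tE (by rwa [tA, tC])
  have mM' := tri_isMF mM hg
  have e0 : triE A B E (coneD A D u') g = 0 := by
    have h1 := tri_conj A B E (coneD A D u') g
    rw [cj, ← eB, ← eA] at h1
    have h2 := congrArg (· * (fromBlocks 1 0 (-g) 1)) h1
    simp only [Matrix.mul_assoc, tri_inv, Matrix.mul_one, fromBlocks_inj] at h2
    exact h2.2.2.1.symm
  rw [e0, ← eB, ← eA] at mM'
  obtain ⟨b1, b2, -, b4⟩ := tri_blocks mM'.2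
  rw [Matrix.mul_zero, add_zero] at b1
  rw [Matrix.zero_mul, zero_add] at b4
  have gDB : Hg wS β β cG DB := fun a b => mM'.1 (Sum.inl a) (Sum.inl b)
  have gDA : Hg wS (coneν cG β ν) (coneν cG β ν) cG DA :=
    fun a b => mM'.1 (Sum.inr a) (Sum.inr b)
  obtain ⟨i, hi⟩ : ∃ i : Matrix ι κ (S k), i = u' - g.toRows₁ := ⟨_, rfl⟩
  have gi : Hg wS β ν 0 i := hi ▸ gu.sub hg.toRows₁
  have eDA : DA = fromBlocks D i 0 (-DB) := by
    rw [eA, eB, ← fromRows_toRows g, hB, fromCols_mul_fromRows, fromRows_mul_fromCols, coneD,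
      fromBlocks_add, hi]
    congr 1 <;> simp [sub_eq_add_neg, add_comm]
  have ci : D * i = i * DB := by
    have := b4
    rw [eDA] at this
    have h2 := (tri_blocks this).2.1
    rw [Matrix.mul_neg] at h2
    exact add_neg_eq_zero.mp h2
  refine ⟨DB, DA, i, fromRows 1 0, ⟨gDB, b1⟩, ⟨gDA, b4⟩, ?_, ?_, gi, by simpa [Closed] using ci,
    Hg.one.fromRows Hg.zero, ?_, ?_⟩
  · rw [eB, tri_map_sub, Matrix.map_mul, tg, tA, Matrix.mul_zero, sub_zero]
  · rw [eA, tri_map_add, Matrix.map_mul, tg, tC, Matrix.zero_mul, add_zero]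
  · unfold Closed
    rw [eDA, fromBlocks_mul_fromRows, fromRows_mul]
    simp
  · intro l hl hac
    obtain ⟨a, ha, ea⟩ := hac (-1) (l • B) (gB.smul hl (by decide)) (by
      refine Closed.smul ?_ l
      unfold Closed
      rw [Units.neg_smul, one_smul]
      exact eq_neg_of_add_eq_zero_left b2)
    have ha' : Hg wS (coneν cG β ν) β (2, 0) a := ha.cast (by decide)
    rw [← fromCols_toCols a, eDA, hB, mul_fromCols, fromCols_mul_fromBlocks, Units.neg_smul,
      one_smul] at ea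
    set a₁ := a.toCols₁ with ha₁
    set a₂ := a.toCols₂ with ha₂
    have q1 : DB * a₁ = a₁ * D := by
      ext x y : 1
      have := congrFun (congrFun ea x) (Sum.inl y)
      simp only [Matrix.smul_apply, fromCols_apply_inl, Matrix.zero_apply, smul_zero,
        Matrix.add_apply, Matrix.neg_apply, Matrix.mul_zero, add_zero] at this
      exact add_neg_eq_zero.mp this.symm
    have q2 : -(l • (1 : Matrix κ κ (S k))) = DB * a₂ - a₁ * i + a₂ * DB := by
      ext x y : 1
      have := congrFun (congrFun ea x) (Sum.inr y)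
      simp only [Matrix.smul_apply, fromCols_apply_inr, Matrix.add_apply, Matrix.neg_apply,
        Matrix.mul_neg, smul_neg] at this
      simp only [Matrix.smul_apply, Matrix.add_apply, Matrix.neg_apply, Matrix.sub_apply, this]
      abel
    refine ⟨l • fromCols 1 0 - i * a, a₁, ?_, ?_, ha'.toCols₁, by simpa [Closed] using q1, ?_⟩
    · exact ((Hg.one.fromCols Hg.zero).smul hl (add_zero _)).sub (gi.mul ha' (zero_add _))
    · unfold Closed
      have e1 : l • fromCols (1 : Matrix ι ι (S k)) 0 - i * a =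
          fromCols (l • 1 - i * a₁) (-(i * a₂)) := by
        conv_lhs => rw [← fromCols_toCols a, mul_fromCols]
        ext x (y | y) <;> simp [ha₁, ha₂]
      rw [e1, eDA, mul_fromCols, fromCols_mul_fromBlocks, one_smul]
      congr 1
      · rw [Matrix.mul_sub, Matrix.sub_mul, ← Matrix.mul_assoc, ci, Matrix.mul_assoc, q1,
          Matrix.mul_assoc]
        simp
      · have q3 := congrArg (i * ·) q2
        simp only [Matrix.mul_neg, Matrix.mul_smul, Matrix.mul_one, Matrix.mul_add,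
          Matrix.mul_sub] at q3
        rw [Matrix.mul_neg, ← Matrix.mul_assoc, ci, Matrix.sub_mul, Matrix.smul_mul,
          Matrix.one_mul, Matrix.neg_mul, Matrix.mul_neg, neg_neg, ← neg_neg (l • i), q3]
        simp only [Matrix.mul_assoc]
        abel
    · rw [Matrix.sub_mul, Matrix.smul_mul, fromCols_mul_fromRows, Matrix.mul_assoc]
      conv_rhs => rw [← fromCols_toCols a, fromCols_mul_fromRows]
      simp [ha₁]

end Pool.Agent.Lib.MP_0ba2dd_ag.N
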