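import Pool.Agent.Lib.MP_0ba2dd_ag.N.H45MF
import Pool.Agent.Lib.MP_0ba2dd_ag.N.H45Tri
import Pool.Agent.Lib.MP_0ba2dd_ag.N.H45Serre
import Pool.Agent.Lib.MP_0ba2dd_ag.N.H45HH
import Pool.Agent.Lib.MP_0ba2dd_ag.N.H45Det
import Pool.Agent.Lib.MP_0ba2dd_ag.N.H45Fib
import Pool.Agent.Lib.MP_0ba2dd_ag.N.H45Lin

/-! Indecomposability on the level of graded matrix factorisations. -/

namespace Pool.Agent.Lib.MP_0ba2dd_ag.N

variable [Dim] [Big]

open MvPolynomial Matrix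

section Blocks

variable {R : Type*} [CommRing R] {α : Type*} [Fintype α]
  {κ ρ τ : Type*} [Fintype κ] [DecidableEq κ] [Fintype ρ] [DecidableEq ρ] [Fintype τ]
  [DecidableEq τ] {κ' ρ' τ' : α → Type*} [∀ t, Fintype (κ' t)] [∀ t, Fintype (ρ' t)]
  [∀ t, Fintype (τ' t)]

/-- Inclusion of a block. -/
def binc (R : Type*) [CommRing R] {κ κ₀ : Type*} [DecidableEq κ] (g : κ₀ → κ) : Matrix κ κ₀ R :=
  (1 : Matrix κ κ R).submatrix id g

/-- Projection to a block. -/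
def bprj (R : Type*) [CommRing R] {κ κ₀ : Type*} [DecidableEq κ] (g : κ₀ → κ) : Matrix κ₀ κ R :=
  (1 : Matrix κ κ R).submatrix g id

/-- The maps `g t` decompose `κ` into blocks. -/
def Blk (g : ∀ t, κ' t → κ) : Prop := Function.Bijective fun x : Σ t, κ' t => g x.1 x.2

theorem Blk.sum {g : ∀ t, κ' t → κ} (hg : Blk g) : ∑ t, binc R (g t) * bprj R (g t) = 1 := by
  ext x y
  rw [Matrix.sum_apply]
  simp only [Matrix.mul_apply]
  refine (Fintype.sum_sigma'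
    (fun t a => (1 : Matrix κ κ R) x (g t a) * (1 : Matrix κ κ R) (g t a) y)).symm.trans ?_
  rw [Function.Bijective.sum_comp hg
    (fun z => (1 : Matrix κ κ R) x z * (1 : Matrix κ κ R) z y), ← Matrix.mul_apply, Matrix.one_mul]

theorem bprj_binc {κ₀ κ₁ : Type*} (g : κ₀ → κ) (g' : κ₁ → κ) :
    bprj R g * binc R g' = (1 : Matrix κ κ R).submatrix g g' := by
  rw [bprj, binc, ← Matrix.submatrix_mul _ _ _ id _ Function.bijective_id, Matrix.one_mul]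

/-- A block diagonal matrix. -/
def bdiag (g : ∀ t, κ' t → κ) (g' : ∀ t, ρ' t → ρ) (M : ∀ t, Matrix (κ' t) (ρ' t) R) :
    Matrix κ ρ R := ∑ t, binc R (g t) * M t * bprj R (g' t)

omit [Fintype κ] in
theorem bdiag_binc (g : ∀ t, κ' t → κ) {g' : ∀ t, ρ' t → ρ} (hg : Blk g')
    (M : ∀ t, Matrix (κ' t) (ρ' t) R) (s : α) :
    bdiag g g' M * binc R (g' s) = binc R (g s) * M s := by
  classical
  rw [bdiag, Matrix.sum_mul, Finset.sum_eq_single s]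
  · rw [Matrix.mul_assoc, bprj_binc, Matrix.submatrix_one _ (fun a b e => by
      simpa using hg.1 (a₁ := ⟨s, a⟩) (a₂ := ⟨s, b⟩) e), Matrix.mul_one]
  · intro t _ ht
    have : (1 : Matrix ρ ρ R).submatrix (g' t) (g' s) = 0 := by
      ext a b
      exact Matrix.one_apply_ne fun e =>
        ht (congrArg Sigma.fst (hg.1 (a₁ := ⟨t, a⟩) (a₂ := ⟨s, b⟩) e))
    rw [Matrix.mul_assoc, bprj_binc, this, Matrix.mul_zero]
  · simp

omit [Fintype ρ] in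
theorem bprj_bdiag {g : ∀ t, κ' t → κ} (hg : Blk g) (g' : ∀ t, ρ' t → ρ)
    (M : ∀ t, Matrix (κ' t) (ρ' t) R) (s : α) :
    bprj R (g s) * bdiag g g' M = M s * bprj R (g' s) := by
  classical
  rw [bdiag, Matrix.mul_sum, Finset.sum_eq_single s]
  · rw [← Matrix.mul_assoc, ← Matrix.mul_assoc, bprj_binc, Matrix.submatrix_one _ (fun a b e => by
      simpa using hg.1 (a₁ := ⟨s, a⟩) (a₂ := ⟨s, b⟩) e), Matrix.one_mul]
  · intro t _ ht
    have : (1 : Matrix κ κ R).submatrix (g s) (g t) = 0 := by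
      ext a b
      exact Matrix.one_apply_ne fun e =>
        ht (congrArg Sigma.fst (hg.1 (a₁ := ⟨s, a⟩) (a₂ := ⟨t, b⟩) e)).symm
    rw [← Matrix.mul_assoc, ← Matrix.mul_assoc, bprj_binc, this, Matrix.zero_mul, Matrix.zero_mul]
  · simp

omit [Fintype κ] in
theorem eq_bdiag (g : ∀ t, κ' t → κ) {g' : ∀ t, ρ' t → ρ} (hg : Blk g')
    {M : ∀ t, Matrix (κ' t) (ρ' t) R} {X : Matrix κ ρ R}
    (h : ∀ s, X * binc R (g' s) = binc R (g s) * M s) : X = bdiag g g' M := by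
  rw [← Matrix.mul_one X, ← hg.sum, Matrix.mul_sum, bdiag]
  exact Finset.sum_congr rfl fun s _ => by rw [← Matrix.mul_assoc, h]

omit [Fintype κ] in
theorem bdiag_mul (g : ∀ t, κ' t → κ) {g' : ∀ t, ρ' t → ρ} (hg : Blk g') {g'' : ∀ t, τ' t → τ}
    (hg' : Blk g'') (M : ∀ t, Matrix (κ' t) (ρ' t) R) (N : ∀ t, Matrix (ρ' t) (τ' t) R) :
    bdiag g g' M * bdiag g' g'' N = bdiag g g'' fun t => M t * N t :=
  eq_bdiag g hg' fun s => by
    rw [Matrix.mul_assoc, bdiag_binc _ hg', ← Matrix.mul_assoc, bdiag_binc _ hg, Matrix.mul_assoc]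

variable {k : Type*} [Field k] {σ Γ : Type*} [AddCommGroup Γ] {w : σ → Γ}

omit [Fintype κ] in
theorem hg_binc {κ₀ : Type*} (g : κ₀ → κ) {μ : κ → Γ} {μ₀ : κ₀ → Γ} (h : ∀ a, μ₀ a = μ (g a)) :
    Hg w μ₀ μ 0 (binc (MvPolynomial σ k) g) :=
  ((Hg.one (ν := μ)).submatrix id g).of_eq fun a b => by simp [h]

omit [Fintype κ] in
theorem hg_bprj {κ₀ : Type*} (g : κ₀ → κ) {μ : κ → Γ} {μ₀ : κ₀ → Γ} (h : ∀ a, μ₀ a = μ (g a)) :
    Hg w μ μ₀ 0 (bprj (MvPolynomial σ k) g) :=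
  ((Hg.one (ν := μ)).submatrix g id).of_eq fun a b => by simp [h]

omit [Fintype κ] [Fintype ρ] in
theorem hg_bdiag (g : ∀ t, κ' t → κ) (g' : ∀ t, ρ' t → ρ) {μ : κ → Γ} {μ' : ∀ t, κ' t → Γ}
    (h : ∀ t a, μ' t a = μ (g t a)) {l : ρ → Γ} {l' : ∀ t, ρ' t → Γ}
    (h' : ∀ t a, l' t a = l (g' t a)) {γ : Γ} {M : ∀ t, Matrix (κ' t) (ρ' t) (MvPolynomial σ k)}
    (hM : ∀ t, Hg w (l' t) (μ' t) γ (M t)) : Hg w l μ γ (bdiag g g' M) :=
  Hg.sum _ fun t _ => ((hg_binc (g t) (h t)).mul (hM t) (zero_add _)).mul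
    (hg_bprj (g' t) (h' t)) (add_zero _)

variable {c γ : Γ} {ι : Type*} [Fintype ι] {ν : ι → Γ} {D : Matrix ι ι (MvPolynomial σ k)}

theorem Acyc.bdiag_right {g : ∀ t, κ' t → κ} (hg : Blk g) {μ : κ → Γ} {μ' : ∀ t, κ' t → Γ}
    (h : ∀ t a, μ' t a = μ (g t a)) {E : ∀ t, Matrix (κ' t) (κ' t) (MvPolynomial σ k)}
    (H : ∀ t, Acyc w c γ ν D (μ' t) (E t)) : Acyc w c γ ν D μ (bdiag g g E) :=
  Acyc.sum_right (fun t => binc _ (g t)) (fun t => bprj _ (g t)) (fun t => hg_binc _ (h t))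
    (fun t => hg_bprj _ (h t)) (fun t => by rw [Closed, one_smul, bdiag_binc _ hg])
    (fun t => by rw [Closed, one_smul, bprj_bdiag hg]) hg.sum H

theorem Acyc.bdiag_left {g : ∀ t, κ' t → κ} (hg : Blk g) {μ : κ → Γ} {μ' : ∀ t, κ' t → Γ}
    (h : ∀ t a, μ' t a = μ (g t a)) {E : ∀ t, Matrix (κ' t) (κ' t) (MvPolynomial σ k)}
    (H : ∀ t, Acyc w c γ (μ' t) (E t) ν D) : Acyc w c γ μ (bdiag g g E) ν D :=
  Acyc.sum_left (fun t => binc _ (g t)) (fun t => bprj _ (g t)) (fun t => hg_binc _ (h t))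
    (fun t => hg_bprj _ (h t)) (fun t => by rw [Closed, one_smul, bdiag_binc _ hg])
    (fun t => by rw [Closed, one_smul, bprj_bdiag hg]) hg.sum H

theorem IsMF.bdiag [∀ t, DecidableEq (κ' t)] {g : ∀ t, κ' t → κ} (hg : Blk g) {μ : κ → Γ}
    {μ' : ∀ t, κ' t → Γ} (h : ∀ t a, μ' t a = μ (g t a)) {W : MvPolynomial σ k}
    {E : ∀ t, Matrix (κ' t) (κ' t) (MvPolynomial σ k)} (H : ∀ t, IsMF w c W (μ' t) (E t)) :
    IsMF w c W μ (bdiag g g E) := by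
  refine ⟨hg_bdiag g g h h fun t => (H t).1, ?_⟩
  rw [bdiag_mul g hg hg]
  exact (eq_bdiag g hg fun s => by
    rw [(H s).2, Matrix.smul_mul, Matrix.one_mul, Matrix.mul_smul, Matrix.mul_one]).symm

omit [Fintype α] [Fintype κ] [DecidableEq κ] [Fintype ρ] [DecidableEq ρ]
  [∀ t, Fintype (κ' t)] [∀ t, Fintype (ρ' t)] in
theorem Blk.sumMap {g : ∀ t, κ' t → κ} (hg : Blk g) {g' : ∀ t, ρ' t → ρ} (hg' : Blk g') :
    Blk fun t => Sum.map (g t) (g' t) := by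
  constructor
  · rintro ⟨t, a | a⟩ ⟨s, b | b⟩ e
    · have := hg.1 (a₁ := ⟨t, a⟩) (a₂ := ⟨s, b⟩) (Sum.inl_injective e)
      cases this; rfl
    · exact absurd e Sum.inl_ne_inr
    · exact absurd e Sum.inr_ne_inl
    · have := hg'.1 (a₁ := ⟨t, a⟩) (a₂ := ⟨s, b⟩) (Sum.inr_injective e)
      cases this; rfl
  · rintro (x | x)
    · obtain ⟨⟨t, a⟩, rfl⟩ := hg.2 x
      exact ⟨⟨t, Sum.inl a⟩, rfl⟩
    · obtain ⟨⟨t, a⟩, rfl⟩ := hg'.2 x
      exact ⟨⟨t, Sum.inr a⟩, rfl⟩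

omit [Fintype κ] [Fintype ρ] in
theorem binc_sumMap {κ₀ ρ₀ : Type*} (g : κ₀ → κ) (g' : ρ₀ → ρ) :
    binc R (Sum.map g g') = fromBlocks (binc R g) 0 0 (binc R g') := by
  ext (a | a) (b | b) <;> simp [binc, Matrix.one_apply]

theorem coneD_bdiag {g : ∀ t, κ' t → κ} (hg : Blk g) {g' : ∀ t, ρ' t → ρ} (hg' : Blk g')
    (E : ∀ t, Matrix (κ' t) (κ' t) R) (E' : ∀ t, Matrix (ρ' t) (ρ' t) R)
    (u : ∀ t, Matrix (κ' t) (ρ' t) R) :
    coneD (bdiag g' g' E') (bdiag g g E) (bdiag g g' u) =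
      bdiag (fun t => Sum.map (g t) (g' t)) (fun t => Sum.map (g t) (g' t))
        fun t => coneD (E' t) (E t) (u t) :=
  eq_bdiag _ (hg.sumMap hg') fun s => by
    simp only [binc_sumMap, coneD, Matrix.fromBlocks_multiply, bdiag_binc _ hg, bdiag_binc _ hg',
      Matrix.neg_mul, Matrix.mul_neg, Matrix.mul_zero, Matrix.zero_mul, add_zero, zero_add,
      neg_zero]

end Blocks

variable {k : Type*} [Field k] {f : Q k}

theorem contr_of (hf : f.IsHomogeneous 3) {κ : Type*} [Fintype κ] [DecidableEq κ] {μ : κ → G}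
    {P : Matrix κ κ (S k)} (hP : IsMF wS cG (inX f - inY f) μ P) {γ γ' : G} (hγ : Even γ.1)
    (e : γ' + γ = (2, 0))
    (hx : ∀ i : Fin nv, ∃ (m : Matrix κ Δι (S k)) (m' : Matrix Δι κ (S k)), Hg wS Δν μ γ m ∧
      Closed 1 (ΔD f) P m ∧ Hg wS μ Δν γ' m' ∧ Closed 1 P (ΔD f) m' ∧
      Exact wS cG (2, 0) Δν (ΔD f) Δν (ΔD f) 1
        (inX (X i : Q k) • (1 : Matrix Δι Δι (S k)) - m' * m))
    (E : MF f) (H : Van wX (cls γ) (emb 0 E.ν) E.D μ (P.map T0)) : E.Contr := by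
  obtain ⟨φ, hφ, cφ, hc⟩ := fib_main hf E.isMF fun i => by
    obtain ⟨m, m', hm, cm, hm', cm', hx⟩ := hx i
    exact detect hf E.isMF hP hγ e hm cm hm' cm' H (l := X i) (isHomogeneous_X k i) hx
  refine hc fun i => ?_
  obtain ⟨m, m', hm, cm, hm', cm', hx⟩ := hx i
  refine detect hf (E.isMF.ext E.isMF hφ cφ) hP hγ e hm cm hm' cm' (fun δ hδ => ?_)
    (l := X i) (isHomogeneous_X k i) hx
  exact (Acyc.ext_left (hφ.emb 0) cφ (H δ hδ) (H δ hδ)).of_eq fun a b => by cases b <;> rfl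

/-- The residue field (Koszul) factorisation, with shifted generator degrees. -/
noncomputable def Kt (hf : f.IsHomogeneous 3) (t : ZMod 3) : MF f where
  ι := Kι nv
  ν := fun a => Kν nv a + -(t.val : ℤ)
  D := (D0 f).map T0
  isMF := by
    have := (isMF_D0 hf).map_alg T0 (isMF_D0 hf).1.map_T0'
    rw [map_sub, T0_inX, T0_inY, constantCoeff_eq, hf.coeff_eq_zero (by simp), map_zero,
      sub_zero] at this
    exact this.shift _

theorem blk_Δ : Blk fun (t : ZMod 3) (a : Kι nv) => ((a, t) : Δι) :=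
  ⟨by rintro ⟨t, a⟩ ⟨s, b⟩ e; cases e; rfl, fun x => ⟨⟨x.2, x.1⟩, rfl⟩⟩

theorem ΔD_T0 (f : Q k) : (ΔD f).map T0 = bdiag (fun (t : ZMod 3) (a : Kι nv) => ((a, t) : Δι))
    (fun (t : ZMod 3) (a : Kι nv) => ((a, t) : Δι)) fun _ => (D0 f).map T0 :=
  eq_bdiag _ blk_Δ fun s => by
    ext ⟨a, t⟩ b : 1
    simp only [Matrix.mul_apply, binc, submatrix_apply, id, Matrix.one_apply, mul_ite, mul_one,
      mul_zero, Finset.sum_ite_eq', Finset.mem_univ, if_true, Matrix.map_apply, ΔD, cov_T0,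
      Prod.mk.injEq, ite_mul, one_mul, zero_mul]
    by_cases h : t = s <;> simp [h]

theorem core [IsAlgClosed k] (h2 : (2 : k) ≠ 0) (h3 : (3 : k) ≠ 0) (hf : f.IsHomogeneous 3)
    (hs : Smooth f) (hn : (nv : ZMod 3) = 2) (B : MF f → Prop)
    (hSOD : ∀ E : MF f, ∃ b, B b ∧ ∃ u : Matrix E.ι b.ι (Q k), Hg wQ b.ν E.ν 0 u ∧
      Closed 1 b.D E.D u ∧
      ∀ b', B b' → VanZ 0 b'.ν b'.D (coneν 3 b.ν E.ν) (coneD b.D E.D u)) :
    (∀ b, B b → b.Contr) ∨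
      (∀ a : MF f, (∀ b, B b → VanZ 0 b.ν b.D a.ν a.D) → a.Contr) := by
  choose b hb u hu cu hv using fun t => hSOD (Kt hf t)
  have blkB : Blk fun (t : ZMod 3) (a : (b t).ι) => (⟨t, a⟩ : Σ t, (b t).ι) :=
    Function.bijective_id
  obtain ⟨β, hβ⟩ : ∃ β : (Σ t, (b t).ι) → G, ∀ t a, emb (t.val : ℤ) (b t).ν a = β ⟨t, a⟩ :=
    ⟨fun x => emb (x.1.val : ℤ) (b x.1).ν x.2, fun _ _ => rfl⟩
  have hΔ : ∀ (t : ZMod 3) (a : Kι nv), emb (t.val : ℤ) (Kt hf t).ν a = Δν (a, t) := by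
    intro t a
    simp [emb, Kt, Δν, covν]
  obtain ⟨Db, hDb⟩ : ∃ Db : Matrix (Σ t, (b t).ι) (Σ t, (b t).ι) (Q k),
    Db = bdiag (fun (t : ZMod 3) (a : (b t).ι) => (⟨t, a⟩ : Σ t, (b t).ι))
      (fun (t : ZMod 3) (a : (b t).ι) => (⟨t, a⟩ : Σ t, (b t).ι)) fun t => (b t).D := ⟨_, rfl⟩
  obtain ⟨u0, hu0⟩ : ∃ u0 : Matrix Δι (Σ t, (b t).ι) (Q k),
    u0 = bdiag (fun (t : ZMod 3) (a : Kι nv) => ((a, t) : Δι))
      (fun (t : ZMod 3) (a : (b t).ι) => (⟨t, a⟩ : Σ t, (b t).ι)) u := ⟨_, rfl⟩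
  have mb : IsMF wX cG f β Db := hDb ▸ IsMF.bdiag blkB hβ fun t => (b t).isMF.emb _
  have gu : Hg wX β Δν 0 u0 := hu0 ▸ hg_bdiag _ _ hΔ hβ fun t => (hu t).emb _
  have cu0 : Closed 1 Db ((ΔD f).map T0) u0 := by
    rw [Closed, one_smul, hDb, hu0, ΔD_T0, bdiag_mul _ blk_Δ blkB, bdiag_mul _ blkB blkB]
    congr 1
    funext t
    exact (cu t).trans (one_smul _ _)
  have hC : ∀ b', B b' → ∀ t' : ℤ, Van wX 0 (emb t' b'.ν) b'.D (coneν cG β Δν)
      (coneD Db ((ΔD f).map T0) u0) := by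
    intro b' hb' t' γ hγ
    rw [hDb, hu0, ΔD_T0, coneD_bdiag blk_Δ blkB]
    refine Acyc.bdiag_right (blk_Δ.sumMap blkB)
      (μ' := fun t => emb (t.val : ℤ) (coneν 3 (b t).ν (Kt hf t).ν)) ?_
      fun t => (hv t b' hb').emb t' _ γ hγ
    rintro t (a | a)
    · exact hΔ t a
    · change _ = β ⟨t, a⟩ - cG
      rw [← hβ]
      simp only [emb, coneν, cG, Sum.elim_inr, Prod.mk_sub_mk, sub_zero, Prod.mk.injEq, and_true]
      ring
  have hBA : Van wX 0 β Db (coneν cG β Δν) (coneD Db ((ΔD f).map T0) u0) := by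
    intro γ hγ
    nth_rewrite 1 [hDb]
    exact Acyc.bdiag_left blkB hβ fun t => hC _ (hb t) _ γ hγ
  obtain ⟨DB, DA, i, p, mB, mA, eB, eA, gi, ci, gp, cp, hl⟩ :=
    sod_lift hf (isMF_Δ hf) mb gu cu0 hBA
  have mΔ0 : IsMF wX cG f Δν ((ΔD f).map T0) := by
    rw [ΔD_T0]
    exact IsMF.bdiag blk_Δ hΔ fun t => (Kt hf t).isMF.emb _
  have mC := mb.cone mΔ0 gu cu0
  have hAB : Van wS 2 (coneν cG β Δν) DA β DB :=
    van_of_T0 mA mB 2 (by rw [eA, eB]; exact hn ▸ van_serre mC mb hBA)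
  have hpi : Exact wS cG 0 β DB (coneν cG β Δν) DA 1 (p * i) := by
    have := van_of_T0 mB mA 0 (by rw [eA, eB]; exact hBA) 0 (by decide) (1 * 1) (p * i)
      (gp.mul gi (add_zero _)) (cp.mul ci)
    simpa using this
  let V₁ : Submodule k (Q k) :=
    { carrier := {l | l.IsHomogeneous 1 ∧ ∃ s : Matrix Δι (Δι ⊕ Σ t, (b t).ι) (S k),
        Hg wS (coneν cG β Δν) Δν (2, 0) s ∧ Closed 1 DA (ΔD f) s ∧
        Exact wS cG (2, 0) Δν (ΔD f) Δν (ΔD f) 1 (inX l • (1 : Matrix Δι Δι (S k)) - s * p)}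
      add_mem' := by
        rintro l l' ⟨h1, s, gs, cs, e⟩ ⟨h1', s', gs', cs', e'⟩
        refine ⟨h1.add h1', s + s', gs.add gs', cs.add cs', ?_⟩
        convert e.add e' using 1
        rw [map_add, add_smul, Matrix.add_mul]; abel
      zero_mem' := ⟨isHomogeneous_zero _ _ _, 0, Hg.zero, by simp [Closed],
        by simpa using Exact.zero⟩
      smul_mem' := by
        rintro r l ⟨h1, s, gs, cs, e⟩
        refine ⟨(homogeneousSubmodule (Fin nv) k 1).smul_mem r h1, r • s, gs.k_smul r, ?_, ?_⟩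
        · unfold Closed at cs ⊢
          rw [Matrix.mul_smul, cs, Matrix.smul_mul, smul_comm]
        · convert e.k_smul r using 1
          rw [map_smul, smul_assoc, Matrix.smul_mul, smul_sub] }
  let V₂ : Submodule k (Q k) :=
    { carrier := {l | l.IsHomogeneous 1 ∧ ∃ r : Matrix (Σ t, (b t).ι) Δι (S k),
        Hg wS Δν β (2, 0) r ∧ Closed 1 (ΔD f) DB r ∧
        Exact wS cG (2, 0) Δν (ΔD f) Δν (ΔD f) 1 (inX l • (1 : Matrix Δι Δι (S k)) - i * r)}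
      add_mem' := by
        rintro l l' ⟨h1, s, gs, cs, e⟩ ⟨h1', s', gs', cs', e'⟩
        refine ⟨h1.add h1', s + s', gs.add gs', cs.add cs', ?_⟩
        convert e.add e' using 1
        rw [map_add, add_smul, Matrix.mul_add]; abel
      zero_mem' := ⟨isHomogeneous_zero _ _ _, 0, Hg.zero, by simp [Closed],
        by simpa using Exact.zero⟩
      smul_mem' := by
        rintro r l ⟨h1, s, gs, cs, e⟩
        refine ⟨(homogeneousSubmodule (Fin nv) k 1).smul_mem r h1, r • s, gs.k_smul r, ?_, ?_⟩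
        · unfold Closed at cs ⊢
          rw [Matrix.mul_smul, cs, Matrix.smul_mul, smul_comm]
        · convert e.k_smul r using 1
          rw [map_smul, smul_assoc, Matrix.mul_smul, smul_sub] }
  have lin : ∀ {l : Q k}, l.IsHomogeneous 1 → (inX l).IsWeightedHomogeneous wS (2, 0) :=
    fun hl => isWH_inX (isWH_wQ_iff.mpr hl)
  have hsum : homogeneousSubmodule (Fin nv) k 1 ≤ V₁ ⊔ V₂ := by
    intro l h1
    obtain ⟨s, r, gs, cs, gr, cr, e⟩ := hl (inX l) (lin h1) (hAB _ (by decide))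
    obtain ⟨l₁, hl₁, e₁⟩ := hh2 h3 hf (linearIndependent_pderiv h2 h3 hf hs)
      (gs.mul gp (add_zero _)) (by simpa using cs.mul cp)
    refine Submodule.mem_sup.2 ⟨l₁, ⟨hl₁, s, gs, cs, by simpa using e₁.neg⟩, l - l₁,
      ⟨IsHomogeneous.sub h1 hl₁, r, gr, cr, ?_⟩, by abel⟩
    convert e₁ using 1
    rw [map_sub, sub_smul, e]; abel
  have hmul : ∀ a ∈ V₁, ∀ c ∈ V₂,
      a * c ∈ Submodule.span k (Set.range fun i : Fin nv => pderiv i f) := by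
    rintro a ⟨h1, s, gs, cs, e⟩ c ⟨h1', r, gr, cr, e'⟩
    refine hh4 h3 hf ?_
    have x1 := (hpi.mul_left gs cs (add_zero _)).mul_right gr cr (γ'' := (4, 0)) (by decide)
    have x2 := e'.mul_left (gs.mul gp (add_zero _)) (cs.mul cp) (γ'' := (4, 0)) (by decide)
    have x3 := e.smul (lin h1') (γ'' := (4, 0)) (by decide)
    simp only [mul_one] at x1 x2
    convert (x1.add x2).add x3 using 1
    rw [Matrix.mul_sub, Matrix.mul_smul, Matrix.mul_one, smul_sub, smul_smul, map_mul, mul_comm,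
      Matrix.mul_assoc, Matrix.mul_assoc, Matrix.mul_assoc]
    abel
  rcases no_split h3 hf hs V₁ V₂ (fun _ h => h.1) (fun _ h => h.1) hsum hmul with h | h
  · refine Or.inl fun b' hb' => contr_of hf mA (γ := 0) (γ' := (2, 0)) (by decide) (add_zero _)
      (fun j => ?_) b' (by rw [eA]; exact hC b' hb' 0)
    obtain ⟨-, s, gs, cs, e⟩ := h (isHomogeneous_X k j)
    exact ⟨p, s, gp, cp, gs, cs, e⟩
  · refine Or.inr fun a ha => contr_of hf mB (γ := (2, 0)) (γ' := 0) (by decide) (zero_add _)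
      (fun j => ?_) a ?_
    · obtain ⟨-, r, gr, cr, e⟩ := h (isHomogeneous_X k j)
      exact ⟨r, i, gr, cr, gi, ci, e⟩
    · rw [eB]
      refine (show Van wX 2 _ _ _ _ from hn ▸ van_serre (a.isMF.emb 0) mb fun γ hγ => ?_)
      rw [hDb]
      exact Acyc.bdiag_left blkB hβ fun t => (ha _ (hb t)).emb _ _ γ hγ

end Pool.Agent.Lib.MP_0ba2dd_ag.N
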