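import Pool.Agent.Lib.MP_0ba2dd_ag.N.H45S0
import Pool.Agent.Lib.MP_0ba2dd_ag.N.H45GrA

/-! Standard affine charts of a hypersurface, and the graded module of twisted global sections. -/

namespace Pool.Agent.Lib.MP_0ba2dd_ag.N

open CategoryTheory AlgebraicGeometry MvPolynomial Opposite

universe u

section Res

variable {Y : Scheme.{u}}

/-- Restriction of functions. -/
noncomputable def resO {U V : Y.Opens} (h : V ≤ U) : Γ(Y, U) →+* Γ(Y, V) :=
  (Y.presheaf.map (homOfLE h).op).hom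

/-- Restriction of sections. -/
noncomputable def res (F : Y.Modules) {U V : Y.Opens} (h : V ≤ U) : Γ(F, U) →+ Γ(F, V) :=
  (F.presheaf.map (homOfLE h).op).hom

variable {F F' : Y.Modules} {U V W : Y.Opens}

theorem res_smul (h : V ≤ U) (r : Γ(Y, U)) (s : Γ(F, U)) :
    res F h (r • s) = resO h r • res F h s := F.map_smul (homOfLE h) r s

theorem res_res (h : V ≤ U) (h' : W ≤ V) (s : Γ(F, U)) :
    res F h' (res F h s) = res F (h'.trans h) s :=
  (congrArg (fun φ : Γ(F, U) ⟶ Γ(F, W) => φ s)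
    (F.presheaf.map_comp (homOfLE h).op (homOfLE h').op)).symm

theorem resO_resO (h : V ≤ U) (h' : W ≤ V) (s : Γ(Y, U)) :
    resO h' (resO h s) = resO (h'.trans h) s :=
  (congrArg (fun φ : Γ(Y, U) ⟶ Γ(Y, W) => φ s)
    (Y.presheaf.map_comp (homOfLE h).op (homOfLE h').op)).symm

theorem res_self (s : Γ(F, U)) : res F le_rfl s = s :=
  congrArg (fun φ : Γ(F, U) ⟶ Γ(F, U) => φ s) (F.presheaf.map_id _)

theorem resO_self (s : Γ(Y, U)) : resO le_rfl s = s :=
  congrArg (fun φ : Γ(Y, U) ⟶ Γ(Y, U) => φ s) (Y.presheaf.map_id _)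

theorem app_res (φ : F ⟶ F') (h : V ≤ U) (s : Γ(F, U)) :
    φ.app V (res F h s) = res F' h (φ.app U s) :=
  congrArg (fun ψ : Γ(F, U) ⟶ Γ(F', V) => ψ s) (φ.mapPresheaf.naturality (homOfLE h).op)

/-- Sections that agree locally agree. -/
theorem sec_ext {s t : Γ(F, U)}
    (h : ∀ x ∈ U, ∃ (V : Y.Opens) (hV : V ≤ U), x ∈ V ∧ res F hV s = res F hV t) : s = t :=
  TopCat.Presheaf.IsSheaf.section_ext F.isSheaf h

/-- Gluing of sections. -/
theorem sec_glue {ι : Type*} (V : ι → Y.Opens) (hV : ∀ i, V i ≤ U) (hU : U ≤ iSup V)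
    (s : ∀ i, Γ(F, V i)) (h : ∀ i j, res F inf_le_left (s i) = res F inf_le_right (s j)) :
    ∃ t : Γ(F, U), ∀ i, res F (hV i) t = s i :=
  (TopCat.Sheaf.existsUnique_gluing' ⟨F.presheaf, F.isSheaf⟩ V U (fun i => homOfLE (hV i)) hU s
    h).exists

/-- A morphism of sheaves of modules from compatible linear maps on sections. -/
noncomputable def homOfSec (φ : ∀ U : Y.Opens, Γ(F, U) →ₗ[Γ(Y, U)] Γ(F', U))
    (h : ∀ (U V : Y.Opens) (hV : V ≤ U) (s : Γ(F, U)), φ V (res F hV s) = res F' hV (φ U s)) :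
    F ⟶ F' :=
  ⟨PresheafOfModules.homMk
    { app := fun U => AddCommGrpCat.ofHom (φ U.unop).toAddMonoidHom
      naturality := fun U V i => by
        ext s
        exact h U.unop V.unop i.unop.le s }
    fun U r s => (φ U.unop).map_smul r s⟩

theorem homOfSec_app (φ : ∀ U : Y.Opens, Γ(F, U) →ₗ[Γ(Y, U)] Γ(F', U)) (h) (U : Y.Opens)
    (s : Γ(F, U)) : (homOfSec φ h).app U s = φ U s := rfl

/-- Sections over basic opens of `V` are localisations of the sections over `V`. -/
def QL (F : Y.Modules) (V : Y.Opens) : Prop :=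
  ∀ r : Γ(Y, V),
    (∀ s : Γ(F, Y.basicOpen r), ∃ (n : ℕ) (t : Γ(F, V)),
      res F (Y.basicOpen_le r) t = resO (Y.basicOpen_le r) r ^ n • s) ∧
    (∀ t : Γ(F, V), res F (Y.basicOpen_le r) t = 0 → ∃ n : ℕ, r ^ n • t = 0)

end Res

variable [Dim] {k : Type u} [Field k]

/-- The standard affine cover `x_a ≠ 0` of the hypersurface `f = 0`, abstractly; `deh a` is
dehomogenisation `x_b ↦ x_b / x_a`. -/
structure Chart (f : Q k) (Y : Scheme.{u}) where
  U : Fin nv → Y.Opens
  deh : ∀ a, Q k →+* Γ(Y, U a)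
  aff : ∀ a, IsAffineOpen (U a)
  cover : ⨆ a, U a = ⊤
  deh_f : ∀ a, deh a f = 0
  deh_X : ∀ a, deh a (X a) = 1
  inter : ∀ a b, U a ⊓ U b = Y.basicOpen (deh a (X b))
  compat_C : ∀ a b r, resO inf_le_left (deh a (C r)) = resO inf_le_right (deh b (C r))
  compat_X : ∀ a b e, resO (inf_le_left : U a ⊓ U b ≤ U a) (deh a (X e)) =
    resO inf_le_left (deh a (X b)) * resO inf_le_right (deh b (X e))
  surj : ∀ a, Function.Surjective (deh a)
  ker : ∀ a (p : Q k) (d : ℕ), p.IsHomogeneous d → deh a p = 0 → ∃ n : ℕ, f ∣ X a ^ n * p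

variable {f : Q k} {Y : Scheme.{u}} (c : Chart f Y)

namespace Chart

/-- The transition function `x_b / x_a`. -/
noncomputable def tr (a b : Fin nv) : Γ(Y, c.U a ⊓ c.U b)ˣ :=
  Units.mkOfMulEqOne (resO inf_le_left (c.deh a (X b))) (resO inf_le_right (c.deh b (X a)))
    (by rw [← c.compat_X, c.deh_X, map_one])

theorem tr_val (a b : Fin nv) :
    (c.tr a b : Γ(Y, c.U a ⊓ c.U b)) = resO inf_le_left (c.deh a (X b)) := rfl

theorem tr_inv (a b : Fin nv) :
    (((c.tr a b)⁻¹ : _ˣ) : Γ(Y, c.U a ⊓ c.U b)) = resO inf_le_right (c.deh b (X a)) := rfl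

theorem compat (a b : Fin nv) {p : Q k} {d : ℕ} (hp : p.IsHomogeneous d) :
    resO inf_le_left (c.deh a p) =
      (c.tr a b : Γ(Y, c.U a ⊓ c.U b)) ^ d * resO inf_le_right (c.deh b p) := by
  rw [p.as_sum]
  simp only [map_sum, Finset.mul_sum]
  refine Finset.sum_congr rfl fun m hm => ?_
  have hd : ∑ e, m e = d := by
    rw [← hp (mem_support_iff.1 hm), Finsupp.weight_apply, Finsupp.sum_fintype _ _ (by simp)]
    simp
  have hX : ∀ e, resO inf_le_left (c.deh a (X e)) =
    (c.tr a b : Γ(Y, c.U a ⊓ c.U b)) * resO inf_le_right (c.deh b (X e)) := c.compat_X a b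
  rw [monomial_eq, Finsupp.prod_fintype _ _ (by simp)]
  simp only [map_mul, map_prod, map_pow, c.compat_C a b, hX, mul_pow,
    Finset.prod_mul_distrib, Finset.prod_pow_eq_pow_sum, hd]
  ring

theorem compat' (a b : Fin nv) {p : Q k} {d : ℤ} (hp : p ∈ Hom5 k d) :
    resO inf_le_left (c.deh a p) =
      ((c.tr a b ^ d : _ˣ) : Γ(Y, c.U a ⊓ c.U b)) * resO inf_le_right (c.deh b p) := by
  rcases lt_or_ge d 0 with h | h
  · rw [IsWH.eq_zero_of_neg N0 N0_wQ (mem_Hom5_iff.1 hp) (by simp only [N0_apply]; omega)]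
    simp
  · obtain ⟨d, rfl⟩ := Int.eq_ofNat_of_zero_le h
    rw [zpow_natCast, Units.val_pow_eq_pow_val]
    exact c.compat a b (isWH_wQ_iff.1 (mem_Hom5_iff.1 hp))

/-- Families of sections over the charts. -/
def Sec (F : Y.Modules) : Type u := ∀ a, Γ(F, c.U a)

noncomputable instance (F : Y.Modules) : AddCommGroup (c.Sec F) :=
  (Pi.addCommGroup : AddCommGroup (∀ a, Γ(F, c.U a)))

noncomputable instance (F : Y.Modules) : Module (Q k) (c.Sec F) :=
  Module.compHom (∀ a, Γ(F, c.U a)) (RingHom.pi c.deh)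

noncomputable instance (F : Y.Modules) : Module k (c.Sec F) :=
  Module.compHom (c.Sec F) (C : k →+* Q k)

variable {F F' : Y.Modules}

theorem smul_apply (p : Q k) (s : c.Sec F) (a : Fin nv) : (p • s) a = c.deh a p • s a := rfl
theorem k_smul_apply (r : k) (s : c.Sec F) (a : Fin nv) : (r • s) a = c.deh a (C r) • s a := rfl
theorem k_smul (r : k) (s : c.Sec F) : r • s = (C r : Q k) • s := rfl
theorem add_apply (s t : c.Sec F) (a : Fin nv) : (s + t) a = s a + t a := rfl
theorem sub_apply (s t : c.Sec F) (a : Fin nv) : (s - t) a = s a - t a := rfl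
theorem zero_apply (a : Fin nv) : (0 : c.Sec F) a = 0 := rfl

/-- The gluing condition for sections of `F(j)`: `s_a x_a^j = s_b x_b^j`. -/
def Glues (j : ℤ) (s : c.Sec F) : Prop :=
  ∀ a b, res F inf_le_left (s a) =
    ((c.tr a b ^ j : _ˣ) : Γ(Y, c.U a ⊓ c.U b)) • res F inf_le_right (s b)

theorem Glues.smul {i j d : ℤ} {s : c.Sec F} (h : c.Glues i s) {p : Q k} (hp : p ∈ Hom5 k d)
    (e : j = d + i) : c.Glues j (p • s) := fun a b => by
  rw [smul_apply, smul_apply, res_smul, res_smul, h a b, c.compat' a b hp, smul_smul, smul_smul, e,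
    zpow_add, Units.val_mul]
  congr 1
  ring

theorem C_mem (r : k) : (C r : Q k) ∈ Hom5 k 0 := isWeightedHomogeneous_C _ r

/-- Global sections of `F(j)`. -/
noncomputable def GSub (F : Y.Modules) (j : ℤ) : Submodule k (c.Sec F) where
  carrier := {s | c.Glues j s}
  add_mem' hs ht a b := by rw [add_apply, add_apply, map_add, map_add, hs a b, ht a b, smul_add]
  zero_mem' a b := by rw [zero_apply, zero_apply, map_zero, map_zero, smul_zero]
  smul_mem' r _ hs := hs.smul c (C_mem r) (zero_add _).symm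

/-- Multiplication by a form. -/
noncomputable def gAct (F : Y.Modules) {i j : Deg k} (p : i ⟶ j) :
    c.GSub F i.n →ₗ[k] c.GSub F j.n where
  toFun s := ⟨p.1 • s.1, Glues.smul c s.2 p.2 (by ring)⟩
  map_add' s t := Subtype.ext (smul_add _ _ _)
  map_smul' r s := Subtype.ext (smul_comm p.1 (C r : Q k) s.1)

/-- The graded module `⨁ Γ(Y, F(j))`. -/
noncomputable def gObj (F : Y.Modules) : Gr f where
  obj :=
    { obj := fun j => ModuleCat.of k (c.GSub F j.n)
      map := fun p => ModuleCat.ofHom (c.gAct F p)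
      map_id := fun i => by
        ext s : 2
        exact Subtype.ext (one_smul (Q k) s.1)
      map_comp := fun p q => by
        ext s : 2
        exact Subtype.ext ((congrArg (· • s.1) (mul_comm p.1 q.1)).trans (mul_smul _ _ _)) }
  property := by
    refine ⟨fun i j p q s e => ?_, fun i j r p s e => ?_, fun i j p e => ?_⟩
    · ext v : 2
      exact Subtype.ext ((congrArg (· • v.1) e).trans (add_smul _ _ _))
    · ext v : 2
      exact Subtype.ext ((congrArg (· • v.1) (e.trans (smul_eq_C_mul _ _))).trans (mul_smul _ _ _))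
    · ext v : 2
      refine Subtype.ext (funext fun a => ?_)
      change c.deh a p.1 • v.1 a = 0
      rw [e, c.deh_f, zero_smul]

/-- Action of a morphism of sheaves on twisted global sections. -/
noncomputable def gHom (φ : F ⟶ F') (j : ℤ) : c.GSub F j →ₗ[k] c.GSub F' j where
  toFun s := ⟨fun a => φ.app _ (s.1 a), fun a b => by
    rw [← app_res, ← app_res, s.2 a b, Scheme.Modules.Hom.app_smul]⟩
  map_add' s t := Subtype.ext (funext fun a => map_add (φ.app _).hom _ _)
  map_smul' r s := Subtype.ext (funext fun a => Scheme.Modules.Hom.app_smul φ _ _)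

/-- The functor `F ↦ ⨁ Γ(Y, F(j))`. -/
noncomputable def G : Y.Modules ⥤ Gr f where
  obj F := c.gObj F
  map φ := ObjectProperty.homMk
    { app := fun j => ModuleCat.ofHom (c.gHom φ j.n)
      naturality := fun i j p => by
        ext s : 2
        exact Subtype.ext (funext fun a => Scheme.Modules.Hom.app_smul φ _ _) }

theorem G_act (F : Y.Modules) {i j : Deg k} (p : i ⟶ j) (s : c.GSub F i.n) (a : Fin nv) :
    ((c.G.obj F).obj.map p s).1 a = c.deh a p.1 • s.1 a := rfl

theorem G_map (φ : F ⟶ F') (j : Deg k) (s : c.GSub F j.n) (a : Fin nv) :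
    ((c.G.map φ).hom.app j s).1 a = φ.app _ (s.1 a) := rfl

instance : c.G.Additive where

/-- `F` is the line bundle `O(m)`, trivialised by `e a = x_a ^ m` on the chart `a`. -/
def IsTwist (m : ℤ) (F : Y.Modules) : Prop :=
  ∃ e : c.Sec F, c.Glues (-m) e ∧ ∀ (a : Fin nv) (V : Y.Opens) (h : V ≤ c.U a),
    Function.Bijective fun r : Γ(Y, V) => r • res F h (e a)

end Chart

end Pool.Agent.Lib.MP_0ba2dd_ag.N
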