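import Pool.Agent.Lib.MP_0ba2dd_ag.N.H45CohA
import Mathlib.CategoryTheory.Abelian.Subcategory

/-! Coherent sheaves are closed under kernels, cokernels and finite products. -/

namespace Pool.Agent.Lib.MP_0ba2dd_ag.N

open CategoryTheory Limits AlgebraicGeometry MvPolynomial Opposite

universe u

variable {Y : Scheme.{u}} {F F' : Y.Modules}

namespace CohB

/-- Sections over a fixed open set, as a functor. -/
noncomputable def secF (V : Y.Opens) : Y.Modules ⥤ Ab.{u} :=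
  Scheme.Modules.toPresheaf Y ⋙ (evaluation _ _).obj (op V)

instance (V : Y.Opens) : PreservesFiniteLimits (secF V) :=
  have : PreservesFiniteLimits (Scheme.Modules.toPresheaf Y) := inferInstance
  have : PreservesFiniteLimits ((evaluation (TopologicalSpace.Opens Y)ᵒᵖ Ab.{u}).obj (op V)) :=
    ⟨fun _ _ _ => inferInstance⟩
  comp_preservesFiniteLimits _ _

instance (V : Y.Opens) : (secF V).PreservesZeroMorphisms := ⟨fun _ _ => rfl⟩

/-- The linear map on sections. -/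
noncomputable def appL (φ : F ⟶ F') (V : Y.Opens) : Γ(F, V) →ₗ[Γ(Y, V)] Γ(F', V) where
  toFun s := φ.app V s
  map_add' s t := map_add (φ.app V).hom s t
  map_smul' r s := φ.app_smul r s

theorem app_add (φ : F ⟶ F') {V : Y.Opens} (s t : Γ(F, V)) :
    φ.app V (s + t) = φ.app V s + φ.app V t := map_add (φ.app V).hom s t

theorem app_zero (φ : F ⟶ F') {V : Y.Opens} : φ.app V (0 : Γ(F, V)) = 0 :=
  map_zero (φ.app V).hom

theorem app_smul (φ : F ⟶ F') {V : Y.Opens} (r : Γ(Y, V)) (s : Γ(F, V)) :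
    φ.app V (r • s) = r • φ.app V s := φ.app_smul r s

theorem isUnit_res {V : Y.Opens} (r : Γ(Y, V)) : IsUnit (resO (Y.basicOpen_le r) r) :=
  Y.toRingedSpace.isUnit_res_basicOpen r

theorem fun_surj {V : Y.Opens} (hV : IsAffineOpen V) (r : Γ(Y, V)) (a : Γ(Y, Y.basicOpen r)) :
    ∃ (n : ℕ) (b : Γ(Y, V)), resO (Y.basicOpen_le r) b = resO (Y.basicOpen_le r) r ^ n * a := by
  have := hV.isLocalization_basicOpen r
  obtain ⟨⟨b, _, n, rfl⟩, h⟩ := IsLocalization.surj (Submonoid.powers r) a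
  refine ⟨n, b, ?_⟩
  rw [mul_comm, ← map_pow]
  exact h.symm

theorem fun_ker {V : Y.Opens} (hV : IsAffineOpen V) (r : Γ(Y, V)) (b : Γ(Y, V))
    (h : resO (Y.basicOpen_le r) b = 0) : ∃ n : ℕ, r ^ n * b = 0 := by
  have := hV.isLocalization_basicOpen r
  obtain ⟨⟨_, n, rfl⟩, e⟩ :=
    (IsLocalization.map_eq_zero_iff (Submonoid.powers r) Γ(Y, Y.basicOpen r) b).1 h
  exact ⟨n, e⟩

theorem qc_of_all (F : Y.Modules) (h : ∀ V : Y.Opens, IsAffineOpen V → QL F V) :
    F.IsQuasicoherent :=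
  qc_of_ql F (fun V : Y.affineOpens => V.1) (iSup_affineOpens_eq_top Y) (fun V => V.2)
    fun V => h V.1 V.2

theorem finite_basicOpen {V : Y.Opens} (hq : QL F V) (r : Γ(Y, V))
    (h : Module.Finite Γ(Y, V) Γ(F, V)) :
    Module.Finite Γ(Y, Y.basicOpen r) Γ(F, Y.basicOpen r) := by
  obtain ⟨S, hS, e⟩ := Submodule.fg_def.1 h.1
  refine ⟨Submodule.fg_def.2 ⟨res F (Y.basicOpen_le r) '' S, hS.image _, ?_⟩⟩
  have key : ∀ t : Γ(F, V), res F (Y.basicOpen_le r) t ∈
      Submodule.span Γ(Y, Y.basicOpen r) (res F (Y.basicOpen_le r) '' S) := by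
    intro t
    have ht : t ∈ Submodule.span Γ(Y, V) S := e ▸ Submodule.mem_top
    induction ht using Submodule.span_induction with
    | mem x hx => exact Submodule.subset_span ⟨x, hx, rfl⟩
    | zero => rw [map_zero]; exact zero_mem _
    | add x y _ _ hx hy => rw [map_add]; exact add_mem hx hy
    | smul a x _ hx => rw [res_smul]; exact Submodule.smul_mem _ _ hx
  rw [eq_top_iff]
  intro s _
  obtain ⟨n, t, ht⟩ := (hq r).1 s
  obtain ⟨w, hw⟩ := (isUnit_res r).pow n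
  have := Submodule.smul_mem _ (↑w⁻¹ : Γ(Y, Y.basicOpen r)) (key t)
  rwa [ht, ← hw, smul_smul, Units.inv_mul, one_smul] at this

theorem finite_of_span {V : Y.Opens} (hV : IsAffineOpen V) (hq : QL F V) (T : Finset Γ(Y, V))
    (hT : Ideal.span (T : Set Γ(Y, V)) = ⊤)
    (h : ∀ r : T, Module.Finite Γ(Y, Y.basicOpen r.1) Γ(F, Y.basicOpen r.1)) :
    Module.Finite Γ(Y, V) Γ(F, V) := by
  choose S hS e using fun r : T => Submodule.fg_def.1 (h r).1
  choose n t ht using fun (r : T) (s : Γ(F, Y.basicOpen r.1)) => (hq r.1).1 s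
  refine ⟨Submodule.fg_def.2 ⟨⋃ r : T, t r '' S r, Set.finite_iUnion fun r => (hS r).image _, ?_⟩⟩
  set N := Submodule.span Γ(Y, V) (⋃ r : T, t r '' S r) with hN
  have key : ∀ (r : T) (s : Γ(F, Y.basicOpen r.1)), ∃ (m : ℕ) (x : Γ(F, V)), x ∈ N ∧
      res F (Y.basicOpen_le r.1) x = resO (Y.basicOpen_le r.1) r.1 ^ m • s := by
    intro r s
    have hs : s ∈ Submodule.span Γ(Y, Y.basicOpen r.1) (S r) := (e r) ▸ Submodule.mem_top
    induction hs using Submodule.span_induction with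
    | mem x hx =>
      exact ⟨n r x, t r x, Submodule.subset_span (Set.mem_iUnion.2 ⟨r, x, hx, rfl⟩), ht r x⟩
    | zero => exact ⟨0, 0, zero_mem _, by rw [map_zero, smul_zero]⟩
    | add x y _ _ hx hy =>
      obtain ⟨m, a, ha, ea⟩ := hx
      obtain ⟨l, b, hb, eb⟩ := hy
      refine ⟨m + l, r.1 ^ l • a + r.1 ^ m • b,
        add_mem (Submodule.smul_mem _ _ ha) (Submodule.smul_mem _ _ hb), ?_⟩
      rw [map_add, res_smul, res_smul, ea, eb, map_pow, map_pow, smul_smul, smul_smul, smul_add,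
        ← pow_add, ← pow_add, add_comm l m]
    | smul c x _ hx =>
      obtain ⟨m, a, ha, ea⟩ := hx
      obtain ⟨l, b, eb⟩ := fun_surj hV r.1 c
      refine ⟨l + m, b • a, Submodule.smul_mem _ _ ha, ?_⟩
      rw [res_smul, ea, eb, smul_smul, smul_smul, pow_add, mul_right_comm]
  rw [eq_top_iff]
  intro x _
  refine Submodule.mem_of_span_eq_top_of_smul_pow_mem N _ hT x fun r => ?_
  obtain ⟨m, a, ha, ea⟩ := key r (res F (Y.basicOpen_le r.1) x)
  obtain ⟨l, hl⟩ := (hq r.1).2 (r.1 ^ m • x - a)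
    (by rw [map_sub, res_smul, map_pow, ea, sub_self])
  refine ⟨l + m, ?_⟩
  rw [smul_sub, sub_eq_zero, smul_smul, ← pow_add] at hl
  rw [hl]
  exact Submodule.smul_mem _ _ ha

theorem biprod_total (A B : Y.Modules) {V : Y.Opens} (s : Γ(A ⊞ B, V)) :
    (biprod.inl : A ⟶ A ⊞ B).app V ((biprod.fst : A ⊞ B ⟶ A).app V s) +
      (biprod.inr : B ⟶ A ⊞ B).app V ((biprod.snd : A ⊞ B ⟶ B).app V s) = s :=
  congrArg (fun φ : A ⊞ B ⟶ A ⊞ B => φ.app V s) (biprod.total (X := A) (Y := B))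

theorem ql_biprod {A B : Y.Modules} {V : Y.Opens} (hA : QL A V) (hB : QL B V) :
    QL (A ⊞ B) V := by
  intro r
  refine ⟨fun s => ?_, fun t ht => ?_⟩
  · obtain ⟨m, a, ha⟩ := (hA r).1 ((biprod.fst : A ⊞ B ⟶ A).app _ s)
    obtain ⟨l, b, hb⟩ := (hB r).1 ((biprod.snd : A ⊞ B ⟶ B).app _ s)
    refine ⟨m + l, (biprod.inl : A ⟶ A ⊞ B).app V (r ^ l • a) +
      (biprod.inr : B ⟶ A ⊞ B).app V (r ^ m • b), ?_⟩
    rw [map_add, ← app_res, ← app_res, res_smul, res_smul, ha, hb, map_pow, map_pow, smul_smul,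
      smul_smul, ← pow_add, ← pow_add, add_comm l m, app_smul, app_smul, ← smul_add,
      biprod_total]
  · obtain ⟨m, ha⟩ := (hA r).2 ((biprod.fst : A ⊞ B ⟶ A).app _ t)
      (by rw [← app_res, ht, app_zero])
    obtain ⟨l, hb⟩ := (hB r).2 ((biprod.snd : A ⊞ B ⟶ B).app _ t)
      (by rw [← app_res, ht, app_zero])
    refine ⟨m + l, ?_⟩
    have ea : r ^ (m + l) • (biprod.fst : A ⊞ B ⟶ A).app V t = 0 := by
      rw [add_comm, pow_add, mul_smul, ha, smul_zero]
    have eb : r ^ (m + l) • (biprod.snd : A ⊞ B ⟶ B).app V t = 0 := by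
      rw [pow_add, mul_smul, hb, smul_zero]
    rw [← biprod_total A B (r ^ (m + l) • t), app_smul (biprod.fst : A ⊞ B ⟶ A),
      app_smul (biprod.snd : A ⊞ B ⟶ B), ea, eb, app_zero, app_zero, add_zero]

theorem isCoh_biprod {A B : Y.Modules} (hA : IsCoh Y A) (hB : IsCoh Y B) : IsCoh Y (A ⊞ B) := by
  have := hA.1
  have := hB.1
  refine ⟨qc_of_all _ fun V hV => ql_biprod (ql_of_qc A hV) (ql_of_qc B hV), fun V hV => ?_⟩
  have := hA.2 V hV
  have := hB.2 V hV
  exact Module.Finite.of_surjective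
    ((appL (biprod.inl : A ⟶ A ⊞ B) V).coprod (appL (biprod.inr : B ⟶ A ⊞ B) V))
    fun s => ⟨(_, _), biprod_total A B s⟩

end CohB

open CohB

theorem ker_inj (φ : F ⟶ F') (V : Y.Opens) : Function.Injective ((kernel.ι φ).app V) :=
  (AddCommGrpCat.mono_iff_injective ((secF V).map (kernel.ι φ))).1 inferInstance

theorem ker_exact (φ : F ⟶ F') (V : Y.Opens) (s : Γ(F, V)) (h : φ.app V s = 0) :
    ∃ t, (kernel.ι φ).app V t = s := by
  let S : ShortComplex Ab.{u} := ShortComplex.mk ((secF V).map (kernel.ι φ)) ((secF V).map φ)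
    (by rw [← Functor.map_comp, kernel.condition, Functor.map_zero])
  have hS : S.Exact := S.exact_of_f_is_kernel (isLimitOfHasKernelOfPreservesLimit (secF V) φ)
  exact (S.ab_exact_iff.1 hS) s h

theorem finite_of_cover [F.IsQuasicoherent] {ι : Type*} (U : ι → Y.Opens) (hU : ⨆ i, U i = ⊤)
    (aff : ∀ i, IsAffineOpen (U i)) (h : ∀ i, Module.Finite Γ(Y, U i) Γ(F, U i))
    {V : Y.Opens} (hV : IsAffineOpen V) : Module.Finite Γ(Y, V) Γ(F, V) :=
  of_affine_open_cover (P := fun W : Y.affineOpens => Module.Finite Γ(Y, W.1) Γ(F, W.1))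
    (fun i => ⟨U i, aff i⟩) hU ⟨V, hV⟩
    (fun W r hW => finite_basicOpen (ql_of_qc F W.2) r hW)
    (fun W T hT hW => finite_of_span W.2 (ql_of_qc F W.2) T hT hW) h

variable (Y)

theorem isCoh_iso : (IsCoh Y).IsClosedUnderIsomorphisms where
  of_iso {A B} e hA := by
    refine ⟨(SheafOfModules.isQuasicoherent Y.ringCatSheaf).prop_of_iso e hA.1, fun V hV => ?_⟩
    have := hA.2 V hV
    exact Module.Finite.of_surjective (appL e.hom V) fun s =>
      ⟨e.inv.app V s, congrArg (fun φ : B ⟶ B => φ.app V s) e.inv_hom_id⟩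

theorem isCoh_zero : (IsCoh Y).ContainsZero := by
  obtain ⟨Z, hZ⟩ := HasZeroObject.zero (C := Y.Modules)
  have key : ∀ (V : Y.Opens) (s : Γ(Z, V)), s = 0 := fun V s =>
    congrArg (fun φ : Z ⟶ Z => φ.app V s) (hZ.eq_of_src (𝟙 Z) 0)
  refine ⟨Z, hZ, qc_of_all _ fun V _ r => ⟨fun s => ⟨0, 0, (key _ _).trans (key _ _).symm⟩,
    fun t _ => ⟨0, key _ _⟩⟩, fun V _ => ?_⟩
  have : Subsingleton Γ(Z, V) := ⟨fun a b => (key _ a).trans (key _ b).symm⟩
  infer_instance

theorem isCoh_kernels [IsLocallyNoetherian Y] : (IsCoh Y).IsClosedUnderKernels := by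
  have := isCoh_iso Y
  refine ⟨?_⟩
  rintro _ ⟨φ, k, hk, hA, hB⟩
  rename_i A B
  refine (IsCoh Y).prop_of_iso (IsLimit.conePointUniqueUpToIso (kernelIsKernel φ) hk) ?_
  have := hA.1
  have := hB.1
  refine ⟨qc_of_all (kernel φ) fun V hV r => ⟨fun s => ?_, fun t ht => ?_⟩, fun V hV => ?_⟩
  · have hz : φ.app _ ((kernel.ι φ).app _ s) = 0 :=
      congrArg (fun ψ : kernel φ ⟶ B => ψ.app _ s) (kernel.condition φ)
    obtain ⟨m, a, ha⟩ := (ql_of_qc A hV r).1 ((kernel.ι φ).app _ s)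
    obtain ⟨l, hl⟩ := (ql_of_qc B hV r).2 (φ.app V a)
      (by rw [← app_res, ha, app_smul, hz, smul_zero])
    obtain ⟨t, ht⟩ := ker_exact φ V (r ^ l • a) (by rw [app_smul, hl])
    refine ⟨l + m, t, ker_inj φ _ ?_⟩
    rw [app_res, ht, res_smul, ha, map_pow, smul_smul, ← pow_add, app_smul]
  · obtain ⟨m, hm⟩ := (ql_of_qc A hV r).2 ((kernel.ι φ).app V t)
      (by rw [← app_res, ht, app_zero])
    exact ⟨m, ker_inj φ _ (by rw [app_smul, hm, app_zero])⟩
  · have := hA.2 V hV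
    have : IsNoetherianRing Γ(Y, V) := IsLocallyNoetherian.component_noetherian ⟨V, hV⟩
    exact Module.Finite.of_injective (appL (kernel.ι φ) V) (ker_inj φ V)

theorem isCoh_cokernels : (IsCoh Y).IsClosedUnderCokernels := by
  have := isCoh_iso Y
  refine ⟨?_⟩
  rintro _ ⟨φ, k, hk, hA, hB⟩
  refine (IsCoh Y).prop_of_iso (IsColimit.coconePointUniqueUpToIso (cokernelIsCokernel φ) hk) ?_
  have := hA.1
  have := hB.1
  refine ⟨coker_qc φ, fun V hV => ?_⟩
  have := hB.2 V hV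
  exact Module.Finite.of_surjective (appL (cokernel.π φ) V) (coker_surj φ hV)

theorem isCoh_products : (IsCoh Y).IsClosedUnderFiniteProducts := by
  have := isCoh_iso Y
  have := isCoh_zero Y
  have : (IsCoh Y).IsClosedUnderBinaryProducts := by
    refine ⟨?_⟩
    rintro M ⟨h⟩
    exact (IsCoh Y).prop_of_iso (IsLimit.conePointsIsoOfNatIso h.isLimit
      (BinaryBiproduct.isLimit _ _) (diagramIsoPair h.diag)).symm
      (isCoh_biprod (h.prop_diag_obj _) (h.prop_diag_obj _))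
  exact .mk'

theorem isCoh_one : IsCoh Y (SheafOfModules.unit Y.ringCatSheaf) :=
  ⟨qc_of_all _ fun _ hV r => ⟨fun s => fun_surj hV r s, fun t ht => fun_ker hV r t ht⟩,
    fun V _ => Module.Finite.self Γ(Y, V)⟩

end Pool.Agent.Lib.MP_0ba2dd_ag.N
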