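import Mathlib.Algebra.Homology.DerivedCategory.TStructure
import Mathlib.CategoryTheory.Triangulated.Subcategory

/-! Indecomposable subcategories and the right orthogonal of two objects in `D^b`. -/

namespace Pool.Agent.Lib.MP_0ba2dd_ag.N

open CategoryTheory Limits

/-- A full subcategory `T` of a triangulated category has no nontrivial semiorthogonal
decomposition `⟨𝒜, ℬ⟩`. -/
def Indecomposable {C : Type*} [Category C] [HasZeroObject C] [HasShift C ℤ] [Preadditive C]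
    [∀ n : ℤ, (shiftFunctor C n).Additive] [Pretriangulated C] (T : ObjectProperty C) : Prop :=
  ∀ 𝒜 ℬ : ObjectProperty C, 𝒜.IsTriangulated → ℬ.IsTriangulated → 𝒜 ≤ T → ℬ ≤ T →
    (∀ A B, 𝒜 A → ℬ B → ∀ φ : B ⟶ A, φ = 0) →
    (∀ E, T E → ∃ (B A : C) (u : B ⟶ E) (v : E ⟶ A) (w : A ⟶ B⟦(1 : ℤ)⟧), ℬ B ∧ 𝒜 A ∧
      Pretriangulated.Triangle.mk u v w ∈ distTriang C) →
    (∀ A, 𝒜 A → IsZero A) ∨ (∀ B, ℬ B → IsZero B)

/-- The bounded complexes `K` with `Hom(O i, K[n]) = 0` for `0 ≤ i < r` and all `n`. -/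
def KuOf {A : Type*} [Category A] [Abelian A] [HasDerivedCategory A] (O : ℤ → A) (r : ℤ) :
    ObjectProperty (DerivedCategory A) := fun K =>
  (∃ a b : ℤ, K.IsGE a ∧ K.IsLE b) ∧ ∀ i : ℤ, 0 ≤ i → i < r →
    ∀ (n : ℤ) (φ : (DerivedCategory.singleFunctor A 0).obj (O i) ⟶ K⟦n⟧), φ = 0

end Pool.Agent.Lib.MP_0ba2dd_ag.N
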