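import Pool.Agent.Lib.MP_0ba2dd_ag.N.H13Dim
import Mathlib.RingTheory.MvPolynomial.WeightedHomogeneous
import Mathlib.RingTheory.MvPolynomial.Homogeneous
import Mathlib.Algebra.MvPolynomial.PDeriv
import Mathlib.RingTheory.Ideal.Quotient.Operations
import Mathlib.CategoryTheory.Limits.FunctorCategory.Finite
import Mathlib.Algebra.Homology.ShortComplex.ExactFunctor
import Mathlib.Algebra.Category.ModuleCat.Abelian
import Mathlib.Algebra.Category.ModuleCat.EpiMono
import Mathlib.CategoryTheory.Abelian.FunctorCategory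
import Mathlib.CategoryTheory.Abelian.Subcategory
import Mathlib.CategoryTheory.Abelian.SerreClass.Localization
import Mathlib.CategoryTheory.Limits.FunctorCategory.EpiMono
import Mathlib.Algebra.Homology.DerivedCategory.TStructure
import Mathlib.Algebra.Homology.ShortComplex.ModuleCat
import Mathlib.CategoryTheory.Triangulated.Subcategory
import Pool.Agent.Lib.MP_0ba2dd_ag.N.H45Ind

/-! Graded modules over `R = k[x₀,…,x₄]/(f)`, the Serre quotient by torsion modules
(quasi-coherent sheaves on `X = Proj R`), the twisting sheaves, `D^b(X)` and `Ku(X)`. -/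

namespace Pool.Agent.Lib.MP_0ba2dd_ag.N

variable [Dim]

open CategoryTheory Limits MvPolynomial

universe u

/-- Homogeneous polynomials of degree `d : ℤ` in five variables (zero for `d < 0`). -/
abbrev Hom5 (k : Type u) [Field k] (d : ℤ) : Submodule k (MvPolynomial (Fin nv) k) :=
  weightedHomogeneousSubmodule k (fun _ => (1 : ℤ)) d

/-- The category with objects the integers, a morphism `i ⟶ j` being a homogeneous polynomial of
degree `j - i`. -/
structure Deg (k : Type u) where
  n : ℤ

variable {k : Type u} [Field k]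

noncomputable instance : Category (Deg k) where
  Hom i j := Hom5 k (j.n - i.n)
  id i := ⟨1, by simpa using isWeightedHomogeneous_one k _⟩
  comp {i j l} p q := ⟨p.1 * q.1, by
    have := IsWeightedHomogeneous.mul p.2 q.2
    rwa [show j.n - i.n + (l.n - j.n) = l.n - i.n by ring] at this⟩
  id_comp p := Subtype.ext (one_mul p.1)
  comp_id p := Subtype.ext (mul_one p.1)
  assoc p q r := Subtype.ext (mul_assoc p.1 q.1 r.1)

/-- A graded module over `k[x]/(f)`: vector spaces `M i` with an action of the homogeneous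
polynomials that is linear in the polynomial and kills `f`. -/
def IsGrMod (f : MvPolynomial (Fin nv) k) : ObjectProperty (Deg k ⥤ ModuleCat.{u} k) := fun M =>
  (∀ (i j : Deg k) (p q s : i ⟶ j), s.1 = p.1 + q.1 → M.map s = M.map p + M.map q) ∧
  (∀ (i j : Deg k) (r : k) (p s : i ⟶ j), s.1 = r • p.1 → M.map s = r • M.map p) ∧
  (∀ (i j : Deg k) (p : i ⟶ j), p.1 = f → M.map p = 0)

variable (f : MvPolynomial (Fin nv) k)

instance : (IsGrMod f).IsClosedUnderSubobjects where
  prop_of_mono {M N} φ _ h := by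
    refine ⟨fun i j p q s e => ?_, fun i j r p s e => ?_, fun i j p e => ?_⟩
    · rw [← cancel_mono (φ.app j), Preadditive.add_comp, φ.naturality, φ.naturality,
        φ.naturality, h.1 i j p q s e, Preadditive.comp_add]
    · rw [← cancel_mono (φ.app j), Linear.smul_comp, φ.naturality, φ.naturality,
        h.2.1 i j r p s e, Linear.comp_smul]
    · rw [← cancel_mono (φ.app j), φ.naturality, h.2.2 i j p e, comp_zero, zero_comp]

instance : (IsGrMod f).IsClosedUnderQuotients where
  prop_of_epi {M N} φ _ h := by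
    refine ⟨fun i j p q s e => ?_, fun i j r p s e => ?_, fun i j p e => ?_⟩
    · rw [← cancel_epi (φ.app i), Preadditive.comp_add, ← φ.naturality, ← φ.naturality,
        ← φ.naturality, h.1 i j p q s e, Preadditive.add_comp]
    · rw [← cancel_epi (φ.app i), Linear.comp_smul, ← φ.naturality, ← φ.naturality,
        h.2.1 i j r p s e, Linear.smul_comp]
    · rw [← cancel_epi (φ.app i), ← φ.naturality, h.2.2 i j p e, comp_zero, zero_comp]

theorem isGrMod_of_isZero {M : Deg k ⥤ ModuleCat.{u} k} (h : IsZero M) : IsGrMod f M :=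
  ⟨fun i _ _ _ _ _ => (h.obj i).eq_of_src _ _, fun i _ _ _ _ _ => (h.obj i).eq_of_src _ _,
    fun i _ _ _ => (h.obj i).eq_of_src _ _⟩

instance : (IsGrMod f).ContainsZero where
  exists_zero := ⟨_, isZero_zero _, isGrMod_of_isZero f (isZero_zero _)⟩

instance : (IsGrMod f).IsClosedUnderBinaryProducts where
  limitsOfShape_le := by
    rintro M ⟨h⟩
    have key : ∀ (i j : Deg k) (a b : M.obj i ⟶ M.obj j),
        (∀ c, a ≫ (h.π.app c).app j = b ≫ (h.π.app c).app j) → a = b := fun i j a b e =>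
      (isLimitOfPreserves ((evaluation _ _).obj j) h.isLimit).hom_ext e
    refine ⟨fun i j p q s e => key _ _ _ _ (fun c => ?_), fun i j r p s e => key _ _ _ _
      (fun c => ?_), fun i j p e => key _ _ _ _ (fun c => ?_)⟩
    · rw [Preadditive.add_comp, NatTrans.naturality, NatTrans.naturality, NatTrans.naturality,
        (h.prop_diag_obj c).1 i j p q s e, Preadditive.comp_add]
    · rw [Linear.smul_comp, NatTrans.naturality, NatTrans.naturality,
        (h.prop_diag_obj c).2.1 i j r p s e, Linear.comp_smul]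
    · rw [NatTrans.naturality, (h.prop_diag_obj c).2.2 i j p e, comp_zero, zero_comp]

instance : (IsGrMod f).IsClosedUnderFiniteProducts := .mk'

/-- The abelian category of graded modules over `k[x]/(f)`. -/
abbrev Gr := (IsGrMod f).FullSubcategory

/-- Multiplication by `x_a ^ n`, from degree `i` to degree `i + n`. -/
noncomputable def xpow (a : Fin nv) (n : ℕ) (i : Deg k) : i ⟶ ⟨i.n + n⟩ :=
  ⟨X a ^ n, by simpa using (isWeightedHomogeneous_X k (fun _ => (1 : ℤ)) a).pow n⟩

/-- Torsion modules: every homogeneous element is killed by a power of each variable. -/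
def Tors : ObjectProperty (Gr f) := fun M =>
  ∀ (i : Deg k) (m : M.obj.obj i) (a : Fin nv), ∃ n : ℕ, M.obj.map (xpow a n i) m = 0

instance : (IsGrMod f).ι.PreservesMonomorphisms :=
  (IsGrMod f).preservesMonomorphisms_ι_of_isNormalEpiCategory

instance : (IsGrMod f).ι.PreservesEpimorphisms :=
  (IsGrMod f).preservesEpimorphisms_ι_of_isNormalMonoCategory

variable {f} in
theorem Gr.nat {M N : Gr f} (φ : M ⟶ N) {i j : Deg k} (p : i ⟶ j) (m : M.obj.obj i) :
    φ.hom.app j (M.obj.map p m) = N.obj.map p (φ.hom.app i m) :=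
  congrArg (fun ψ : M.obj.obj i ⟶ N.obj.obj j => ψ m) (φ.hom.naturality p)

variable {f} in
theorem Gr.inj {M N : Gr f} (φ : M ⟶ N) [Mono φ] (i : Deg k) :
    Function.Injective (φ.hom.app i) := by
  have : Mono φ.hom := inferInstanceAs (Mono ((IsGrMod f).ι.map φ))
  exact (ModuleCat.mono_iff_injective _).mp inferInstance

variable {f} in
theorem Gr.surj {M N : Gr f} (φ : M ⟶ N) [Epi φ] (i : Deg k) :
    Function.Surjective (φ.hom.app i) := by
  have : Epi φ.hom := inferInstanceAs (Epi ((IsGrMod f).ι.map φ))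
  exact (ModuleCat.epi_iff_surjective _).mp inferInstance

instance : PreservesFiniteLimits (IsGrMod f).ι := by
  rw [((Functor.preservesFiniteLimits_tfae (IsGrMod f).ι).out 3 2 :)]
  intro _ _ φ
  exact (IsGrMod f).preservesKernels_ι φ

instance : PreservesFiniteColimits (IsGrMod f).ι := by
  rw [((Functor.preservesFiniteColimits_tfae (IsGrMod f).ι).out 3 2 :)]
  intro _ _ φ
  exact (IsGrMod f).preservesCokernels_ι φ

/-- The degree `i` part of a graded module. -/
noncomputable def Gr.ev (i : Deg k) : Gr f ⥤ ModuleCat.{u} k :=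
  (IsGrMod f).ι ⋙ (evaluation _ _).obj i

instance (i : Deg k) : (Gr.ev f i).Additive := inferInstanceAs (Functor.Additive (_ ⋙ _))

instance (i : Deg k) : PreservesFiniteLimits (Gr.ev f i) := comp_preservesFiniteLimits _ _

instance (i : Deg k) : PreservesFiniteColimits (Gr.ev f i) := comp_preservesFiniteColimits _ _

variable {f} in
theorem Gr.exact {S : ShortComplex (Gr f)} (h : S.Exact) (i : Deg k) (m : S.X₂.obj.obj i)
    (hm : S.g.hom.app i m = 0) : ∃ m', S.f.hom.app i m' = m :=
  (ShortComplex.moduleCat_exact_iff _).mp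
    (h.map (Gr.ev f i)) m hm

instance : (Tors f).IsSerreClass where
  exists_zero := ⟨_, isZero_zero _, fun i m a => ⟨0, by
    have := (Gr.ev f ⟨i.n + (0 : ℕ)⟩).map_isZero (isZero_zero _)
    exact (ModuleCat.isZero_iff_subsingleton.mp this).elim _ _⟩⟩
  prop_of_mono {M N} φ _ h i m a := by
    obtain ⟨n, hn⟩ := h i (φ.hom.app i m) a
    exact ⟨n, Gr.inj φ _ (by rw [Gr.nat, hn, map_zero])⟩
  prop_of_epi {M N} φ _ h i m a := by
    obtain ⟨m, rfl⟩ := Gr.surj φ i m
    obtain ⟨n, hn⟩ := h i m a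
    exact ⟨n, by rw [← Gr.nat, hn, map_zero]⟩
  prop_X₂_of_shortExact {S} hS h₁ h₃ i m a := by
    obtain ⟨n, hn⟩ := h₃ i (S.g.hom.app i m) a
    obtain ⟨m', hm'⟩ := Gr.exact hS.exact _ (S.X₂.obj.map (xpow a n i) m) (by rw [Gr.nat, hn])
    obtain ⟨n', hn'⟩ := h₁ _ m' a
    refine ⟨n + n', ?_⟩
    let e : (⟨i.n + n + n'⟩ : Deg k) ⟶ ⟨i.n + (n + n' : ℕ)⟩ :=
      ⟨1, by
        have := isWeightedHomogeneous_one k (fun _ : Fin nv => (1 : ℤ))
        rwa [show (0 : ℤ) = i.n + (n + n' : ℕ) - (i.n + n + n') by push_cast; ring] at this⟩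
    have : xpow a (n + n') i = xpow a n i ≫ xpow a n' _ ≫ e :=
      Subtype.ext (show X a ^ (n + n') = X a ^ n * (X a ^ n' * 1) by ring)
    rw [this, Functor.map_comp, Functor.map_comp, ModuleCat.comp_apply, ModuleCat.comp_apply,
      ← hm', ← Gr.nat, hn', map_zero, map_zero]

/-- Graded modules modulo torsion: quasi-coherent sheaves on `X = Proj k[x]/(f)` (Serre). -/
abbrev QGr := (Tors f).isoModSerre.Localization

/-- The sheaf attached to a graded module. -/
noncomputable abbrev sheafOf : Gr f ⥤ QGr f := (Tors f).isoModSerre.Q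

noncomputable instance : Abelian (QGr f) :=
  ObjectProperty.SerreClassLocalization.abelian (sheafOf f) (Tors f)

/-- Finitely generated graded modules. -/
def FG : ObjectProperty (Gr f) := fun M =>
  ∃ (n : ℕ) (g : Fin n → Deg k) (m : ∀ a, M.obj.obj (g a)), ∀ (j : Deg k) (v : M.obj.obj j),
    ∃ p : ∀ a, g a ⟶ j, v = ∑ a, M.obj.map (p a) (m a)

/-- The degree `d` part of `R = k[x]/(f)`. -/
noncomputable def Rdeg (d : ℤ) : Submodule k (MvPolynomial (Fin nv) k ⧸ Ideal.span {f}) :=
  (Hom5 k d).map (Ideal.Quotient.mkₐ k (Ideal.span {f})).toLinearMap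

theorem mul_mem_Rdeg {d e e' : ℤ} {p : MvPolynomial (Fin nv) k} (hp : p ∈ Hom5 k d)
    {v : MvPolynomial (Fin nv) k ⧸ Ideal.span {f}} (hv : v ∈ Rdeg f e) (h : d + e = e') :
    Ideal.Quotient.mk (Ideal.span {f}) p * v ∈ Rdeg f e' := by
  obtain ⟨q, hq, rfl⟩ := hv
  exact ⟨p * q, h ▸ IsWeightedHomogeneous.mul hp hq, by simp⟩

/-- Multiplication by a form, `R_{i+m} → R_{j+m}`. -/
noncomputable abbrev twMap (m : ℤ) {i j : Deg k} (p : i ⟶ j) :
    Rdeg f (i.n + m) →ₗ[k] Rdeg f (j.n + m) :=
  (LinearMap.mulLeft k (Ideal.Quotient.mk (Ideal.span {f}) p.1)).restrict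
    (fun _ hv => mul_mem_Rdeg f p.2 hv (by ring))

theorem twMap_id (m : ℤ) (i : Deg k) : ModuleCat.ofHom (twMap f m (𝟙 i)) = 𝟙 _ := by
  ext v
  exact one_mul v.1

theorem twMap_comp (m : ℤ) {i j l : Deg k} (p : i ⟶ j) (q : j ⟶ l) :
    ModuleCat.ofHom (twMap f m (p ≫ q)) =
      ModuleCat.ofHom (twMap f m p) ≫ ModuleCat.ofHom (twMap f m q) := by
  ext v
  change Ideal.Quotient.mk _ (p.1 * q.1) * v.1 =
    Ideal.Quotient.mk _ q.1 * (Ideal.Quotient.mk _ p.1 * v.1)
  rw [map_mul]; ring

/-- The underlying functor of `R(m)`. -/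
noncomputable abbrev twObj (m : ℤ) : Deg k ⥤ ModuleCat.{u} k where
  obj i := ModuleCat.of k (Rdeg f (i.n + m))
  map p := ModuleCat.ofHom (twMap f m p)
  map_id := twMap_id f m
  map_comp := twMap_comp f m

theorem isGrMod_twObj (m : ℤ) : IsGrMod f (twObj f m) := by
  refine ⟨fun i j p q s e => ?_, fun i j r p s e => ?_, fun i j p e => ?_⟩
  · ext v
    change Ideal.Quotient.mk _ s.1 * v.1 =
      Ideal.Quotient.mk _ p.1 * v.1 + Ideal.Quotient.mk _ q.1 * v.1
    rw [e, map_add, add_mul]
  · ext v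
    change Ideal.Quotient.mkₐ k _ s.1 * v.1 = r • (Ideal.Quotient.mkₐ k _ p.1 * v.1)
    rw [e, map_smul, smul_mul_assoc]
  · ext v
    change Ideal.Quotient.mk _ p.1 * v.1 = 0
    rw [e, Ideal.Quotient.eq_zero_iff_mem.mpr (Ideal.mem_span_singleton_self f), zero_mul]

/-- The twisted module `R(m)`, `R(m)_i = R_{i+m}`. -/
noncomputable def twistMod (m : ℤ) : Gr f := ⟨twObj f m, isGrMod_twObj f m⟩

section Derived

variable {f} {A : Type*} [Category A] [Abelian A] [HasDerivedCategory A] (π : Gr f ⥤ A)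

/-- Coherent objects: sheaves of finitely generated modules. -/
def Coh : ObjectProperty A := fun K => ∃ M : Gr f, FG f M ∧ Nonempty (π.obj M ≅ K)

/-- `D^b(X)`: complexes with bounded and coherent cohomology. -/
def Db : ObjectProperty (DerivedCategory A) := fun K =>
  (∃ a b : ℤ, K.IsGE a ∧ K.IsLE b) ∧
    ∀ n : ℤ, Coh π ((DerivedCategory.homologyFunctor A n).obj K)

/-- The line bundle `O_X(m)` as an object of the derived category. -/
noncomputable def lineO (m : ℤ) : DerivedCategory A :=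
  (DerivedCategory.singleFunctor A 0).obj (π.obj (twistMod f m))

/-- The Kuznetsov component. -/
def Ku : ObjectProperty (DerivedCategory A) := fun K =>
  Db π K ∧ ∀ m : ℤ, 0 ≤ m ∧ m + 4 ≤ nv → ∀ (n : ℤ) (φ : lineO π m ⟶ K⟦n⟧), φ = 0

end Derived

end Pool.Agent.Lib.MP_0ba2dd_ag.N
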