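import Pool.Agent.Lib.MP_0ba2dd_ag.N.H45GrA

/-! Elementwise description of isomorphisms modulo torsion. -/

namespace Pool.Agent.Lib.MP_0ba2dd_ag.N

variable [Dim]

open CategoryTheory Limits MvPolynomial

universe u

variable {k : Type u} [Field k] {f : Q k} {M N : Gr f}

theorem monoModSerre_elem (w : M ⟶ N) : (Tors f).monoModSerre w ↔
    ∀ (i : Deg k) (m : M.obj.obj i) (a : Fin nv), w.hom.app i m = 0 →
      ∃ e : ℕ, M.obj.map (xpow a e i) m = 0 := by
  constructor
  · intro h i m a hm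
    obtain ⟨m', rfl⟩ := Gr.exact (ShortComplex.exact_kernel w) i m hm
    obtain ⟨e, he⟩ := h i m' a
    exact ⟨e, ((Gr.nat (kernel.ι w) _ m').symm.trans (congrArg _ he)).trans (map_zero _)⟩
  · intro h i m a
    obtain ⟨e, he⟩ := h i ((kernel.ι w).hom.app i m) a
      (congrArg (fun φ : kernel w ⟶ N => φ.hom.app i m) (kernel.condition w))
    exact ⟨e, Gr.inj (kernel.ι w) _ (by rw [Gr.nat, he, map_zero])⟩

theorem epiModSerre_elem (w : M ⟶ N) : (Tors f).epiModSerre w ↔
    ∀ (i : Deg k) (n : N.obj.obj i) (a : Fin nv),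
      ∃ (e : ℕ) (m : M.obj.obj ⟨i.n + e⟩), w.hom.app _ m = N.obj.map (xpow a e i) n := by
  constructor
  · intro h i n a
    obtain ⟨e, he⟩ := h i ((cokernel.π w).hom.app i n) a
    exact ⟨e, Gr.exact (ShortComplex.exact_cokernel w) _ _ ((Gr.nat (cokernel.π w) _ n).trans he)⟩
  · intro h i n a
    obtain ⟨n, rfl⟩ := Gr.surj (cokernel.π w) i n
    obtain ⟨e, m, he⟩ := h i n a
    refine ⟨e, ?_⟩
    rw [← Gr.nat, ← he]
    exact congrArg (fun φ : M ⟶ cokernel w => φ.hom.app _ m) (cokernel.condition w)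

end Pool.Agent.Lib.MP_0ba2dd_ag.N
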