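import Pool.Agent.Lib.MP_0ba2dd_ag.N.H45Noeth
import Pool.Agent.Lib.MP_0ba2dd_ag.N.H45GT

/-! Abstract facts on the Serre quotient of graded modules. -/

namespace Pool.Agent.Lib.MP_0ba2dd_ag.N

variable [Dim]

open CategoryTheory Limits MvPolynomial

universe u

namespace Ess

variable {A C : Type*} [Category A] [Abelian A] [Category C] [Abelian C] (ι : C ⥤ A) [ι.Additive]

theorem zero {X : A} (h : IsZero X) : ι.essImage X :=
  ⟨_, ⟨(ι.map_isZero (isZero_zero C)).iso h⟩⟩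

theorem biprod {X Y : A} (hX : ι.essImage X) (hY : ι.essImage Y) : ι.essImage (X ⊞ Y) := by
  obtain ⟨X', ⟨e⟩⟩ := hX
  obtain ⟨Y', ⟨e'⟩⟩ := hY
  have := preservesBinaryBiproducts_of_preservesBiproducts ι
  exact ⟨X' ⊞ Y', ⟨ι.mapBiprod X' Y' ≪≫ Limits.biprod.mapIso e e'⟩⟩

theorem coker [ι.Full] [PreservesFiniteColimits ι] {X Y : A} (u : X ⟶ Y) (hX : ι.essImage X)
    (hY : ι.essImage Y) : ι.essImage (cokernel u) := by
  obtain ⟨X', ⟨e⟩⟩ := hX
  obtain ⟨Y', ⟨e'⟩⟩ := hY
  obtain ⟨a, ha⟩ := ι.map_surjective (e.hom ≫ u ≫ e'.inv)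
  exact ⟨cokernel a, ⟨PreservesCokernel.iso ι a ≪≫ cokernel.mapIso _ _ e e' (by simp [ha])⟩⟩

end Ess

variable {k : Type u} [Field k] {f : Q k} {A : Type*} [Category A] [Abelian A] (π : Gr f ⥤ A)
  [π.Additive] [PreservesFiniteLimits π] [PreservesFiniteColimits π]

theorem bij_of_local [π.IsLocalization (Tors f).isoModSerre] {N : Gr f}
    (hN : ∀ {M M' : Gr f} (w : M' ⟶ M), (Tors f).isoModSerre w →
      Function.Bijective fun g : M ⟶ N => w ≫ g) (M : Gr f) :
    Function.Bijective fun g : M ⟶ N => π.map g := by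
  constructor
  · intro g g' h
    obtain ⟨Z, s, hs, e⟩ := (MorphismProperty.map_eq_iff_precomp π (Tors f).isoModSerre g g').1 h
    exact (hN s hs).1 e
  · intro ψ
    obtain ⟨φ, hφ⟩ := Localization.exists_rightFraction π (Tors f).isoModSerre ψ
    obtain ⟨g, hg⟩ := (hN φ.s φ.hs).2 φ.f
    refine ⟨g, ?_⟩
    have := Localization.inverts π (Tors f).isoModSerre φ.s φ.hs
    dsimp only at hg ⊢
    rw [← cancel_epi (π.map φ.s), hφ, φ.map_s_comp_map, ← π.map_comp, hg]

theorem lifts_fg [π.IsLocalization (Tors f).isoModSerre] (hf : f.IsHomogeneous 3) {M : Gr f}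
    (hM : FG f M) {P : A} (p : P ⟶ π.obj M) [Epi p] :
    ∃ (M' : Gr f) (q : π.obj M' ⟶ P), FG f M' ∧ Epi (q ≫ p) := by
  obtain ⟨P₀, ⟨e⟩⟩ := (Localization.essSurj π (Tors f).isoModSerre).mem_essImage P
  obtain ⟨φ, hφ⟩ := Localization.exists_rightFraction π (Tors f).isoModSerre (e.hom ≫ p)
  have := Localization.inverts π (Tors f).isoModSerre φ.s φ.hs
  have h1 : π.map φ.s ≫ e.hom ≫ p = π.map φ.f := by rw [hφ, φ.map_s_comp_map]
  have h2 : Epi (π.map φ.f) := by rw [← h1]; infer_instance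
  have h3 : Epi (π.map (Abelian.image.ι φ.f)) :=
    epi_of_epi_fac (f := π.map (Abelian.factorThruImage φ.f)) (h := π.map φ.f)
      (by rw [← π.map_comp, Abelian.image.fac])
  obtain ⟨m, n, c, -, hc⟩ := (hM.of_mono hf (Abelian.image.ι φ.f)).exists_epi hf
  have := projective_Fr hf n fun _ => True
  refine ⟨_, π.map (Projective.factorThru c (Abelian.factorThruImage φ.f)) ≫ π.map φ.s ≫ e.hom,
    fg_Fr n _, ?_⟩
  have h4 : (π.map (Projective.factorThru c (Abelian.factorThruImage φ.f)) ≫ π.map φ.s ≫ e.hom) ≫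
      p = π.map c ≫ π.map (Abelian.image.ι φ.f) := by
    rw [Category.assoc, Category.assoc, h1, ← π.map_comp, ← π.map_comp]
    congr 1
    rw [← Projective.factorThru_comp_assoc c (Abelian.factorThruImage φ.f), Abelian.image.fac]
  rw [h4]
  infer_instance

omit [PreservesFiniteLimits π] [PreservesFiniteColimits π] in
theorem ess_fr (hf : f.IsHomogeneous 3) {C : Type*} [Category C] [Abelian C] (ι : C ⥤ A)
    [ι.Additive] (h : ∀ m, ι.essImage (π.obj (twistMod f m))) {I : Type} [Fintype I] (n : I → ℤ)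
    (s : Finset I) : ∀ U : I → Prop, (∀ a, U a → a ∈ s) → ι.essImage (π.obj (Fr f n U)) := by
  classical
  have z : ∀ U : I → Prop, (∀ a, U a → Odd (n a)) → ι.essImage (π.obj (Fr f n U)) := fun U hU =>
    Ess.zero ι (π.map_isZero
      ((Gr.isZero_iff _).2 fun j => Fr_subsingleton j fun a ha => Or.inr (hU a ha)))
  induction s using Finset.induction_on with
  | empty => exact fun U hU => z U fun a ha => absurd (hU a ha) (by simp)
  | insert a₀ s _ ih =>
    intro U hU
    obtain ⟨w, hw⟩ := Fr_ses (f := f) (n := n) (fun a => U a ∧ a = a₀) U (fun a => U a ∧ ¬ a = a₀)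
      (fun a => a = a₀) (fun _ => Iff.rfl) (fun _ => Iff.rfl)
    have hp := projective_Fr hf n fun a => U a ∧ ¬ a = a₀
    have := preservesBinaryBiproducts_of_preservesBiproducts π
    have e : Fr f n U ≅ Fr f n (fun a => U a ∧ a = a₀) ⊞ Fr f n fun a => U a ∧ ¬ a = a₀ :=
      (@ShortComplex.ShortExact.splittingOfProjective _ _ _ _ hw hp _).isoBinaryBiproduct
    refine Functor.essImage.ofIso (π.mapIso e ≪≫ π.mapBiprod _ _).symm (Ess.biprod ι ?_ ?_)
    · by_cases h0 : U a₀ ∧ Even (n a₀)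
      · obtain ⟨h1, g, hg⟩ := h0
        obtain ⟨e⟩ := Fr_iso_twist (f := f) (n := n) (U := fun a => U a ∧ a = a₀) a₀ g ⟨h1, rfl⟩
          (by omega) fun a ha _ => ha.2
        exact Functor.essImage.ofIso (π.mapIso e).symm (h _)
      · refine z _ ?_
        rintro a ⟨ha, rfl⟩
        exact Int.not_even_iff_odd.1 fun e => h0 ⟨ha, e⟩
    · exact ih _ fun a ha => (Finset.mem_insert.1 (hU a ha.1)).resolve_left ha.2

theorem ess_fg (hf : f.IsHomogeneous 3) {C : Type*} [Category C] [Abelian C] (ι : C ⥤ A)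
    [ι.Additive] [ι.Full] [PreservesFiniteColimits ι]
    (h : ∀ m, ι.essImage (π.obj (twistMod f m))) {M : Gr f} (hM : FG f M) :
    ι.essImage (π.obj M) := by
  obtain ⟨m, n, φ, -, hφ⟩ := hM.exists_epi hf
  obtain ⟨m', n', ψ, -, hψ⟩ := ((fg_Fr n fun _ => True).of_mono hf (kernel.ι φ)).exists_epi hf
  have e : cokernel (ψ ≫ kernel.ι φ) ≅ M := cokernelEpiComp ψ (kernel.ι φ) ≪≫
    (cokernelIsCokernel (kernel.ι φ)).coconePointUniqueUpToIso
      (Abelian.epiIsCokernelOfKernel _ (limit.isLimit (parallelPair φ 0)))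
  exact Functor.essImage.ofIso ((PreservesCokernel.iso π _).symm ≪≫ π.mapIso e)
    (Ess.coker ι _ (ess_fr π hf ι h n' Finset.univ _ fun a _ => Finset.mem_univ a)
      (ess_fr π hf ι h n Finset.univ _ fun a _ => Finset.mem_univ a))

end Pool.Agent.Lib.MP_0ba2dd_ag.N
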