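import Pool.Agent.Lib.MP_0ba2dd_ag.N.H45GA
import Pool.Agent.Lib.MP_0ba2dd_ag.N.H45Noeth

/-! Twisted global sections of line bundles and of coherent sheaves. -/

namespace Pool.Agent.Lib.MP_0ba2dd_ag.N

variable [Dim]

open CategoryTheory Limits AlgebraicGeometry MvPolynomial Opposite

universe u

variable {k : Type u} [Field k] {f : Q k} {Y : Scheme.{u}} (c : Chart f Y) {F : Y.Modules}

namespace GC

theorem xp_mem (a : Fin nv) (n : ℕ) : (X a ^ n : Q k) ∈ Hom5 k n := by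
  simpa using (isWeightedHomogeneous_X k (fun _ => (1 : ℤ)) a).pow n

theorem mul_mem {p q : Q k} {d e g : ℤ} (hp : p ∈ Hom5 k d) (hq : q ∈ Hom5 k e) (h : d + e = g) :
    p * q ∈ Hom5 k g := h ▸ IsWeightedHomogeneous.mul hp hq

/-- Homogenisation. -/
theorem homog (a : Fin nv) (r : Γ(Y, c.U a)) :
    ∃ N : ℕ, ∀ d : ℤ, (N : ℤ) ≤ d → ∃ p ∈ Hom5 k d, c.deh a p = r := by
  obtain ⟨q, rfl⟩ := c.surj a r
  refine ⟨q.totalDegree, fun d hd => ⟨∑ i ∈ Finset.range (q.totalDegree + 1),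
    X a ^ (d - i).toNat * homogeneousComponent i q, Submodule.sum_mem _ fun i hi => ?_, ?_⟩⟩
  · have := Finset.mem_range.1 hi
    exact mul_mem (xp_mem a _) (mem_Hom5_iff.2 (isWH_wQ_iff.2
      (homogeneousComponent_isHomogeneous i q))) (by omega)
  · conv_rhs => rw [← sum_homogeneousComponent q]
    simp only [map_sum, map_mul, map_pow, c.deh_X, one_pow, one_mul]

theorem sum_apply {β : Type*} (T : Finset β) (g : β → c.Sec F) (a : Fin nv) :
    (∑ b ∈ T, g b) a = ∑ b ∈ T, g b a := Finset.sum_apply a T g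

/-- A relation on one chart holds globally after multiplication by a power of the variable. -/
theorem approx [F.IsQuasicoherent] {β : Type*} [Fintype β] (d : β → ℤ) (g : β → c.Sec F)
    (hg : ∀ b, c.Glues (d b) (g b)) (a : Fin nv) {i : ℤ} {s : c.Sec F} (hs : c.Glues i s)
    (r : β → Γ(Y, c.U a)) (h : s a = ∑ b, r b • g b a) :
    ∃ (e : ℕ) (p : β → Q k), (∀ b, p b ∈ Hom5 k (i + e - d b)) ∧
      (X a ^ e : Q k) • s = ∑ b, p b • g b := by
  choose N hN using fun b => homog c a (r b)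
  obtain ⟨M, hM⟩ : ∃ M : ℕ, ∀ b, (N b : ℤ) ≤ i + M - d b := by
    refine ⟨∑ b, (N b + d b - i).toNat, fun b => ?_⟩
    have := Finset.single_le_sum (f := fun b => (N b + d b - i).toNat) (fun _ _ => Nat.zero_le _)
      (Finset.mem_univ b)
    omega
  choose p hp hp' using fun b => hN b _ (hM b)
  have ht : (X a ^ M : Q k) • s - ∑ b, p b • g b ∈ c.GSub F (i + M) :=
    sub_mem (Chart.Glues.smul c hs (xp_mem a M) (add_comm _ _))
      (Submodule.sum_mem _ fun b _ => Chart.Glues.smul c (hg b) (hp b) (by ring))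
  obtain ⟨n, hn⟩ := c.G_tors (j := ⟨i + M⟩) ⟨_, ht⟩ a (by
    change ((X a ^ M : Q k) • s - ∑ b, p b • g b) a = 0
    rw [c.sub_apply, sum_apply, c.smul_apply, map_pow, c.deh_X, one_pow, one_smul, h, sub_eq_zero]
    exact Finset.sum_congr rfl fun b _ => by rw [c.smul_apply, hp'])
  have h1 : (X a ^ n : Q k) • ((X a ^ M : Q k) • s - ∑ b, p b • g b) = 0 := congrArg Subtype.val hn
  refine ⟨n + M, fun b => X a ^ n * p b, fun b => mul_mem (xp_mem a n) (hp b) (by push_cast; ring),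
    ?_⟩
  rw [smul_sub, sub_eq_zero, Finset.smul_sum] at h1
  rw [pow_add, mul_smul, h1]
  exact Finset.sum_congr rfl fun b _ => (mul_smul _ _ _).symm

/-- The map out of `R(m)` given by an element of degree `-m`. -/
theorem exists_tw (hf : f.IsHomogeneous 3) (M : Gr f) (m : ℤ) (e : M.obj.obj ⟨-m⟩) :
    ∃ w : twistMod f m ⟶ M, ∀ (j : Deg k) (p : (⟨-m⟩ : Deg k) ⟶ j) (v : Rdeg f (j.n + m)),
      mkR f p.1 = v.1 → w.hom.app j v = M.obj.map p e := by
  choose ψ hψ using fun j : Deg k => gra2_psi hf M ⟨-m⟩ j e (2 * (j.n + m)) (by ring)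
  let ι : ∀ j : Deg k, Rdeg f (j.n + m) →ₗ[k] RN f (2 * (j.n + m)) := fun j =>
    Submodule.inclusion fun _ hv => gra2_mem.1 hv
  refine ⟨ObjectProperty.homMk
    { app := fun j => ModuleCat.ofHom (ψ j ∘ₗ ι j)
      naturality := fun i j q => ?_ }, fun j p v h => hψ j p _ h⟩
  ext v
  obtain ⟨_, p, hp, rfl⟩ := v
  let p' : (⟨-m⟩ : Deg k) ⟶ i := ⟨p, IsWH.cast hp (by ring)⟩
  refine (hψ j (p' ≫ q) _ ?_).trans ?_
  · change mkR f (p * q.1) = mkR f q.1 * mkR f p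
    rw [map_mul, mul_comm]
  · rw [Functor.map_comp, ModuleCat.comp_apply]
    exact congrArg _ (hψ i p' _ rfl).symm

end GC

theorem Chart.twist_iso (hf : f.IsHomogeneous 3) [F.IsQuasicoherent] {m : ℤ}
    (h : c.IsTwist m F) : ∃ w : twistMod f m ⟶ c.G.obj F, (Tors f).isoModSerre w := by
  obtain ⟨e, he, hb⟩ := h
  have hb' : ∀ a, Function.Bijective fun r : Γ(Y, c.U a) => r • e a := fun a => by
    simpa only [res_self] using hb a _ le_rfl
  obtain ⟨w, hw⟩ := GC.exists_tw hf (c.G.obj F) m ⟨e, he⟩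
  refine ⟨w, (monoModSerre_elem w).2 fun i v a hv => ?_, (epiModSerre_elem w).2 fun i s a => ?_⟩
  · obtain ⟨_, p, hp, rfl⟩ := v
    rw [hw i ⟨p, IsWH.cast hp (by ring)⟩ _ rfl] at hv
    have h1 : c.deh a p • e a = 0 := congrFun (congrArg Subtype.val hv) a
    have h2 : c.deh a p = 0 := (hb' a).1 (h1.trans (zero_smul _ _).symm)
    obtain ⟨n, hn⟩ : ∃ n : ℕ, f ∣ X a ^ n * p := by
      rcases lt_or_ge (i.n + m) 0 with h | h
      · rw [IsWH.eq_zero_of_neg N0 N0_wQ (mem_Hom5_iff.1 hp) (by simp only [N0_apply]; omega)]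
        exact ⟨0, by simp⟩
      · obtain ⟨d, hd⟩ := Int.eq_ofNat_of_zero_le h
        exact c.ker a p d (isWH_wQ_iff.1 (hd ▸ mem_Hom5_iff.1 hp)) h2
    refine ⟨n, Subtype.ext ?_⟩
    change mkR f (X a ^ n) * mkR f p = 0
    rw [← map_mul]
    exact Ideal.Quotient.eq_zero_iff_mem.2 (Ideal.mem_span_singleton.2 hn)
  · obtain ⟨r, hr⟩ := (hb' a).2 (s.1 a)
    obtain ⟨n, p, hp, h1⟩ := GC.approx c (fun _ : Unit => -m) (fun _ => e) (fun _ => he) a s.2
      (fun _ => r) (by simpa using hr.symm)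
    refine ⟨n, ⟨mkR f (p ()), p (), IsWH.cast (hp ()) (by ring), rfl⟩, ?_⟩
    rw [hw ⟨i.n + n⟩ ⟨p (), hp ()⟩ _ rfl]
    exact Subtype.ext (h1.trans (Fintype.sum_unique _)).symm

theorem Chart.G_fg (hf : f.IsHomogeneous 3) (h : IsCoh Y F) :
    ∃ (M : Gr f) (w : M ⟶ c.G.obj F), FG f M ∧ (Tors f).isoModSerre w := by
  classical
  have := h.1
  choose n t ht using fun a => (h.2 _ (c.aff a)).exists_fin
  choose N s hs using fun x : Σ a, Fin (n a) => c.G_ext x.1 (t x.1 x.2) 0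
  obtain ⟨φ, hφ⟩ := Fr.exists_desc (n := fun x : Σ a, Fin (n a) => 2 * (0 + (N x : ℤ)))
    (U := fun _ => True) hf (c.G.obj F) fun x g _ hg =>
      (⟨(s x).1, (show 0 + (N x : ℤ) = g by omega) ▸ (s x).2⟩ : c.GSub F g)
  refine ⟨Abelian.image φ, Abelian.image.ι φ, (fg_Fr _ _).of_epi (Abelian.factorThruImage φ),
    (Tors f).isoModSerre_of_mono _ ((epiModSerre_elem _).2 fun i v a => ?_)⟩
  obtain ⟨r, hr⟩ := (Submodule.mem_span_range_iff_exists_fun _).1
    (show v.1 a ∈ Submodule.span Γ(Y, c.U a) (Set.range (t a)) from ht a ▸ Submodule.mem_top)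
  obtain ⟨e, p, hp, h1⟩ := GC.approx c (fun l : Fin (n a) => 0 + (N ⟨a, l⟩ : ℤ))
    (fun l => (s ⟨a, l⟩).1) (fun l => (s ⟨a, l⟩).2) a v.2 r
    (hr.symm.trans (Finset.sum_congr rfl fun l _ => by rw [hs ⟨a, l⟩]))
  let q : ∀ l : Fin (n a), (⟨0 + (N ⟨a, l⟩ : ℤ)⟩ : Deg k) ⟶ ⟨i.n + e⟩ := fun l => ⟨p l, hp l⟩
  refine ⟨e, (Abelian.factorThruImage φ).hom.app _ (∑ l, (Fr f _ _).obj.map (q l)
    (frGen f (fun x : Σ a, Fin (n a) => 2 * (0 + (N x : ℤ))) (fun _ => True) ⟨a, l⟩ _ trivial rfl)),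
    (congrArg (fun ψ : _ ⟶ c.G.obj F => ψ.hom.app _ _) (Abelian.image.fac φ)).trans ?_⟩
  rw [map_sum]
  simp only [Gr.nat, hφ]
  exact Subtype.ext ((Submodule.coe_sum _ _ _).trans h1.symm)

end Pool.Agent.Lib.MP_0ba2dd_ag.N
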