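import Pool.Agent.Lib.MP_0ba2dd_ag.N.H45CohB
import Pool.Agent.Lib.MP_0ba2dd_ag.N.H45GT

/-! Twisted global sections: left exactness and saturation. -/

namespace Pool.Agent.Lib.MP_0ba2dd_ag.N

variable [Dim]

open CategoryTheory Limits AlgebraicGeometry MvPolynomial Opposite

universe u

variable {k : Type u} [Field k] {f : Q k} {Y : Scheme.{u}} (c : Chart f Y)

namespace H79

/-- The same form between two other degrees. -/
def sh {i j : Deg k} (p : i ⟶ j) (i' j' : Deg k) (e : j'.n - i'.n = j.n - i.n) : i' ⟶ j' :=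
  ⟨p.1, by rw [e]; exact p.2⟩

theorem map_comm (M : Gr f) {i j j' l : Deg k} (p : i ⟶ j) (q : j ⟶ l) (p' : i ⟶ j')
    (q' : j' ⟶ l) (h : p.1 * q.1 = p'.1 * q'.1) (m : M.obj.obj i) :
    M.obj.map q (M.obj.map p m) = M.obj.map q' (M.obj.map p' m) := by
  have : p ≫ q = p' ≫ q' := Subtype.ext h
  rw [← ModuleCat.comp_apply, ← ModuleCat.comp_apply, ← M.obj.map_comp, ← M.obj.map_comp, this]

theorem map_comp (M : Gr f) {i j l : Deg k} (p : i ⟶ j) (q : j ⟶ l) (m : M.obj.obj i) :
    M.obj.map (p ≫ q) m = M.obj.map q (M.obj.map p m) := by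
  rw [M.obj.map_comp, ModuleCat.comp_apply]

theorem deh_xpow (a : Fin nv) (e : ℕ) (i : Deg k) : c.deh a (xpow a e i).1 = 1 := by
  change c.deh a (X a ^ e) = 1
  rw [map_pow, c.deh_X, one_pow]

variable {F : Y.Modules} {M M' : Gr f}

/-- The value on the chart `a` of a map to twisted global sections. -/
noncomputable def val (h : M ⟶ c.G.obj F) (i : Deg k) (m : M.obj.obj i) (a : Fin nv) :
    Γ(F, c.U a) :=
  (show c.GSub F i.n from h.hom.app i m).1 a

theorem val_act (h : M ⟶ c.G.obj F) {i j : Deg k} (p : i ⟶ j) (m : M.obj.obj i) (a : Fin nv) :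
    val c h j (M.obj.map p m) a = c.deh a p.1 • val c h i m a :=
  congrArg (fun s : c.GSub F j.n => s.1 a) (Gr.nat h p m)

theorem val_add (h : M ⟶ c.G.obj F) {i : Deg k} (m m' : M.obj.obj i) (a : Fin nv) :
    val c h i (m + m') a = val c h i m a + val c h i m' a :=
  congrArg (fun s : c.GSub F i.n => s.1 a) (map_add (h.hom.app i).hom m m')

theorem val_sub (h : M ⟶ c.G.obj F) {i : Deg k} (m m' : M.obj.obj i) (a : Fin nv) :
    val c h i (m - m') a = val c h i m a - val c h i m' a :=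
  congrArg (fun s : c.GSub F i.n => s.1 a) (map_sub (h.hom.app i).hom m m')

theorem val_zero (h : M ⟶ c.G.obj F) (i : Deg k) (a : Fin nv) : val c h i 0 a = 0 :=
  congrArg (fun s : c.GSub F i.n => s.1 a) (map_zero (h.hom.app i).hom)

theorem val_smul (h : M ⟶ c.G.obj F) {i : Deg k} (r : k) (m : M.obj.obj i) (a : Fin nv) :
    val c h i (r • m) a = c.deh a (C r) • val c h i m a :=
  congrArg (fun s : c.GSub F i.n => s.1 a) (map_smul (h.hom.app i).hom r m)

theorem val_glues (h : M ⟶ c.G.obj F) {i : Deg k} (m : M.obj.obj i) :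
    c.Glues i.n (val c h i m) :=
  (show c.GSub F i.n from h.hom.app i m).2

theorem val_ext {g g' : M ⟶ c.G.obj F} (h : ∀ i m a, val c g i m a = val c g' i m a) : g = g' := by
  ext i m
  exact Subtype.ext (funext fun a => h i m a)

theorem val_comp (w : M' ⟶ M) (g : M ⟶ c.G.obj F) (i : Deg k) (m : M'.obj.obj i) (a : Fin nv) :
    val c (w ≫ g) i m a = val c g i (w.hom.app i m) a := rfl

variable {w : M' ⟶ M} (hw : (Tors f).isoModSerre w) (h : M' ⟶ c.G.obj F)

include hw in
theorem val_ker {i : Deg k} {m : M'.obj.obj i} (hm : w.hom.app i m = 0) (a : Fin nv) :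
    val c h i m a = 0 := by
  obtain ⟨e, he⟩ := (monoModSerre_elem w).mp hw.1 i m a hm
  have := val_act c h (xpow a e i) m a
  rw [he, val_zero, deh_xpow, one_smul] at this
  exact this.symm

include hw in
theorem cross {i j j' : Deg k} {m : M.obj.obj i} (p : i ⟶ j) (p' : i ⟶ j') {n : M'.obj.obj j}
    {n' : M'.obj.obj j'} (hn : w.hom.app j n = M.obj.map p m)
    (hn' : w.hom.app j' n' = M.obj.map p' m) (a : Fin nv) :
    c.deh a p'.1 • val c h j n a = c.deh a p.1 • val c h j' n' a := by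
  let l : Deg k := ⟨j.n + j'.n - i.n⟩
  let q : j ⟶ l := sh p' j l (by simp only [l]; ring)
  let q' : j' ⟶ l := sh p j' l (by simp only [l]; ring)
  have h0 : w.hom.app l (M'.obj.map q n - M'.obj.map q' n') = 0 := by
    rw [map_sub, Gr.nat, Gr.nat, hn, hn', map_comm M p q p' q' (mul_comm _ _), sub_self]
  have := val_ker c hw h h0 a
  rw [val_sub, val_act, val_act, sub_eq_zero] at this
  exact this

variable (w) in
/-- `t` is the value on the chart `a` of the extension of `h` along `w`. -/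
def Rel {i : Deg k} (m : M.obj.obj i) (a : Fin nv) (t : Γ(F, c.U a)) : Prop :=
  ∃ (j : Deg k) (p : i ⟶ j) (n : M'.obj.obj j),
    c.deh a p.1 = 1 ∧ w.hom.app j n = M.obj.map p m ∧ val c h j n a = t

include hw in
theorem Rel.exist {i : Deg k} (m : M.obj.obj i) (a : Fin nv) : ∃ t, Rel c w h m a t := by
  obtain ⟨e, n, hn⟩ := (epiModSerre_elem w).mp hw.2 i m a
  exact ⟨_, _, xpow a e i, n, deh_xpow c a e i, hn, rfl⟩

include hw in
theorem Rel.uniq {i : Deg k} {m : M.obj.obj i} {a : Fin nv} {t t' : Γ(F, c.U a)}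
    (ht : Rel c w h m a t) (ht' : Rel c w h m a t') : t = t' := by
  obtain ⟨j, p, n, hp, hn, rfl⟩ := ht
  obtain ⟨j', p', n', hp', hn', rfl⟩ := ht'
  have := cross c hw h p p' hn hn' a
  rwa [hp, hp', one_smul, one_smul] at this

include hw in
theorem Rel.glue {i : Deg k} {m : M.obj.obj i} {a b : Fin nv} {t : Γ(F, c.U a)} {t' : Γ(F, c.U b)}
    (ht : Rel c w h m a t) (ht' : Rel c w h m b t') :
    res F inf_le_left t =
      ((c.tr a b ^ i.n : _ˣ) : Γ(Y, c.U a ⊓ c.U b)) • res F inf_le_right t' := by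
  obtain ⟨j, p, n, hp, hn, rfl⟩ := ht
  obtain ⟨j', p', n', hp', hn', rfl⟩ := ht'
  have h1 := cross c hw h p p' hn hn' b
  rw [hp', one_smul] at h1
  have h2 := c.compat' a b p.2
  rw [hp, map_one] at h2
  rw [val_glues c h n a b, h1, res_smul, smul_smul]
  congr 1
  have h3 : c.tr a b ^ j.n = c.tr a b ^ i.n * c.tr a b ^ (j.n - i.n) := by
    rw [← zpow_add, add_sub_cancel]
  rw [h3, Units.val_mul, mul_assoc, ← h2, mul_one]

theorem Rel.add {i : Deg k} {m m' : M.obj.obj i} {a : Fin nv} {t t' : Γ(F, c.U a)}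
    (ht : Rel c w h m a t) (ht' : Rel c w h m' a t') : Rel c w h (m + m') a (t + t') := by
  obtain ⟨j, p, n, hp, hn, rfl⟩ := ht
  obtain ⟨j', p', n', hp', hn', rfl⟩ := ht'
  let l : Deg k := ⟨j.n + j'.n - i.n⟩
  let q : j ⟶ l := sh p' j l (by simp only [l]; ring)
  let q' : j' ⟶ l := sh p j' l (by simp only [l]; ring)
  have hq : c.deh a q.1 = 1 := hp'
  have hq' : c.deh a q'.1 = 1 := hp
  refine ⟨l, p ≫ q, M'.obj.map q n + M'.obj.map q' n', ?_, ?_, ?_⟩
  · change c.deh a (p.1 * q.1) = 1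
    rw [map_mul, hp, hq, one_mul]
  · rw [map_add, map_add, Gr.nat, Gr.nat, hn, hn', map_comp, map_comp,
      map_comm M p q p' q' (mul_comm _ _) m']
  · rw [val_add, val_act, val_act, hq, hq', one_smul, one_smul]

theorem Rel.smul {i : Deg k} {m : M.obj.obj i} {a : Fin nv} {t : Γ(F, c.U a)} (r : k)
    (ht : Rel c w h m a t) : Rel c w h (r • m) a (c.deh a (C r) • t) := by
  obtain ⟨j, p, n, hp, hn, rfl⟩ := ht
  exact ⟨j, p, r • n, hp, by rw [map_smul, map_smul, hn], val_smul c h r n a⟩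

theorem Rel.act {i i' : Deg k} {m : M.obj.obj i} {a : Fin nv} {t : Γ(F, c.U a)} (q : i ⟶ i')
    (ht : Rel c w h m a t) : Rel c w h (M.obj.map q m) a (c.deh a q.1 • t) := by
  obtain ⟨j, p, n, hp, hn, rfl⟩ := ht
  let l : Deg k := ⟨j.n + i'.n - i.n⟩
  let q' : j ⟶ l := sh q j l (by simp only [l]; ring)
  let p' : i' ⟶ l := sh p i' l (by simp only [l]; ring)
  refine ⟨l, p', M'.obj.map q' n, hp, ?_, val_act c h q' n a⟩
  rw [Gr.nat, hn, map_comm M p q' q p' (mul_comm _ _)]

theorem Rel.of {i : Deg k} (n : M'.obj.obj i) (a : Fin nv) :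
    Rel c w h (w.hom.app i n) a (val c h i n a) :=
  ⟨i, 𝟙 i, n, map_one _, by rw [M.obj.map_id, ModuleCat.id_apply], rfl⟩

/-- The extension, in one degree. -/
noncomputable def extL (i : Deg k) : M.obj.obj i →ₗ[k] c.GSub F i.n where
  toFun m := ⟨fun a => (Rel.exist c hw h m a).choose, fun a b =>
    Rel.glue c hw h (Rel.exist c hw h m a).choose_spec (Rel.exist c hw h m b).choose_spec⟩
  map_add' m m' := Subtype.ext (funext fun a => Rel.uniq c hw h (Rel.exist c hw h _ a).choose_spec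
    (Rel.add c h (Rel.exist c hw h m a).choose_spec (Rel.exist c hw h m' a).choose_spec))
  map_smul' r m := Subtype.ext (funext fun a => Rel.uniq c hw h (Rel.exist c hw h _ a).choose_spec
    (Rel.smul c h r (Rel.exist c hw h m a).choose_spec))

/-- The extension of `h` along `w`. -/
noncomputable def extH : M ⟶ c.G.obj F :=
  ObjectProperty.homMk
    { app := fun i => ModuleCat.ofHom (extL c hw h i)
      naturality := fun i j q => by
        ext m : 2
        exact Subtype.ext (funext fun a => Rel.uniq c hw h (Rel.exist c hw h _ a).choose_spec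
          (Rel.act c h q (Rel.exist c hw h m a).choose_spec)) }

theorem comp_extH : w ≫ extH c hw h = h :=
  val_ext c fun _ n a => Rel.uniq c hw h (Rel.exist c hw h _ a).choose_spec (Rel.of c h n a)

end H79

namespace Chart

theorem G_lex : PreservesFiniteLimits c.G := by
  rw [((Functor.preservesFiniteLimits_tfae c.G).out 3 2 :)]
  intro F F' φ
  refine preservesLimit_of_preserves_limit_cone (kernelIsKernel φ) ?_
  apply (KernelFork.isLimitMapConeEquiv _ c.G).2
  let S := ShortComplex.mk _ _ (kernel.condition φ)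
  have hm : Mono (S.map c.G).f := Gr.mono_of_inj _ fun i s t e =>
    Subtype.ext (funext fun a => ker_inj φ _ (congrArg (fun s : c.GSub F i.n => s.1 a) e))
  have he : (S.map c.G).Exact := by
    refine Gr.exact_of fun i s hs => ?_
    have h0 : ∀ a, φ.app _ ((show c.GSub F i.n from s).1 a) = 0 := fun a =>
      congrArg (fun s : c.GSub F' i.n => s.1 a) hs
    choose t ht using fun a => ker_exact φ _ _ (h0 a)
    refine ⟨(⟨t, fun a b => ker_inj φ _ ?_⟩ : c.GSub (kernel φ) i.n), Subtype.ext (funext ht)⟩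
    rw [Scheme.Modules.Hom.app_smul, app_res, app_res, ht, ht]
    exact (show c.GSub F i.n from s).2 a b
  exact he.fIsKernel

theorem G_local (F : Y.Modules) {M M' : Gr f} (w : M' ⟶ M) (hw : (Tors f).isoModSerre w) :
    Function.Bijective fun g : M ⟶ c.G.obj F => w ≫ g := by
  refine ⟨fun g g' e => H79.val_ext c fun i m a => ?_,
    fun h => ⟨H79.extH c hw h, H79.comp_extH c hw h⟩⟩
  obtain ⟨n, m', hm'⟩ := (epiModSerre_elem w).mp hw.2 i m a
  have key : ∀ g : M ⟶ c.G.obj F, H79.val c g i m a = H79.val c (w ≫ g) _ m' a := fun g => by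
    rw [H79.val_comp, hm', H79.val_act, H79.deh_xpow, one_smul]
  rw [key, key, show w ≫ g = w ≫ g' from e]

end Chart

end Pool.Agent.Lib.MP_0ba2dd_ag.N
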