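import Pool.Agent.Lib.MP_0ba2dd_ag.N.H45Tw

/-! The abelian category of coherent sheaves, and the line bundles on the cubic hypersurface. -/

namespace Pool.Agent.Lib.MP_0ba2dd_ag.N

open CategoryTheory AlgebraicGeometry

universe u

section

variable (Y : Scheme.{u})

instance : (IsCoh Y).ContainsZero := isCoh_zero Y
instance [IsLocallyNoetherian Y] : (IsCoh Y).IsClosedUnderKernels := isCoh_kernels Y
instance : (IsCoh Y).IsClosedUnderCokernels := isCoh_cokernels Y
instance : (IsCoh Y).IsClosedUnderFiniteProducts := isCoh_products Y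

/-- The category of coherent sheaves. -/
def CohSh : Type (u + 1) := (IsCoh Y).FullSubcategory

instance : Category.{u} (CohSh Y) := ObjectProperty.FullSubcategory.category (IsCoh Y)

noncomputable instance [IsLocallyNoetherian Y] : Abelian (CohSh Y) :=
  (inferInstance : Abelian (IsCoh Y).FullSubcategory)

end

variable {k : Type u} [Field k] {n : ℕ} (f : MvPolynomial (Fin n) k) [Fact (f.IsHomogeneous 3)]

theorem isLocallyNoetherian_hyp : IsLocallyNoetherian (Hyp f) := by
  let _ : Dim := ⟨n⟩
  exact (exists_projChart f).choose.isLocallyNoetherian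

instance : IsLocallyNoetherian (Hyp f) := isLocallyNoetherian_hyp f

theorem isCoh_twist (m : ℤ) : IsCoh (Hyp f) (twist (grR f) m) := by
  let _ : Dim := ⟨n⟩
  exact (isTwist_twist _ (exists_projChart f).choose_spec m).isCoh

/-- The line bundle `O(m)` on the hypersurface. -/
noncomputable def twO (m : ℤ) : CohSh (Hyp f) := ⟨twist (grR f) m, isCoh_twist f m⟩

end Pool.Agent.Lib.MP_0ba2dd_ag.N
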