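import Pool.Agent.Lib.MP_0ba2dd_ag.N.H45Gr
import Mathlib.Algebra.Homology.HomotopyCategory.DegreewiseSplit

/-! Formal properties of Koszul exactness. -/

namespace Pool.Agent.Lib.MP_0ba2dd_ag.N

variable [Dim]

open CategoryTheory Limits MvPolynomial Pretriangulated

universe u

variable {k : Type u} [Field k] {f : Q k}

variable {d : ℤ} {l : List (Fin nv)}

namespace KEaux

open CochainComplex CochainComplex.HomComplex

/-- Elementwise form of an equation of morphisms. -/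
theorem ev {M N : Amb k} {a b : M ⟶ N} (h : a = b) (j : Deg k) (y : M.obj j) :
    a.app j y = b.app j y := by rw [h]

theorem nat {M N : Amb k} (φ : M ⟶ N) {i j : Deg k} (p : i ⟶ j) (m : M.obj i) :
    φ.app j (M.map p m) = N.map p (φ.app i m) :=
  congrArg (fun ψ : M.obj i ⟶ N.obj j => ψ m) (φ.naturality p)

theorem dd (Y : CochainComplex (Amb k) ℤ) (p q r : ℤ) (j : Deg k) (y : (Y.X p).obj j) :
    (Y.d q r).app j ((Y.d p q).app j y) = 0 := ev (Y.d_comp_d p q r) j y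

theorem comm {Y Y' : CochainComplex (Amb k) ℤ} (φ : Y ⟶ Y') (p q : ℤ) (j : Deg k)
    (y : (Y.X p).obj j) :
    (Y'.d p q).app j ((φ.f p).app j y) = (φ.f q).app j ((Y.d p q).app j y) :=
  ev (φ.comm p q) j y

section cone

variable {F G : CochainComplex (Amb k) ℤ} (φ : F ⟶ G)

/-- First component of an element of the cone. -/
noncomputable def fE (p q : ℤ) (h : p + 1 = q) : (mappingCone φ).X p ⟶ F.X q :=
  (mappingCone.fst φ).1.v p q h

/-- Second component of an element of the cone. -/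
noncomputable def sE (p : ℤ) : (mappingCone φ).X p ⟶ G.X p :=
  (mappingCone.snd φ).v p p (add_zero p)

theorem c_eq (p q : ℤ) (h : p + 1 = q) (j : Deg k) (y : ((mappingCone φ).X p).obj j) :
    y = ((mappingCone.inl φ).v q p (by omega)).app j ((fE φ p q h).app j y) +
      ((mappingCone.inr φ).f p).app j ((sE φ p).app j y) :=
  (ev (mappingCone.id_X φ p q h) j y).symm

theorem c_ext (p q : ℤ) (h : p + 1 = q) (j : Deg k) {y y' : ((mappingCone φ).X p).obj j}
    (h1 : (fE φ p q h).app j y = (fE φ p q h).app j y')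
    (h2 : (sE φ p).app j y = (sE φ p).app j y') : y = y' := by
  rw [c_eq φ p q h j y, c_eq φ p q h j y', h1, h2]

theorem c_mk (p q : ℤ) (h : p + 1 = q) (j : Deg k) (u : (F.X q).obj j) (v : (G.X p).obj j) :
    ∃ y : ((mappingCone φ).X p).obj j, (fE φ p q h).app j y = u ∧ (sE φ p).app j y = v := by
  refine ⟨((mappingCone.inl φ).v q p (by omega)).app j u + ((mappingCone.inr φ).f p).app j v,
    ?_, ?_⟩
  · rw [map_add]
    have h1 : (fE φ p q h).app j (((mappingCone.inl φ).v q p (by omega)).app j u) = u :=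
      ev (mappingCone.inl_v_fst_v φ q p h) j u
    have h2 : (fE φ p q h).app j (((mappingCone.inr φ).f p).app j v) = 0 :=
      ev (mappingCone.inr_f_fst_v φ p q h) j v
    rw [h1, h2, add_zero]
  · rw [map_add]
    have h1 : (sE φ p).app j (((mappingCone.inl φ).v q p (by omega)).app j u) = 0 :=
      ev (mappingCone.inl_v_snd_v φ q p (by omega)) j u
    have h2 : (sE φ p).app j (((mappingCone.inr φ).f p).app j v) = v :=
      ev (mappingCone.inr_f_snd_v φ p) j v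
    rw [h1, h2, zero_add]

theorem d_f (p q r : ℤ) (h : p + 1 = q) (h' : q + 1 = r) (j : Deg k)
    (y : ((mappingCone φ).X p).obj j) :
    (fE φ q r h').app j (((mappingCone φ).d p q).app j y)
      = -(F.d q r).app j ((fE φ p q h).app j y) :=
  ev (mappingCone.d_fst_v φ p q r h h') j y

theorem d_s (p q : ℤ) (h : p + 1 = q) (j : Deg k) (y : ((mappingCone φ).X p).obj j) :
    (sE φ q).app j (((mappingCone φ).d p q).app j y)
      = (φ.f q).app j ((fE φ p q h).app j y) + (G.d p q).app j ((sE φ p).app j y) :=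
  ev (mappingCone.d_snd_v φ p q h) j y

variable {F' G' : CochainComplex (Amb k) ℤ} (φ' : F' ⟶ G') (a : F ⟶ F') (b : G ⟶ G')
  (w : φ ≫ b = a ≫ φ')

theorem map_f (p q : ℤ) (h : p + 1 = q) (j : Deg k) (y : ((mappingCone φ).X p).obj j) :
    (fE φ' p q h).app j (((mappingCone.map φ φ' a b w).f p).app j y)
      = (a.f q).app j ((fE φ p q h).app j y) := by
  have : (mappingCone.map φ φ' a b w).f p ≫ fE φ' p q h = fE φ p q h ≫ a.f q := by
    simp [mappingCone.ext_from_iff _ q p h, mappingCone.map, fE]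
  exact ev this j y

theorem map_s (p : ℤ) (j : Deg k) (y : ((mappingCone φ).X p).obj j) :
    (sE φ' p).app j (((mappingCone.map φ φ' a b w).f p).app j y)
      = (b.f p).app j ((sE φ p).app j y) := by
  have : (mappingCone.map φ φ' a b w).f p ≫ sE φ' p = sE φ p ≫ b.f p := by
    simp [mappingCone.ext_from_iff _ (p + 1) p rfl, mappingCone.map, sE]
  exact ev this j y

theorem exGE_cone_of_bij (h : ∀ p j, Function.Bijective ((φ.f p).app j)) :
    ExGE d (mappingCone φ) := by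
  intro j _ p q r hp hq y hy
  have h2 := d_s φ q r hq j y
  rw [hy, map_zero] at h2
  obtain ⟨u, hu⟩ := (h q j).2 ((sE φ q).app j y)
  obtain ⟨x, x1, x2⟩ := c_mk φ p q hp j u 0
  refine ⟨x, c_ext φ q r hq j ?_ ?_⟩
  · rw [d_f φ p q r hp hq, x1]
    apply (h r j).1
    rw [map_neg, ← comm, hu]
    exact (eq_neg_of_add_eq_zero_left h2.symm).symm
  · rw [d_s φ p q hp, x1, x2, map_zero, add_zero, hu]

end cone

/-- Elementwise short exact sequences of complexes. -/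
structure ESE {X₁ X₂ X₃ : CochainComplex (Amb k) ℤ} (i : X₁ ⟶ X₂) (π : X₂ ⟶ X₃) : Prop where
  inj : ∀ p j, Function.Injective ((i.f p).app j)
  surj : ∀ p j, Function.Surjective ((π.f p).app j)
  zero : ∀ p j x, (π.f p).app j ((i.f p).app j x) = 0
  ex : ∀ p j y, (π.f p).app j y = 0 → ∃ x, (i.f p).app j x = y

theorem ese_of_shortExact {T : ShortComplex (CochainComplex (Amb k) ℤ)} (hT : T.ShortExact) :
    ESE T.f T.g := by
  have key : ∀ (p : ℤ) (j : Deg k), ((T.map (HomologicalComplex.eval _ _ p)).map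
      ((evaluation (Deg k) (ModuleCat.{u} k)).obj j)).ShortExact :=
    fun p j => (hT.map_of_exact _).map_of_exact _
  refine ⟨fun p j => (key p j).moduleCat_injective_f, fun p j => (key p j).moduleCat_surjective_g,
    fun p j x => ev (congrArg (fun t => t.f p) T.zero) j x, fun p j y hy => ?_⟩
  exact (ShortComplex.moduleCat_exact_iff _).mp (key p j).exact y hy

theorem ESE.cone {F₁ F₂ F₃ G₁ G₂ G₃ : CochainComplex (Amb k) ℤ} {φ₁ : F₁ ⟶ G₁} {φ₂ : F₂ ⟶ G₂}
    {φ₃ : F₃ ⟶ G₃} {a : F₁ ⟶ F₂} {a' : F₂ ⟶ F₃} {b : G₁ ⟶ G₂} {b' : G₂ ⟶ G₃}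
    (w : φ₁ ≫ b = a ≫ φ₂) (w' : φ₂ ≫ b' = a' ≫ φ₃) (ha : ESE a a') (hb : ESE b b') :
    ESE (mappingCone.map φ₁ φ₂ a b w) (mappingCone.map φ₂ φ₃ a' b' w') := by
  refine ⟨fun p j y y' h => ?_, fun p j z => ?_, fun p j x => ?_, fun p j y hy => ?_⟩
  · refine c_ext φ₁ p (p + 1) rfl j (ha.inj _ _ ?_) (hb.inj _ _ ?_)
    · rw [← map_f φ₁ φ₂ a b w, ← map_f φ₁ φ₂ a b w, h]
    · rw [← map_s φ₁ φ₂ a b w, ← map_s φ₁ φ₂ a b w, h]
  · obtain ⟨u, hu⟩ := ha.surj (p + 1) j ((fE φ₃ p (p + 1) rfl).app j z)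
    obtain ⟨v, hv⟩ := hb.surj p j ((sE φ₃ p).app j z)
    obtain ⟨y, y1, y2⟩ := c_mk φ₂ p (p + 1) rfl j u v
    refine ⟨y, c_ext φ₃ p (p + 1) rfl j ?_ ?_⟩
    · rw [map_f, y1, hu]
    · rw [map_s, y2, hv]
  · refine c_ext φ₃ p (p + 1) rfl j ?_ ?_
    · rw [map_f, map_f, ha.zero, map_zero]
    · rw [map_s, map_s, hb.zero, map_zero]
  · obtain ⟨u, hu⟩ := ha.ex (p + 1) j ((fE φ₂ p (p + 1) rfl).app j y)
      (by rw [← map_f φ₂ φ₃ a' b' w', hy, map_zero])
    obtain ⟨v, hv⟩ := hb.ex p j ((sE φ₂ p).app j y)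
      (by rw [← map_s φ₂ φ₃ a' b' w', hy, map_zero])
    obtain ⟨x, x1, x2⟩ := c_mk φ₁ p (p + 1) rfl j u v
    refine ⟨x, c_ext φ₂ p (p + 1) rfl j ?_ ?_⟩
    · rw [map_f, x1, hu]
    · rw [map_s, x2, hv]

/-- The twist on complexes. -/
noncomputable abbrev TwC (k : Type u) [Field k] :
    CochainComplex (Amb k) ℤ ⥤ CochainComplex (Amb k) ℤ :=
  (Tw k).mapHomologicalComplex (ComplexShape.up ℤ)

/-- Multiplication by `x_a` on a complex. -/
noncomputable def mX (a : Fin nv) (Y : CochainComplex (Amb k) ℤ) : Y ⟶ (TwC k).obj Y :=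
  (NatTrans.mapHomologicalComplex (mulX a) _).app Y

theorem Kc_eq (a : Fin nv) (Y : CochainComplex (Amb k) ℤ) : Kc a Y = mappingCone (mX a Y) := rfl

theorem mX_nat (a : Fin nv) {Y Y' : CochainComplex (Amb k) ℤ} (φ : Y ⟶ Y') :
    mX a Y ≫ (TwC k).map φ = φ ≫ mX a Y' :=
  ((NatTrans.mapHomologicalComplex (mulX a) (ComplexShape.up ℤ)).naturality φ).symm

/-- The map induced on cones. -/
noncomputable def Km (a : Fin nv) {Y Y' : CochainComplex (Amb k) ℤ} (φ : Y ⟶ Y') :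
    Kc a Y ⟶ Kc a Y' :=
  mappingCone.map (mX a Y) (mX a Y') φ ((TwC k).map φ) (mX_nat a φ)

theorem ESE.tw {X₁ X₂ X₃ : CochainComplex (Amb k) ℤ} {i : X₁ ⟶ X₂} {π : X₂ ⟶ X₃}
    (h : ESE i π) : ESE ((TwC k).map i) ((TwC k).map π) :=
  ⟨fun p j => h.inj p ⟨j.n + 1⟩, fun p j => h.surj p ⟨j.n + 1⟩, fun p j => h.zero p ⟨j.n + 1⟩,
    fun p j => h.ex p ⟨j.n + 1⟩⟩

theorem ESE.km (a : Fin nv) {X₁ X₂ X₃ : CochainComplex (Amb k) ℤ} {i : X₁ ⟶ X₂} {π : X₂ ⟶ X₃}
    (h : ESE i π) : ESE (Km a i) (Km a π) :=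
  ESE.cone (mX_nat a i) (mX_nat a π) h h.tw

theorem ESE.exGE {X₁ X₂ X₃ : CochainComplex (Amb k) ℤ} {i : X₁ ⟶ X₂} {π : X₂ ⟶ X₃}
    (h : ESE i π) :
    (ExGE d X₁ → ExGE d X₃ → ExGE d X₂) ∧ (ExGE d X₂ → ExGE d X₃ → ExGE d X₁) ∧
      (ExGE d X₁ → ExGE d X₂ → ExGE d X₃) := by
  refine ⟨fun h1 h3 j hj p q r hp hq y hy => ?_, fun h2 h3 j hj p q r hp hq w hw => ?_,
    fun h1 h2 j hj p q r hp hq z hz => ?_⟩
  · obtain ⟨z, hz⟩ := h3 j hj p q r hp hq ((π.f q).app j y) (by rw [comm, hy, map_zero])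
    obtain ⟨x, rfl⟩ := h.surj p j z
    obtain ⟨w, hw⟩ := h.ex q j (y - (X₂.d p q).app j x) (by rw [map_sub, ← comm, hz, sub_self])
    obtain ⟨w', hw'⟩ := h1 j hj p q r hp hq w (h.inj r j (by
      rw [← comm, hw, map_sub, hy, dd, map_zero, sub_zero]))
    refine ⟨x + (i.f p).app j w', ?_⟩
    rw [map_add, comm, hw', hw]
    abel
  · obtain ⟨x, hx⟩ := h2 j hj p q r hp hq ((i.f q).app j w) (by rw [comm, hw, map_zero])
    obtain ⟨z, hz⟩ := h3 j hj (p - 1) p q (by omega) hp ((π.f p).app j x)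
      (by rw [comm, hx, h.zero])
    obtain ⟨x', rfl⟩ := h.surj (p - 1) j z
    obtain ⟨w', hw'⟩ := h.ex p j (x - (X₂.d (p - 1) p).app j x')
      (by rw [map_sub, ← comm, hz, sub_self])
    refine ⟨w', h.inj q j ?_⟩
    rw [← comm, hw', map_sub, dd, sub_zero, hx]
  · obtain ⟨x, rfl⟩ := h.surj q j z
    obtain ⟨w, hw⟩ := h.ex r j ((X₂.d q r).app j x) (by rw [← comm, hz])
    obtain ⟨w', hw'⟩ := h1 j hj q r (r + 1) hq rfl w (h.inj (r + 1) j (by
      rw [← comm, hw, dd, map_zero]))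
    obtain ⟨x', hx'⟩ := h2 j hj p q r hp hq (x - (i.f q).app j w')
      (by rw [map_sub, comm, hw', hw, sub_self])
    refine ⟨(π.f p).app j x', ?_⟩
    rw [comm, hx', map_sub, h.zero, sub_zero]

theorem ESE.ke {X₁ X₂ X₃ : CochainComplex (Amb k) ℤ} {i : X₁ ⟶ X₂} {π : X₂ ⟶ X₃}
    (h : ESE i π) :
    (KE d l X₁ → KE d l X₃ → KE d l X₂) ∧ (KE d l X₂ → KE d l X₃ → KE d l X₁) ∧
      (KE d l X₁ → KE d l X₂ → KE d l X₃) := by
  induction l generalizing X₁ X₂ X₃ with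
  | nil => exact h.exGE
  | cons a l ih => exact ih (h.km a)

/-- Exactness at one place. -/
def ExAt (d q : ℤ) (Y : CochainComplex (Amb k) ℤ) : Prop :=
  ∀ (j : Deg k), d ≤ j.n → ∀ (p r : ℤ), p + 1 = q → q + 1 = r → ∀ y : (Y.X q).obj j,
    (Y.d q r).app j y = 0 → ∃ x : (Y.X p).obj j, (Y.d p q).app j x = y

/-- Koszul exactness at one place. -/
def KEat (d q : ℤ) : List (Fin nv) → CochainComplex (Amb k) ℤ → Prop
  | [], Y => ExAt d q Y
  | a :: l, Y => KEat d q l (Kc a Y)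

theorem ke_iff {Y : CochainComplex (Amb k) ℤ} : KE d l Y ↔ ∀ q, KEat d q l Y := by
  induction l generalizing Y with
  | nil => exact ⟨fun h q j hj p r => h j hj p q r, fun h j hj p q r => h q j hj p r⟩
  | cons a l ih => exact ih

theorem keat_iff {q : ℤ} {Y Y' : CochainComplex (Amb k) ℤ} (φ : Y ⟶ Y')
    (h : ∀ p, q - 1 ≤ p → p ≤ q + 1 + l.length → ∀ j, Function.Bijective ((φ.f p).app j)) :
    KEat d q l Y ↔ KEat d q l Y' := by
  induction l generalizing Y Y' with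
  | nil =>
    simp only [List.length_nil, Nat.cast_zero, add_zero] at h
    constructor
    · intro h1 j hj p r hp hq y hy
      obtain ⟨y, rfl⟩ := (h q (by omega) (by omega) j).2 y
      obtain ⟨x, hx⟩ := h1 j hj p r hp hq y ((h r (by omega) (by omega) j).1 (by
        rw [← comm, hy, map_zero]))
      exact ⟨(φ.f p).app j x, by rw [comm, hx]⟩
    · intro h1 j hj p r hp hq y hy
      obtain ⟨x, hx⟩ := h1 j hj p r hp hq ((φ.f q).app j y) (by rw [comm, hy, map_zero])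
      obtain ⟨x, rfl⟩ := (h p (by omega) (by omega) j).2 x
      exact ⟨x, (h q (by omega) (by omega) j).1 (by rw [← comm, hx])⟩
  | cons a l ih =>
    refine ih (Km a φ) (fun p h1 h2 j => ?_)
    simp only [List.length_cons, Nat.cast_add, Nat.cast_one] at h
    have b1 := h (p + 1) (by omega) (by omega) j
    have b2 : Function.Bijective ((((TwC k).map φ).f p).app j) :=
      h p (by omega) (by omega) ⟨j.n + 1⟩
    refine ⟨fun y y' e => ?_, fun z => ?_⟩
    · refine c_ext (mX a Y) p (p + 1) rfl j (b1.1 ?_) (b2.1 ?_)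
      · rw [← map_f _ _ _ _ (mX_nat a φ), ← map_f _ _ _ _ (mX_nat a φ)]
        exact congrArg _ e
      · rw [← map_s _ _ _ _ (mX_nat a φ), ← map_s _ _ _ _ (mX_nat a φ)]
        exact congrArg _ e
    · obtain ⟨u, hu⟩ := b1.2 ((fE (mX a Y') p (p + 1) rfl).app j z)
      obtain ⟨v, hv⟩ := b2.2 ((sE (mX a Y') p).app j z)
      obtain ⟨y, y1, y2⟩ := c_mk (mX a Y) p (p + 1) rfl j u v
      refine ⟨y, c_ext (mX a Y') p (p + 1) rfl j ?_ ?_⟩
      · rw [← hu, ← y1]
        exact map_f _ _ _ _ (mX_nat a φ) p (p + 1) rfl j y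
      · rw [← hv, ← y2]
        exact map_s _ _ _ _ (mX_nat a φ) p j y

theorem bij_of_isIso {M N : Amb k} (φ : M ⟶ N) [IsIso φ] (j : Deg k) :
    Function.Bijective (φ.app j) :=
  ConcreteCategory.bijective_of_isIso (φ.app j)

theorem exGE_kc (a : Fin nv) {Y : CochainComplex (Amb k) ℤ} (h : ExGE d Y) : ExGE d (Kc a Y) := by
  rw [Kc_eq]
  intro j hj p q r hp hq y hy
  have h1 := d_f (mX a Y) q r (r + 1) hq rfl j y
  rw [hy, map_zero] at h1
  obtain ⟨u, hu⟩ := h j hj q r (r + 1) hq rfl _ (neg_eq_zero.mp h1.symm)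
  obtain ⟨x, x1, x2⟩ := c_mk (mX a Y) p q hp j (-u) 0
  set y' := y - ((mappingCone (mX a Y)).d p q).app j x with hy'
  have e1 : (fE (mX a Y) q r hq).app j y' = 0 := by
    rw [hy', map_sub, d_f _ p q r hp hq, x1, map_neg, neg_neg, hu, sub_self]
  have e2 : ((mappingCone (mX a Y)).d q r).app j y' = 0 := by
    rw [hy', map_sub, dd, sub_zero]
    exact hy
  have e3 := d_s (mX a Y) q r hq j y'
  rw [e2, e1, map_zero, map_zero, zero_add] at e3
  obtain ⟨t, ht⟩ := h ⟨j.n + 1⟩ (by show d ≤ j.n + 1; omega) p q r hp hq _ e3.symm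
  obtain ⟨x', x1', x2'⟩ := c_mk (mX a Y) p q hp j 0 t
  have e4 : ((mappingCone (mX a Y)).d p q).app j x' = y' := by
    refine c_ext (mX a Y) q r hq j ?_ ?_
    · rw [d_f _ p q r hp hq, x1', map_zero, neg_zero, e1]
    · rw [d_s _ p q hp, x1', x2', map_zero, zero_add]
      exact ht
  refine ⟨x + x', ?_⟩
  show ((mappingCone (mX a Y)).d p q).app j (x + x') = y
  rw [map_add, e4, hy']
  abel

theorem inv_kc {a : Fin nv} (b : Fin nv) {Y : CochainComplex (Amb k) ℤ} (h : ∀ p, Inv a (Y.X p))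
    (p : ℤ) : Inv a ((Kc b Y).X p) := by
  intro j
  have b1 := h (p + 1) j
  have b2 : Function.Bijective ((((TwC k).obj Y).X p).map (xone a j)) := h p ⟨j.n + 1⟩
  refine ⟨fun y y' e => ?_, fun z => ?_⟩
  · refine c_ext (mX b Y) p (p + 1) rfl j (b1.1 ?_) (b2.1 ?_)
    · rw [← nat, ← nat]
      exact congrArg _ e
    · rw [← nat, ← nat]
      exact congrArg _ e
  · obtain ⟨u, hu⟩ := b1.2 ((fE (mX b Y) p (p + 1) rfl).app _ z)
    obtain ⟨v, hv⟩ := b2.2 ((sE (mX b Y) p).app _ z)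
    obtain ⟨y, y1, y2⟩ := c_mk (mX b Y) p (p + 1) rfl j u v
    refine ⟨y, c_ext (mX b Y) p (p + 1) rfl _ ?_ ?_⟩
    · rw [← hu, ← y1]
      exact nat _ _ y
    · rw [← hv, ← y2]
      exact nat _ _ y

theorem tors_ex {a : Fin nv} {Y : CochainComplex (Amb k) ℤ} (h : TorsH a Y) (j : Deg k)
    (p q r : ℤ) (hp : p + 1 = q) (hq : q + 1 = r) (y : (Y.X q).obj j)
    (hy : (Y.d q r).app j y = 0) :
    ∃ n : ℕ, ∀ (j' : Deg k) (m : j ⟶ j'), m.1 = X a ^ n → j'.n = j.n + n →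
      ∃ x : (Y.X p).obj j', (Y.d p q).app j' x = (Y.X q).map m y := by
  obtain ⟨n, x, hx⟩ := h j p q r hp hq y hy
  refine ⟨n, fun j' m hm hj => ?_⟩
  obtain ⟨j'⟩ := j'
  obtain rfl : j' = j.n + n := hj
  obtain rfl : m = xpow a n j := Subtype.ext hm
  exact ⟨x, hx⟩

theorem tors_kc {a : Fin nv} (b : Fin nv) {Y : CochainComplex (Amb k) ℤ} (h : TorsH a Y) :
    TorsH a (Kc b Y) := by
  rw [Kc_eq]
  intro j p q r hp hq y hy
  have h1 := d_f (mX b Y) q r (r + 1) hq rfl j y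
  rw [hy, map_zero] at h1
  obtain ⟨n, u, hu⟩ := h j q r (r + 1) hq rfl _ (neg_eq_zero.mp h1.symm)
  obtain ⟨x, x1, x2⟩ := c_mk (mX b Y) p q hp ⟨j.n + n⟩ (-u) 0
  set y' := ((mappingCone (mX b Y)).X q).map (xpow a n j) y
    - ((mappingCone (mX b Y)).d p q).app _ x with hy'
  have e1 : (fE (mX b Y) q r hq).app _ y' = 0 := by
    rw [hy', map_sub, d_f _ p q r hp hq, x1, map_neg, neg_neg, hu, nat, sub_self]
  have e2 : ((mappingCone (mX b Y)).d q r).app _ y' = 0 := by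
    rw [hy', map_sub, dd, sub_zero, nat, hy, map_zero]
  have e3 := d_s (mX b Y) q r hq _ y'
  rw [e2, e1, map_zero, map_zero, zero_add] at e3
  obtain ⟨m, hm⟩ := tors_ex h ⟨j.n + n + 1⟩ p q r hp hq _ e3.symm
  let μ : (⟨j.n + n⟩ : Deg k) ⟶ ⟨j.n + (n + m : ℕ)⟩ :=
    ⟨X a ^ m, IsWH.cast (xpow a m (⟨0⟩ : Deg k)).2 (by push_cast; ring)⟩
  obtain ⟨t, ht⟩ := hm ⟨j.n + (n + m : ℕ) + 1⟩ ((shDeg k).map μ) rfl (by push_cast; ring)
  obtain ⟨x', x1', x2'⟩ := c_mk (mX b Y) p q hp ⟨j.n + (n + m : ℕ)⟩ 0 t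
  have e4 : ((mappingCone (mX b Y)).d p q).app _ x' = ((mappingCone (mX b Y)).X q).map μ y' := by
    refine c_ext (mX b Y) q r hq _ ?_ ?_
    · rw [d_f _ p q r hp hq, x1', map_zero, neg_zero, nat, e1, map_zero]
    · rw [d_s _ p q hp, x1', x2', map_zero, zero_add, nat]
      exact ht
  refine ⟨n + m, ((mappingCone (mX b Y)).X p).map μ x + x', ?_⟩
  have e5 : xpow a (n + m) j = xpow a n j ≫ μ := Subtype.ext (pow_add _ _ _)
  show ((mappingCone (mX b Y)).d p q).app _ (((mappingCone (mX b Y)).X p).map μ x + x')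
    = ((mappingCone (mX b Y)).X q).map (xpow a (n + m) j) y
  rw [map_add, e4, hy', map_sub, nat, e5, Functor.map_comp]
  simp

theorem exGE_of_kc {a : Fin nv} {Y : CochainComplex (Amb k) ℤ} (h : ExGE d (Kc a Y))
    (ht : TorsH a Y) : ExGE d Y := by
  intro j hj p q r hp hq y hy
  have key : ∀ (n : ℕ) (j j' : Deg k) (m : j ⟶ j'), d ≤ j.n → m.1 = X a ^ n → j'.n = j.n + n →
      ∀ y : (Y.X q).obj j, (Y.d q r).app j y = 0 →
      (∃ x, (Y.d p q).app j' x = (Y.X q).map m y) → ∃ x, (Y.d p q).app j x = y := by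
    intro n
    induction n with
    | zero =>
      intro j j' m _ hm hj y _ hx
      obtain ⟨j'⟩ := j'
      obtain ⟨j⟩ := j
      obtain rfl : j' = j := by simpa using hj
      obtain rfl : m = 𝟙 _ := Subtype.ext (by rw [hm, pow_zero]; rfl)
      simpa using hx
    | succ n ih =>
      intro j j' m hd hm hj y hy hx
      let μ : (⟨j.n + 1⟩ : Deg k) ⟶ j' :=
        ⟨X a ^ n, IsWH.cast (xpow a n (⟨0⟩ : Deg k)).2 (by rw [hj]; push_cast; ring)⟩
      have e : m = xone a j ≫ μ := Subtype.ext (by rw [hm, pow_succ']; rfl)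
      obtain ⟨t, ht⟩ := ih ⟨j.n + 1⟩ j' μ (by show d ≤ j.n + 1; omega) rfl
        (by rw [hj]; push_cast; ring) ((Y.X q).map (xone a j) y) (by rw [nat, hy, map_zero])
        (by rw [e, Functor.map_comp] at hx; simpa using hx)
      obtain ⟨w, w1, w2⟩ := c_mk (mX a Y) p q hp j y (-t)
      have cw : ((mappingCone (mX a Y)).d p q).app j w = 0 := by
        refine c_ext (mX a Y) q r hq j ?_ ?_
        · rw [d_f _ p q r hp hq, w1, hy, neg_zero, map_zero]
        · rw [d_s _ p q hp, w1, w2, map_zero]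
          show (Y.X q).map (xone a j) y + (Y.d p q).app ⟨j.n + 1⟩ (-t) = 0
          rw [map_neg, ht, add_neg_cancel]
      obtain ⟨w', hw'⟩ := h j hd (p - 1) p q (by omega) hp w cw
      refine ⟨-(fE (mX a Y) (p - 1) p (by omega)).app j w', ?_⟩
      rw [map_neg, ← d_f _ (p - 1) p q (by omega) hp, ← w1]
      exact congrArg _ hw'
  obtain ⟨n, x, hx⟩ := ht j p q r hp hq y hy
  exact key n j _ (xpow a n j) hj rfl rfl y hy ⟨x, hx⟩

section cut

open Classical ZeroObject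

/-- The object `M` or zero. -/
noncomputable def cO (c : Prop) (M : Amb k) : Amb k := if c then M else 0

/-- The inclusion. -/
noncomputable def cι (c : Prop) (M : Amb k) : cO c M ⟶ M :=
  if h : c then eqToHom (if_pos h) else 0

/-- The projection. -/
noncomputable def cπ (c : Prop) (M : Amb k) : M ⟶ cO c M :=
  if h : c then eqToHom (if_pos h).symm else 0

theorem isZero_cO {c : Prop} (M : Amb k) (h : ¬ c) : IsZero (cO c M) := by
  rw [cO, if_neg h]
  exact isZero_zero _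

@[reassoc]
theorem cι_cπ (c : Prop) (M : Amb k) : cι c M ≫ cπ c M = 𝟙 _ := by
  by_cases h : c
  · simp [cι, cπ, h]
  · exact (isZero_cO M h).eq_of_src _ _

@[reassoc]
theorem cπ_cι {c : Prop} (M : Amb k) (h : c) : cπ c M ≫ cι c M = 𝟙 _ := by
  simp [cι, cπ, h]

theorem cι_zero {c : Prop} (M : Amb k) (h : ¬ c) : cι c M = 0 := dif_neg h

theorem cπ_zero {c : Prop} (M : Amb k) (h : ¬ c) : cπ c M = 0 := dif_neg h

theorem isIso_cι {c : Prop} (M : Amb k) (h : c) : IsIso (cι c M) :=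
  ⟨cπ c M, cι_cπ c M, cπ_cι M h⟩

theorem isIso_cπ {c : Prop} (M : Amb k) (h : c) : IsIso (cπ c M) :=
  ⟨cι c M, cπ_cι M h, cι_cπ c M⟩

/-- The terms of `Y` in the places in `I`. -/
noncomputable def cut (Y : CochainComplex (Amb k) ℤ) (I : ℤ → Prop) : CochainComplex (Amb k) ℤ where
  X p := cO (I p) (Y.X p)
  d p q := cι (I p) (Y.X p) ≫ Y.d p q ≫ cπ (I q) (Y.X q)
  shape p q h := by rw [Y.shape p q h, zero_comp, comp_zero]
  d_comp_d' p q r _ _ := by
    by_cases h : I q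
    · simp [cπ_cι_assoc _ h]
    · simp [cι_zero _ h]

/-- Comparison maps. -/
noncomputable def cutMap (Y : CochainComplex (Amb k) ℤ) (I J : ℤ → Prop)
    (h : ∀ p q, p + 1 = q → I p → J q → (J p ↔ I q)) : cut Y I ⟶ cut Y J where
  f p := cι (I p) (Y.X p) ≫ cπ (J p) (Y.X p)
  comm' p q hpq := by
    show (cι (I p) (Y.X p) ≫ cπ (J p) (Y.X p)) ≫ cι (J p) (Y.X p) ≫ Y.d p q ≫ cπ (J q) (Y.X q)
      = (cι (I p) (Y.X p) ≫ Y.d p q ≫ cπ (I q) (Y.X q)) ≫ cι (I q) (Y.X q) ≫ cπ (J q) (Y.X q)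
    by_cases h1 : I p
    · by_cases h2 : J q
      · by_cases h3 : J p
        · simp [cπ_cι_assoc _ h3, cπ_cι_assoc _ ((h p q hpq h1 h2).mp h3)]
        · simp [cπ_zero _ h3, cπ_zero _ (fun h4 => h3 ((h p q hpq h1 h2).mpr h4))]
      · simp [cπ_zero _ h2]
    · simp [cι_zero _ h1]

/-- The map to `Y`. -/
noncomputable def cutTo (Y : CochainComplex (Amb k) ℤ) (I : ℤ → Prop)
    (h : ∀ p q, p + 1 = q → I p → I q) : cut Y I ⟶ Y where
  f p := cι (I p) (Y.X p)
  comm' p q hpq := by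
    show cι (I p) (Y.X p) ≫ Y.d p q
      = (cι (I p) (Y.X p) ≫ Y.d p q ≫ cπ (I q) (Y.X q)) ≫ cι (I q) (Y.X q)
    by_cases h1 : I p
    · simp [cπ_cι _ (h p q hpq h1)]
    · simp [cι_zero _ h1]

theorem cutMap_bij (Y : CochainComplex (Amb k) ℤ) (I J : ℤ → Prop)
    (h : ∀ p q, p + 1 = q → I p → J q → (J p ↔ I q)) (p : ℤ) (h1 : I p) (h2 : J p) (j : Deg k) :
    Function.Bijective (((cutMap Y I J h).f p).app j) := by
  have := isIso_cι (Y.X p) h1
  have := isIso_cπ (Y.X p) h2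
  exact bij_of_isIso (cι (I p) (Y.X p) ≫ cπ (J p) (Y.X p)) j

theorem sub_of_isZero {M : Amb k} (h : IsZero M) (j : Deg k) (x y : M.obj j) : x = y := by
  have e := h.eq_of_src (𝟙 M) 0
  exact (ev e j x).trans (ev e j y).symm

theorem cut_ese (Y : CochainComplex (Amb k) ℤ) (I₁ I₂ I₃ : ℤ → Prop) (h₁ h₂)
    (a₁ : ∀ p, I₁ p → I₂ p) (a₃ : ∀ p, I₃ p → I₂ p) (b : ∀ p, I₂ p → (I₁ p ↔ ¬ I₃ p)) :
    ESE (cutMap Y I₁ I₂ h₁) (cutMap Y I₂ I₃ h₂) := by
  refine ⟨fun p j => ?_, fun p j => ?_, fun p j x => ?_, fun p j y hy => ?_⟩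
  · by_cases h : I₁ p
    · exact (cutMap_bij Y _ _ h₁ p h (a₁ p h) j).1
    · exact fun x y _ => sub_of_isZero (isZero_cO _ h) j x y
  · by_cases h : I₃ p
    · exact (cutMap_bij Y _ _ h₂ p (a₃ p h) h j).2
    · exact fun y => ⟨0, sub_of_isZero (isZero_cO _ h) j _ _⟩
  · by_cases h : I₁ p
    · exact sub_of_isZero (isZero_cO _ ((b p (a₁ p h)).mp h)) j _ _
    · have : x = 0 := sub_of_isZero (isZero_cO _ h) j x _
      rw [this, map_zero, map_zero]
  · by_cases h : I₁ p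
    · exact (cutMap_bij Y _ _ h₁ p h (a₁ p h) j).2 y
    · by_cases h2 : I₂ p
      · have h3 : I₃ p := by
          by_contra h3
          exact h ((b p h2).mpr h3)
        refine ⟨0, ?_⟩
        rw [map_zero]
        exact ((cutMap_bij Y _ _ h₂ p h2 h3 j).1 (by rw [hy, map_zero])).symm
      · exact ⟨0, sub_of_isZero (isZero_cO _ h2) j _ _⟩

end cut

end KEaux

open KEaux

theorem KE.ses {T : ShortComplex (CochainComplex (Amb k) ℤ)} (hT : T.ShortExact) :
    (KE d l T.X₁ → KE d l T.X₃ → KE d l T.X₂) ∧ (KE d l T.X₂ → KE d l T.X₃ → KE d l T.X₁) ∧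
      (KE d l T.X₁ → KE d l T.X₂ → KE d l T.X₃) :=
  (ese_of_shortExact hT).ke

theorem KE.of_iso {Y Y' : CochainComplex (Amb k) ℤ} (e : Y ≅ Y') (h : KE d l Y) : KE d l Y' := by
  rw [ke_iff] at h ⊢
  intro q
  exact (keat_iff e.hom (fun p _ _ j => bij_of_isIso (e.hom.f p) j)).mp (h q)

theorem ExGE.ke {Y : CochainComplex (Amb k) ℤ} (h : ExGE d Y) : KE d l Y := by
  induction l generalizing Y with
  | nil => exact h
  | cons a l ih => exact ih (exGE_kc a h)

theorem KE.shift_one_iff {Y : CochainComplex (Amb k) ℤ} : KE d l (Y⟦(1 : ℤ)⟧) ↔ KE d l Y := by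
  have hT : (CochainComplex.mappingCone.triangleRotateShortComplex (𝟙 Y)).ShortExact :=
    HomologicalComplex.shortExact_of_degreewise_shortExact _ (fun i =>
      (CochainComplex.mappingCone.triangleRotateShortComplexSplitting (𝟙 Y) i).shortExact)
  have h2 : KE d l (CochainComplex.mappingCone (𝟙 Y)) :=
    (exGE_cone_of_bij (𝟙 Y) (fun p j => bij_of_isIso _ j)).ke
  have := KE.ses (d := d) (l := l) hT
  exact ⟨fun h => this.2.1 h2 h, fun h => this.2.2 h h2⟩

theorem KE.shift_iff {Y : CochainComplex (Amb k) ℤ} (n : ℤ) : KE d l (Y⟦n⟧) ↔ KE d l Y := by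
  have step : ∀ m m' : ℤ, m + 1 = m' → (KE d l (Y⟦m'⟧) ↔ KE d l (Y⟦m⟧)) := by
    intro m m' h
    have e := (shiftFunctorAdd' (CochainComplex (Amb k) ℤ) m 1 m' h).app Y
    rw [← KE.shift_one_iff (Y := Y⟦m⟧)]
    exact ⟨KE.of_iso e, KE.of_iso e.symm⟩
  induction n using Int.induction_on with
  | zero =>
    have e := (shiftFunctorZero (CochainComplex (Amb k) ℤ) ℤ).app Y
    exact ⟨KE.of_iso e, KE.of_iso e.symm⟩
  | succ n ih => exact (step n (n + 1) rfl).trans ih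
  | pred n ih => exact (step (-n - 1) (-n) (by ring)).symm.trans ih

theorem KE.of_inv {Y : CochainComplex (Amb k) ℤ} {a : Fin nv} (ha : a ∈ l)
    (h : ∀ p, Inv a (Y.X p)) : KE d l Y := by
  induction l generalizing Y with
  | nil => simp at ha
  | cons b l ih =>
    by_cases hb : a = b
    · subst hb
      exact ExGE.ke (Y := Kc a Y) (exGE_cone_of_bij (mX a Y) (fun p j => h p j))
    · exact ih ((List.mem_cons.mp ha).resolve_left hb) (inv_kc b h)

theorem KE.exGE_of_tors {Y : CochainComplex (Amb k) ℤ} (h : KE d l Y)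
    (ht : ∀ a ∈ l, TorsH a Y) : ExGE d Y := by
  induction l generalizing Y with
  | nil => exact h
  | cons b l ih =>
    exact exGE_of_kc (ih h (fun a ha => tors_kc b (ht a (List.mem_cons_of_mem _ ha))))
      (ht b List.mem_cons_self)

/-- Termwise criterion. -/
theorem KE.of_terms {Y : CochainComplex (Amb k) ℤ}
    (h : ∀ p, KE d l ((CochainComplex.singleFunctor (Amb k) 0).obj (Y.X p))) : KE d l Y := by
  have one : ∀ a : ℤ, KE d l (cut Y (fun p => p = a)) := by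
    intro a
    have h1 : (cut Y (fun p => p = a)).IsStrictlyGE a :=
      (CochainComplex.isStrictlyGE_iff _ _).mpr (fun i hi => isZero_cO _ (by omega))
    have h2 : (cut Y (fun p => p = a)).IsStrictlyLE a :=
      (CochainComplex.isStrictlyLE_iff _ _).mpr (fun i hi => isZero_cO _ (by omega))
    obtain ⟨M, ⟨e⟩⟩ := CochainComplex.exists_iso_single (cut Y (fun p => p = a)) a
    have := isIso_cπ (Y.X a) (c := a = a) rfl
    have e1 : Y.X a ≅ M := asIso (cπ (a = a) (Y.X a)) ≪≫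
      (HomologicalComplex.eval _ _ a).mapIso e ≪≫ HomologicalComplex.singleObjXSelf (ComplexShape.up ℤ) a M
    have e2 := ((CochainComplex.singleFunctors (Amb k)).shiftIso (-a) a 0 (by ring)).app M
    refine KE.of_iso (e2 ≪≫ e.symm) ?_
    exact (KE.shift_iff (-a)).mpr
      (KE.of_iso ((CochainComplex.singleFunctor (Amb k) 0).mapIso e1) (h a))
  have fin : ∀ (a : ℤ) (m : ℕ), KE d l (cut Y (fun p => a ≤ p ∧ p < a + m)) := by
    intro a m
    induction m with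
    | zero =>
      refine ExGE.ke (fun j _ p q r _ _ y _ => ⟨0, ?_⟩)
      exact sub_of_isZero (isZero_cO _ (by omega)) j _ _
    | succ m ih =>
      exact (cut_ese Y (fun p => p = a + m) (fun p => a ≤ p ∧ p < a + (m + 1 : ℕ))
        (fun p => a ≤ p ∧ p < a + m) (by intro p q _ _ _; omega) (by intro p q _ _ _; omega)
        (by intro p _; omega) (by intro p _; omega) (by intro p _; omega)).ke.1 (one _) ih
  rw [ke_iff]
  intro q
  have h1 := ke_iff.mp (fin (q - 1) (l.length + 3)) q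
  have h2 := (keat_iff (d := d) (l := l) (q := q)
    (cutMap Y (fun p => q - 1 ≤ p) (fun p => q - 1 ≤ p ∧ p < q - 1 + (l.length + 3 : ℕ))
      (by intro p q _ _ _; omega))
    (fun p h1 h2 j => cutMap_bij Y _ _ _ p h1 (by omega) j)).mpr h1
  exact (keat_iff (cutTo Y (fun p => q - 1 ≤ p) (by intro p q _ _; omega))
    (fun p h1 _ j => by
      have := isIso_cι (Y.X p) (c := q - 1 ≤ p) h1
      exact bij_of_isIso (cι (q - 1 ≤ p) (Y.X p)) j)).mp h2

end Pool.Agent.Lib.MP_0ba2dd_ag.N
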