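import Pool.Agent.Lib.MP_0ba2dd_ag.N.H45GenM
import Pool.Agent.Lib.MP_0ba2dd_ag.N.H45KL
import Pool.Agent.Lib.MP_0ba2dd_ag.N.H45KEb
import Pool.Agent.Lib.MP_0ba2dd_ag.N.H45Full

/-! Orlov's theorem: the functor is fully faithful with essential image Ku(X). -/

namespace Pool.Agent.Lib.MP_0ba2dd_ag.N

variable [Dim] [Big]

open CategoryTheory Limits MvPolynomial Pretriangulated

universe u

section General

variable {C : Type*} [Category C] [Abelian C] [HasDerivedCategory C]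

theorem genF_Q_surj (K L : CochainComplex C ℤ) [K.IsKProjective]
    (φ : DerivedCategory.Q.obj K ⟶ DerivedCategory.Q.obj L) :
    ∃ g : K ⟶ L, DerivedCategory.Q.map g = φ := by
  obtain ⟨g, hg⟩ := (CochainComplex.IsKProjective.Qh_map_bijective K
    ((HomotopyCategory.quotient _ _).obj L)).surjective
    ((DerivedCategory.quotientCompQhIso C).hom.app K ≫ φ ≫
      (DerivedCategory.quotientCompQhIso C).inv.app L)
  obtain ⟨g, rfl⟩ := (HomotopyCategory.quotient _ _).map_surjective g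
  refine ⟨g, ?_⟩
  rw [← cancel_epi ((DerivedCategory.quotientCompQhIso C).hom.app K),
    ← DerivedCategory.quotientCompQhIso_hom_naturality, hg]
  simp

theorem genF_homotopy (K L : CochainComplex C ℤ) [K.IsKProjective] {g g' : K ⟶ L}
    (h : DerivedCategory.Q.map g = DerivedCategory.Q.map g') : Nonempty (Homotopy g g') := by
  refine ⟨HomotopyCategory.homotopyOfEq g g' ?_⟩
  apply (CochainComplex.IsKProjective.Qh_map_bijective K
    ((HomotopyCategory.quotient _ _).obj L)).injective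
  rw [← cancel_mono ((DerivedCategory.quotientCompQhIso C).hom.app L),
    DerivedCategory.quotientCompQhIso_hom_naturality,
    DerivedCategory.quotientCompQhIso_hom_naturality, h]

end General

section SOD

variable {C : Type*} [Category C] [HasZeroObject C] [HasShift C ℤ] [Preadditive C]
  [∀ n : ℤ, (shiftFunctor C n).Additive] [Pretriangulated C]

theorem genF_swap (𝒜 ℬ : ObjectProperty C) [ℬ.IsStableUnderShift ℤ]
    (h : ∀ P T, 𝒜 P → ℬ T → ∀ φ : P ⟶ T, φ = 0) :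
    ℬ.extensionProduct 𝒜 ≤ 𝒜.extensionProduct ℬ := by
  rintro X ⟨T, P, a, b, c, hT, h₁, h₂⟩
  obtain ⟨e, -, -⟩ := exists_iso_binaryBiproduct_of_distTriang _ hT
    (h _ _ h₂ (ℬ.le_shift 1 _ h₁) _)
  exact (𝒜.extensionProduct ℬ).prop_of_iso (biprod.braiding P T ≪≫ e.symm)
    ⟨P, T, _, _, _, binaryBiproductTriangle_distinguished P T, h₂, h₁⟩

theorem genF_sod [IsTriangulated C] (𝒜 ℬ : ObjectProperty C) [𝒜.IsTriangulated]
    [𝒜.IsClosedUnderIsomorphisms] [ℬ.IsTriangulated] [ℬ.IsClosedUnderIsomorphisms]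
    (h : ∀ P T, 𝒜 P → ℬ T → ∀ φ : P ⟶ T, φ = 0) :
    (𝒜.extensionProduct ℬ).IsTriangulated where
  exists_zero := by
    obtain ⟨Z, hZ, hP⟩ := 𝒜.exists_prop_of_containsZero
    exact ⟨Z, hZ, ObjectProperty.le_extensionProduct_left ℬ _ hP⟩
  toIsTriangulatedClosed₂ := .mk' (fun T hT h₁ h₃ => by
    have key : (𝒜.extensionProduct ℬ).extensionProduct (𝒜.extensionProduct ℬ) ≤
        𝒜.extensionProduct ℬ := by
      calc (𝒜.extensionProduct ℬ).extensionProduct (𝒜.extensionProduct ℬ)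
          = 𝒜.extensionProduct ((ℬ.extensionProduct 𝒜).extensionProduct ℬ) := by
            simp only [ObjectProperty.extensionProduct_assoc]
        _ ≤ 𝒜.extensionProduct ((𝒜.extensionProduct ℬ).extensionProduct ℬ) :=
            ObjectProperty.monotone_extensionProduct_right _
              (ObjectProperty.monotone_extensionProduct_left _ (genF_swap 𝒜 ℬ h))
        _ = (𝒜.extensionProduct 𝒜).extensionProduct (ℬ.extensionProduct ℬ) := by
            simp only [ObjectProperty.extensionProduct_assoc]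
        _ ≤ 𝒜.extensionProduct (ℬ.extensionProduct ℬ) :=
            ObjectProperty.monotone_extensionProduct_left _
              (ObjectProperty.extensionProduct_le_of_isTriangulatedClosed₂ le_rfl le_rfl)
        _ ≤ 𝒜.extensionProduct ℬ :=
            ObjectProperty.monotone_extensionProduct_right _
              (ObjectProperty.extensionProduct_le_of_isTriangulatedClosed₂ le_rfl le_rfl)
    exact key _ ⟨_, _, _, _, _, hT, h₁, h₃⟩)

end SOD

variable {k : Type u} [Field k] {f : Q k}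

variable {A : Type*} [Category A] [Abelian A] [HasDerivedCategory A] (π : Gr f ⥤ A) [π.Additive]
  [PreservesFiniteLimits π] [PreservesFiniteColimits π]

theorem genF_xge_Φc (hf : f.IsHomogeneous 3) (E : MF f) :
    XGE f (4 - nv) (DerivedCategory.Q.obj (Φc E)) := by
  have := isKProjective_Φc hf E
  exact xge_of_kproj _ (fun p j hj => Φc_subsingleton E p j (by have := five_le; omega))

variable [π.IsLocalization (Tors f).isoModSerre]

theorem Φ_full (hf : f.IsHomogeneous 3) (hf0 : f ≠ 0) {E F : MF f} (φ : Φ π E ⟶ Φ π F) :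
    ∃ (u : Matrix F.ι E.ι (Q k)) (hu : Hg wQ E.ν F.ν 0 u) (cu : Closed 1 E.D F.D u),
      (PD π).map (ΦcMap u hu cu) = φ := by
  have := isKProjective_Φc hf E
  obtain ⟨ψ, hψ⟩ := (key_lemma π (genF_xge_Φc hf E) (Φc F) (ke_Φc hf hf0 F)).surjective φ
  obtain ⟨g, rfl⟩ := genF_Q_surj _ _ ψ
  obtain ⟨u, hu, cu, ⟨h⟩⟩ := Φc_full hf hf0 g
  refine ⟨u, hu, cu, ?_⟩
  rw [← hψ, DerivedCategory.Q_map_eq_of_homotopy _ h]
  rfl

theorem Φ_faithful (hf : f.IsHomogeneous 3) (hf0 : f ≠ 0) {E F : MF f}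
    {u : Matrix F.ι E.ι (Q k)} (hu : Hg wQ E.ν F.ν 0 u) (cu : Closed 1 E.D F.D u) :
    (PD π).map (ΦcMap u hu cu) = 0 ↔ Exact wQ 3 0 E.ν E.D F.ν F.D 1 u := by
  have := isKProjective_Φc hf E
  refine ⟨fun h => ?_, fun h => ?_⟩
  · have h1 : DerivedCategory.Q.map (ΦcMap u hu cu) = DerivedCategory.Q.map 0 := by
      apply (key_lemma π (genF_xge_Φc hf E) (Φc F) (ke_Φc hf hf0 F)).injective
      exact h.trans ((PD π).map_zero _ _).symm
    obtain ⟨H⟩ := genF_homotopy _ _ h1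
    exact Φc_faithful hf hf0 hu cu H
  · obtain ⟨H⟩ := homotopy_of_exact hu cu h
    change π.mapDerivedCategory.map (DerivedCategory.Q.map (ΦcMap u hu cu)) = 0
    rw [DerivedCategory.Q_map_eq_of_homotopy _ H, Functor.map_zero, Functor.map_zero]

omit [π.IsLocalization (Tors f).isoModSerre] in
theorem Φ_tw (E : MF f) (p : ℤ) (s : ℤˣ) : Nonempty (Φ π (E.tw p s) ≅ (Φ π E)⟦-p⟧) := by
  obtain ⟨e⟩ := Φc_tw E p s
  exact ⟨(PD π).mapIso e ≪≫ ((PD π).commShiftIso (-p)).app (Φc E)⟩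

theorem genF_hom_lineO (hf : f.IsHomogeneous 3) (hf0 : f ≠ 0) {m : ℤ} (hm : 0 ≤ m ∧ m + 4 ≤ nv)
    (E : MF f) (φ : lineO π m ⟶ Φ π E) : φ = 0 := by
  let N : Gr f := Fr f (fun _ : Unit => 2 * (-m)) (fun _ => True)
  obtain ⟨e⟩ : Nonempty (N ≅ twistMod f m) := by
    have := Fr_iso_twist (f := f) (n := fun _ : Unit => 2 * (-m)) (U := fun _ => True)
      () (-m) trivial rfl (fun _ _ _ => rfl)
    rwa [neg_neg] at this
  have hN : Projective N := projective_Fr hf _ _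
  let S : CochainComplex (Gr f) ℤ := (CochainComplex.singleFunctor (Gr f) 0).obj N
  have hproj : ∀ p, Projective (S.X p) := fun p => by
    by_cases hp : p = 0
    · subst hp
      exact Projective.of_iso (HomologicalComplex.singleObjXSelf (ComplexShape.up ℤ) 0 N).symm hN
    · exact (HomologicalComplex.isZero_single_obj_X (ComplexShape.up ℤ) 0 N p hp).projective
  have hS : S.IsKProjective := CochainComplex.isKProjective_of_projective S 0
  have hX : XGE f (4 - nv) (DerivedCategory.Q.obj S) := by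
    refine xge_of_kproj S (fun p j hj => ?_)
    by_cases hp : p = 0
    · subst hp
      have : Subsingleton (N.obj.obj j) := Fr_subsingleton j (fun _ _ => Or.inl (by omega))
      exact (Gr.inj (HomologicalComplex.singleObjXSelf (ComplexShape.up ℤ) 0 N).hom j).subsingleton
    · exact (Gr.isZero_iff _).mp
        (HomologicalComplex.isZero_single_obj_X (ComplexShape.up ℤ) 0 N p hp) j
  let e' : (PD π).obj S ≅ lineO π m :=
    (π.mapDerivedCategorySingleFunctor 0).app N ≪≫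
      (DerivedCategory.singleFunctor A 0).mapIso (π.mapIso e)
  obtain ⟨ψ, hψ⟩ := (key_lemma π hX (Φc E) (ke_Φc hf hf0 E)).surjective (e'.hom ≫ φ)
  obtain ⟨g, rfl⟩ := genF_Q_surj _ _ ψ
  have hg : g = 0 := by
    refine HomologicalComplex.from_single_hom_ext ?_
    rw [← cancel_epi (HomologicalComplex.singleObjXSelf (ComplexShape.up ℤ) 0 N).inv]
    refine Fr.hom_ext_gen (fun a g ha hg => ?_)
    have : Subsingleton (((Φc E).X 0).obj.obj ⟨g⟩) := Φc_subsingleton E 0 ⟨g⟩ (by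
      dsimp only at hg ⊢
      omega)
    exact Subsingleton.elim _ _
  rw [← cancel_epi e'.hom, comp_zero, ← hψ, hg]
  exact (PD π).map_zero _ _

theorem ku_Φ (hf : f.IsHomogeneous 3) (hf0 : f ≠ 0) (E : MF f) : Ku π (Φ π E) := by
  refine ⟨db_Φ π hf hf0 E, fun m hm n φ => ?_⟩
  obtain ⟨e⟩ := Φ_tw π E (-n) 1
  rw [neg_neg] at e
  rw [← cancel_mono e.inv, zero_comp]
  exact genF_hom_lineO π hf hf0 hm _ _

/-- The essential image of Orlov's functor. -/
def genF_Im : ObjectProperty (DerivedCategory A) := fun K => ∃ E : MF f, Nonempty (Φ π E ≅ K)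

omit [π.IsLocalization (Tors f).isoModSerre] in
theorem genF_Im_iso : (genF_Im π).IsClosedUnderIsomorphisms where
  of_iso e := fun ⟨E, ⟨e'⟩⟩ => ⟨E, ⟨e' ≪≫ e⟩⟩

theorem genF_Im_tri (hf : f.IsHomogeneous 3) (hf0 : f ≠ 0) : (genF_Im π).IsTriangulated := by
  have := genF_Im_iso π
  have h1 : (genF_Im π).IsStableUnderShift ℤ := ⟨fun n => ⟨by
    rintro K ⟨E, ⟨e⟩⟩
    obtain ⟨e'⟩ := Φ_tw π E (-n) 1
    rw [neg_neg] at e'
    exact ⟨E.tw (-n) 1, ⟨e' ≪≫ (shiftFunctor _ n).mapIso e⟩⟩⟩⟩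
  have h3 : (genF_Im π).IsTriangulatedClosed₃ := .mk' (by
    rintro T hT ⟨E, ⟨e₁⟩⟩ ⟨F, ⟨e₂⟩⟩
    obtain ⟨u, hu, cu, h⟩ := Φ_full π hf hf0 (e₁.hom ≫ T.mor₁ ≫ e₂.inv)
    obtain ⟨c⟩ := Φc_cone u hu cu
    have hd := π.mapDerivedCategory.map_distinguished _
      (DerivedCategory.mappingCone_triangle_distinguished (ΦcMap u hu cu))
    refine ⟨MF.cone u hu cu, ⟨((PD π).mapIso c).symm ≪≫ Triangle.π₃.mapIso
      (isoTriangleOfIso₁₂ _ _ hd hT e₁ e₂ ?_)⟩⟩
    change (PD π).map (ΦcMap u hu cu) ≫ e₂.hom = e₁.hom ≫ T.mor₁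
    rw [h]
    simp)
  have h2 : (genF_Im π).IsTriangulatedClosed₂ := .of_isTriangulatedClosed₃
  have h0 : (genF_Im π).ContainsZero := ⟨Φ π (MF.zero f),
    (PD π).map_isZero (cx_isZero _ _ (fun _ a => a.elim)), MF.zero f, ⟨Iso.refl _⟩⟩
  exact {}

/-- The shifts of the two line bundles. -/
def genF_O : ObjectProperty (DerivedCategory A) := fun X =>
  ∃ m : ℤ, (0 ≤ m ∧ m + 4 ≤ nv) ∧ ∃ n : ℤ, Nonempty (X ≅ (lineO π m)⟦n⟧)

omit [π.Additive] [PreservesFiniteLimits π] [PreservesFiniteColimits π]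
  [π.IsLocalization (Tors f).isoModSerre] in
theorem genF_O_shift : (genF_O π).IsStableUnderShift ℤ := ⟨fun a => ⟨by
  rintro X ⟨m, hm, n, ⟨e⟩⟩
  exact ⟨m, hm, n + a,
    ⟨(shiftFunctor _ a).mapIso e ≪≫ ((shiftFunctorAdd _ n a).app _).symm⟩⟩⟩⟩

omit [π.Additive] [PreservesFiniteLimits π] [PreservesFiniteColimits π]
  [π.IsLocalization (Tors f).isoModSerre] in
theorem genF_ku_orth {K : DerivedCategory A} (hK : Ku π K) : (genF_O π).rightOrthogonal K := by
  rintro X φ ⟨m, hm, n, ⟨e⟩⟩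
  apply (shiftFunctor _ (-n)).map_injective
  let e' : lineO π m ≅ X⟦-n⟧ :=
    ((shiftFunctorCompIsoId _ n (-n) (add_neg_cancel n)).app _).symm ≪≫
      (shiftFunctor _ (-n)).mapIso e.symm
  rw [Functor.map_zero, ← cancel_epi e'.hom, comp_zero]
  exact hK.2 m hm _ _

theorem Φ_essSurj (hf : f.IsHomogeneous 3) (hf0 : f ≠ 0) {K : DerivedCategory A} (hK : Ku π K) :
    ∃ E : MF f, Nonempty (Φ π E ≅ K) := by
  have := genF_Im_iso π
  have := genF_Im_tri π hf hf0
  have := genF_O_shift π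
  have hIm : genF_Im π ≤ (genF_O π).rightOrthogonal := by
    rintro X ⟨E, ⟨e⟩⟩
    exact (genF_O π).rightOrthogonal.prop_of_iso e (genF_ku_orth π (ku_Φ π hf hf0 E))
  have hG := genF_sod (genF_O π).rightOrthogonal.leftOrthogonal (genF_Im π)
    (fun P T hP hT φ => hP φ (hIm _ hT))
  have hO : ∀ m : ℤ, 0 ≤ m ∧ m + 4 ≤ nv →
      ((genF_O π).rightOrthogonal.leftOrthogonal.extensionProduct (genF_Im π)) (lineO π m) :=
    fun m hm => ObjectProperty.le_extensionProduct_left _ _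
      (fun Y φ hY => hY φ ⟨m, hm, 0, ⟨((shiftFunctorZero _ ℤ).app _).symm⟩⟩)
  have hΦ : ∀ E : MF f,
      ((genF_O π).rightOrthogonal.leftOrthogonal.extensionProduct (genF_Im π)) (Φ π E) :=
    fun E => ObjectProperty.le_extensionProduct_right _ _ ⟨E, ⟨Iso.refl _⟩⟩
  obtain ⟨P, T, a, b, c, hT, hP, hI⟩ := db_le π _ (mod_mem π _ hf hf0
    (lineO_mem π _ hf hO hΦ) hΦ) K hK.1
  have hP' : (genF_O π).rightOrthogonal P :=
    (genF_O π).rightOrthogonal.ext_of_isTriangulatedClosed₁ _ hT (genF_ku_orth π hK) (hIm _ hI)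
  have hz : IsZero P := (IsZero.iff_id_eq_zero _).mpr (hP _ hP')
  have : IsIso b := (Triangle.isZero₁_iff_isIso₂ _ hT).mp hz
  obtain ⟨E, ⟨e⟩⟩ := hI
  exact ⟨E, ⟨e ≪≫ (asIso b).symm⟩⟩

end Pool.Agent.Lib.MP_0ba2dd_ag.N
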