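import Pool.Agent.Lib.MP_0ba2dd_ag.N.H45Set
import Mathlib.RingTheory.MvPolynomial.Ideal
import Mathlib.RingTheory.Finiteness.Nakayama
import Mathlib.RingTheory.Polynomial.Basic
import Mathlib.RingTheory.Noetherian.Basic

/-! Algebra for the syzygy step: regular sequences of variables on submodules of free modules,
graded submodules and minimal homogeneous generators. -/

namespace Pool.Agent.Lib.MP_0ba2dd_ag.N

variable [Dim]

open MvPolynomial Matrix

variable {k : Type*} [Field k]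

section Depth

/-- The ideal generated by the first `i` variables. -/
noncomputable def II (k : Type*) [Field k] (i : ℕ) : Ideal (Q k) :=
  Ideal.span (X '' {a : Fin nv | a.val < i})

theorem II_zero : II k 0 = ⊥ := by simp [II]

theorem II_succ (i : Fin nv) : II k (i.val + 1) = II k i.val ⊔ Ideal.span {X i} := by
  rw [II, II, ← Ideal.span_union, ← Set.image_singleton, ← Set.image_union]
  congr 2
  ext a
  simp only [Set.mem_ofPred_eq, Set.mem_union, Set.mem_singleton_iff, Fin.ext_iff]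
  omega

theorem mem_II_of_X_mul (i : Fin nv) {p : Q k} (h : X i * p ∈ II k i.val) : p ∈ II k i.val := by
  rw [II, mem_ideal_span_X_image] at h ⊢
  intro m hm
  obtain ⟨l, hl, hl'⟩ := h (Finsupp.single i 1 + m) (by
    rw [support_X_mul]
    exact Finset.mem_map.mpr ⟨m, hm, rfl⟩)
  refine ⟨l, hl, ?_⟩
  have : i ≠ l := by
    rintro rfl
    simp at hl
  simpa [Finsupp.single_apply, this] using hl'

theorem mem_II_five {p : Q k} (h : constantCoeff p = 0) : p ∈ II k nv := by
  rw [II, mem_ideal_span_X_image]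
  intro m hm
  by_contra hc
  push Not at hc
  have : m = 0 := by
    ext a
    exact hc a a.2
  rw [this, mem_support_iff] at hm
  exact hm h

theorem one_not_mem_II : (1 : Q k) ∉ II k nv := by
  rw [II, mem_ideal_span_X_image]
  intro h
  obtain ⟨i, -, hi⟩ := h 0 (by simp)
  simp at hi

theorem mem_smul_top_pi {ι : Type} [Fintype ι] (I : Ideal (Q k)) (v : ι → Q k) :
    v ∈ I • (⊤ : Submodule (Q k) (ι → Q k)) ↔ ∀ a, v a ∈ I := by
  classical
  constructor
  · intro h
    refine Submodule.smul_induction_on h (fun r hr w _ a => ?_) (fun x y hx hy a => ?_)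
    · exact I.mul_mem_right _ hr
    · exact I.add_mem (hx a) (hy a)
  · intro h
    have : v = ∑ a, v a • (Pi.single a 1 : ι → Q k) := by
      ext1 b
      simp [Finset.sum_apply, Pi.single_apply]
    rw [this]
    exact Submodule.sum_mem _ (fun a _ => Submodule.smul_mem_smul (h a) Submodule.mem_top)

variable {V W : Type*} [AddCommGroup V] [Module (Q k) V] [AddCommGroup W] [Module (Q k) W]

/-- The first `j` variables form a weakly regular sequence on `N`. -/
def RegS (j : ℕ) (N : Submodule (Q k) V) : Prop :=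
  ∀ i : Fin nv, i.val < j → ∀ v ∈ N, (X i : Q k) • v ∈ II k i.val • N → v ∈ II k i.val • N

theorem regS_zero (N : Submodule (Q k) V) : RegS 0 N := fun _ h => absurd h (Nat.not_lt_zero _)

theorem regS_top {ι : Type} [Fintype ι] : RegS nv (⊤ : Submodule (Q k) (ι → Q k)) := by
  intro i _ v _ h
  rw [mem_smul_top_pi] at h ⊢
  exact fun a => mem_II_of_X_mul i (h a)

theorem ker_inf_le (π : V →ₗ[Q k] W) {j : ℕ} (hj : j ≤ nv) (h : RegS j (LinearMap.range π)) :
    ∀ i ≤ j, ∀ v ∈ LinearMap.ker π, v ∈ II k i • (⊤ : Submodule (Q k) V) →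
      v ∈ II k i • LinearMap.ker π := by
  intro i
  induction i with
  | zero =>
    intro _ v _ hv
    rw [II_zero, Submodule.bot_smul] at hv ⊢
    exact hv
  | succ i ih =>
    intro hi v hv hv'
    let i' : Fin nv := ⟨i, by omega⟩
    have e : II k (i + 1) = II k i ⊔ Ideal.span {X i'} := II_succ i'
    rw [e, Submodule.sup_smul, Submodule.ideal_span_singleton_smul] at hv' ⊢
    obtain ⟨y, hy, z, hz, rfl⟩ := Submodule.mem_sup.mp hv'
    obtain ⟨g, -, rfl⟩ := (Submodule.mem_smul_pointwise_iff_exists _ _ _).mp hz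
    have hmap : (II k i • (⊤ : Submodule (Q k) V)).map π = II k i • LinearMap.range π := by
      rw [Submodule.map_smul'', Submodule.map_top]
    have h1 : (X i' : Q k) • π g ∈ II k i • LinearMap.range π := by
      have : (X i' : Q k) • π g = π (-y) := by
        have h0 : π (y + (X i' : Q k) • g) = 0 := hv
        rw [map_add, map_smul] at h0
        rw [map_neg]
        exact eq_neg_of_add_eq_zero_right h0
      rw [this, ← hmap]
      exact Submodule.mem_map_of_mem (Submodule.neg_mem _ hy)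
    have h2 := h i' (by simpa using hi) (π g) (LinearMap.mem_range_self _ _) h1
    rw [← hmap] at h2
    obtain ⟨u, hu, hu'⟩ := h2
    have h3 : g - u ∈ LinearMap.ker π := by
      rw [LinearMap.mem_ker, map_sub, hu', sub_self]
    have h4 : y + (X i' : Q k) • u ∈ LinearMap.ker π := by
      have : y + (X i' : Q k) • u = (y + (X i' : Q k) • g) - (X i' : Q k) • (g - u) := by
        rw [smul_sub]; abel
      rw [this]
      exact Submodule.sub_mem _ hv (Submodule.smul_mem _ _ h3)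
    have h5 := ih (by omega) _ h4 (Submodule.add_mem _ hy (Submodule.smul_mem _ _ hu))
    have : y + (X i' : Q k) • g = (y + (X i' : Q k) • u) + (X i' : Q k) • (g - u) := by
      rw [smul_sub]; abel
    rw [this]
    exact Submodule.add_mem_sup h5
      ((Submodule.mem_smul_pointwise_iff_exists _ _ _).mpr ⟨_, h3, rfl⟩)

theorem regS_ker (π : V →ₗ[Q k] W) (hV : RegS nv (⊤ : Submodule (Q k) V)) {j : ℕ} (hj : j < nv)
    (h : RegS j (LinearMap.range π)) : RegS (j + 1) (LinearMap.ker π) := by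
  intro i hi v hv hv'
  refine ker_inf_le π hj.le h i.val (by omega) v hv (hV i i.2 v Submodule.mem_top ?_)
  exact Submodule.smul_mono le_rfl le_top hv'

theorem regS_map (π : V →ₗ[Q k] W) {K : Submodule (Q k) V} (hK : ∀ v ∈ K, π v = 0 → v = 0)
    {j : ℕ} (h : RegS j K) : RegS j (K.map π) := by
  rintro i hi _ ⟨u, hu, rfl⟩ hv
  rw [← Submodule.map_smul''] at hv ⊢
  obtain ⟨u', hu', e⟩ := hv
  have h1 : (X i : Q k) • u - u' = 0 := hK _
    (Submodule.sub_mem _ (Submodule.smul_mem _ _ hu) (Submodule.smul_le_right hu'))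
    (by rw [map_sub, map_smul, e, sub_self])
  refine Submodule.mem_map_of_mem (h i hi u hu ?_)
  rw [sub_eq_zero.mp h1]
  exact hu'

end Depth

section Graded

variable {ι κ : Type}

/-- `v` is a homogeneous vector of `wQ`-degree `d`. -/
def HV (n : ι → ℤ) (d : ℤ) (v : ι → Q k) : Prop :=
  ∀ a, (v a).IsWeightedHomogeneous wQ (d - n a)

/-- The component of `wQ`-degree `d`. -/
noncomputable def cmp (n : ι → ℤ) (d : ℤ) (v : ι → Q k) : ι → Q k :=
  fun a => weightedHomogeneousComponent wQ (d - n a) (v a)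

theorem hv_cmp (n : ι → ℤ) (d : ℤ) (v : ι → Q k) : HV n d (cmp n d v) :=
  fun _ => weightedHomogeneousComponent_isWeightedHomogeneous _ _

theorem HV.cmp_eq {n : ι → ℤ} {d : ℤ} {v : ι → Q k} (h : HV n d v) : cmp n d v = v :=
  funext fun a => (h a).weightedHomogeneousComponent_same

theorem cmp_add (n : ι → ℤ) (d : ℤ) (v w : ι → Q k) :
    cmp n d (v + w) = cmp n d v + cmp n d w := by
  ext1 a; simp [cmp]

theorem cmp_zero (n : ι → ℤ) (d : ℤ) : cmp n d (0 : ι → Q k) = 0 := by
  ext1 a; simp [cmp]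

theorem cmp_smul_hv {n : ι → ℤ} {e : ℤ} {v : ι → Q k} (h : HV n e v) (d : ℤ) (p : Q k) :
    cmp n d (p • v) = weightedHomogeneousComponent wQ (d - e) p • v := by
  ext1 a
  simp only [cmp, Pi.smul_apply, smul_eq_mul]
  rw [mul_comm p, mul_comm _ (v a), ← comp_mul_left (h a)]
  congr 2
  ring

theorem cmp_smul_wh (n : ι → ℤ) {e : ℤ} {p : Q k} (h : p.IsWeightedHomogeneous wQ e) (d : ℤ)
    (v : ι → Q k) : cmp n d (p • v) = p • cmp n (d - e) v := by
  ext1 a
  simp only [cmp, Pi.smul_apply, smul_eq_mul]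
  rw [← comp_mul_left h]
  congr 2
  ring

theorem cmp_mulVec [Fintype κ] {n : ι → ℤ} {n' : κ → ℤ} {A : Matrix ι κ (Q k)}
    (hA : Hg wQ n' n 0 A) (d : ℤ) (u : κ → Q k) :
    cmp n d (A *ᵥ u) = A *ᵥ cmp n' d u := by
  ext1 a
  simp only [cmp, Matrix.mulVec, dotProduct, map_sum]
  refine Finset.sum_congr rfl (fun b _ => ?_)
  rw [← comp_mul_left (hA a b)]
  congr 2
  ring

theorem HV.mulVec [Fintype κ] {n : ι → ℤ} {n' : κ → ℤ} {A : Matrix ι κ (Q k)}
    (hA : Hg wQ n' n 0 A) {d : ℤ} {u : κ → Q k} (hu : HV n' d u) : HV n d (A *ᵥ u) := by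
  rw [← hu.cmp_eq, ← cmp_mulVec hA]
  exact hv_cmp _ _ _

theorem HV.smul {n : ι → ℤ} {e e' d : ℤ} {v : ι → Q k} (h : HV n e v) {p : Q k}
    (hp : p.IsWeightedHomogeneous wQ e') (hd : e' + e = d) : HV n d (p • v) := fun a =>
  IsWH.cast (hp.mul (h a)) (by rw [← hd]; ring)

theorem exists_sum_cmp [Fintype ι] (n : ι → ℤ) (v : ι → Q k) :
    ∃ T : Finset ℤ, v = ∑ d ∈ T, cmp n d v := by
  classical
  refine ⟨Finset.univ.biUnion (fun a => (v a).support.image
    (fun m => Finsupp.weight wQ m + n a)), ?_⟩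
  ext a m
  simp only [Finset.sum_apply, cmp, coeff_sum, coeff_weightedHomogeneousComponent]
  by_cases hm : coeff m (v a) = 0
  · simp [hm]
  · rw [Finset.sum_eq_single (Finsupp.weight wQ m + n a)]
    · rw [if_pos (by ring)]
    · intro d _ hd
      rw [if_neg (fun h => hd (by rw [h]; ring))]
    · intro h
      exact absurd (Finset.mem_biUnion.mpr ⟨a, Finset.mem_univ _,
        Finset.mem_image.mpr ⟨m, mem_support_iff.mpr hm, rfl⟩⟩) h

/-- Graded submodules. -/
def GrS (n : ι → ℤ) (N : Submodule (Q k) (ι → Q k)) : Prop := ∀ v ∈ N, ∀ d, cmp n d v ∈ N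

theorem HV.even {n : ι → ℤ} (hn : ∀ a, Even (n a)) {d : ℤ} {v : ι → Q k} (h : HV n d v)
    (h0 : v ≠ 0) : Even d := by
  by_contra hd
  refine h0 (funext fun a => IsWH.eq_zero_of_odd N0 N0_wQ (h a) ?_)
  rw [N0_apply]
  exact (Int.not_even_iff_odd.mp hd).sub_even (hn a)

/-- Minimal homogeneous generators. -/
theorem exists_min_gen [Fintype ι] {n : ι → ℤ} (hn : ∀ a, Even (n a))
    {N : Submodule (Q k) (ι → Q k)} (hN : GrS n N) :
    ∃ (κ : Type) (_ : Fintype κ) (_ : DecidableEq κ) (n' : κ → ℤ) (A : Matrix ι κ (Q k)),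
      (∀ b, Even (n' b)) ∧ Hg wQ n' n 0 A ∧ LinearMap.range A.mulVecLin = N ∧
      ∀ u, A *ᵥ u = 0 → ∀ b, constantCoeff (u b) = 0 := by
  classical
  obtain ⟨S, hS⟩ : N.FG := IsNoetherian.noetherian N
  choose T hT using fun v : ι → Q k => exists_sum_cmp n v
  let g : (Σ _ : S, ℤ) → ι → Q k := fun x => cmp n x.2 x.1.1
  have hex : ∃ m, ∃ U : Finset (Σ _ : S, ℤ), U.card = m ∧ Submodule.span (Q k) (g '' U) = N := by
    refine ⟨_, Finset.univ.sigma (fun v : S => T v.1), rfl, le_antisymm ?_ ?_⟩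
    · rw [Submodule.span_le]
      rintro _ ⟨x, -, rfl⟩
      exact hN _ (hS ▸ Submodule.subset_span x.1.2) _
    · rw [← hS, Submodule.span_le]
      intro v hv
      rw [hT v]
      refine Submodule.sum_mem _ (fun d hd => Submodule.subset_span ⟨⟨⟨v, hv⟩, d⟩, ?_, rfl⟩)
      simpa using hd
  obtain ⟨U, hU, hUN⟩ := Nat.find_spec hex
  have hmin : ∀ b ∈ U, g b ∉ Submodule.span (Q k) (g '' (U.erase b)) := by
    intro b hb hc
    refine Nat.find_min hex (m := (U.erase b).card) (by rw [← hU]; exact Finset.card_erase_lt_of_mem hb)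
      ⟨U.erase b, rfl, le_antisymm ?_ ?_⟩
    · rw [← hUN]
      exact Submodule.span_mono (Set.image_mono (by simp))
    · rw [← hUN, Submodule.span_le]
      rintro _ ⟨x, hx, rfl⟩
      by_cases hxb : x = b
      · rw [hxb]; exact hc
      · exact Submodule.subset_span ⟨x, by simpa [hxb] using hx, rfl⟩
  let e := Fintype.equivFin U
  let c : Fin (Fintype.card U) → Σ _ : S, ℤ := fun b => (e.symm b).1
  have hc : ∀ b, c b ∈ U := fun b => (e.symm b).2
  have hci : Function.Injective c := fun b b' h => e.symm.injective (Subtype.ext h)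
  let A : Matrix ι (Fin (Fintype.card U)) (Q k) := Matrix.of fun a b => g (c b) a
  have hA : Hg wQ (fun b => (c b).2) n 0 A := fun a b =>
    IsWH.cast (hv_cmp n (c b).2 (c b).1.1 a) (by simp)
  have hmul : ∀ u, A *ᵥ u = ∑ b, u b • g (c b) := by
    intro u
    ext1 a
    simp [A, Matrix.mulVec, dotProduct, Finset.sum_apply, mul_comm]
  refine ⟨Fin (Fintype.card U), inferInstance, inferInstance, fun b => (c b).2, A, fun b => ?_,
    hA, ?_, fun u hu b => ?_⟩
  · refine (hv_cmp n (c b).2 (c b).1.1).even hn (fun h0 => hmin _ (hc b) ?_)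
    have : g (c b) = 0 := h0
    rw [this]
    exact Submodule.zero_mem _
  · rw [← hUN]
    refine le_antisymm ?_ ?_
    · rintro _ ⟨u, rfl⟩
      rw [Matrix.mulVecLin_apply, hmul]
      exact Submodule.sum_mem _ (fun b _ => Submodule.smul_mem _ _
        (Submodule.subset_span ⟨_, hc b, rfl⟩))
    · rw [Submodule.span_le]
      rintro _ ⟨x, hx, rfl⟩
      refine ⟨Pi.single (e ⟨x, hx⟩) 1, ?_⟩
      rw [Matrix.mulVecLin_apply, hmul, Finset.sum_eq_single (e ⟨x, hx⟩)]
      · simp [c]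
      · intro b _ hb
        simp [hb]
      · simp
  · by_contra h0
    let u' := cmp (fun b => (c b).2) (c b).2 u
    have hu' : A *ᵥ u' = 0 := by rw [← cmp_mulVec hA, hu, cmp_zero]
    have hb : u' b = C (constantCoeff (u b)) := by
      have h1 : (u' b).IsWeightedHomogeneous wQ 0 :=
        IsWH.cast (hv_cmp (fun b => (c b).2) (c b).2 u b) (sub_self _)
      rw [IsWH.eq_C N0 N0_wQ h1 (by simp)]
      congr 1
      simp [u', cmp, constantCoeff_eq, coeff_weightedHomogeneousComponent]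
    rw [hmul, ← Finset.add_sum_erase _ _ (Finset.mem_univ b), hb] at hu'
    refine hmin _ (hc b) ?_
    have h2 : g (c b) = (C (constantCoeff (u b))⁻¹ : Q k) •
        (-∑ b' ∈ Finset.univ.erase b, u' b' • g (c b')) := by
      rw [← eq_neg_of_add_eq_zero_left hu', smul_smul, ← map_mul, inv_mul_cancel₀ h0, map_one,
        one_smul]
    rw [h2]
    refine Submodule.smul_mem _ _ (Submodule.neg_mem _ (Submodule.sum_mem _ (fun b' hb' =>
      Submodule.smul_mem _ _ (Submodule.subset_span ⟨c b', ?_, rfl⟩))))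
    simp only [Finset.coe_erase, Set.mem_sdiff, Finset.mem_coe, Set.mem_singleton_iff]
    exact ⟨hc b', fun h => (Finset.mem_erase.mp hb').1 (hci h)⟩

/-- Depth five and minimal generators give an injective matrix. -/
theorem inj_of_regS [Fintype κ] {A : Matrix ι κ (Q k)}
    (h : RegS nv (LinearMap.range A.mulVecLin))
    (hmin : ∀ u, A *ᵥ u = 0 → ∀ b, constantCoeff (u b) = 0) (u : κ → Q k) (hu : A *ᵥ u = 0) :
    u = 0 := by
  have h1 : LinearMap.ker A.mulVecLin ≤ II k nv • LinearMap.ker A.mulVecLin := fun v hv =>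
    ker_inf_le A.mulVecLin le_rfl h nv le_rfl v hv
      ((mem_smul_top_pi _ _).mpr (fun b => mem_II_five (hmin v hv b)))
  obtain ⟨r, hr, hr'⟩ := Submodule.exists_sub_one_mem_and_smul_eq_zero_of_fg_of_le_smul _ _
    (IsNoetherian.noetherian _) h1
  have hr0 : r ≠ 0 := by
    rintro rfl
    exact one_not_mem_II (by simpa using (II k nv).neg_mem hr)
  exact (smul_eq_zero.mp (hr' u hu)).resolve_left hr0

/-- The submodule `f F`. -/
def fF (f : Q k) (ι : Type) : Submodule (Q k) (ι → Q k) where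
  carrier := {v | ∀ a, f ∣ v a}
  add_mem' hv hw a := (hv a).add (hw a)
  zero_mem' _ := dvd_zero _
  smul_mem' r _ hv a := (hv a).mul_left r

theorem mem_fF {f : Q k} {v : ι → Q k} : v ∈ fF f ι ↔ ∃ w : ι → Q k, v = f • w := by
  refine ⟨fun h => ?_, ?_⟩
  · choose w hw using h
    exact ⟨w, funext hw⟩
  · rintro ⟨w, rfl⟩ a
    exact Dvd.intro _ rfl

theorem grS_comap [Fintype κ] {f : Q k} (hf : f.IsWeightedHomogeneous wQ 6) {n : ι → ℤ}
    {n' : κ → ℤ} {A : Matrix ι κ (Q k)} (hA : Hg wQ n' n 0 A) :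
    GrS n' ((fF f ι).comap A.mulVecLin) := by
  intro u hu d
  obtain ⟨w, hw⟩ := mem_fF.mp hu
  rw [Submodule.mem_comap, Matrix.mulVecLin_apply, ← cmp_mulVec hA]
  rw [Matrix.mulVecLin_apply] at hw
  rw [hw, cmp_smul_wh n hf]
  exact mem_fF.mpr ⟨_, rfl⟩

theorem fF_le_comap [Fintype κ] (f : Q k) (A : Matrix ι κ (Q k)) :
    fF f κ ≤ (fF f ι).comap A.mulVecLin := by
  intro u hu
  obtain ⟨w, rfl⟩ := mem_fF.mp hu
  rw [Submodule.mem_comap, map_smul]
  exact mem_fF.mpr ⟨_, rfl⟩

theorem regS_comap [Fintype ι] [Fintype κ] {f : Q k} (hf0 : f ≠ 0) {A : Matrix ι κ (Q k)}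
    (hle : fF f ι ≤ LinearMap.range A.mulVecLin) {j : ℕ} (hj : j < nv)
    (h : RegS j (LinearMap.range A.mulVecLin)) :
    RegS (j + 1) ((fF f ι).comap A.mulVecLin) := by
  let p₁ : (κ ⊕ ι → Q k) →ₗ[Q k] (κ → Q k) := LinearMap.funLeft _ _ Sum.inl
  let p₂ : (κ ⊕ ι → Q k) →ₗ[Q k] (ι → Q k) := LinearMap.funLeft _ _ Sum.inr
  let π : (κ ⊕ ι → Q k) →ₗ[Q k] (ι → Q k) := A.mulVecLin ∘ₗ p₁ - f • p₂
  have hπ : ∀ v, π v = A *ᵥ p₁ v - f • p₂ v := fun v => rfl
  have hr : LinearMap.range π = LinearMap.range A.mulVecLin := by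
    refine le_antisymm ?_ ?_
    · rintro _ ⟨v, rfl⟩
      rw [hπ]
      exact Submodule.sub_mem _ ⟨_, rfl⟩ (hle (mem_fF.mpr ⟨_, rfl⟩))
    · rintro _ ⟨u, rfl⟩
      refine ⟨Sum.elim u 0, ?_⟩
      rw [hπ]
      have : p₂ (Sum.elim u 0) = 0 := rfl
      rw [this, smul_zero, sub_zero]
      rfl
  have h1 := regS_ker π regS_top hj (hr ▸ h)
  have h2 := regS_map p₁ (K := LinearMap.ker π) (fun v hv h0 => by
    rw [LinearMap.mem_ker, hπ, h0, Matrix.mulVec_zero, zero_sub, neg_eq_zero] at hv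
    have h3 := (smul_eq_zero.mp hv).resolve_left hf0
    ext1 x
    rcases x with x | x
    · exact congrFun h0 x
    · exact congrFun h3 x) h1
  have h3 : (LinearMap.ker π).map p₁ = (fF f ι).comap A.mulVecLin := by
    refine le_antisymm ?_ ?_
    · rintro _ ⟨v, hv, rfl⟩
      have hv' : π v = 0 := hv
      rw [hπ, sub_eq_zero] at hv'
      exact mem_fF.mpr ⟨_, hv'⟩
    · intro u hu
      obtain ⟨w, hw⟩ := mem_fF.mp hu
      refine ⟨Sum.elim u w, ?_, rfl⟩
      change π _ = 0
      rw [hπ, sub_eq_zero]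
      exact hw
  exact h3 ▸ h2

/-- The second matrix of the factorisation. -/
theorem exists_partner [Fintype ι] [Fintype κ] [DecidableEq ι] [DecidableEq κ] {f : Q k}
    (hf : f.IsWeightedHomogeneous wQ 6) {n : ι → ℤ} {n' : κ → ℤ} {A : Matrix ι κ (Q k)}
    (hA : Hg wQ n' n 0 A) (hle : fF f ι ≤ LinearMap.range A.mulVecLin)
    (hinj : ∀ u, A *ᵥ u = 0 → u = 0) :
    ∃ B : Matrix κ ι (Q k), Hg wQ n n' 6 B ∧ A * B = f • (1 : Matrix ι ι (Q k)) ∧
      B * A = f • (1 : Matrix κ κ (Q k)) := by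
  choose w hw using fun a : ι => hle (mem_fF.mpr ⟨(Pi.single a 1 : ι → Q k), rfl⟩)
  let B₀ : Matrix κ ι (Q k) := Matrix.of fun b a => w a b
  have h0 : A * B₀ = f • (1 : Matrix ι ι (Q k)) := by
    ext a a' : 1
    have := congrFun (hw a') a
    simp only [Matrix.mulVecLin_apply, Matrix.mulVec, dotProduct, Pi.smul_apply,
      Pi.single_apply] at this
    simp only [Matrix.mul_apply, B₀, Matrix.of_apply, Matrix.smul_apply, Matrix.one_apply]
    exact this
  have h1 : A * prj wQ n n' 6 B₀ = f • (1 : Matrix ι ι (Q k)) := by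
    rw [← prj_mul_left hA (zero_add _), h0, (Hg.smul_one hf).prj_eq]
  refine ⟨_, hg_prj _, h1, ?_⟩
  have h2 : A * (prj wQ n n' 6 B₀ * A - f • (1 : Matrix κ κ (Q k))) = 0 := by
    rw [Matrix.mul_sub, ← Matrix.mul_assoc, h1]
    simp
  rw [← sub_eq_zero]
  ext b b' : 1
  have := hinj (fun c => (prj wQ n n' 6 B₀ * A - f • (1 : Matrix κ κ (Q k))) c b') (by
    ext1 a
    have := congrFun (congrFun h2 a) b'
    rw [Matrix.mul_apply] at this
    exact this)
  exact congrFun this b

end Graded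

end Pool.Agent.Lib.MP_0ba2dd_ag.N
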