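import Pool.Agent.Lib.MP_0ba2dd_ag.N.H45Noeth
import Pool.Agent.Lib.MP_0ba2dd_ag.N.H45SyzA

/-! High syzygies are cokernels of matrix factorisations. -/

namespace Pool.Agent.Lib.MP_0ba2dd_ag.N

variable [Dim]

open CategoryTheory Limits MvPolynomial Pretriangulated Matrix

universe u

variable {k : Type u} [Field k] {f : Q k}

section Pres

variable {ι κ : Type}

/-- The class of a homogeneous vector in the free graded `R`-module. -/
noncomputable def mkv (f : Q k) {n : ι → ℤ} {j : Deg k} (v : ι → Q k) (hv : HV n (2 * j.n) v) :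
    (Fr f n (fun _ => True)).obj.obj j :=
  (⟨fun a => mkR f (v a), fun a => ⟨⟨v a, hv a, rfl⟩, fun h => absurd trivial h⟩⟩ :
    FrSub f n (fun _ => True) j.n)

theorem exists_mkv {n : ι → ℤ} {j : Deg k} (x : (Fr f n (fun _ => True)).obj.obj j) :
    ∃ (v : ι → Q k) (hv : HV n (2 * j.n) v), x = mkv f v hv := by
  choose v hv hv' using fun a => ((x : FrSub f n (fun _ => True) j.n).2 a).1
  exact ⟨v, hv, Subtype.ext (funext fun a => (hv' a).symm)⟩

theorem mkv_eq_zero {n : ι → ℤ} {j : Deg k} {v : ι → Q k} (hv : HV n (2 * j.n) v) :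
    mkv f v hv = 0 ↔ v ∈ fF f ι := by
  refine ⟨fun h a => ?_, fun h => Subtype.ext (funext fun a => ?_)⟩
  · have : mkR f (v a) = 0 := congrFun (congrArg Subtype.val h) a
    exact Ideal.mem_span_singleton.mp (Ideal.Quotient.eq_zero_iff_mem.mp this)
  · exact Ideal.Quotient.eq_zero_iff_mem.mpr (Ideal.mem_span_singleton.mpr (h a))

theorem frMap_mkv [Fintype κ] {n : ι → ℤ} {n' : κ → ℤ} {A : Matrix ι κ (Q k)}
    (hA : Hg wQ n' n 0 A) {j : Deg k} {u : κ → Q k} (hu : HV n' (2 * j.n) u) :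
    (frMap (f := f) A hA (fun _ => True) (fun _ => True)).hom.app j (mkv f u hu) =
      mkv f (A *ᵥ u) (hu.mulVec hA) := by
  refine Subtype.ext (funext fun a => ?_)
  refine (frMap_apply A hA _ _ j _ a).trans ((if_pos trivial).trans ?_)
  change ∑ b, mkR f (A a b) * mkR f (u b) = mkR f (∑ b, A a b * u b)
  simp

/-- `N` is the preimage in the free `Q`-module of the kernel of `φ`. -/
def Pres {n : ι → ℤ} {M : Gr f} (φ : Fr f n (fun _ => True) ⟶ M)
    (N : Submodule (Q k) (ι → Q k)) : Prop :=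
  ∀ (j : Deg k) (v : ι → Q k) (hv : HV n (2 * j.n) v), φ.hom.app j (mkv f v hv) = 0 ↔ v ∈ N

theorem exists_pres [Fintype ι] {n : ι → ℤ} (hn : ∀ a, Even (n a)) {M : Gr f}
    (hf : f.IsWeightedHomogeneous wQ 6) (φ : Fr f n (fun _ => True) ⟶ M) :
    ∃ N : Submodule (Q k) (ι → Q k), GrS n N ∧ fF f ι ≤ N ∧ Pres φ N := by
  let S : Set (ι → Q k) := {v | ∃ (j : Deg k) (hv : HV n (2 * j.n) v),
    φ.hom.app j (mkv f v hv) = 0}
  have key : ∀ v ∈ Submodule.span (Q k) S, ∀ p : Q k,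
      (∀ d, cmp n d (p • v) ∈ Submodule.span (Q k) S) ∧
      ∀ j : Deg k, φ.hom.app j (mkv f _ (hv_cmp n (2 * j.n) (p • v))) = 0 := by
    intro v hv
    induction hv using Submodule.span_induction with
    | mem v hv =>
      obtain ⟨i, hv, h0⟩ := hv
      refine fun p => ⟨fun d => ?_, fun j => ?_⟩
      · rw [cmp_smul_hv hv]
        exact Submodule.smul_mem _ _ (Submodule.subset_span ⟨i, hv, h0⟩)
      · let q : i ⟶ j := ⟨weightedHomogeneousComponent wQ (2 * j.n - 2 * i.n) p,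
          mem_Hom5_iff.mpr (IsWH.cast (weightedHomogeneousComponent_isWeightedHomogeneous _ _)
            (by ring))⟩
        have : mkv f _ (hv_cmp n (2 * j.n) (p • v)) =
            (Fr f n (fun _ => True)).obj.map q (mkv f v hv) := by
          refine Subtype.ext (funext fun a => ?_)
          change mkR f (cmp n (2 * j.n) (p • v) a) = mkR f q.1 * mkR f (v a)
          rw [cmp_smul_hv hv, ← map_mul]
          rfl
        rw [this, Gr.nat, h0, map_zero]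
    | zero =>
      refine fun p => ⟨fun d => ?_, fun j => ?_⟩
      · rw [smul_zero, cmp_zero]
        exact Submodule.zero_mem _
      · rw [(mkv_eq_zero _).mpr (by rw [smul_zero, cmp_zero]; exact Submodule.zero_mem _), map_zero]
    | add v w _ _ hv hw =>
      refine fun p => ⟨fun d => ?_, fun j => ?_⟩
      · rw [smul_add, cmp_add]
        exact Submodule.add_mem _ ((hv p).1 d) ((hw p).1 d)
      · have : mkv f _ (hv_cmp n (2 * j.n) (p • (v + w))) =
            mkv f _ (hv_cmp n (2 * j.n) (p • v)) + mkv f _ (hv_cmp n (2 * j.n) (p • w)) := by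
          refine Subtype.ext (funext fun a => ?_)
          change mkR f (cmp n (2 * j.n) (p • (v + w)) a) =
            mkR f (cmp n (2 * j.n) (p • v) a) + mkR f (cmp n (2 * j.n) (p • w) a)
          rw [smul_add, cmp_add, Pi.add_apply, map_add]
        rw [this, map_add, (hv p).2 j, (hw p).2 j, add_zero]
    | smul r v _ hv =>
      intro p
      rw [smul_smul]
      exact hv _
  refine ⟨Submodule.span (Q k) S, fun v hv d => ?_, fun v hv => ?_, fun j v hv => ⟨fun h => ?_,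
    fun h => ?_⟩⟩
  · simpa using (key v hv 1).1 d
  · obtain ⟨T, hT⟩ := exists_sum_cmp n v
    rw [hT]
    refine Submodule.sum_mem _ (fun d _ => ?_)
    by_cases h0 : cmp n d v = 0
    · rw [h0]
      exact Submodule.zero_mem _
    · obtain ⟨j, hj⟩ := (hv_cmp n d v).even hn h0
      have hd : d = 2 * (⟨j⟩ : Deg k).n := by rw [hj]; ring
      have hv' : HV n (2 * (⟨j⟩ : Deg k).n) (cmp n d v) := hd ▸ hv_cmp n d v
      refine Submodule.subset_span ⟨⟨j⟩, hv', ?_⟩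
      rw [(mkv_eq_zero hv').mpr ?_, map_zero]
      obtain ⟨w, rfl⟩ := mem_fF.mp hv
      rw [cmp_smul_wh n hf]
      exact mem_fF.mpr ⟨_, rfl⟩
  · exact Submodule.subset_span ⟨j, hv, h⟩
  · have h1 := (key v h 1).2 j
    have : mkv f _ (hv_cmp n (2 * j.n) ((1 : Q k) • v)) = mkv f v hv := by
      refine Subtype.ext (funext fun a => ?_)
      change mkR f (cmp n (2 * j.n) ((1 : Q k) • v) a) = mkR f (v a)
      rw [one_smul, hv.cmp_eq]
    rwa [this] at h1

theorem exists_hv_of_mem_range [Fintype κ] {n : ι → ℤ} {n' : κ → ℤ} {A : Matrix ι κ (Q k)}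
    (hA : Hg wQ n' n 0 A) {d : ℤ} {v : ι → Q k} (hv : HV n d v)
    (h : v ∈ LinearMap.range A.mulVecLin) : ∃ u, HV n' d u ∧ A *ᵥ u = v := by
  obtain ⟨u, hu⟩ := h
  rw [Matrix.mulVecLin_apply] at hu
  exact ⟨cmp n' d u, hv_cmp _ _ _, by rw [← cmp_mulVec hA, hu, hv.cmp_eq]⟩

theorem Gr.comp_app {L M N : Gr f} (φ : L ⟶ M) (ψ : M ⟶ N) (j : Deg k) (x : L.obj.obj j) :
    (φ ≫ ψ).hom.app j x = ψ.hom.app j (φ.hom.app j x) := rfl

theorem Pres.comp_eq_zero [Fintype κ] {n : ι → ℤ} {n' : κ → ℤ} {A : Matrix ι κ (Q k)}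
    (hA : Hg wQ n' n 0 A) {M : Gr f} {φ : Fr f n (fun _ => True) ⟶ M}
    (h : Pres φ (LinearMap.range A.mulVecLin)) :
    frMap (f := f) A hA (fun _ => True) (fun _ => True) ≫ φ = 0 := by
  ext j x
  obtain ⟨u, hu, rfl⟩ := exists_mkv x
  change φ.hom.app j ((frMap (f := f) A hA (fun _ => True) (fun _ => True)).hom.app j
    (mkv f u hu)) = 0
  rw [frMap_mkv]
  exact (h j _ _).mpr ⟨u, rfl⟩

/-- The syzygy step. -/
theorem Pres.syz [Fintype κ] {n : ι → ℤ} {n' : κ → ℤ} {A : Matrix ι κ (Q k)}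
    (hA : Hg wQ n' n 0 A) {M : Gr f} {φ : Fr f n (fun _ => True) ⟶ M}
    (h : Pres φ (LinearMap.range A.mulVecLin)) :
    ∃ ψ : Fr f n' (fun _ => True) ⟶ kernel φ, Epi ψ ∧ Pres ψ ((fF f ι).comap A.mulVecLin) := by
  have hψ : ∀ (j : Deg k) (u : κ → Q k) (hu : HV n' (2 * j.n) u), (kernel.ι φ).hom.app j
      ((kernel.lift φ _ (h.comp_eq_zero hA)).hom.app j (mkv f u hu)) =
      mkv f (A *ᵥ u) (hu.mulVec hA) := by
    intro j u hu
    rw [← Gr.comp_app, kernel.lift_ι, frMap_mkv]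
  refine ⟨kernel.lift φ _ (h.comp_eq_zero hA), Gr.epi_of_surj _ (fun j x => ?_),
    fun j u hu => ?_⟩
  · obtain ⟨v, hv, e⟩ := exists_mkv ((kernel.ι φ).hom.app j x)
    have h0 : φ.hom.app j (mkv f v hv) = 0 := by
      rw [← e, ← Gr.comp_app, kernel.condition]
      rfl
    obtain ⟨u, hu, rfl⟩ := exists_hv_of_mem_range hA hv ((h j v hv).mp h0)
    exact ⟨mkv f u hu, Gr.inj (kernel.ι φ) j (by rw [hψ, e])⟩
  · rw [Submodule.mem_comap, Matrix.mulVecLin_apply, ← mkv_eq_zero (hu.mulVec hA), ← hψ j u hu]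
    exact ⟨fun h0 => by rw [h0, map_zero],
      fun h0 => Gr.inj (kernel.ι φ) j (by rw [h0, map_zero])⟩

/-- The matrix factorisation attached to a pair of matrices. -/
noncomputable def mfOf [Fintype ι] [Fintype κ] [DecidableEq ι] [DecidableEq κ] {n : ι → ℤ}
    {n' : κ → ℤ} {A : Matrix ι κ (Q k)} {B : Matrix κ ι (Q k)} (hA : Hg wQ n' n 0 A)
    (hB : Hg wQ n n' 6 B) (h₁ : A * B = f • (1 : Matrix ι ι (Q k)))
    (h₂ : B * A = f • (1 : Matrix κ κ (Q k))) : MF f where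
  ι := ι ⊕ κ
  ν := Sum.elim n (fun b => n' b - 3)
  D := Matrix.fromBlocks 0 A B 0
  isMF := ⟨Hg.fromBlocks Hg.zero (hA.of_eq (fun a b => by ring)) (hB.of_eq (fun a b => by ring))
    Hg.zero, by
    rw [Matrix.fromBlocks_multiply, ← Matrix.fromBlocks_one, Matrix.fromBlocks_smul]
    simp [h₁, h₂]⟩

theorem Pres.mf' [Fintype ι] [Fintype κ] [DecidableEq ι] {n : ι → ℤ}
    {n' : κ → ℤ} (hn' : ∀ b, Even (n' b)) {A : Matrix ι κ (Q k)}
    {B : Matrix κ ι (Q k)} (hA : Hg wQ n' n 0 A) {ν₀ ν₁ : ι ⊕ κ → ℤ}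
    (h₀ : ∀ a, ν₀ (Sum.inl a) = n a) (h₀' : ∀ b, ν₀ (Sum.inr b) = n' b - 3)
    (h₁ : ∀ b, ν₁ (Sum.inr b) = n' b) (hD : Hg wQ ν₁ ν₀ 0 (Matrix.fromBlocks 0 A B 0))
    {M : Gr f} {φ : Fr f n (fun _ => True) ⟶ M} [Epi φ]
    (h : Pres φ (LinearMap.range A.mulVecLin)) :
    ∃ (ψ : Fr f ν₀ (fun _ => True) ⟶ M) (_ : Epi ψ)
      (w : frMap _ hD (fun _ => True) (fun _ => True) ≫ ψ = 0),
      (ShortComplex.mk _ _ w).Exact := by
  let P : Matrix ι (ι ⊕ κ) (Q k) := Matrix.fromCols 1 0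
  have hP : Hg wQ ν₀ n 0 P := by
    rintro a (b | b)
    · exact IsWH.cast (Hg.one (k := k) (w := wQ) (ν := n) a b) (by rw [h₀])
    · exact isWeightedHomogeneous_zero _ _ _
  have hPv : ∀ v : ι ⊕ κ → Q k, P *ᵥ v = v ∘ Sum.inl := fun v => by
    simp [P, Matrix.fromCols_mulVec]
  have hDv : ∀ v : ι ⊕ κ → Q k, Matrix.fromBlocks 0 A B 0 *ᵥ v =
      Sum.elim (A *ᵥ (v ∘ Sum.inr)) (B *ᵥ (v ∘ Sum.inl)) := fun v => by
    simp [Matrix.fromBlocks_mulVec]
  have hψ : ∀ (j : Deg k) (v : ι ⊕ κ → Q k) (hv : HV ν₀ (2 * j.n) v),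
      (frMap (f := f) P hP (fun _ => True) (fun _ => True) ≫ φ).hom.app j (mkv f v hv) =
        φ.hom.app j (mkv f (P *ᵥ v) (hv.mulVec hP)) := fun j v hv => by
    rw [Gr.comp_app, frMap_mkv]
  refine ⟨frMap P hP _ _ ≫ φ, Gr.epi_of_surj _ (fun j x => ?_), ?_,
    Gr.exact_of (fun j x hx => ?_)⟩
  · obtain ⟨y, rfl⟩ := Gr.surj φ j x
    obtain ⟨v, hv, rfl⟩ := exists_mkv y
    have hv' : HV ν₀ (2 * j.n) (Sum.elim v 0) := by
      rintro (a | a)
      · exact IsWH.cast (hv a) (by rw [h₀])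
      · exact isWeightedHomogeneous_zero _ _ _
    refine ⟨mkv f _ hv', ?_⟩
    rw [hψ]
    congr 1
    refine Subtype.ext (funext fun a => ?_)
    change mkR f ((P *ᵥ Sum.elim v 0) a) = mkR f (v a)
    rw [hPv]
    rfl
  · ext j x
    obtain ⟨u, hu, rfl⟩ := exists_mkv x
    change (frMap (f := f) P hP (fun _ => True) (fun _ => True) ≫ φ).hom.app j
      ((frMap (f := f) _ hD (fun _ => True) (fun _ => True)).hom.app j (mkv f u hu)) = 0
    rw [frMap_mkv, hψ]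
    refine (h j _ _).mpr ⟨u ∘ Sum.inr, ?_⟩
    rw [hPv, hDv]
    rfl
  · obtain ⟨v, hv, rfl⟩ := exists_mkv x
    have hx' : φ.hom.app j (mkv f (P *ᵥ v) (hv.mulVec hP)) = 0 := (hψ j v hv).symm.trans hx
    obtain ⟨u, hu, e⟩ := exists_hv_of_mem_range hA (hv.mulVec hP) ((h j _ _).mp hx')
    have hu' : HV ν₁ (2 * j.n) (Sum.elim 0 u) := by
      rintro (a | a)
      · exact isWeightedHomogeneous_zero _ _ _
      · exact IsWH.cast (hu a) (by rw [h₁])
    refine ⟨mkv f _ hu', ?_⟩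
    change (frMap (f := f) _ hD (fun _ => True) (fun _ => True)).hom.app j (mkv f _ hu') =
      mkv f v hv
    rw [frMap_mkv]
    refine Subtype.ext (funext fun a => ?_)
    change mkR f ((Matrix.fromBlocks 0 A B 0 *ᵥ Sum.elim 0 u) a) = mkR f (v a)
    congr 1
    rw [hDv]
    rcases a with a | b
    · have := congrFun e a
      rw [hPv] at this
      exact this
    · have h0 : v (Sum.inr b) = 0 := by
        refine IsWH.eq_zero_of_odd N0 N0_wQ (hv (Sum.inr b)) ?_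
        obtain ⟨r, hr⟩ := hn' b
        refine ⟨j.n - r + 1, ?_⟩
        rw [N0_apply, h₀', hr]
        ring
      rw [h0]
      simp

theorem Pres.mf [Fintype ι] [Fintype κ] [DecidableEq ι] [DecidableEq κ] {n : ι → ℤ}
    {n' : κ → ℤ} (hn' : ∀ b, Even (n' b)) {A : Matrix ι κ (Q k)}
    {B : Matrix κ ι (Q k)} (hA : Hg wQ n' n 0 A)
    (hB : Hg wQ n n' 6 B) (h₁ : A * B = f • (1 : Matrix ι ι (Q k)))
    (h₂ : B * A = f • (1 : Matrix κ κ (Q k))) {M : Gr f} {φ : Fr f n (fun _ => True) ⟶ M} [Epi φ]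
    (h : Pres φ (LinearMap.range A.mulVecLin)) :
    ∃ (E : MF f) (ψ : Fr f (colν E.ν 0) (fun _ => True) ⟶ M) (_ : Epi ψ)
      (w : frMap E.D (E.hg_col (p := -1) (q := 0) rfl) (fun _ => True) (fun _ => True) ≫ ψ = 0),
      (ShortComplex.mk _ _ w).Exact :=
  ⟨mfOf hA hB h₁ h₂, h.mf' hn' hA (fun a => by simp [colν, mfOf]) (fun b => by simp [colν, mfOf])
    (fun b => by simp [colν, mfOf]) ((mfOf hA hB h₁ h₂).hg_col (p := -1) (q := 0) rfl)⟩

end Pres

theorem gen_mod (hf : f.IsHomogeneous 3) (hf0 : f ≠ 0) (𝒢 : ObjectProperty (Gr f))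
    (h23 : ∀ T : ShortComplex (Gr f), T.ShortExact → 𝒢 T.X₁ → 𝒢 T.X₂ → 𝒢 T.X₃)
    (hfree : ∀ (ι : Type) [Fintype ι] (n : ι → ℤ), 𝒢 (Fr f n (fun _ => True)))
    (hmf : ∀ (E : MF f) (M : Gr f) (φ : Fr f (colν E.ν 0) (fun _ => True) ⟶ M) (_ : Epi φ)
      (w : frMap E.D (E.hg_col (p := -1) (q := 0) rfl) (fun _ => True) (fun _ => True) ≫ φ = 0),
      (ShortComplex.mk _ _ w).Exact → 𝒢 M) :
    ∀ M, FG f M → 𝒢 M := by
  have hf6 : f.IsWeightedHomogeneous wQ 6 := by simpa using isWH_wQ_iff.mpr hf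
  have key : ∀ (t j : ℕ), j + t = nv → ∀ (ι : Type) [Fintype ι] [DecidableEq ι] (n : ι → ℤ),
      (∀ a, Even (n a)) → ∀ (N : Submodule (Q k) (ι → Q k)), GrS n N → fF f ι ≤ N → RegS j N →
      ∀ (M : Gr f) (φ : Fr f n (fun _ => True) ⟶ M), Epi φ → Pres φ N → 𝒢 M := by
    intro t
    induction t with
    | zero =>
      intro j hj ι _ _ n hn N hN hle hreg M φ _ hφ
      obtain rfl : j = nv := by omega
      obtain ⟨κ, _, _, n', A, hn', hA, rfl, hmin⟩ := exists_min_gen hn hN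
      obtain ⟨B, hB, h₁, h₂⟩ := exists_partner hf6 hA hle (inj_of_regS hreg hmin)
      obtain ⟨E, ψ, hψ, w, hw⟩ := hφ.mf hn' hA hB h₁ h₂
      exact hmf E M ψ hψ w hw
    | succ t ih =>
      intro j hj ι _ _ n hn N hN hle hreg M φ _ hφ
      obtain ⟨κ, _, _, n', A, hn', hA, rfl, -⟩ := exists_min_gen hn hN
      obtain ⟨ψ, hψ, hψ'⟩ := hφ.syz hA
      have h1 : 𝒢 (kernel φ) := ih (j + 1) (by omega) κ n' hn' _ (grS_comap hf6 hA)
        (fF_le_comap f A) (regS_comap hf0 hle (by omega) hreg) _ ψ hψ hψ'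
      exact h23 (ShortComplex.mk _ _ (kernel.condition φ))
        { exact := ShortComplex.exact_kernel φ } h1 (hfree ι n)
  intro M hM
  obtain ⟨m, n, φ, hn, hφ⟩ := hM.exists_epi hf
  obtain ⟨N, hN, hle, hP⟩ := exists_pres hn hf6 φ
  exact key nv 0 (zero_add _) _ n hn N hN hle (regS_zero N) M φ hφ hP

end Pool.Agent.Lib.MP_0ba2dd_ag.N
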