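import Pool.Agent.Lib.MP_0ba2dd_ag.N.H45GenO
import Pool.Agent.Lib.MP_0ba2dd_ag.N.H45Syz
import Mathlib.Algebra.Homology.DerivedCategory.FullyFaithful

/-! Generation of the bounded derived category. -/

namespace Pool.Agent.Lib.MP_0ba2dd_ag.N

variable [Dim] [Big]

open CategoryTheory Limits MvPolynomial Pretriangulated

universe u

variable {k : Type u} [Field k] {f : Q k}

variable {A : Type*} [Category A] [Abelian A] [HasDerivedCategory A] (π : Gr f ⥤ A) [π.Additive]
  [PreservesFiniteLimits π] [PreservesFiniteColimits π]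

theorem MF.exists_bound (E : MF f) : ∃ B : ℤ, 0 ≤ B ∧ ∀ a, -B ≤ E.ν a ∧ E.ν a ≤ B := by
  obtain ⟨B, hB⟩ := (Set.finite_range fun a => |E.ν a|).bddAbove
  exact ⟨max B 0, le_max_right _ _, fun a => abs_le.1 ((hB ⟨a, rfl⟩).trans (le_max_left _ _))⟩

/-- The left half of the unfolded complex differs from Orlov's truncation by finitely many
line bundles. -/
theorem left_mem (𝒢 : ObjectProperty (DerivedCategory A)) [𝒢.IsTriangulated]
    [𝒢.IsClosedUnderIsomorphisms] (hO : ∀ m, 𝒢 (lineO π m)) (E : MF f) (hΦ : 𝒢 (Φ π E))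
    (c : Cvx E (fun p _ => p ≤ 0)) : 𝒢 ((PD π).obj (Cx E (fun p _ => p ≤ 0) c)) := by
  obtain ⟨B, hB0, hB⟩ := E.exists_bound
  have c3 : Cvx E (fun p a => p ≤ 0 ∧ GEi E 1 p a) := fun p a b d hd ha h1 h2 =>
    ⟨by omega, cvx_GEi E 1 p a b d hd.2 ha.2 h1 h2⟩
  obtain ⟨i, q, w, h⟩ := cx_ses E ((cvx_GEi E 1).and_up (up_le E 1)) (cvx_GEi E 1) c3
    (up_le E 1) (fun _ _ => Iff.rfl) (fun p a => ⟨fun h => ⟨h.2, by omega⟩,
      fun h => ⟨by omega, h.1⟩⟩)
  obtain ⟨i', q', w', h'⟩ := cx_ses E (c.and_up (up_not_GEi E 1)) c c3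
    (up_not_GEi E 1) (fun _ _ => Iff.rfl) (fun p a => by rw [not_not])
  refine (PD_ses π 𝒢 h').1 (cx_mem_of_finite π 𝒢 E (c.and_up (up_not_GEi E 1))
    ⟨-B - 1, 0, fun p x hx => ⟨?_, hx.1⟩⟩ fun _ _ _ _ _ => hO _)
    ((PD_ses π 𝒢 h).2.2 (cx_mem_of_finite π 𝒢 E ((cvx_GEi E 1).and_up (up_le E 1))
      ⟨1, B, fun p x hx => ⟨hx.2, ?_⟩⟩ fun _ _ _ _ _ => hO _) hΦ)
  · have h1 := hx.2
    have h2 := (hB x).1
    simp only [GEi] at h1
    omega
  · have h1 := hx.1
    have h2 := (hB x).2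
    simp only [GEi] at h1
    omega

theorem mod_mem (𝒢 : ObjectProperty (DerivedCategory A)) [𝒢.IsTriangulated]
    [𝒢.IsClosedUnderIsomorphisms] (hf : f.IsHomogeneous 3) (hf0 : f ≠ 0)
    (hO : ∀ m, 𝒢 (lineO π m)) (hΦ : ∀ E : MF f, 𝒢 (Φ π E)) (M : Gr f) (hM : FG f M) :
    𝒢 ((DerivedCategory.singleFunctor A 0).obj (π.obj M)) := by
  refine gen_mod hf hf0 (fun M => 𝒢 ((DerivedCategory.singleFunctor A 0).obj (π.obj M)))
    (fun T hT h1 h2 => ?_) (fun ι _ n => fr_mem π 𝒢 n _ (fun _ _ _ _ => hO _) 0)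
    (fun E M φ _ w hex => ?_) M hM
  · exact 𝒢.ext_of_isTriangulatedClosed₃ _ (hT.map_of_exact π).singleTriangle_distinguished h1 h2
  · have c : Cvx E (fun p _ => p ≤ 0) := fun p a b d hd ha h1 h2 => by omega
    obtain ⟨e⟩ := cx_res hf0 E c φ w hex
    exact 𝒢.prop_of_iso (π.mapDerivedCategory.mapIso e ≪≫
      (π.mapDerivedCategorySingleFunctor 0).app M) (left_mem π 𝒢 hO E (hΦ E) c)

omit [π.Additive] [PreservesFiniteLimits π] [PreservesFiniteColimits π] in
theorem db_aux (𝒢 : ObjectProperty (DerivedCategory A)) [𝒢.IsTriangulated]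
    [𝒢.IsClosedUnderIsomorphisms]
    (h : ∀ M : Gr f, FG f M → 𝒢 ((DerivedCategory.singleFunctor A 0).obj (π.obj M))) (n : ℕ) :
    ∀ (a : ℤ) (K : DerivedCategory A), K.IsGE a → K.IsLE (a + n - 1) →
      (∀ i, a ≤ i → Coh π ((DerivedCategory.homologyFunctor A i).obj K)) → 𝒢 K := by
  induction n with
  | zero =>
    intro a K h1 h2 _
    exact 𝒢.prop_of_isZero
      (DerivedCategory.TStructure.t.isZero K (a + (0 : ℕ) - 1) a (by omega))
  | succ n ih =>
    intro a K h1 h2 h3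
    obtain ⟨X, Y, hX, hY, u, v, w, hT⟩ :=
      DerivedCategory.TStructure.t.exists_triangle K a (a + 1) rfl
    have hX : X.IsLE a := ⟨hX⟩
    have hY : Y.IsGE (a + 1) := ⟨hY⟩
    have zX := fun i hi => DerivedCategory.isZero_of_isLE X a i hi
    have zY := fun i hi => DerivedCategory.isZero_of_isGE Y (a + 1) i hi
    have hX' : X.IsGE a := (DerivedCategory.isGE_iff _ _).2 fun i hi =>
      (DerivedCategory.HomologySequence.exact₁ _ hT (i - 1) i (by omega)).isZero_of_both_isZero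
        (zY _ (by omega)) (DerivedCategory.isZero_of_isGE K a i hi)
    have hY' : Y.IsLE (a + 1 + n - 1) := (DerivedCategory.isLE_iff _ _).2 fun i hi =>
      (DerivedCategory.HomologySequence.exact₃ _ hT i (i + 1) rfl).isZero_of_both_isZero
        (DerivedCategory.isZero_of_isLE K (a + (n + 1 : ℕ) - 1) i (by push_cast; omega))
        (zX _ (by omega))
    refine 𝒢.ext_of_isTriangulatedClosed₂ _ hT ?_ (ih (a + 1) Y hY hY' fun i hi => ?_)
    · obtain ⟨Z, ⟨e⟩⟩ := DerivedCategory.exists_iso_singleFunctor_obj_of_isGE_of_isLE X a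
      obtain ⟨M, hM, ⟨e'⟩⟩ := h3 a le_rfl
      have m : Mono ((DerivedCategory.homologyFunctor A a).map u) :=
        (DerivedCategory.HomologySequence.mono_homologyMap_mor₁_iff _ hT (a - 1) a (by omega)).2
          ((zY _ (by omega)).eq_of_src _ _)
      have ep : Epi ((DerivedCategory.homologyFunctor A a).map u) :=
        (DerivedCategory.HomologySequence.epi_homologyMap_mor₁_iff _ hT a).2
          ((zY _ (by omega)).eq_of_tgt _ _)
      have := isIso_of_mono_of_epi ((DerivedCategory.homologyFunctor A a).map u)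
      let e₁ : π.obj M ≅ Z := e' ≪≫ (asIso ((DerivedCategory.homologyFunctor A a).map u)).symm ≪≫
        (DerivedCategory.homologyFunctor A a).mapIso e ≪≫
        (DerivedCategory.singleFunctorCompHomologyFunctorIso A a).app Z
      exact 𝒢.prop_of_iso
        (((DerivedCategory.singleFunctors A).shiftIso (-a) a 0 (neg_add_cancel a)).app _ ≪≫
          (DerivedCategory.singleFunctor A a).mapIso e₁ ≪≫ e.symm)
        (𝒢.le_shift (-a) _ (h M hM))
    · obtain ⟨M, hM, ⟨e'⟩⟩ := h3 i (by omega)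
      have m : Mono ((DerivedCategory.homologyFunctor A i).map v) :=
        (DerivedCategory.HomologySequence.mono_homologyMap_mor₂_iff _ hT i).2
          ((zX _ (by omega)).eq_of_src _ _)
      have ep : Epi ((DerivedCategory.homologyFunctor A i).map v) :=
        (DerivedCategory.HomologySequence.epi_homologyMap_mor₂_iff _ hT i (i + 1) rfl).2
          ((zX _ (by omega)).eq_of_tgt _ _)
      have := isIso_of_mono_of_epi ((DerivedCategory.homologyFunctor A i).map v)
      exact ⟨M, hM, ⟨e' ≪≫ asIso ((DerivedCategory.homologyFunctor A i).map v)⟩⟩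

omit [π.Additive] [PreservesFiniteLimits π] [PreservesFiniteColimits π] in
theorem db_le (𝒢 : ObjectProperty (DerivedCategory A)) [𝒢.IsTriangulated]
    [𝒢.IsClosedUnderIsomorphisms]
    (h : ∀ M : Gr f, FG f M → 𝒢 ((DerivedCategory.singleFunctor A 0).obj (π.obj M))) :
    Db π ≤ 𝒢 := by
  rintro K ⟨⟨a, b, h1, h2⟩, h3⟩
  exact db_aux π 𝒢 h (b + 1 - a).toNat a K h1
    (DerivedCategory.TStructure.t.isLE_of_le K b _ (by omega)) fun i _ => h3 i

/-- The functor `PD` commutes with homology. -/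
noncomputable def homologyPD (Y : CochainComplex (Gr f) ℤ) (n : ℤ) :
    (DerivedCategory.homologyFunctor A n).obj ((PD π).obj Y) ≅ π.obj (Y.homology n) :=
  (DerivedCategory.homologyFunctor A n).mapIso (π.mapDerivedCategoryFactors.app Y) ≪≫
    (DerivedCategory.homologyFunctorFactors A n).app _ ≪≫ (Y.sc n).mapHomologyIso π

theorem db_Φ (hf : f.IsHomogeneous 3) (hf0 : f ≠ 0) (E : MF f) : Db π (Φ π E) := by
  obtain ⟨a, ha⟩ := Φc_ge hf0 E
  obtain ⟨b, hb⟩ := Φc_le E
  refine ⟨⟨a, b, (DerivedCategory.isGE_iff _ _).2 fun i hi => ?_,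
    (DerivedCategory.isLE_iff _ _).2 fun i hi => ?_⟩,
    fun n => ⟨_, FG.homology hf (Φc E) n (fg_Fr _ _), ⟨(homologyPD π _ n).symm⟩⟩⟩
  · exact (π.map_isZero ((Φc E).exactAt_of_isGE a i hi).isZero_homology).of_iso
      (homologyPD π _ i)
  · exact (π.map_isZero ((Φc E).exactAt_of_isLE b i hi).isZero_homology).of_iso
      (homologyPD π _ i)

end Pool.Agent.Lib.MP_0ba2dd_ag.N
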