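import Pool.Agent.Lib.MP_0ba2dd_ag.N.H45Gr

/-! Elementwise criteria in the category of graded modules, and the calculus of free modules. -/

namespace Pool.Agent.Lib.MP_0ba2dd_ag.N

variable [Dim]

open CategoryTheory Limits MvPolynomial Pretriangulated

universe u

variable {k : Type u} [Field k] {f : Q k}

theorem Gr.mono_of_inj {M N : Gr f} (φ : M ⟶ N) (h : ∀ i, Function.Injective (φ.hom.app i)) :
    Mono φ := by
  have : ∀ i, Mono (φ.hom.app i) := fun i => (ModuleCat.mono_iff_injective _).mpr (h i)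
  have : Mono ((IsGrMod f).ι.map φ) := NatTrans.mono_of_mono_app φ.hom
  exact (IsGrMod f).ι.mono_of_mono_map this

theorem Gr.epi_of_surj {M N : Gr f} (φ : M ⟶ N) (h : ∀ i, Function.Surjective (φ.hom.app i)) :
    Epi φ := by
  have : ∀ i, Epi (φ.hom.app i) := fun i => (ModuleCat.epi_iff_surjective _).mpr (h i)
  have : Epi ((IsGrMod f).ι.map φ) := NatTrans.epi_of_epi_app φ.hom
  exact (IsGrMod f).ι.epi_of_epi_map this

theorem Gr.isIso_of_bij {M N : Gr f} (φ : M ⟶ N) (h : ∀ i, Function.Bijective (φ.hom.app i)) :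
    IsIso φ := by
  have := Gr.mono_of_inj φ fun i => (h i).1
  have := Gr.epi_of_surj φ fun i => (h i).2
  exact isIso_of_mono_of_epi φ

theorem Gr.isZero_iff (M : Gr f) : IsZero M ↔ ∀ i, Subsingleton (M.obj.obj i) := by
  refine ⟨fun h i => ModuleCat.isZero_iff_subsingleton.mp ((Gr.ev f i).map_isZero h), fun h => ?_⟩
  rw [IsZero.iff_id_eq_zero]
  ext i v
  exact (h i).elim _ _

theorem Gr.exact_of {T : ShortComplex (Gr f)}
    (h : ∀ (i : Deg k) (m : T.X₂.obj.obj i), T.g.hom.app i m = 0 → ∃ m', T.f.hom.app i m' = m) :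
    T.Exact := by
  rw [T.exact_iff_isZero_homology, Gr.isZero_iff]
  intro i
  have h1 : (T.map (Gr.ev f i)).Exact := (ShortComplex.moduleCat_exact_iff _).mpr (h i)
  rw [ShortComplex.exact_iff_isZero_homology] at h1
  exact ModuleCat.isZero_iff_subsingleton.mp (h1.of_iso (T.mapHomologyIso (Gr.ev f i)).symm)

theorem Gr.exactAt_iff (Y : CochainComplex (Gr f) ℤ) {p q r : ℤ} (hp : p + 1 = q) (hq : q + 1 = r) :
    Y.ExactAt q ↔ ∀ (j : Deg k) (y : (Y.X q).obj.obj j), (Y.d q r).hom.app j y = 0 →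
      ∃ x : (Y.X p).obj.obj j, (Y.d p q).hom.app j x = y := by
  rw [Y.exactAt_iff' p q r ((ComplexShape.up ℤ).prev_eq' hp) ((ComplexShape.up ℤ).next_eq' hq)]
  exact ⟨fun h => Gr.exact h, fun h => Gr.exact_of h⟩

theorem Gr.acyclic_iff (Y : CochainComplex (Gr f) ℤ) : Y.Acyclic ↔ ∀ d, ExGE d (amb Y) := by
  refine ⟨fun h d j _ p q r hp hq => (Gr.exactAt_iff Y hp hq).mp (h q) j, fun h q => ?_⟩
  exact (Gr.exactAt_iff Y (p := q - 1) (r := q + 1) (by omega) rfl).mpr
    fun j => h j.n j le_rfl (q - 1) q (q + 1) (by omega) rfl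

theorem shortExact_amb {T : ShortComplex (CochainComplex (Gr f) ℤ)} (h : T.ShortExact) :
    (T.map ((IsGrMod f).ι.mapHomologicalComplex (ComplexShape.up ℤ))).ShortExact := by
  refine HomologicalComplex.shortExact_of_degreewise_shortExact _ fun i => ?_
  exact ((HomologicalComplex.shortExact_iff_degreewise_shortExact T).mp h i).map_of_exact
    (IsGrMod f).ι

end Pool.Agent.Lib.MP_0ba2dd_ag.N
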