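import Pool.Agent.Lib.MP_0ba2dd_ag.N.H45GrA
import Mathlib.Algebra.Colimit.Module

/-! Localisation of graded modules at a variable. -/

namespace Pool.Agent.Lib.MP_0ba2dd_ag.N

variable [Dim]

open CategoryTheory Limits MvPolynomial Pretriangulated

universe u

variable {k : Type u} [Field k] {f : Q k}

namespace Loc

theorem map_map (M : Amb k) {i j l : Deg k} (p : i ⟶ j) (q : j ⟶ l) (r : i ⟶ l)
    (h : r.1 = p.1 * q.1) (m : M.obj i) : M.map q (M.map p m) = M.map r m := by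
  have : r = p ≫ q := Subtype.ext h
  rw [this, M.map_comp, ModuleCat.comp_apply]

theorem map_comm (M : Amb k) {i j j' l : Deg k} (p : i ⟶ j) (q : j ⟶ l) (p' : i ⟶ j')
    (q' : j' ⟶ l) (h : p.1 * q.1 = p'.1 * q'.1) (m : M.obj i) :
    M.map q (M.map p m) = M.map q' (M.map p' m) := by
  rw [map_map M p q (p ≫ q) rfl, map_map M p' q' (p ≫ q) h]

theorem map_one (M : Amb k) {i : Deg k} (p : i ⟶ i) (h : p.1 = 1) (m : M.obj i) :
    M.map p m = m := by
  have : p = 𝟙 i := Subtype.ext h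
  rw [this, M.map_id, ModuleCat.id_apply]

theorem nat {M N : Amb k} (φ : M ⟶ N) {i j : Deg k} (p : i ⟶ j) (m : M.obj i) :
    φ.app j (M.map p m) = N.map p (φ.app i m) :=
  congrArg (fun ψ : M.obj i ⟶ N.obj j => ψ m) (φ.naturality p)

/-- A power of the variable as a morphism. -/
noncomputable def xp (a : Fin nv) (n : ℕ) (i j : Deg k) (h : j.n = i.n + n) : i ⟶ j :=
  ⟨X a ^ n, IsWH.cast ((isWeightedHomogeneous_X k (fun _ => (1 : ℤ)) a).pow n) (by simp [h])⟩

/-- The shift of a morphism. -/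
noncomputable def shM {i j : Deg k} (p : i ⟶ j) (n : ℕ) :
    (⟨i.n + n⟩ : Deg k) ⟶ ⟨j.n + n⟩ :=
  ⟨p.1, IsWH.cast p.2 (by ring)⟩

/-- The terms of the directed system. -/
abbrev LG (M : Amb k) (i : Deg k) (n : ℕ) : Type u := M.obj ⟨i.n + n⟩

/-- The transition morphisms. -/
noncomputable def tr (a : Fin nv) (i : Deg k) (n m : ℕ) (h : n ≤ m) :
    (⟨i.n + n⟩ : Deg k) ⟶ ⟨i.n + m⟩ :=
  xp a (m - n) _ _ (by simp only [Nat.cast_sub h]; ring)

/-- The transition maps. -/
noncomputable def Lf (a : Fin nv) (M : Amb k) (i : Deg k) (n m : ℕ) (h : n ≤ m) :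
    LG M i n →ₗ[k] LG M i m :=
  (M.map (tr a i n m h)).hom

theorem Lf_apply (a : Fin nv) (M : Amb k) (i : Deg k) (n m : ℕ) (h : n ≤ m) (x : LG M i n) :
    Lf a M i n m h x = M.map (tr a i n m h) x := rfl

instance (a : Fin nv) (M : Amb k) (i : Deg k) : DirectedSystem (LG M i) (Lf a M i · · ·) where
  map_self n x := map_one M _ (by simp [tr, xp]) x
  map_map l m n h h' x := map_map M _ _ _ (by
    simp only [tr, xp]
    rw [← pow_add]
    congr 1
    omega) x

/-- The degree `i` part of the localisation. -/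
abbrev LV (a : Fin nv) (M : Amb k) (i : Deg k) : Type u :=
  Module.DirectLimit (LG M i) (Lf a M i)

/-- The fraction `x / x_a ^ n`. -/
noncomputable abbrev Lof (a : Fin nv) (M : Amb k) (i : Deg k) (n : ℕ) :
    LG M i n →ₗ[k] LV a M i :=
  Module.DirectLimit.of k ℕ (LG M i) (Lf a M i) n

theorem Lof_tr (a : Fin nv) (M : Amb k) (i : Deg k) {n m : ℕ} (h : n ≤ m) (x : LG M i n) :
    Lof a M i m (M.map (tr a i n m h) x) = Lof a M i n x :=
  Module.DirectLimit.of_f (f := Lf a M i)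

theorem Lof_zero (a : Fin nv) (M : Amb k) (i : Deg k) {n : ℕ} (x : LG M i n)
    (h : Lof a M i n x = 0) : ∃ (m : ℕ) (h : n ≤ m), M.map (tr a i n m h) x = 0 :=
  Module.DirectLimit.of.zero_exact h

theorem exists_Lof (a : Fin nv) (M : Amb k) (i : Deg k) (z : LV a M i) :
    ∃ n x, Lof a M i n x = z :=
  Module.DirectLimit.exists_of z

/-- The action of a homogeneous polynomial on the localisation. -/
noncomputable def Lact (a : Fin nv) (M : Amb k) {i j : Deg k} (p : i ⟶ j) :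
    LV a M i →ₗ[k] LV a M j :=
  Module.DirectLimit.map (fun n => (M.map (shM p n)).hom) (fun n m h => by
    ext x
    exact map_comm M (tr a i n m h) (shM p m) (shM p n) (tr a j n m h) (mul_comm _ _) x)

theorem Lact_of (a : Fin nv) (M : Amb k) {i j : Deg k} (p : i ⟶ j) (n : ℕ) (x : LG M i n) :
    Lact a M p (Lof a M i n x) = Lof a M j n (M.map (shM p n) x) :=
  Module.DirectLimit.map_apply_of _ _ _

theorem LV_ext {a : Fin nv} {M : Amb k} {i : Deg k} {P : Type u} [AddCommGroup P] [Module k P]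
    {φ ψ : LV a M i →ₗ[k] P} (h : ∀ n x, φ (Lof a M i n x) = ψ (Lof a M i n x)) : φ = ψ := by
  refine LinearMap.ext (fun z => ?_)
  obtain ⟨n, x, rfl⟩ := exists_Lof a M i z
  exact h n x

theorem Lact_id (a : Fin nv) (M : Amb k) (i : Deg k) : Lact a M (𝟙 i) = LinearMap.id :=
  LV_ext (fun n x => by rw [Lact_of, map_one M _ rfl, LinearMap.id_apply])

theorem Lact_comp (a : Fin nv) (M : Amb k) {i j l : Deg k} (p : i ⟶ j) (q : j ⟶ l) :
    Lact a M (p ≫ q) = Lact a M q ∘ₗ Lact a M p :=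
  LV_ext (fun n x => by
    rw [LinearMap.comp_apply, Lact_of, Lact_of, Lact_of,
      map_map M (shM p n) (shM q n) (shM (p ≫ q) n) rfl])

/-- The localisation in the ambient category. -/
noncomputable def LA (a : Fin nv) (M : Amb k) : Amb k where
  obj i := ModuleCat.of k (LV a M i)
  map p := ModuleCat.ofHom (Lact a M p)
  map_id i := by rw [Lact_id, ModuleCat.ofHom_id]
  map_comp p q := by rw [Lact_comp, ModuleCat.ofHom_comp]

theorem isGrMod_LA (a : Fin nv) {M : Amb k} (hM : IsGrMod f M) : IsGrMod f (LA a M) := by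
  refine ⟨fun i j p q s e => ?_, fun i j r p s e => ?_, fun i j p e => ?_⟩
  · refine ModuleCat.hom_ext (LV_ext (fun n x => ?_))
    change Lact a M s (Lof a M i n x) = Lact a M p (Lof a M i n x) + Lact a M q (Lof a M i n x)
    rw [Lact_of, Lact_of, Lact_of, hM.1 _ _ (shM p n) (shM q n) (shM s n) e, ← map_add]
    rfl
  · refine ModuleCat.hom_ext (LV_ext (fun n x => ?_))
    change Lact a M s (Lof a M i n x) = r • Lact a M p (Lof a M i n x)
    rw [Lact_of, Lact_of, hM.2.1 _ _ r (shM p n) (shM s n) e, ← map_smul]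
    rfl
  · refine ModuleCat.hom_ext (LV_ext (fun n x => ?_))
    change Lact a M p (Lof a M i n x) = 0
    rw [Lact_of, hM.2.2 _ _ (shM p n) e]
    exact map_zero _

/-- The localisation of a morphism in degree `i`. -/
noncomputable def Lhom (a : Fin nv) {M N : Amb k} (φ : M ⟶ N) (i : Deg k) :
    LV a M i →ₗ[k] LV a N i :=
  Module.DirectLimit.map (fun n => (φ.app ⟨i.n + n⟩).hom) (fun n m h => by
    ext x
    exact nat φ _ x)

theorem Lhom_of (a : Fin nv) {M N : Amb k} (φ : M ⟶ N) (i : Deg k) (n : ℕ) (x : LG M i n) :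
    Lhom a φ i (Lof a M i n x) = Lof a N i n (φ.app _ x) :=
  Module.DirectLimit.map_apply_of _ _ _

/-- The localisation of a morphism. -/
noncomputable def LAmap (a : Fin nv) {M N : Amb k} (φ : M ⟶ N) : LA a M ⟶ LA a N where
  app i := ModuleCat.ofHom (Lhom a φ i)
  naturality i j p := by
    refine ModuleCat.hom_ext (LV_ext (fun n x => ?_))
    change Lhom a φ j (Lact a M p (Lof a M i n x)) = Lact a N p (Lhom a φ i (Lof a M i n x))
    rw [Lact_of, Lhom_of, Lhom_of, Lact_of, nat]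

theorem hom_ext {a : Fin nv} {M : Amb k} (hM : IsGrMod f (LA a M)) {N : Gr f}
    {φ ψ : (⟨LA a M, hM⟩ : Gr f) ⟶ N}
    (h : ∀ i n x, φ.hom.app i (Lof a M i n x) = ψ.hom.app i (Lof a M i n x)) : φ = ψ := by
  ext i z
  obtain ⟨n, x, rfl⟩ := exists_Lof a M i z
  exact h i n x

/-- The localisation functor. -/
noncomputable def LF (f : Q k) (a : Fin nv) : Gr f ⥤ Gr f where
  obj M := ⟨LA a M.obj, isGrMod_LA a M.property⟩
  map φ := ObjectProperty.homMk (LAmap a φ.hom)
  map_id M := hom_ext _ (fun i n x => Lhom_of a _ i n x)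
  map_comp {M N P} φ ψ := hom_ext _ (fun i n x => by
    change Lhom a (φ ≫ ψ).hom i (Lof a M.obj i n x) =
      Lhom a ψ.hom i (Lhom a φ.hom i (Lof a M.obj i n x))
    rw [Lhom_of, Lhom_of, Lhom_of]
    rfl)

theorem LF_map_of (a : Fin nv) {M N : Gr f} (φ : M ⟶ N) (i : Deg k) (n : ℕ) (x : LG M.obj i n) :
    ((LF f a).map φ).hom.app i (Lof a M.obj i n x) = Lof a N.obj i n (φ.hom.app _ x) :=
  Lhom_of a φ.hom i n x

instance (a : Fin nv) : (LF f a).Additive where
  map_add {M N φ ψ} := hom_ext _ (fun i n x => by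
    change Lhom a (φ + ψ).hom i (Lof a M.obj i n x) =
      Lhom a φ.hom i (Lof a M.obj i n x) + Lhom a ψ.hom i (Lof a M.obj i n x)
    rw [Lhom_of, Lhom_of, Lhom_of, ← map_add]
    rfl)

/-- The map to the localisation. -/
noncomputable def etaA (a : Fin nv) (M : Amb k) : M ⟶ LA a M where
  app i := ModuleCat.ofHom (Lof a M i 0 ∘ₗ (M.map (xpow a 0 i)).hom)
  naturality i j p := by
    ext x
    change Lof a M j 0 (M.map (xpow a 0 j) (M.map p x)) =
      Lact a M p (Lof a M i 0 (M.map (xpow a 0 i) x))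
    rw [Lact_of, map_comm M p (xpow a 0 j) (xpow a 0 i) (shM p 0) (mul_comm _ _)]

/-- The natural map to the localisation. -/
noncomputable def eta (f : Q k) (a : Fin nv) : 𝟭 (Gr f) ⟶ LF f a where
  app M := ObjectProperty.homMk (etaA a M.obj)
  naturality M N φ := by
    ext i x
    change Lof a N.obj i 0 (N.obj.map (xpow a 0 i) (φ.hom.app i x)) =
      Lhom a φ.hom i (Lof a M.obj i 0 (M.obj.map (xpow a 0 i) x))
    rw [Lhom_of, nat]

theorem exact_LF (a : Fin nv) (S : ShortComplex (Gr f)) (hS : S.Exact) :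
    (S.map (LF f a)).Exact := by
  refine Gr.exact_of (fun i z hz => ?_)
  obtain ⟨n, x, rfl⟩ := exists_Lof a S.X₂.obj i z
  have hz' : Lof a S.X₃.obj i n (S.g.hom.app _ x) = 0 := (LF_map_of a S.g i n x).symm.trans hz
  obtain ⟨m, h, hm⟩ := Lof_zero a _ i _ hz'
  obtain ⟨y, hy⟩ := Gr.exact hS _ (S.X₂.obj.map (tr a i n m h) x) (by rw [Gr.nat]; exact hm)
  refine ⟨Lof a S.X₁.obj i m y, (LF_map_of a S.f i m y).trans ?_⟩
  rw [hy, Lof_tr]

theorem inv_LA (a : Fin nv) (M : Amb k) : Inv a (LA a M) := by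
  intro i
  change Function.Bijective (Lact a M (xone a i))
  refine ⟨(injective_iff_map_eq_zero _).mpr (fun z hz => ?_), fun z => ?_⟩
  · obtain ⟨n, x, rfl⟩ := exists_Lof a M i z
    rw [Lact_of] at hz
    obtain ⟨m, h, hm⟩ := Lof_zero a _ _ _ hz
    rw [← Lof_tr a M i (show n ≤ m + 1 by omega)]
    have e : M.map (tr a i n (m + 1) (by omega)) x =
        M.map (xp a 0 ⟨i.n + 1 + m⟩ ⟨i.n + (m + 1 : ℕ)⟩ (by push_cast; ring))
          (M.map (tr a ⟨i.n + 1⟩ n m h) (M.map (shM (xone a i) n) x)) := by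
      rw [map_map M _ _ (shM (xone a i) n ≫ tr a ⟨i.n + 1⟩ n m h) rfl]
      refine (map_map M _ _ _ ?_ x).symm
      change X a ^ (m + 1 - n) = X a * X a ^ (m - n) * X a ^ 0
      rw [show m + 1 - n = (m - n) + 1 by omega]
      ring
    rw [e, hm, map_zero, map_zero]
  · obtain ⟨n, x, rfl⟩ := exists_Lof a M _ z
    refine ⟨Lof a M i (n + 1)
      (M.map (xp a 0 ⟨i.n + 1 + n⟩ ⟨i.n + (n + 1 : ℕ)⟩ (by push_cast; ring)) x), ?_⟩
    rw [Lact_of, ← Lof_tr a M ⟨i.n + 1⟩ (show n ≤ n + 1 by omega) x]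
    congr 1
    refine map_map M _ _ _ ?_ x
    change X a ^ (n + 1 - n) = X a ^ 0 * X a
    rw [show n + 1 - n = 1 by omega]
    ring

end Loc

theorem exists_loc (f : Q k) (a : Fin nv) :
    ∃ (L : Gr f ⥤ Gr f) (η : 𝟭 (Gr f) ⟶ L), L.Additive ∧ PreservesFiniteLimits L ∧
      PreservesFiniteColimits L ∧ (∀ M, Inv a (L.obj M).obj) ∧
      (∀ (M : Gr f) (i : Deg k) (m : M.obj.obj i), (η.app M).hom.app i m = 0 →
        ∃ n : ℕ, M.obj.map (xpow a n i) m = 0) ∧
      (∀ (M : Gr f) (i : Deg k) (z : (L.obj M).obj.obj i), ∃ (n : ℕ) (m : M.obj.obj ⟨i.n + n⟩),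
        (η.app M).hom.app _ m = (L.obj M).obj.map (xpow a n i) z) := by
  have hex : PreservesFiniteLimits (Loc.LF f a) ∧ PreservesFiniteColimits (Loc.LF f a) :=
    ((Functor.exact_tfae (Loc.LF f a)).out 1 3).mp (Loc.exact_LF a)
  refine ⟨Loc.LF f a, Loc.eta f a, inferInstance, hex.1, hex.2, fun M => Loc.inv_LA a M.obj,
    fun M i m hm => ?_, fun M i z => ?_⟩
  · obtain ⟨n, h, hn⟩ := Loc.Lof_zero a M.obj i (M.obj.map (xpow a 0 i) m) hm
    refine ⟨n, ?_⟩
    rw [← hn]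
    refine (Loc.map_map M.obj _ _ _ ?_ m).symm
    change X a ^ n = X a ^ 0 * X a ^ (n - 0)
    simp
  · obtain ⟨n, x, rfl⟩ := Loc.exists_Lof a M.obj i z
    refine ⟨n, x, ?_⟩
    change Loc.Lof a M.obj ⟨i.n + n⟩ 0 (M.obj.map (xpow a 0 _) x) =
      Loc.Lact a M.obj (xpow a n i) (Loc.Lof a M.obj i n x)
    rw [Loc.Lact_of, ← Loc.Lof_tr a M.obj ⟨i.n + n⟩ (Nat.zero_le n)]
    congr 1
    refine Loc.map_map M.obj _ _ _ ?_ x
    change X a ^ n = X a ^ 0 * X a ^ (n - 0)
    simp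

end Pool.Agent.Lib.MP_0ba2dd_ag.N
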