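import Mathlib.AlgebraicGeometry.ProjectiveSpectrum.Basic
import Mathlib.AlgebraicGeometry.Modules.Tilde
import Mathlib.AlgebraicGeometry.Noetherian
import Mathlib.RingTheory.MvPolynomial.Homogeneous
import Mathlib.RingTheory.Ideal.Quotient.Operations

/-! Coherent sheaves, the twisting sheaves on `Proj`, and the cubic hypersurface as a scheme. -/

namespace Pool.Agent.Lib.MP_0ba2dd_ag.N

open CategoryTheory AlgebraicGeometry TopologicalSpace TopCat Opposite

universe u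

/-- Coherent sheaves on a locally noetherian scheme: quasi-coherent, with finitely generated
sections over every affine open. -/
def IsCoh (Y : Scheme.{u}) : ObjectProperty Y.Modules := fun F =>
  F.IsQuasicoherent ∧ ∀ V : Y.Opens, IsAffineOpen V → Module.Finite Γ(Y, V) Γ(F, V)

section Twist

set_option linter.overlappingInstances false

variable {A σ : Type u} [CommRing A] [SetLike σ A] [AddSubgroupClass σ A] [AddSubmonoidClass σ A]
  (𝒜 : ℕ → σ) [GradedRing 𝒜]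

/-- The complement of the homogeneous prime ideal `x`. -/
abbrev cmpl (x : ProjectiveSpectrum.top 𝒜) : Submonoid A :=
  x.asHomogeneousIdeal.toIdeal.primeCompl

/-- The localisation of `A` at the homogeneous prime ideal `x`. -/
abbrev LocAt (x : ProjectiveSpectrum.top 𝒜) : Type u := Localization (cmpl 𝒜 x)

/-- Families of elements of the localisations `A_x`, `x ∈ U`. -/
def Fam (U : Opens (ProjectiveSpectrum.top 𝒜)) : Type u := ∀ x : U, LocAt 𝒜 x.1

noncomputable instance (U : Opens (ProjectiveSpectrum.top 𝒜)) : CommRing (Fam 𝒜 U) :=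
  (Pi.commRing : CommRing (∀ x : U, LocAt 𝒜 x.1))

/-- `s` is a fixed fraction `a / b` with `a`, `b` homogeneous and `deg a = deg b + m`. -/
def IsFrac (m : ℤ) {U : Opens (ProjectiveSpectrum.top 𝒜)} (s : Fam 𝒜 U) : Prop :=
  ∃ (i j : ℕ) (a b : A), a ∈ 𝒜 i ∧ b ∈ 𝒜 j ∧ (i : ℤ) = j + m ∧
    ∀ x : U, ∃ hb : b ∈ cmpl 𝒜 x.1, s x = Localization.mk a ⟨b, hb⟩

/-- Restriction of families. -/
def Fam.res {U V : Opens (ProjectiveSpectrum.top 𝒜)} (i : U ⟶ V) (s : Fam 𝒜 V) : Fam 𝒜 U :=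
  fun x => s (i x)

theorem IsFrac.res (m : ℤ) {U V : Opens (ProjectiveSpectrum.top 𝒜)} (i : U ⟶ V)
    (s : Fam 𝒜 V) (h : IsFrac 𝒜 m s) : IsFrac 𝒜 m (Fam.res 𝒜 i s) := by
  obtain ⟨p, q, a, b, ha, hb, e, w⟩ := h
  exact ⟨p, q, a, b, ha, hb, e, fun x => w (i x)⟩

/-- `s` is locally a fraction of degree `m`. -/
def locFrac (m : ℤ) : LocalPredicate (LocAt 𝒜) :=
  PrelocalPredicate.sheafify ⟨IsFrac 𝒜 m, IsFrac.res 𝒜 m⟩

/-- Sections of the structure sheaf of `Proj A`. -/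
noncomputable abbrev OSec (U : Opens (ProjectiveSpectrum.top 𝒜)) : CommRingCat.{u} :=
  Γ(Proj 𝒜, U)

/-- A section of the structure sheaf is a family of elements of the localisations. -/
noncomputable def toFam (U : Opens (ProjectiveSpectrum.top 𝒜)) : OSec 𝒜 U →+* Fam 𝒜 U :=
  RingHom.pi fun x : U => (algebraMap _ (LocAt 𝒜 x.1)).comp (openToLocalization 𝒜 U x.1 x.2).hom

noncomputable instance (U : Opens (ProjectiveSpectrum.top 𝒜)) : Module (OSec 𝒜 U) (Fam 𝒜 U) :=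
  Module.compHom _ (toFam 𝒜 U)

theorem locFrac_zero (m : ℤ) (U : Opens (ProjectiveSpectrum.top 𝒜)) :
    (locFrac 𝒜 m).pred (0 : Fam 𝒜 U) := by
  intro x
  obtain ⟨d, b, hd, hb, hx⟩ : ∃ (d : ℕ) (b : A), 0 < d ∧ b ∈ 𝒜 d ∧
      b ∉ x.1.asHomogeneousIdeal := by
    by_contra! h
    refine x.1.not_irrelevant_le fun z hz => ?_
    classical
    rw [← DirectSum.sum_support_decompose 𝒜 z]
    refine sum_mem fun d _ => ?_
    rcases Nat.eq_zero_or_pos d with rfl | hd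
    · rw [show (DirectSum.decompose 𝒜 z 0 : A) = 0 from hz]
      exact zero_mem _
    · exact h d _ hd (SetLike.coe_mem _)
  refine ⟨U ⊓ ProjectiveSpectrum.basicOpen 𝒜 b, ⟨x.2, hx⟩, Opens.infLELeft _ _,
    (m.natAbs * d + m).toNat, m.natAbs * d, 0, b ^ m.natAbs, zero_mem _,
    SetLike.pow_mem_graded _ hb, ?_, fun y =>
      ⟨pow_mem (show b ∈ cmpl 𝒜 y.1 from y.2.2) _, (Localization.mk_zero _).symm⟩⟩
  have : (m.natAbs : ℤ) * 1 ≤ m.natAbs * d := by gcongr; exact_mod_cast hd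
  push_cast at this ⊢
  have := neg_abs_le m
  omega

theorem locFrac_add (m : ℤ) (U : Opens (ProjectiveSpectrum.top 𝒜))
    {s t : Fam 𝒜 U} (hs : (locFrac 𝒜 m).pred s) (ht : (locFrac 𝒜 m).pred t) :
    (locFrac 𝒜 m).pred (s + t) := by
  intro x
  obtain ⟨V, hV, i, p, q, a, b, ha, hb, e, w⟩ := hs x
  obtain ⟨V', hV', i', p', q', a', b', ha', hb', e', w'⟩ := ht x
  refine ⟨V ⊓ V', ⟨hV, hV'⟩, Opens.infLELeft _ _ ≫ i, q + p', q + q', b * a' + b' * a, b * b',
    add_mem (SetLike.mul_mem_graded hb ha') ?_, SetLike.mul_mem_graded hb hb', by push_cast; omega,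
    fun y => ?_⟩
  · rw [show q + p' = q' + p by omega]
    exact SetLike.mul_mem_graded hb' ha
  · obtain ⟨h, hy⟩ := w ⟨y.1, y.2.1⟩
    obtain ⟨h', hy'⟩ := w' ⟨y.1, y.2.2⟩
    exact ⟨mul_mem h h', (congrArg₂ (· + ·) hy hy').trans (Localization.add_mk ..)⟩

theorem locFrac_smul (m : ℤ) (U : Opens (ProjectiveSpectrum.top 𝒜)) (r : OSec 𝒜 U)
    {s : Fam 𝒜 U} (hs : (locFrac 𝒜 m).pred s) : (locFrac 𝒜 m).pred (r • s) := by
  intro x
  obtain ⟨V, hV, i, d, a, b, h, w⟩ := r.2 x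
  obtain ⟨V', hV', i', p', q', a', b', ha', hb', e', w'⟩ := hs x
  refine ⟨V ⊓ V', ⟨hV, hV'⟩, Opens.infLELeft _ _ ≫ i, d + p', d + q', a * a', b * b',
    SetLike.mul_mem_graded a.2 ha', SetLike.mul_mem_graded b.2 hb', by push_cast; omega,
    fun y => ?_⟩
  obtain ⟨h', hy'⟩ := w' ⟨y.1, y.2.2⟩
  have hy := congrArg HomogeneousLocalization.val (w ⟨y.1, y.2.1⟩)
  exact ⟨mul_mem (h ⟨y.1, y.2.1⟩) h', (congrArg₂ (· * ·) hy hy').trans (Localization.mk_mul ..)⟩

/-- Sections of `O(m)` over `U`, a module over the sections of the structure sheaf. -/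
def twSec (m : ℤ) (U : Opens (ProjectiveSpectrum.top 𝒜)) : Submodule (OSec 𝒜 U) (Fam 𝒜 U) where
  carrier := {s | (locFrac 𝒜 m).pred s}
  add_mem' := locFrac_add 𝒜 m U
  zero_mem' := locFrac_zero 𝒜 m U
  smul_mem' := locFrac_smul 𝒜 m U

/-- The same, as an abelian group. -/
noncomputable def twGrp (m : ℤ) (U : Opens (ProjectiveSpectrum.top 𝒜)) : Ab.{u} :=
  AddCommGrpCat.of (twSec 𝒜 m U)

/-- Restriction of sections of `O(m)`. -/
def twResFun (m : ℤ) {U V : Opens (ProjectiveSpectrum.top 𝒜)} (i : U ⟶ V) (s : twGrp 𝒜 m V) :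
    twGrp 𝒜 m U :=
  ⟨Fam.res 𝒜 i s.1, (locFrac 𝒜 m).res i s.1 s.2⟩

theorem twResFun_add (m : ℤ) {U V : Opens (ProjectiveSpectrum.top 𝒜)} (i : U ⟶ V)
    (s t : twGrp 𝒜 m V) : twResFun 𝒜 m i (s + t) = twResFun 𝒜 m i s + twResFun 𝒜 m i t := rfl

/-- The same, as a morphism of abelian groups. -/
noncomputable def twRes (m : ℤ) {U V : Opens (ProjectiveSpectrum.top 𝒜)} (i : U ⟶ V) :
    twGrp 𝒜 m V ⟶ twGrp 𝒜 m U :=
  AddCommGrpCat.ofHom (X := twGrp 𝒜 m V) (Y := twGrp 𝒜 m U)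
    (AddMonoidHom.mk' (twResFun 𝒜 m i) (twResFun_add 𝒜 m i))

/-- `O(m)` as a presheaf of abelian groups. -/
noncomputable def twAb (m : ℤ) : (Opens (ProjectiveSpectrum.top 𝒜))ᵒᵖ ⥤ Ab.{u} where
  obj U := twGrp 𝒜 m U.unop
  map i := twRes 𝒜 m i.unop
  map_id _ := rfl
  map_comp _ _ := rfl

/-- The structure presheaf of rings. -/
noncomputable abbrev ORing : (Opens (ProjectiveSpectrum.top 𝒜))ᵒᵖ ⥤ RingCat.{u} :=
  (Proj 𝒜).ringCatSheaf.obj

noncomputable instance twModule (m : ℤ) (U : (Opens (ProjectiveSpectrum.top 𝒜))ᵒᵖ) :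
    Module ((ORing 𝒜).obj U) ((twAb 𝒜 m).obj U) :=
  (twSec 𝒜 m U.unop).module

theorem twAb_smul (m : ℤ) ⦃U V : (Opens (ProjectiveSpectrum.top 𝒜))ᵒᵖ⦄ (i : U ⟶ V)
    (r : (ORing 𝒜).obj U) (s : (twAb 𝒜 m).obj U) :
    (twAb 𝒜 m).map i (r • s) = (ORing 𝒜).map i r • (twAb 𝒜 m).map i s := rfl

/-- `O(m)` as a presheaf of modules. -/
noncomputable def twPre (m : ℤ) : (Proj 𝒜).PresheafOfModules :=
  PresheafOfModules.ofPresheaf (R := ORing 𝒜) (twAb 𝒜 m) (twAb_smul 𝒜 m)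

theorem twPre_isSheaf (m : ℤ) :
    Presheaf.IsSheaf (Opens.grothendieckTopology (Proj 𝒜)) (twPre 𝒜 m).presheaf :=
  (TopCat.Presheaf.isSheaf_iff_isSheaf_comp (forget AddCommGrpCat) _).2
    (subsheafToTypes (locFrac 𝒜 m)).2

/-- Serre's twisting sheaf `O(m)` on `Proj A`. -/
noncomputable def twist (m : ℤ) : (Proj 𝒜).Modules := ⟨twPre 𝒜 m, twPre_isSheaf 𝒜 m⟩

end Twist

section Cubic

open MvPolynomial

variable {k : Type u} [Field k] {n : ℕ} (f : MvPolynomial (Fin n) k)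

/-- The homogeneous coordinate ring `k[x₁,…,xₙ]/(f)`. -/
abbrev CRing := MvPolynomial (Fin n) k ⧸ Ideal.span {f}

/-- Its grading. -/
noncomputable def grR (i : ℕ) : Submodule k (CRing f) :=
  (homogeneousSubmodule (Fin n) k i).map (Ideal.Quotient.mkₐ k (Ideal.span {f})).toLinearMap

theorem gradedMonoid_grR : SetLike.GradedMonoid (grR f) where
  one_mem := ⟨1, isHomogeneous_one _ _, map_one (Ideal.Quotient.mkₐ k _)⟩
  mul_mem := by
    rintro i j _ _ ⟨p, hp, rfl⟩ ⟨q, hq, rfl⟩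
    exact ⟨p * q, IsHomogeneous.mul hp hq, map_mul (Ideal.Quotient.mkₐ k _) p q⟩

variable [hf : Fact (f.IsHomogeneous 3)]

theorem isInternal_grR : DirectSum.IsInternal (grR f) := by
  classical
  let _ := MvPolynomial.gradedAlgebra (σ := Fin n) (R := k)
  have hI : (Ideal.span {f}).IsHomogeneous (homogeneousSubmodule (Fin n) k) :=
    Ideal.homogeneous_span _ _ (by rintro _ rfl; exact ⟨3, hf.out⟩)
  rw [DirectSum.isInternal_submodule_iff_iSupIndep_and_iSup_eq_top]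
  constructor
  · rw [iSupIndep_iff_finsetSum_eq_zero_imp_eq_zero]
    intro s v hv h i hi
    choose p hp e using hv
    have h1 : (∑ j ∈ s.attach, p j.1 j.2) ∈ Ideal.span {f} := by
      rw [← Ideal.Quotient.eq_zero_iff_mem, map_sum, ← h, ← Finset.sum_attach s v]
      exact Finset.sum_congr rfl fun j _ => e j.1 j.2
    have h2 := hI i h1
    rw [DirectSum.decompose_sum, DFinsupp.finsetSum_apply, AddSubmonoidClass.coe_finsetSum,
      Finset.sum_eq_single ⟨i, hi⟩ (fun j _ hj => DirectSum.decompose_of_mem_ne _ (hp j.1 j.2)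
        fun c => hj (Subtype.ext c)) (by simp), DirectSum.decompose_of_mem_same _ (hp i hi)] at h2
    exact (e i hi).symm.trans (Ideal.Quotient.eq_zero_iff_mem.2 h2)
  · unfold grR
    rw [← Submodule.map_iSup,
      (DirectSum.Decomposition.isInternal (homogeneousSubmodule (Fin n) k)).submodule_iSup_eq_top,
      Submodule.map_top, LinearMap.range_eq_top]
    exact Ideal.Quotient.mk_surjective

noncomputable instance gradedRing_grR : GradedRing (grR f) where
  toGradedMonoid := gradedMonoid_grR f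
  toDecomposition := (isInternal_grR f).chooseDecomposition

/-- The hypersurface `f = 0` in projective space. -/
noncomputable abbrev Hyp : Scheme.{u} := Proj (grR f)

end Cubic

end Pool.Agent.Lib.MP_0ba2dd_ag.N
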